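import Pool.Agent.R955.FD.Defs

/-!
(BRI) of project FD (helper955): the functions of the class `S_c` and their Fourier transforms.
-/

set_option autoImplicit false

namespace Pool.Agent.R718.FD

open MeasureTheory Set Filter Topology
open scoped ENNReal FourierTransform
open Pool.Agent.R955.FD

universe u

variable {X : Type u} [NormedAddCommGroup X] [NormedSpace ℂ X]

theorem finv (g : ℝ → X) (s : ℝ) : 𝓕⁻ g s = ∫ ξ, ch ξ s • g ξ := by
  rw [Real.fourierInv_eq']
  congr 1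
  ext ξ
  congr 1
  unfold ch
  congr 3
  simp
  ring

theorem four_eq (g : ℝ → X) (s : ℝ) : 𝓕 g s = ∫ ξ, ch (-ξ) s • g ξ := by
  rw [Real.fourier_eq']
  congr 1
  ext ξ
  congr 1
  unfold ch
  congr 3
  simp
  ring

theorem DR_eq (f : ℝ → X) (I : Set ℝ) (hI : MeasurableSet I) :
    DR I f = Pool.Agent.R955.FD.Ext (𝓕 f) I := by
  funext s
  unfold DR Pool.Agent.R955.FD.Ext
  rw [finv, ← integral_indicator hI]
  congr 1
  ext ξ
  by_cases h : ξ ∈ I
  · rw [Set.indicator_of_mem h, Set.indicator_of_mem h]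
  · rw [Set.indicator_of_notMem h, Set.indicator_of_notMem h, smul_zero]

theorem four_sum [CompleteSpace X] {m : ℕ} (φ : Fin m → SchwartzMap ℝ ℂ) (x : Fin m → X) (ξ : ℝ) :
    𝓕 (fun t => ∑ j, φ j t • x j) ξ = ∑ j, 𝓕 (fun t => φ j t) ξ • x j := by
  rw [four_eq]
  have h1 : ∀ j, 𝓕 (fun t => φ j t) ξ = ∫ t, ch (-t) ξ * φ j t := by
    intro j
    rw [four_eq]
    rfl
  have hint : ∀ j, Integrable (fun t => ch (-t) ξ * φ j t) := by
    intro j
    refine (φ j).integrable.bdd_mul (c := 1) ?_ ?_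
    · apply Continuous.aestronglyMeasurable
      unfold ch
      fun_prop
    · refine Filter.Eventually.of_forall fun t => ?_
      unfold ch
      rw [Complex.norm_exp_ofReal_mul_I]
  have h2 : ∀ j, 𝓕 (fun t => φ j t) ξ • x j = ∫ t, (ch (-t) ξ * φ j t) • x j := by
    intro j
    rw [h1, integral_smul_const]
  rw [Finset.sum_congr rfl fun j _ => h2 j, ← integral_finsetSum]
  · congr 1
    ext t
    rw [Finset.smul_sum]
    refine Finset.sum_congr rfl fun j _ => ?_
    rw [smul_smul]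
  · intro j _
    exact (hint j).smul_const _

theorem sch_bd (g : SchwartzMap ℝ ℂ) : ∃ L : ℝ, 0 < L ∧ (∀ ξ, ‖g ξ‖ ≤ L) ∧
    ∀ ξ η, ‖g ξ - g η‖ ≤ L * |ξ - η| := by
  obtain ⟨C, hC⟩ : ∃ C : ℝ, ∀ ξ, ‖g ξ‖ ≤ C := ⟨_, g.norm_le_seminorm ℝ⟩
  obtain ⟨D, hD⟩ : ∃ D : ℝ, ∀ ξ, ‖SchwartzMap.derivCLM ℝ ℂ g ξ‖ ≤ D :=
    ⟨_, (SchwartzMap.derivCLM ℝ ℂ g).norm_le_seminorm ℝ⟩
  have hC0 : 0 ≤ C := (norm_nonneg _).trans (hC 0)
  have hD0 : 0 ≤ D := (norm_nonneg _).trans (hD 0)
  refine ⟨C + D + 1, by linarith, fun ξ => (hC ξ).trans (by linarith), ?_⟩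
  intro ξ η
  have h := Convex.norm_image_sub_le_of_norm_deriv_le (f := fun t => g t) (s := Set.univ) (C := D)
    (fun t _ => (g.differentiable t)) (fun t _ => by
      have := hD t
      rwa [SchwartzMap.derivCLM_apply] at this) convex_univ (Set.mem_univ η) (Set.mem_univ ξ)
  refine h.trans ?_
  rw [Real.norm_eq_abs]
  have := abs_nonneg (ξ - η)
  nlinarith

theorem t_BRI : S_BRI.{u} := by
  intro X _ _ _ f hf
  obtain ⟨m, φ, x, hφ, rfl⟩ := hf
  -- the Fourier transforms as Schwartz functions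
  have hG : ∀ j, ∃ G : SchwartzMap ℝ ℂ, ∀ ξ, G ξ = 𝓕 (fun t => φ j t) ξ := by
    intro j
    refine ⟨𝓕 (φ j), fun ξ => ?_⟩
    rw [SchwartzMap.fourier_coe]
  choose G hGe using hG
  have hF : 𝓕 (fun t => ∑ j, φ j t • x j) = fun ξ => ∑ j, G j ξ • x j := by
    funext ξ
    rw [four_sum]
    refine Finset.sum_congr rfl fun j _ => ?_
    rw [hGe]
  choose Lj hL0 hL1 hL2 using fun j => sch_bd (G j)
  have hA : ∀ j, ∃ A : ℝ, 0 < A ∧ ∀ ξ, A ≤ |ξ| → G j ξ = 0 := by
    intro j
    obtain ⟨R, hR⟩ := (hφ j).isCompact.isBounded.subset_closedBall (0 : ℝ)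
    refine ⟨max R 0 + 1, by positivity, fun ξ hξ => ?_⟩
    rw [hGe]
    by_contra hne
    have h1 : ξ ∈ tsupport (𝓕 (fun t => φ j t)) := subset_tsupport _ hne
    have h2 := hR h1
    rw [Metric.mem_closedBall, dist_zero_right, Real.norm_eq_abs] at h2
    have := le_max_left R 0
    linarith
  choose Aj hA0 hA1 using hA
  refine ⟨(∑ j, Aj j) + 1, (∑ j, Lj j * ‖x j‖) + 1, ?_, ?_, ?_⟩
  · have hAs : 0 ≤ ∑ j, Aj j := Finset.sum_nonneg fun j _ => (hA0 j).le
    have hLs : 0 ≤ ∑ j, Lj j * ‖x j‖ := Finset.sum_nonneg fun j _ =>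
      mul_nonneg (hL0 j).le (norm_nonneg _)
    refine ⟨by linarith, by linarith, ?_, ?_, ?_⟩
    · intro ξ
      rw [hF]
      refine (norm_sum_le _ _).trans ?_
      have : ∑ j, ‖G j ξ • x j‖ ≤ ∑ j, Lj j * ‖x j‖ := Finset.sum_le_sum fun j _ => by
        rw [norm_smul]
        exact mul_le_mul_of_nonneg_right (hL1 j ξ) (norm_nonneg _)
      linarith
    · intro ξ η
      rw [hF]
      show ‖∑ j, G j ξ • x j - ∑ j, G j η • x j‖ ≤ _
      rw [← Finset.sum_sub_distrib]
      refine (norm_sum_le _ _).trans ?_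
      have h1 : ∑ j, ‖G j ξ • x j - G j η • x j‖ ≤ ∑ j, (Lj j * ‖x j‖) * |ξ - η| :=
        Finset.sum_le_sum fun j _ => by
          rw [← sub_smul, norm_smul]
          have := mul_le_mul_of_nonneg_right (hL2 j ξ η) (norm_nonneg (x j))
          linarith
      rw [← Finset.sum_mul] at h1
      have := abs_nonneg (ξ - η)
      nlinarith
    · intro ξ hξ
      rw [hF]
      refine Finset.sum_eq_zero fun j _ => ?_
      have h1 : Aj j ≤ ∑ j, Aj j := Finset.single_le_sum (fun i _ => (hA0 i).le) (Finset.mem_univ j)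
      rw [hA1 j ξ (by linarith), zero_smul]
  · have hcont : Continuous (fun t => ∑ j, φ j t • x j) :=
      continuous_finsetSum _ fun j _ => (φ j).continuous.smul continuous_const
    have hint : Integrable (fun t => ∑ j, φ j t • x j) :=
      integrable_finsetSum _ fun j _ => (φ j).integrable.smul_const _
    have hint' : Integrable (𝓕 (fun t => ∑ j, φ j t • x j)) := by
      rw [hF]
      exact integrable_finsetSum _ fun j _ => (G j).integrable.smul_const _
    have h := hcont.fourierInv_fourier_eq hint hint'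
    funext s
    have h2 := congrFun h s
    rw [← h2, finv]
    unfold Pool.Agent.R955.FD.Ext
    rw [setIntegral_univ]
  · intro I hI
    exact DR_eq _ I hI.measurableSet

end Pool.Agent.R718.FD
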