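import Mathlib

/-!
Helper for `MP_96ff56_al.OddDegree`: the kernel evaluation of the sum, over the permutations `ρ` of
`Fin 7`, of the product over `t` of the `4 × 4` determinants of the rows `ρ(c_k + t)`,
`c = (2, 4, 5, 6)`, of an explicit `7 × 4` integer matrix.
-/

set_option autoImplicit false

open Finset Equiv
namespace Pool.Agent.R718.FanoSum

def XN (a j : ℕ) : ℤ := Int.subNatNat ((2892443936971094 / 4 ^ (4 * a + j)) % 4) 1

def D4 (a b c e : ℕ) : ℤ :=
    (XN a 0 * XN b 1 - XN a 1 * XN b 0) * (XN c 2 * XN e 3 - XN c 3 * XN e 2)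
    - (XN a 0 * XN b 2 - XN a 2 * XN b 0) * (XN c 1 * XN e 3 - XN c 3 * XN e 1)
    + (XN a 0 * XN b 3 - XN a 3 * XN b 0) * (XN c 1 * XN e 2 - XN c 2 * XN e 1)
    + (XN a 1 * XN b 2 - XN a 2 * XN b 1) * (XN c 0 * XN e 3 - XN c 3 * XN e 0)
    - (XN a 1 * XN b 3 - XN a 3 * XN b 1) * (XN c 0 * XN e 2 - XN c 2 * XN e 0)
    + (XN a 2 * XN b 3 - XN a 3 * XN b 2) * (XN c 0 * XN e 1 - XN c 1 * XN e 0)

lemma det4 {R : Type} [CommRing R] (M : Matrix (Fin 4) (Fin 4) R) : M.det =
    (M 0 0 * M 1 1 - M 0 1 * M 1 0) * (M 2 2 * M 3 3 - M 2 3 * M 3 2)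
    - (M 0 0 * M 1 2 - M 0 2 * M 1 0) * (M 2 1 * M 3 3 - M 2 3 * M 3 1)
    + (M 0 0 * M 1 3 - M 0 3 * M 1 0) * (M 2 1 * M 3 2 - M 2 2 * M 3 1)
    + (M 0 1 * M 1 2 - M 0 2 * M 1 1) * (M 2 0 * M 3 3 - M 2 3 * M 3 0)
    - (M 0 1 * M 1 3 - M 0 3 * M 1 1) * (M 2 0 * M 3 2 - M 2 2 * M 3 0)
    + (M 0 2 * M 1 3 - M 0 3 * M 1 2) * (M 2 0 * M 3 1 - M 2 1 * M 3 0) := by
  rw [Matrix.det_succ_row_zero]
  simp [Matrix.det_fin_three, Fin.sum_univ_succ, Fin.succAbove, Matrix.submatrix_apply]
  ring

lemma det_XN (r : Fin 4 → ℕ) :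
    (Matrix.of fun k l : Fin 4 => ((XN (r k) l : ℤ) : ℂ)).det =
      ((D4 (r 0) (r 1) (r 2) (r 3) : ℤ) : ℂ) := by
  rw [det4]
  simp only [Matrix.of_apply, D4, Int.cast_add, Int.cast_sub, Int.cast_mul]
  rfl

def TAB : ℕ := 0x49249249249249249249249249249249249249249249249248f3d259659138e49659644e392492492555492492391d534b1e8e3b24d329249249238e3964af4924925723b259659546e4924924d6591472a8ec95c9249236e4726b2c9249248e38e595c9238e396d92c92492595c924924935964516923d2d92271c8e3b249249249249249249255548e38e4d659238e3935964924924924924924924924924924924924924923cf49249249249648eb5258e591d9549639259659249239257649248e391c92cb2b8e47244e3924924d23965964b249249637249249249659649248e4ae391c71b96c9249248e5b249138e49249348e596592c9249258dc924924924924923cf492492592bd1472a9657245169249555249249249239257748e58e4ae3d239649249249249249249249249249249249249248e4755923ae4924924924b6492b7248f591d934b1e5258e492491b924724924b6492a92c7238ec964765924925b2495b9247249248e3b24d329149639249244e4ae691cb2595c92492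492492496596391d5249248ec95c8e38e3d2d9238e3924925923ae492496592c91c71d964b2592bce495d92492492491b92476c9254e4ae492492492492492492492492492492492492495c8eb8e472d924b24924924925b2495c72392596592cb2b7248e49248dc92392492376592551b8e391cd6476492492cb2596b8e49249249249244e3934b1e95c8ec924925b64b2271c9359649249149638e391c92492396c92492491472ad2396492492d924b249246e491e91cb23b2576592c6e491c9249249248dc923b2c9649249249249249249249249249249249249248db91d8dc92d924b6c92592492492492c6e4926b2c92492292c71c72392492472d9249249249249259658e3b249659636e47249248e3b248e38e492496476592cb2d8dc92492496372496572392b8e49248dc923b6492c92492595c9238e391c71db2496492496c925924925ae3925b64ae5b246e491b7248e492492492472d92492492492492492492492492492492492492496572396c9238ec8dd964b1b9249249249249249249138e4d3292551b926b2c965724924924d659249245258e38e47249248e5b249249245169348e5924924d6476292c7238ec9249248f4b65964b1392b92492471c8e376592492492271c92492691cb2cb25924924b1b9249249238ec963724965725ae391cb64924924924924924924924924924924924924924924924924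

/-- `D4` as a table -/
def DT (a b c e : Fin 7) : ℤ :=
  Int.subNatNat ((TAB / 8 ^ (((a.val * 7 + b.val) * 7 + c.val) * 7 + e.val)) % 8) 4

lemma D4_eq : ∀ a b c e : Fin 7, D4 a.val b.val c.val e.val = DT a b c e := by
  decide +kernel

def mulz (x : ℤ) (y : Unit → ℤ) : ℤ := if x = 0 then 0 else x * y ()

lemma mulz_eq (x : ℤ) (y : Unit → ℤ) : mulz x y = x * y () := by
  unfold mulz
  split_ifs with h
  · rw [h, zero_mul]
  · rfl

def leaf (a b c e f g h : Fin 7) : ℤ :=
  mulz (DT a c e f) fun _ => mulz (DT b e f g) fun _ => mulz (DT c f g h) fun _ =>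
  mulz (DT e g h a) fun _ => mulz (DT f h a b) fun _ => mulz (DT g a b c) fun _ => DT h b c e

def leafL : List (Fin 7) → ℤ
  | [h, g, f, e, c, b, a] => leaf a b c e f g h
  | _ => 0

def mem7 (a : ℕ) (l : List (Fin 7)) : Bool :=
  List.rec false (fun x _ ih => bif Nat.beq x.val a then true else ih) l

lemma mem7_eq (a : Fin 7) (l : List (Fin 7)) : mem7 a.val l = decide (a ∈ l) := by
  induction l with
  | nil => rfl
  | cons x l ih =>
    have h1 : mem7 a.val (x :: l) = bif Nat.beq x.val a.val then true else mem7 a.val l := rfl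
    rw [h1, ih]
    by_cases h : a = x
    · subst h
      simp
    · have h2 : Nat.beq x.val a.val = false := by
        rw [← Bool.not_eq_true, Nat.beq_eq]
        exact fun h3 => h (Fin.ext h3.symm)
      rw [h2]
      simp [h]

def S7 (F : Fin 7 → ℤ) : ℤ := F ⟨0, by decide⟩ + F ⟨1, by decide⟩ + F ⟨2, by decide⟩ +
  F ⟨3, by decide⟩ + F ⟨4, by decide⟩ + F ⟨5, by decide⟩ + F ⟨6, by decide⟩

lemma S7_eq (F : Fin 7 → ℤ) : S7 F = ∑ a, F a := by
  rw [Fin.sum_univ_seven]
  rfl

def T (k : ℕ) : List (Fin 7) → ℤ :=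
  Nat.rec leafL (fun _ ih used => S7 fun a => bif mem7 a.val used then 0 else ih (a :: used)) k

lemma T_eq (k : ℕ) : ∀ (used : List (Fin 7)),
    T k used = ∑ f : Fin k → Fin 7, if (Function.Injective f ∧ ∀ i, f i ∉ used) then
      leafL ((List.ofFn f).reverse ++ used) else 0 := by
  induction k with
  | zero =>
    intro used
    rw [Fintype.sum_eq_single (Fin.elim0 : Fin 0 → Fin 7)]
    · rw [if_pos]
      · simp [T]
      · exact ⟨fun i => i.elim0, fun i => i.elim0⟩
    · intro f hf
      exact absurd (Subsingleton.elim f Fin.elim0) hf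
  | succ k ih =>
    intro used
    rw [← (Fin.consEquiv fun _ : Fin (k+1) => Fin 7).sum_comp, Fintype.sum_prod_type]
    have h1 : T (k+1) used = ∑ a : Fin 7,
        if a ∈ used then 0 else T k (a :: used) := by
      have h2 : T (k+1) used = S7 fun a => bif mem7 a.val used then 0 else T k (a :: used) := rfl
      rw [h2, S7_eq]
      refine Finset.sum_congr rfl fun a _ => ?_
      rw [mem7_eq, Bool.cond_decide]
    rw [h1]
    refine Finset.sum_congr rfl fun a _ => ?_
    by_cases ha : a ∈ used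
    · rw [if_pos ha]
      symm
      refine Finset.sum_eq_zero fun f _ => ?_
      rw [if_neg]
      rintro ⟨_, h⟩
      exact h 0 ha
    · rw [if_neg ha, ih]
      refine Finset.sum_congr rfl fun f _ => ?_
      have h2 : (Function.Injective f ∧ ∀ i, f i ∉ a :: used) ↔
          (Function.Injective ((Fin.consEquiv fun _ : Fin (k+1) => Fin 7) (a, f)) ∧
            ∀ i, (Fin.consEquiv fun _ : Fin (k+1) => Fin 7) (a, f) i ∉ used) := by
        show _ ↔ (Function.Injective (Fin.cons a f : Fin (k+1) → Fin 7) ∧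
          ∀ i, (Fin.cons a f : Fin (k+1) → Fin 7) i ∉ used)
        rw [Fin.cons_injective_iff, Fin.forall_fin_succ]
        simp only [Fin.cons_zero, Fin.cons_succ, List.mem_cons, not_or, Set.mem_range, not_exists]
        constructor
        · rintro ⟨h3, h4⟩
          exact ⟨⟨fun i => (h4 i).1, h3⟩, ha, fun i => (h4 i).2⟩
        · rintro ⟨⟨h3, h4⟩, _, h5⟩
          exact ⟨h4, fun i => ⟨h3 i, h5 i⟩⟩
      have h3 : (List.ofFn f).reverse ++ a :: used =
          (List.ofFn ((Fin.consEquiv fun _ : Fin (k+1) => Fin 7) (a, f))).reverse ++ used := by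
        show _ = (List.ofFn (Fin.cons a f : Fin (k+1) → Fin 7)).reverse ++ used
        rw [List.ofFn_succ]
        simp
      rw [if_congr h2 rfl rfl, h3]

def FF (f : Fin 7 → Fin 7) : ℤ := leaf (f 0) (f 1) (f 2) (f 3) (f 4) (f 5) (f 6)

lemma FF_eq (f : Fin 7 → Fin 7) : FF f =
    D4 (f 2).val (f 4).val (f 5).val (f 6).val * (D4 (f 3).val (f 5).val (f 6).val (f 0).val *
    (D4 (f 4).val (f 6).val (f 0).val (f 1).val * (D4 (f 5).val (f 0).val (f 1).val (f 2).val *
    (D4 (f 6).val (f 1).val (f 2).val (f 3).val * (D4 (f 0).val (f 2).val (f 3).val (f 4).val *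
    D4 (f 1).val (f 3).val (f 4).val (f 5).val))))) := by
  simp only [FF, leaf, mulz_eq, D4_eq]
  ring

lemma sum_perm : ∑ ρ : Perm (Fin 7), FF ρ = T 7 [] := by
  rw [T_eq]
  rw [← Finset.sum_filter]
  refine Finset.sum_bij' (fun ρ _ => ⇑ρ)
    (fun f hf => Equiv.ofBijective f (Finite.injective_iff_bijective.1 (Finset.mem_filter.1 hf).2.1))
    ?_ ?_ ?_ ?_ ?_
  · intro ρ _
    simp [ρ.injective]
  · intro f hf
    simp
  · intro ρ _
    ext; rfl
  · intro f hf
    rfl
  · intro ρ _
    simp [FF, leafL, List.ofFn_succ]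

lemma T_val : T 7 [] = -2016 := by
  decide +kernel

end Pool.Agent.R718.FanoSum
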