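import Mathlib

/-!
Helper for `MP_520f25_al`: a general construction of skew braces, and the regular subgroup
`C_5 : C_12` of the holomorph of the alternating group of degree five.
-/

set_option autoImplicit false

namespace Pool.Agent.R718.SB

open Equiv
open scoped commutatorElement

/-! ## The group `C_5 : C_12` -/

/-- The semidirect product of the group of order `5` with the group of order `12`, where a generator
of the second group acts as squaring on the first group. -/
@[ext] structure Q where
  /-- the first coordinate -/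
  i : ZMod 5
  /-- the second coordinate -/
  j : ZMod 12
deriving DecidableEq, Fintype

/-- The powers of two. -/
def pw (j : ZMod 12) : ZMod 5 := 2 ^ j.val

lemma pw_add : ∀ a b, pw (a + b) = pw a * pw b := by decide

lemma pw_zero : pw 0 = 1 := by decide

lemma pw_val (j : ZMod 12) : (pw j).val = 2 ^ j.val % 5 := by
  have h : pw j = ((2 ^ j.val : ℕ) : ZMod 5) := by
    unfold pw
    push_cast
    rfl
  rw [h, ZMod.val_natCast]

instance : Mul Q := ⟨fun a b => ⟨a.i + pw a.j * b.i, a.j + b.j⟩⟩

instance : One Q := ⟨⟨0, 0⟩⟩

instance : Inv Q := ⟨fun a => ⟨-(pw (-a.j) * a.i), -a.j⟩⟩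

lemma mul_i (a b : Q) : (a * b).i = a.i + pw a.j * b.i := rfl

lemma mul_j (a b : Q) : (a * b).j = a.j + b.j := rfl

instance : Group Q := Group.ofLeftAxioms
  (by
    intro a b c
    ext1
    · rw [mul_i, mul_i, mul_i, mul_i, mul_j, pw_add]
      ring
    · rw [mul_j, mul_j, mul_j, mul_j, add_assoc])
  (by
    intro a
    ext1
    · rw [mul_i]
      show 0 + pw 0 * a.i = a.i
      rw [pw_zero]
      ring
    · rw [mul_j]
      show 0 + a.j = a.j
      rw [zero_add])
  (by
    intro a
    ext1
    · rw [mul_i]
      show -(pw (-a.j) * a.i) + pw (-a.j) * a.i = 0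
      ring
    · rw [mul_j]
      show -a.j + a.j = 0
      ring)

section lift

variable {H : Type*} [Group H] (x y : H) (hx : x ^ 5 = 1) (hy : y ^ 12 = 1)
  (hxy : y * x = x ^ 2 * y)

include hxy in
lemma comm_pow (n m : ℕ) : y ^ n * x ^ m = x ^ (2 ^ n * m) * y ^ n := by
  have h1 : ∀ m : ℕ, y * x ^ m = x ^ (2 * m) * y := by
    intro m
    induction m with
    | zero => simp
    | succ m ih =>
      rw [pow_succ, ← mul_assoc, ih, mul_assoc, hxy, ← mul_assoc, ← pow_add]
      ring_nf
  induction n generalizing m with
  | zero => simp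
  | succ n ih =>
    rw [pow_succ, mul_assoc, h1, ← mul_assoc, ih, mul_assoc, ← mul_assoc (2 ^ n) 2 m, ← pow_succ,
      ← pow_succ]

/-- The homomorphism from `Q` given by the images of two generators. -/
def lift : Q →* H := MonoidHom.mk' (fun q => x ^ q.i.val * y ^ q.j.val) (by
  intro a b
  show x ^ (a * b).i.val * y ^ (a * b).j.val = x ^ a.i.val * y ^ a.j.val * (x ^ b.i.val * y ^ b.j.val)
  have h1 : x ^ (a * b).i.val = x ^ a.i.val * x ^ (2 ^ a.j.val * b.i.val) := by
    rw [mul_i, ZMod.val_add, ← pow_eq_pow_mod _ hx, pow_add, ZMod.val_mul, ← pow_eq_pow_mod _ hx,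
      pw_val, pow_mul, ← pow_eq_pow_mod _ hx, ← pow_mul]
  have h2 : y ^ (a * b).j.val = y ^ a.j.val * y ^ b.j.val := by
    rw [mul_j, ZMod.val_add, ← pow_eq_pow_mod _ hy, pow_add]
  rw [h1, h2, mul_assoc, mul_assoc, ← mul_assoc (y ^ a.j.val), comm_pow x y hxy]
  simp only [mul_assoc])

lemma lift_apply (q : Q) : lift x y hx hy hxy q = x ^ q.i.val * y ^ q.j.val := rfl

end lift

/-! ## The regular action on the alternating group -/

/-- The permutation `k ↦ k + 1` of the five points. -/
def px : Perm (Fin 5) := ⟨fun k => k + 1, fun k => k - 1, by decide, by decide⟩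

/-- The permutation `k ↦ 2 k` of the five points. -/
def py : Perm (Fin 5) := ⟨fun k => 2 * k, fun k => 3 * k, by decide, by decide⟩

/-- A permutation of order six of the five points. -/
def pz : Perm (Fin 5) := ⟨![1, 0, 3, 4, 2], ![1, 0, 4, 2, 3], by decide, by decide⟩

lemma px5 : px ^ 5 = 1 := by decide

lemma py12 : py ^ 12 = 1 := by decide

lemma pxy : py * px = px ^ 2 * py := by decide

lemma pz12 : pz ^ 12 = 1 := by decide

/-- The first homomorphism to the symmetric group of degree five; its image is the group of the
affine maps. -/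
def H1 : Q →* Perm (Fin 5) := lift px py px5 py12 pxy

/-- The second homomorphism to the symmetric group of degree five; its image is cyclic of order
six. -/
def H2 : Q →* Perm (Fin 5) := lift 1 pz (by simp) pz12 (by simp)

lemma sx : Perm.sign px = 1 := by decide

lemma sy : Perm.sign py = -1 := by decide

lemma sz : Perm.sign pz = -1 := by decide

lemma inj0 : ∀ q : Q, H1 q = H2 q → q = 1 := by decide

lemma sign_H (q : Q) : Perm.sign (H1 q) = Perm.sign (H2 q) := by
  unfold H1 H2
  rw [lift_apply, lift_apply, map_mul, map_mul, map_pow, map_pow, map_pow, map_pow, sx, sy, sz,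
    map_one]

lemma mem_alt (q : Q) : H1 q * (H2 q)⁻¹ ∈ alternatingGroup (Fin 5) := by
  rw [Perm.mem_alternatingGroup, map_mul, Perm.sign_inv, sign_H]
  exact Int.units_mul_self _

/-- The map from `Q` to the alternating group. -/
def γ0 (q : Q) : alternatingGroup (Fin 5) := ⟨H1 q * (H2 q)⁻¹, mem_alt q⟩

lemma γ0_injective : Function.Injective γ0 := by
  intro q r h
  have h1 : H1 q * (H2 q)⁻¹ = H1 r * (H2 r)⁻¹ := congrArg Subtype.val h
  have h2 : H1 (r⁻¹ * q) = H2 (r⁻¹ * q) := by
    rw [map_mul, map_mul, map_inv, map_inv, inv_mul_eq_iff_eq_mul, ← mul_assoc, ← h1]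
    group
  have h3 := inj0 _ h2
  exact (inv_mul_eq_one.1 h3).symm

lemma γ0_bijective : Function.Bijective γ0 := by
  rw [Fintype.bijective_iff_injective_and_card]
  refine ⟨γ0_injective, ?_⟩
  rw [card_alternatingGroup]
  decide

/-- The bijection from `Q` to the alternating group. -/
noncomputable def γ : Q ≃ alternatingGroup (Fin 5) := Equiv.ofBijective γ0 γ0_bijective

/-- The action of `Q` on the alternating group: conjugation via the second homomorphism. -/
def lam : Q →* MulAut (alternatingGroup (Fin 5)) :=
  (MulAut.conjNormal (H := alternatingGroup (Fin 5))).comp H2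

lemma γ_mul (q r : Q) : γ (q * r) = γ q * lam q (γ r) := by
  refine Subtype.ext ?_
  show H1 (q * r) * (H2 (q * r))⁻¹ = (H1 q * (H2 q)⁻¹) * (H2 q * (H1 r * (H2 r)⁻¹) * (H2 q)⁻¹)
  rw [map_mul, map_mul]
  group

/-! ## The general construction -/

section construct

variable {S T K : Type} [Group S] [Group T] [Group K]

/-- The alternating group and nonabelian simple groups are perfect. -/
lemma perfect_of_simple [IsSimpleGroup S] (h : ∃ a b : S, a * b ≠ b * a) : commutator S = ⊤ := by
  rcases (inferInstance : (commutator S).Normal).eq_bot_or_eq_top with h1 | h1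
  · exfalso
    obtain ⟨a, b, hab⟩ := h
    apply hab
    have h2 : ⁅a, b⁆ ∈ commutator S :=
      Subgroup.commutator_mem_commutator (Subgroup.mem_top a) (Subgroup.mem_top b)
    rw [h1, Subgroup.mem_bot, commutatorElement_eq_one_iff_mul_comm] at h2
    exact h2
  · exact h1

lemma center_of_simple [IsSimpleGroup S] (h : ∃ a b : S, a * b ≠ b * a) :
    Subgroup.center S = ⊥ := by
  rcases (inferInstance : (Subgroup.center S).Normal).eq_bot_or_eq_top with h1 | h1
  · exact h1
  · exfalso
    obtain ⟨a, b, hab⟩ := h
    apply hab
    have h2 : b ∈ Subgroup.center S := by rw [h1]; exact Subgroup.mem_top b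
    exact Subgroup.mem_center_iff.1 h2 a

/-- The bijection with the direct product. -/
def eqv (θ : K →* MulAut S) (γ : K ≃ T) : (S ⋊[θ] K) ≃ Additive (S × T) :=
  (SemidirectProduct.equivProd.trans ((Equiv.refl S).prodCongr γ)).trans Additive.ofMul

lemma eqv_apply (θ : K →* MulAut S) (γ : K ≃ T) (x : S ⋊[θ] K) :
    eqv θ γ x = Additive.ofMul (x.left, γ x.right) := rfl

/-- The general construction of skew braces: a semidirect product of a nonabelian simple group `S`
with a group `K` of outer automorphisms which acts regularly on a perfect group `T`. -/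
theorem construct [Finite S] [Finite K] (θ : K →* MulAut S) (lam : K →* MulAut T) (γ : K ≃ T)
    (hγ : ∀ q r, γ (q * r) = γ q * lam q (γ r)) (hS : IsSimpleGroup S)
    (hSn : ∃ a b : S, a * b ≠ b * a) (hT : commutator T = ⊤)
    (hout : ∀ (q : K) (s : S), θ q = MulAut.conj s → q = 1) (hK : commutator K ≠ ⊤) :
    ∃ (B : Type) (_ : Finite B) (_ : AddGroup B) (_ : Group B),
      (∀ a b c : B, a * (b + c) = a * b - a + a * c) ∧
      AddSubgroup.closure {x : B | ∃ a b : B, x = a + b - a - b} = ⊤ ∧
      (∃ N : Subgroup B, N.Normal ∧ IsSimpleGroup N ∧ (∃ a ∈ N, ∃ b ∈ N, a * b ≠ b * a) ∧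
        Subgroup.centralizer (N : Set B) = ⊥) ∧
      commutator B ≠ ⊤ := by
  let A : AddGroup (S ⋊[θ] K) := (eqv θ γ).addGroup
  have hadd : ∀ x y : S ⋊[θ] K, eqv θ γ (x + y) = eqv θ γ x + eqv θ γ y :=
    fun x y => (eqv θ γ).apply_symm_apply _
  have hsub : ∀ x y : S ⋊[θ] K, eqv θ γ (x - y) = eqv θ γ x - eqv θ γ y :=
    fun x y => (eqv θ γ).apply_symm_apply _
  have hfin : Finite (S ⋊[θ] K) := Finite.of_equiv _ SemidirectProduct.equivProd.symm
  refine ⟨S ⋊[θ] K, hfin, A, inferInstance, ?_, ?_, ?_, ?_⟩
  · intro a b c
    apply (eqv θ γ).injective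
    have key : ∀ d : S ⋊[θ] K, eqv θ γ (a * d) = eqv θ γ a +
        Additive.ofMul (θ a.right d.left, lam a.right (γ d.right)) := by
      intro d
      rw [eqv_apply, eqv_apply, SemidirectProduct.mul_left, SemidirectProduct.mul_right, hγ]
      rfl
    have key2 : (Additive.ofMul (θ a.right (b + c).left, lam a.right (γ (b + c).right)) :
        Additive (S × T)) = Additive.ofMul (θ a.right b.left, lam a.right (γ b.right)) +
        Additive.ofMul (θ a.right c.left, lam a.right (γ c.right)) := by
      have h := hadd b c
      rw [eqv_apply, eqv_apply, eqv_apply] at h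
      have h1 : (b + c).left = b.left * c.left := congrArg Prod.fst h
      have h2 : γ (b + c).right = γ b.right * γ c.right := congrArg Prod.snd h
      rw [h1, h2, map_mul, map_mul]
      rfl
    rw [hadd, hsub, key, key, key, key2]
    simp only [sub_eq_add_neg, add_assoc, neg_add_cancel_left]
  · -- the additive group is perfect
    have hneg : ∀ x : S ⋊[θ] K, eqv θ γ (-x) = -eqv θ γ x :=
      fun x => (eqv θ γ).apply_symm_apply _
    have hzero : eqv θ γ (0 : S ⋊[θ] K) = 0 := (eqv θ γ).apply_symm_apply _
    set P : AddSubgroup (S ⋊[θ] K) :=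
      AddSubgroup.closure {x : S ⋊[θ] K | ∃ a b : S ⋊[θ] K, x = a + b - a - b} with hP
    let P' : Subgroup (S × T) :=
      { carrier := {p | (eqv θ γ).symm (Additive.ofMul p) ∈ P}
        one_mem' := by
          show (eqv θ γ).symm (Additive.ofMul 1) ∈ P
          have h : (eqv θ γ).symm (Additive.ofMul (1 : S × T)) = 0 := by
            rw [Equiv.symm_apply_eq, hzero]
            rfl
          rw [h]
          exact P.zero_mem
        mul_mem' := by
          intro p q hp hq
          show (eqv θ γ).symm (Additive.ofMul (p * q)) ∈ P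
          have h : (eqv θ γ).symm (Additive.ofMul (p * q)) =
              (eqv θ γ).symm (Additive.ofMul p) + (eqv θ γ).symm (Additive.ofMul q) := by
            rw [Equiv.symm_apply_eq, hadd, Equiv.apply_symm_apply, Equiv.apply_symm_apply]
            rfl
          rw [h]
          exact P.add_mem hp hq
        inv_mem' := by
          intro p hp
          show (eqv θ γ).symm (Additive.ofMul p⁻¹) ∈ P
          have h : (eqv θ γ).symm (Additive.ofMul p⁻¹) =
              -(eqv θ γ).symm (Additive.ofMul p) := by
            rw [Equiv.symm_apply_eq, hneg, Equiv.apply_symm_apply]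
            rfl
          rw [h]
          exact P.neg_mem hp }
    have h1 : commutator (S × T) ≤ P' := by
      rw [commutator_def, Subgroup.commutator_le]
      intro p _ q _
      show (eqv θ γ).symm (Additive.ofMul ⁅p, q⁆) ∈ P
      refine AddSubgroup.subset_closure ⟨(eqv θ γ).symm (Additive.ofMul p),
        (eqv θ γ).symm (Additive.ofMul q), ?_⟩
      rw [Equiv.symm_apply_eq, hsub, hsub, hadd, Equiv.apply_symm_apply, Equiv.apply_symm_apply]
      rw [commutatorElement_def]
      simp only [sub_eq_add_neg]
      rfl
    have h2 : commutator (S × T) = ⊤ := by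
      have h3 : commutator S = ⊤ := perfect_of_simple hSn
      rw [commutator_def] at h3 hT ⊢
      rw [← Subgroup.top_prod_top, Subgroup.commutator_prod_prod, h3, hT]
    rw [eq_top_iff]
    intro x _
    have h4 : (eqv θ γ x).toMul ∈ P' := h1 (by rw [h2]; exact Subgroup.mem_top _)
    change (eqv θ γ).symm (Additive.ofMul (eqv θ γ x).toMul) ∈ P at h4
    rwa [ofMul_toMul, Equiv.symm_apply_apply] at h4
  · -- the multiplicative group is almost simple
    have hinl : ∀ s : S, (SemidirectProduct.inl s : S ⋊[θ] K) ∈
        (SemidirectProduct.inl : S →* S ⋊[θ] K).range := fun s => ⟨s, rfl⟩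
    refine ⟨(SemidirectProduct.inl : S →* S ⋊[θ] K).range, ?_, ?_, ?_, ?_⟩
    · rw [SemidirectProduct.range_inl_eq_ker_rightHom]
      exact MonoidHom.normal_ker _
    · have h1 : Function.Surjective
          ((SemidirectProduct.inl : S →* S ⋊[θ] K).rangeRestrict) :=
        MonoidHom.rangeRestrict_surjective _
      have : Nontrivial ((SemidirectProduct.inl : S →* S ⋊[θ] K).range) := by
        have h2 : Function.Injective
            ((SemidirectProduct.inl : S →* S ⋊[θ] K).rangeRestrict) := by
          intro a b hab
          exact SemidirectProduct.inl_injective (congrArg Subtype.val hab)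
        exact h2.nontrivial
      exact IsSimpleGroup.isSimpleGroup_of_surjective _ h1
    · obtain ⟨a, b, hab⟩ := hSn
      refine ⟨_, hinl a, _, hinl b, fun h => hab ?_⟩
      rw [← map_mul, ← map_mul] at h
      exact SemidirectProduct.inl_injective h
    · rw [eq_bot_iff]
      intro x hx
      rw [Subgroup.mem_centralizer_iff] at hx
      have h1 : ∀ s : S, s * x.left = x.left * θ x.right s := by
        intro s
        have h2 := congrArg SemidirectProduct.left (hx _ (hinl s))
        rw [SemidirectProduct.mul_left, SemidirectProduct.mul_left, SemidirectProduct.left_inl,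
          SemidirectProduct.right_inl, map_one] at h2
        exact h2
      have h3 : x.right = 1 := by
        refine hout x.right x.left⁻¹ ?_
        ext s
        rw [MulAut.conj_apply, inv_inv, mul_assoc, h1, inv_mul_cancel_left]
      have h4 : x.left = 1 := by
        have h5 : x.left ∈ Subgroup.center S := by
          rw [Subgroup.mem_center_iff]
          intro s
          have h6 := h1 s
          rw [h3, map_one] at h6
          exact h6
        rw [center_of_simple hSn] at h5
        exact h5
      rw [Subgroup.mem_bot]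
      exact SemidirectProduct.ext h4 h3
  · -- it is not perfect
    intro h
    apply hK
    have h1 := congrArg (Subgroup.map (SemidirectProduct.rightHom : S ⋊[θ] K →* K)) h
    rw [commutator_def, Subgroup.map_commutator,
      Subgroup.map_top_of_surjective _ SemidirectProduct.rightHom_surjective] at h1
    rw [commutator_def]
    exact h1

end construct

end Pool.Agent.R718.SB
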