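import Mathlib
import Pool.Agent.R718.SB1
import Pool.Agent.H463R3.PSLn

/-!
Helper for `MP_520f25_al`: a group of outer automorphisms of `PSL_5` of the field with `2^12`
elements which is isomorphic to `C_5 : C_12`.
-/

set_option autoImplicit false

namespace Pool.Agent.R718.SB

open Equiv Matrix
open scoped commutatorElement

section

variable {F : Type} [Field F] [Finite F] [CharP F 2] (c : Fˣ)

/-- The special linear group of degree five. -/
abbrev SL5 (F : Type) [Field F] : Type := SpecialLinearGroup (ZMod 5) F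

/-- The automorphism of the matrix algebra given by a monomial matrix and a power of the Frobenius
automorphism. -/
noncomputable def am (e : ZMod 5 → ℕ) (ρ : Perm (ZMod 5)) (r : ℕ) (X : Matrix (ZMod 5) (ZMod 5) F) :
    Matrix (ZMod 5) (ZMod 5) F :=
  Matrix.of fun k l => (c : F) ^ e k * ((c : F) ^ e l)⁻¹ * iterateFrobenius F 2 r (X (ρ k) (ρ l))

lemma am_apply (e : ZMod 5 → ℕ) (ρ : Perm (ZMod 5)) (r : ℕ) (X : Matrix (ZMod 5) (ZMod 5) F)
    (k l : ZMod 5) : am c e ρ r X k l =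
      (c : F) ^ e k * ((c : F) ^ e l)⁻¹ * iterateFrobenius F 2 r (X (ρ k) (ρ l)) := rfl

lemma c_ne (n : ℕ) : (c : F) ^ n ≠ 0 := pow_ne_zero _ c.ne_zero

lemma am_eq (e : ZMod 5 → ℕ) (ρ : Perm (ZMod 5)) (r : ℕ) (X : Matrix (ZMod 5) (ZMod 5) F) :
    am c e ρ r X = diagonal (fun k => (c : F) ^ e k) *
      ((iterateFrobenius F 2 r).mapMatrix X).submatrix ρ ρ *
      diagonal (fun k => ((c : F) ^ e k)⁻¹) := by
  ext k l
  rw [am_apply, mul_diagonal, diagonal_mul, submatrix_apply, RingHom.mapMatrix_apply, map_apply]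
  ring

lemma am_det (e : ZMod 5 → ℕ) (ρ : Perm (ZMod 5)) (r : ℕ) (X : Matrix (ZMod 5) (ZMod 5) F) :
    (am c e ρ r X).det = iterateFrobenius F 2 r X.det := by
  rw [am_eq, det_mul, det_mul, det_diagonal, det_diagonal, det_submatrix_equiv_self,
    ← RingHom.map_det, mul_comm (∏ i, (c : F) ^ e i), mul_assoc, ← Finset.prod_mul_distrib]
  have h : ∀ i : ZMod 5, (c : F) ^ e i * ((c : F) ^ e i)⁻¹ = 1 := fun i =>
    mul_inv_cancel₀ (c_ne c _)
  simp [h]

lemma am_one (e : ZMod 5 → ℕ) (ρ : Perm (ZMod 5)) (r : ℕ) :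
    am c e ρ r (1 : Matrix (ZMod 5) (ZMod 5) F) = 1 := by
  ext k l
  rw [am_apply, one_apply, one_apply]
  by_cases h : k = l
  · subst h
    rw [if_pos rfl, if_pos rfl, map_one, mul_one, mul_inv_cancel₀ (c_ne c _)]
  · rw [if_neg h, if_neg (fun h' => h (ρ.injective h')), map_zero, mul_zero]

lemma am_mul (e : ZMod 5 → ℕ) (ρ : Perm (ZMod 5)) (r : ℕ) (X Y : Matrix (ZMod 5) (ZMod 5) F) :
    am c e ρ r (X * Y) = am c e ρ r X * am c e ρ r Y := by
  ext k l
  rw [am_apply, mul_apply, mul_apply, map_sum, Finset.mul_sum, ← Equiv.sum_comp ρ]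
  refine Finset.sum_congr rfl fun m _ => ?_
  rw [am_apply, am_apply, map_mul]
  have h := mul_inv_cancel₀ (c_ne c (e m))
  calc (c : F) ^ e k * ((c : F) ^ e l)⁻¹ *
      (iterateFrobenius F 2 r (X (ρ k) (ρ m)) * iterateFrobenius F 2 r (Y (ρ m) (ρ l)))
      = (c : F) ^ e k * ((c : F) ^ e l)⁻¹ * ((c : F) ^ e m * ((c : F) ^ e m)⁻¹) *
      (iterateFrobenius F 2 r (X (ρ k) (ρ m)) * iterateFrobenius F 2 r (Y (ρ m) (ρ l))) := by
        rw [h, mul_one]
    _ = _ := by ring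

lemma am_comp (e e' : ZMod 5 → ℕ) (ρ ρ' : Perm (ZMod 5)) (r r' : ℕ)
    (X : Matrix (ZMod 5) (ZMod 5) F) :
    am c e ρ r (am c e' ρ' r' X) =
      am c (fun k => e k + 2 ^ r * e' (ρ k)) (ρ.trans ρ') (r + r') X := by
  ext k l
  rw [am_apply, am_apply, am_apply, map_mul, map_mul, map_inv₀, map_pow, map_pow]
  have h : iterateFrobenius F 2 (r + r') (X (ρ' (ρ k)) (ρ' (ρ l))) =
      iterateFrobenius F 2 r (iterateFrobenius F 2 r' (X (ρ' (ρ k)) (ρ' (ρ l)))) := by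
    rw [iterateFrobenius_def, iterateFrobenius_def, iterateFrobenius_def, ← pow_mul, ← pow_add,
      add_comm]
  rw [Equiv.trans_apply, Equiv.trans_apply, h, iterateFrobenius_def 2 r (c : F), pow_add, pow_add,
    pow_mul, pow_mul, mul_inv]
  ring

/-- The automorphism on the special linear group. -/
noncomputable def as (e : ZMod 5 → ℕ) (ρ : Perm (ZMod 5)) (r : ℕ) : SL5 F →* SL5 F where
  toFun X := ⟨am c e ρ r X.1, by rw [am_det, X.2, map_one]⟩
  map_one' := Subtype.ext (am_one c e ρ r)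
  map_mul' X Y := Subtype.ext (am_mul c e ρ r X.1 Y.1)

lemma as_coe (e : ZMod 5 → ℕ) (ρ : Perm (ZMod 5)) (r : ℕ) (X : SL5 F) :
    (as c e ρ r X).1 = am c e ρ r X.1 := rfl

lemma as_comp (e e' : ZMod 5 → ℕ) (ρ ρ' : Perm (ZMod 5)) (r r' : ℕ) (X : SL5 F) :
    as c e ρ r (as c e' ρ' r' X) =
      as c (fun k => e k + 2 ^ r * e' (ρ k)) (ρ.trans ρ') (r + r') X :=
  Subtype.ext (am_comp c e e' ρ ρ' r r' X.1)

lemma as_injective (e : ZMod 5 → ℕ) (ρ : Perm (ZMod 5)) (r : ℕ) :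
    Function.Injective (as c e ρ r : SL5 F →* SL5 F) := by
  intro X Y h
  refine Subtype.ext ?_
  ext k l
  have h1 : am c e ρ r X.1 (ρ.symm k) (ρ.symm l) = am c e ρ r Y.1 (ρ.symm k) (ρ.symm l) :=
    congrFun (congrFun (congrArg Subtype.val h) _) _
  rw [am_apply, am_apply, Equiv.apply_symm_apply, Equiv.apply_symm_apply] at h1
  have h2 := mul_left_cancel₀ (mul_ne_zero (c_ne c _) (inv_ne_zero (c_ne c _))) h1
  exact (iterateFrobenius F 2 r).injective h2

/-- The automorphism on the special linear group. -/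
noncomputable def ae (e : ZMod 5 → ℕ) (ρ : Perm (ZMod 5)) (r : ℕ) : MulAut (SL5 F) :=
  MulEquiv.ofBijective (as c e ρ r)
    ⟨as_injective c e ρ r, Finite.injective_iff_surjective.1 (as_injective c e ρ r)⟩

lemma ae_apply (e : ZMod 5 → ℕ) (ρ : Perm (ZMod 5)) (r : ℕ) (X : SL5 F) :
    ae c e ρ r X = as c e ρ r X := rfl

lemma ae_mul (e e' : ZMod 5 → ℕ) (ρ ρ' : Perm (ZMod 5)) (r r' : ℕ) :
    ae c e ρ r * ae c e' ρ' r' =
      ae c (fun k => e k + 2 ^ r * e' (ρ k)) (ρ.trans ρ') (r + r') := by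
  ext1 X
  exact as_comp c e e' ρ ρ' r r' X

variable (hc : orderOf c = 4095)
include hc

lemma ae_congr {e e' : ZMod 5 → ℕ} {ρ ρ' : Perm (ZMod 5)} {r : ℕ} (z : ℕ)
    (he : ∀ k, e k ≡ z + e' k [MOD 4095]) (hρ : ∀ k, ρ k = ρ' k) :
    ae c e ρ r = ae c e' ρ' r := by
  have h1 : ∀ k, (c : F) ^ e k = (c : F) ^ z * (c : F) ^ e' k := by
    intro k
    have h2 : c ^ e k = c ^ (z + e' k) := pow_eq_pow_iff_modEq.2 (by rw [hc]; exact he k)
    rw [pow_add] at h2
    have h3 := congrArg Units.val h2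
    push_cast at h3
    exact h3
  ext1 X
  refine Subtype.ext ?_
  ext k l
  rw [ae_apply, ae_apply, as_coe, as_coe, am_apply, am_apply, h1, h1, hρ, hρ, mul_inv]
  have h := mul_inv_cancel₀ (c_ne c z)
  calc (c : F) ^ z * (c : F) ^ e' k * (((c : F) ^ z)⁻¹ * ((c : F) ^ e' l)⁻¹) *
      iterateFrobenius F 2 r (X.1 (ρ' k) (ρ' l))
      = ((c : F) ^ z * ((c : F) ^ z)⁻¹) * ((c : F) ^ e' k * ((c : F) ^ e' l)⁻¹) *
      iterateFrobenius F 2 r (X.1 (ρ' k) (ρ' l)) := by ring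
    _ = _ := by rw [h, one_mul]

end

end Pool.Agent.R718.SB
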