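import Mathlib
import Pool.Agent.R718.SB1
import Pool.Agent.R718.SB2
import Pool.Agent.H463R3.PSLn

/-!
Helper for `MP_520f25_al`: the outer action of `C_5 : C_12` on `PSL_5` of the field with `2^12`
elements.
-/

set_option autoImplicit false

namespace Pool.Agent.R718.SB

open Equiv Matrix
open scoped commutatorElement

/-! ## General facts -/

section gen

variable {G : Type} [Group G]

/-- The action of the automorphisms on the quotient by the centre. -/
def piAut : MulAut G →* MulAut (G ⧸ Subgroup.center G) where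
  toFun f := QuotientGroup.congr _ _ f
    (Subgroup.characteristic_iff_map_eq.1 (inferInstance : (Subgroup.center G).Characteristic) f)
  map_one' := by
    ext1 x
    obtain ⟨g, rfl⟩ := QuotientGroup.mk_surjective x
    rfl
  map_mul' f g := by
    ext1 x
    obtain ⟨g, rfl⟩ := QuotientGroup.mk_surjective x
    rfl

lemma piAut_mk (f : MulAut G) (g : G) :
    piAut f (g : G ⧸ Subgroup.center G) = (f g : G ⧸ Subgroup.center G) := rfl

lemma eq_of_perfect (hG : commutator G = ⊤) (f g : G →* G)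
    (h : ∀ x : G, ((f x : G) : G ⧸ Subgroup.center G) = (g x : G ⧸ Subgroup.center G)) :
    f = g := by
  have h1 : commutator G ≤ f.eqLocus g := by
    rw [commutator_def, Subgroup.commutator_le]
    intro x _ y _
    show f ⁅x, y⁆ = g ⁅x, y⁆
    have h2 : ∀ x, ∃ z ∈ Subgroup.center G, f x = g x * z := by
      intro x
      refine ⟨(g x)⁻¹ * f x, ?_, by group⟩
      exact QuotientGroup.eq.1 (h x).symm
    obtain ⟨z, hz, hxz⟩ := h2 x
    obtain ⟨w, hw, hyw⟩ := h2 y
    rw [map_commutatorElement, map_commutatorElement, hxz, hyw, commutatorElement_def,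
      commutatorElement_def, _root_.mul_inv_rev, _root_.mul_inv_rev]
    have hz' : ∀ u : G, z * u = u * z := fun u => (Subgroup.mem_center_iff.1 hz u).symm
    have hw' : ∀ u : G, w * u = u * w := fun u => (Subgroup.mem_center_iff.1 hw u).symm
    calc g x * z * (g y * w) * (z⁻¹ * (g x)⁻¹) * (w⁻¹ * (g y)⁻¹)
        = g x * (z * (g y * w)) * (z⁻¹ * (g x)⁻¹) * (w⁻¹ * (g y)⁻¹) := by group
      _ = g x * (g y * w * z) * (z⁻¹ * (g x)⁻¹) * (w⁻¹ * (g y)⁻¹) := by rw [hz']
      _ = g x * g y * (w * (g x)⁻¹) * (w⁻¹ * (g y)⁻¹) := by group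
      _ = g x * g y * ((g x)⁻¹ * w) * (w⁻¹ * (g y)⁻¹) := by rw [hw']
      _ = _ := by group
  have h3 : f.eqLocus g = ⊤ := by rwa [hG, top_le_iff] at h1
  ext x
  have : x ∈ f.eqLocus g := by rw [h3]; exact Subgroup.mem_top x
  exact this

end gen

lemma commQ : commutator Q ≠ ⊤ := by
  intro h
  let f : Q →* Multiplicative (ZMod 12) := MonoidHom.mk' (fun q => Multiplicative.ofAdd q.j)
    (fun a b => rfl)
  have h1 : commutator Q ≤ f.ker := Abelianization.commutator_subset_ker f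
  have h2 : (⟨0, 1⟩ : Q) ∈ f.ker := h1 (by rw [h]; exact Subgroup.mem_top _)
  rw [MonoidHom.mem_ker] at h2
  have h3 : (1 : ZMod 12) = 0 := h2
  revert h3
  decide

section act

variable {F : Type} [Field F] [Finite F] [CharP F 2] (c : Fˣ)

/-- The permutation `k ↦ k - 1`. -/
def rx : Perm (ZMod 5) := ⟨fun k => k - 1, fun k => k + 1, by decide, by decide⟩

/-- The permutation `k ↦ 3 k`. -/
def ry : Perm (ZMod 5) := ⟨fun k => 3 * k, fun k => 2 * k, by decide, by decide⟩

/-- Exponents of the first monomial matrix. -/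
def dd : ZMod 5 → ℕ := fun k => if k = 0 then 1 else 0

/-- Exponents of the second monomial matrix. -/
def EE : ZMod 5 → ℕ := ![0, 1639, 3276, 820, 2457]

/-- Exponents of the square of the second monomial matrix. -/
def E2 : ZMod 5 → ℕ := ![0, 3279, 2459, 1639, 819]

/-- Exponents of the fourth power of the second monomial matrix. -/
def E4 : ZMod 5 → ℕ := ![0, 2460, 825, 3285, 1650]

/-- The first automorphism. -/
noncomputable def dl : MulAut (SL5 F) := ae c dd rx 0

/-- The second automorphism. -/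
noncomputable def ph : MulAut (SL5 F) := ae c EE ry 1

variable (hc : orderOf c = 4095) (hF : Nat.card F = 4096)

include hc in
lemma ae_one (e : ZMod 5 → ℕ) (ρ : Perm (ZMod 5)) (z : ℕ) (he : ∀ k, e k ≡ z + 0 [MOD 4095])
    (hρ : ∀ k, ρ k = k) : ae c e ρ 0 = (1 : MulAut (SL5 F)) := by
  rw [ae_congr c hc (e' := fun _ => 0) (ρ' := Equiv.refl _) z he hρ]
  ext1 X
  refine Subtype.ext ?_
  ext k l
  rw [ae_apply, as_coe, am_apply, iterateFrobenius_zero]
  simp

include hc hF in
lemma ae_one' (e : ZMod 5 → ℕ) (ρ : Perm (ZMod 5)) (z : ℕ) (he : ∀ k, e k ≡ z + 0 [MOD 4095])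
    (hρ : ∀ k, ρ k = k) : ae c e ρ 12 = (1 : MulAut (SL5 F)) := by
  rw [ae_congr c hc (e' := fun _ => 0) (ρ' := Equiv.refl _) z he hρ]
  ext1 X
  refine Subtype.ext ?_
  ext k l
  have h : ∀ x : F, x ^ (2 ^ 12) = x := by
    intro x
    have := Fintype.ofFinite F
    have h1 := FiniteField.pow_card x
    rw [← Nat.card_eq_fintype_card, hF] at h1
    exact h1
  rw [ae_apply, as_coe, am_apply, iterateFrobenius_def, h]
  simp

include hc in
lemma dl5 : (dl c : MulAut (SL5 F)) ^ 5 = 1 := by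
  have h2 : (dl c : MulAut (SL5 F)) ^ 5 = dl c * dl c * dl c * dl c * dl c := by
    simp only [pow_succ, pow_zero, one_mul]
  rw [h2]
  unfold dl
  rw [ae_mul, ae_mul, ae_mul, ae_mul]
  exact ae_one c hc _ _ 1 (by decide) (by decide)

include hc hF in
lemma ph12 : (ph c : MulAut (SL5 F)) ^ 12 = 1 := by
  have h2 : (ph c : MulAut (SL5 F)) ^ 12 = ((ph c * ph c) * (ph c * ph c)) *
    ((ph c * ph c) * (ph c * ph c)) * ((ph c * ph c) * (ph c * ph c)) := by
    simp only [pow_succ, pow_zero, one_mul, mul_assoc]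
  have h3 : (ph c * ph c : MulAut (SL5 F)) =
      ae c E2 (ry.trans ry) 2 := by
    unfold ph
    rw [ae_mul]
    exact ae_congr c hc 0 (by decide) (by decide)
  have h4 : (ph c * ph c) * (ph c * ph c : MulAut (SL5 F)) =
      ae c E4 (Equiv.refl _) 4 := by
    rw [h3, ae_mul]
    exact ae_congr c hc 0 (by decide) (by decide)
  rw [h2, h4, ae_mul, ae_mul]
  exact ae_one' c hc hF _ _ 0 (by decide) (by decide)

include hc in
lemma phdl : (ph c : MulAut (SL5 F)) * dl c = dl c ^ 2 * ph c := by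
  have h2 : (dl c : MulAut (SL5 F)) ^ 2 = dl c * dl c := sq _
  rw [h2]
  unfold dl ph
  rw [ae_mul, ae_mul, ae_mul]
  exact ae_congr c hc 3276 (by decide) (by decide)

/-- The action of the group `Q` on the special linear group. -/
noncomputable def Th : Q →* MulAut (SL5 F) :=
  lift (dl c) (ph c) (dl5 c hc) (ph12 c hc hF) (phdl c hc)

lemma dl_pow (n : ℕ) : ∃ (e : ZMod 5 → ℕ) (ρ : Perm (ZMod 5)),
    (dl c : MulAut (SL5 F)) ^ n = ae c e ρ 0 ∧ ∑ k, e k = n := by
  induction n with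
  | zero =>
    refine ⟨fun _ => 0, Equiv.refl _, ?_, by simp⟩
    rw [pow_zero]
    ext1 X
    refine Subtype.ext ?_
    ext k l
    rw [ae_apply, as_coe, am_apply, iterateFrobenius_zero]
    simp
  | succ n ih =>
    obtain ⟨e, ρ, h1, h2⟩ := ih
    refine ⟨fun k => e k + 2 ^ 0 * dd (ρ k), ρ.trans rx, ?_, ?_⟩
    · rw [pow_succ, h1]
      unfold dl
      rw [ae_mul]
    · rw [Finset.sum_add_distrib, h2, ← Finset.mul_sum, Equiv.sum_comp ρ dd]
      have : ∑ k, dd k = 1 := by decide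
      rw [this]
      ring

lemma ph_pow (n : ℕ) : ∃ (e : ZMod 5 → ℕ) (ρ : Perm (ZMod 5)),
    (ph c : MulAut (SL5 F)) ^ n = ae c e ρ n := by
  induction n with
  | zero =>
    refine ⟨fun _ => 0, Equiv.refl _, ?_⟩
    rw [pow_zero]
    ext1 X
    refine Subtype.ext ?_
    ext k l
    rw [ae_apply, as_coe, am_apply, iterateFrobenius_zero]
    simp
  | succ n ih =>
    obtain ⟨e, ρ, h1⟩ := ih
    refine ⟨fun k => e k + 2 ^ n * EE (ρ k), ρ.trans ry, ?_⟩
    rw [pow_succ, h1]
    unfold ph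
    rw [ae_mul]

lemma Th_eq (q : Q) : ∃ (e : ZMod 5 → ℕ) (ρ : Perm (ZMod 5)),
    Th c hc hF q = ae c e ρ q.j.val ∧ (q.j = 0 → ∑ k, e k = q.i.val) := by
  obtain ⟨e, ρ, h1, h2⟩ := dl_pow c q.i.val
  by_cases hj : q.j = 0
  · refine ⟨e, ρ, ?_, fun _ => h2⟩
    rw [Th, lift_apply, hj, h1]
    simp
  · obtain ⟨e', ρ', h3⟩ := ph_pow c q.j.val
    refine ⟨fun k => e k + 2 ^ 0 * e' (ρ k), ρ.trans ρ', ?_, fun h => absurd h hj⟩
    rw [Th, lift_apply, h1, h3, ae_mul, zero_add]

end act

end Pool.Agent.R718.SB
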