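import Mathlib
import Pool.Agent.R718.SB3

/-!
Helper for `MP_520f25_al`: no nontrivial element of `C_5 : C_12` acts on `PSL_5` of the field with
`2^12` elements by an inner automorphism.
-/

set_option autoImplicit false

namespace Pool.Agent.R718.SB

open Equiv Matrix

section act

variable {F : Type} [Field F] [Finite F] [CharP F 2] (c : Fˣ)

lemma am_trans (e : ZMod 5 → ℕ) (ρ : Perm (ZMod 5)) (r : ℕ) (a b : ZMod 5) (t : F) :
    am c e ρ r (1 + Matrix.single a b t) = 1 + Matrix.single (ρ.symm a) (ρ.symm b)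
      ((c : F) ^ e (ρ.symm a) * ((c : F) ^ e (ρ.symm b))⁻¹ * t ^ (2 ^ r)) := by
  ext k l
  rw [am_apply, Matrix.add_apply, Matrix.add_apply, map_add, mul_add]
  congr 1
  · have h := congrFun (congrFun (am_one c e ρ r) k) l
    rw [am_apply] at h
    exact h
  · rw [Matrix.single_apply, Matrix.single_apply]
    by_cases h : a = ρ k ∧ b = ρ l
    · have h1 : ρ.symm a = k := by rw [h.1, Equiv.symm_apply_apply]
      have h2 : ρ.symm b = l := by rw [h.2, Equiv.symm_apply_apply]
      rw [if_pos h, if_pos ⟨h1, h2⟩, h1, h2, iterateFrobenius_def]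
    · rw [if_neg h, if_neg, map_zero, mul_zero]
      rintro ⟨h1, h2⟩
      exact h ⟨by rw [← h1, Equiv.apply_symm_apply], by rw [← h2, Equiv.apply_symm_apply]⟩

variable (hc : orderOf c = 4095) (hF : Nat.card F = 4096)

include hc hF in
lemma outer_key (e : ZMod 5 → ℕ) (ρ : Perm (ZMod 5)) (r : ℕ) (hr : r < 12) (A : SL5 F)
    (h : ∀ X : SL5 F, as c e ρ r X * A = A * X) : r = 0 ∧ 4095 ∣ 819 * ∑ k, e k := by
  have h1 : ∀ (a b : ZMod 5) (_ : a ≠ b) (t : F) (l : ZMod 5),
      (c : F) ^ e (ρ.symm a) * ((c : F) ^ e (ρ.symm b))⁻¹ * t ^ (2 ^ r) * A.1 (ρ.symm b) l =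
      if l = b then A.1 (ρ.symm a) a * t else 0 := by
    intro a b hab t l
    have h2 := congrArg Subtype.val (h (SpecialLinearGroup.transvection hab t))
    have h3 : (as c e ρ r (SpecialLinearGroup.transvection hab t) * A).1 =
        (1 + Matrix.single (ρ.symm a) (ρ.symm b)
      ((c : F) ^ e (ρ.symm a) * ((c : F) ^ e (ρ.symm b))⁻¹ * t ^ (2 ^ r))) * A.1 := by
      rw [← am_trans]
      rfl
    have h4 : (A * SpecialLinearGroup.transvection hab t).1 = A.1 * (1 + Matrix.single a b t) := rfl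
    rw [h3, h4, add_mul, mul_add, one_mul, mul_one] at h2
    have h2' := add_left_cancel h2
    have h5 := congrFun (congrFun h2' (ρ.symm a)) l
    rw [Matrix.single_mul_apply_same] at h5
    rw [h5]
    by_cases hl : l = b
    · subst hl
      rw [Matrix.mul_single_apply_same, if_pos rfl]
    · rw [if_neg hl, Matrix.mul_single_apply_of_ne _ _ _ _ _ hl]
  have hex : ∀ b : ZMod 5, ∃ a : ZMod 5, a ≠ b := by decide
  have hz : ∀ b l, l ≠ b → A.1 (ρ.symm b) l = 0 := by
    intro b l hl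
    obtain ⟨a, ha⟩ := hex b
    have h2 := h1 a b ha 1 l
    rw [if_neg hl, one_pow, mul_one] at h2
    rcases mul_eq_zero.1 h2 with h3 | h3
    · exact absurd h3 (mul_ne_zero (c_ne c _) (inv_ne_zero (c_ne c _)))
    · exact h3
  have hy : ∀ b, A.1 (ρ.symm b) b ≠ 0 := by
    intro b hb
    have h2 : A.1.det = 0 := by
      refine Matrix.det_eq_zero_of_row_eq_zero (ρ.symm b) fun l => ?_
      by_cases hl : l = b
      · rw [hl]; exact hb
      · exact hz b l hl
    rw [A.2] at h2
    exact one_ne_zero h2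
  have hrat : ∀ (a b : ZMod 5), a ≠ b →
      (c : F) ^ e (ρ.symm a) * ((c : F) ^ e (ρ.symm b))⁻¹ * A.1 (ρ.symm b) b =
      A.1 (ρ.symm a) a := by
    intro a b hab
    have h2 := h1 a b hab 1 b
    rw [if_pos rfl, one_pow, mul_one, mul_one] at h2
    exact h2
  have hr0 : r = 0 := by
    have h2 := h1 1 0 (by decide) (c : F) 0
    rw [if_pos rfl, ← hrat 1 0 (by decide)] at h2
    have h3 : (c : F) ^ e (ρ.symm 1) * ((c : F) ^ e (ρ.symm 0))⁻¹ * A.1 (ρ.symm 0) 0 *
        (c : F) ^ (2 ^ r) = (c : F) ^ e (ρ.symm 1) * ((c : F) ^ e (ρ.symm 0))⁻¹ *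
        A.1 (ρ.symm 0) 0 * (c : F) := by
      rw [← h2]
      ring
    have h4 := mul_left_cancel₀ (mul_ne_zero (mul_ne_zero (c_ne c _) (inv_ne_zero (c_ne c _)))
      (hy 0)) h3
    have h5 : c ^ (2 ^ r) = c ^ 1 := by
      refine Units.ext ?_
      push_cast
      rw [pow_one]
      exact h4
    rw [pow_eq_pow_iff_modEq, hc] at h5
    revert h5
    interval_cases r <;> decide
  refine ⟨hr0, ?_⟩
  obtain ⟨w, hw⟩ : ∃ w : F, w = ((c : F) ^ e (ρ.symm 0))⁻¹ * A.1 (ρ.symm 0) 0 := ⟨_, rfl⟩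
  have hw0 : w ≠ 0 := by
    rw [hw]
    exact mul_ne_zero (inv_ne_zero (c_ne c _)) (hy 0)
  have hya : ∀ a, A.1 (ρ.symm a) a = (c : F) ^ e (ρ.symm a) * w := by
    intro a
    by_cases ha : a = 0
    · subst ha
      rw [hw, ← mul_assoc, mul_inv_cancel₀ (c_ne c _), one_mul]
    · rw [← hrat a 0 ha, hw, mul_assoc]
  have hsub : A.1.submatrix id ρ = Matrix.diagonal (fun k => (c : F) ^ e k * w) := by
    ext k l
    rw [Matrix.submatrix_apply, id_eq, Matrix.diagonal_apply]
    by_cases hkl : k = l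
    · subst hkl
      have h2 := hya (ρ k)
      rw [Equiv.symm_apply_apply] at h2
      rw [if_pos rfl, h2]
    · rw [if_neg hkl]
      have h2 := hz (ρ k) (ρ l) (fun h' => hkl (ρ.injective h').symm)
      rwa [Equiv.symm_apply_apply] at h2
  have hdet := congrArg Matrix.det hsub
  rw [Matrix.det_permute', A.2, Matrix.det_diagonal, Finset.prod_mul_distrib,
    Finset.prod_pow_eq_pow_sum, Finset.prod_const, mul_one] at hdet
  have hs : ((Perm.sign ρ : ℤ) : F) = 1 := by
    rcases Int.units_eq_one_or (Perm.sign ρ) with h2 | h2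
    · rw [h2]; simp
    · rw [h2]
      push_cast
      exact CharTwo.neg_eq 1
  rw [hs] at hdet
  have hcard : (Finset.univ : Finset (ZMod 5)).card = 5 := rfl
  rw [hcard] at hdet
  have hw1 : w ^ 4095 = 1 := by
    have := Fintype.ofFinite F
    have h2 := FiniteField.pow_card_sub_one_eq_one w hw0
    rw [← Nat.card_eq_fintype_card, hF] at h2
    exact h2
  have h2 : ((c : F) ^ (819 * ∑ k, e k)) = 1 := by
    have h3 : ((c : F) ^ (∑ k, e k) * w ^ 5) ^ 819 = 1 := by rw [← hdet, one_pow]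
    rw [mul_pow, ← pow_mul, ← pow_mul, hw1, mul_one, mul_comm] at h3
    exact h3
  have h3 : c ^ (819 * ∑ k, e k) = 1 := by
    refine Units.ext ?_
    push_cast
    exact h2
  rw [← hc]
  exact orderOf_dvd_of_pow_eq_one h3

/-- The action of the group `Q` on the projective special linear group. -/
noncomputable def th : Q →* MulAut (SL5 F ⧸ Subgroup.center (SL5 F)) :=
  piAut.comp (Th c hc hF)

lemma outer (q : Q) (s : SL5 F ⧸ Subgroup.center (SL5 F))
    (h : th c hc hF q = MulAut.conj s) : q = 1 := by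
  obtain ⟨A, rfl⟩ := QuotientGroup.mk_surjective s
  have h1 : ((Th c hc hF q : MulAut (SL5 F)) : SL5 F →* SL5 F) =
      ((MulAut.conj A : MulAut (SL5 F)) : SL5 F →* SL5 F) := by
    refine eq_of_perfect (Pool.Agent.H463R3.PSLn.SL_commutator_eq_top (by decide)) _ _ ?_
    intro X
    have h2 := DFunLike.congr_fun h (X : SL5 F ⧸ Subgroup.center (SL5 F))
    exact h2
  obtain ⟨e, ρ, h3, h4⟩ := Th_eq c hc hF q
  have h5 : ∀ X : SL5 F, as c e ρ q.j.val X * A = A * X := by
    intro X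
    have h6 := DFunLike.congr_fun h1 X
    have h7 : as c e ρ q.j.val X = A * X * A⁻¹ := by
      rw [h3] at h6
      exact h6
    rw [h7, inv_mul_cancel_right]
  obtain ⟨h6, h7⟩ := outer_key c hc hF e ρ q.j.val (ZMod.val_lt q.j) A h5
  have h8 : q.j = 0 := (ZMod.val_eq_zero q.j).1 h6
  rw [h4 h8] at h7
  have h9 : q.i.val = 0 := by
    have h10 := ZMod.val_lt q.i
    have h11 : 5 ∣ q.i.val := by
      have h12 : 819 * 5 ∣ 819 * q.i.val := h7
      exact Nat.dvd_of_mul_dvd_mul_left (by norm_num) h12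
    exact Nat.eq_zero_of_dvd_of_lt h11 h10
  have h10 : q.i = 0 := (ZMod.val_eq_zero q.i).1 h9
  ext1
  · exact h10
  · exact h8

end act

end Pool.Agent.R718.SB
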