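import Mathlib

/-!
Definitions for `MP_a304db_al`: the real reductive group `G = SU(1,1)` with maximal compact subgroup
`K = {diag(u, ū)}`, Harish-Chandra modules for `(𝔤, K)`, the norms in `Norm(V, w)`, Sobolev norms
and the pseudometric `d`.
-/

set_option autoImplicit false

open scoped ComplexConjugate MatrixGroups Topology NNReal ENNReal

namespace Pool.Agent.R718.SU11

/-- The group `G = SU(1,1)`: the matrices `(a, b; b̄, ā)` in `SL(2, ℂ)`. -/
def G : Subgroup SL(2, ℂ) where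
  carrier := {g | g.1 1 0 = conj (g.1 0 1) ∧ g.1 1 1 = conj (g.1 0 0)}
  mul_mem' := by
    rintro g h ⟨h1, h2⟩ ⟨h3, h4⟩
    simp only [Set.mem_ofPred_eq, Matrix.SpecialLinearGroup.coe_mul, Matrix.mul_apply,
      Fin.sum_univ_two] at *
    rw [h1, h2, h3, h4]
    simp only [map_add, map_mul, Complex.conj_conj]
    exact ⟨by ring, by ring⟩
  one_mem' := by simp
  inv_mem' := by
    rintro g ⟨h1, h2⟩
    simp only [Set.mem_ofPred_eq, Matrix.SpecialLinearGroup.coe_inv, Matrix.adjugate_fin_two,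
      Matrix.of_apply, Matrix.cons_val', Matrix.cons_val_zero, Matrix.cons_val_one,
      Matrix.cons_val_fin_one] at *
    rw [h1, h2]
    simp

/-- The Lie algebra `𝔤 = 𝔰𝔲(1,1)` of `G`: the matrices `(α, β; β̄, -α)` with `α` imaginary (with
the bracket `XY - YX`). -/
def su11 : Submodule ℝ (Matrix (Fin 2) (Fin 2) ℂ) where
  carrier := {X | conj (X 0 0) = - X 0 0 ∧ X 1 1 = - X 0 0 ∧ X 1 0 = conj (X 0 1)}
  add_mem' := by
    rintro X Y ⟨h1, h2, h3⟩ ⟨h4, h5, h6⟩
    simp only [Set.mem_ofPred_eq, Matrix.add_apply, map_add, h1, h2, h3, h4, h5, h6]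
    exact ⟨by ring, by ring, trivial⟩
  zero_mem' := by simp
  smul_mem' := by
    rintro c X ⟨h1, h2, h3⟩
    simp only [Set.mem_ofPred_eq, Matrix.smul_apply, Complex.real_smul, map_mul,
      Complex.conj_ofReal, h1, h2, h3]
    exact ⟨by ring, by ring, trivial⟩

/-- The element `diag(u, ū)` of `K ⊂ G`, for `u` in the unit circle. -/
def kk (u : Circle) : G :=
  ⟨⟨!![(u : ℂ), 0; 0, conj (u : ℂ)], by simp [Matrix.det_fin_two, Complex.mul_conj]⟩, by
    constructor <;> simp⟩

/-- The generator `diag(i, -i)` of the Lie algebra of `K`. -/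
def hh : su11 := ⟨!![Complex.I, 0; 0, -Complex.I], by
  refine ⟨?_, ?_, ?_⟩ <;> simp⟩

section

variable {V : Type} [AddCommGroup V] [Module ℂ V]

/-- The isotypic component of `V` of the character `u ↦ u ^ m` of `K`. -/
def ktype (k : Circle →* Module.End ℂ V) (m : ℤ) : Submodule ℂ V where
  carrier := {v | ∀ u : Circle, k u v = ((u : ℂ) ^ m) • v}
  add_mem' h1 h2 u := by rw [map_add, h1 u, h2 u, smul_add]
  zero_mem' u := by simp
  smul_mem' c v h u := by rw [map_smul, h u, smul_comm]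

variable (V) in
/-- A Harish-Chandra module for `(𝔤, K)`: a complex vector space `V` with actions of the Lie algebra
`𝔤` and of the group `K`, which is the (algebraic) sum of its `K`-types (so that `K` acts locally
finitely and continuously), such that the two actions are compatible, the `K`-types have finite
multiplicity, and `V` is finitely generated over the enveloping algebra of `𝔤`. -/
structure HCModule where
  /-- the action of `𝔤` -/
  lie : su11 →ₗ[ℝ] Module.End ℂ V
  /-- the action of `K` -/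
  k : Circle →* Module.End ℂ V
  lie_bracket : ∀ X Y Z : su11, (Z : Matrix (Fin 2) (Fin 2) ℂ) = X * Y - Y * X →
    ∀ v : V, lie Z v = lie X (lie Y v) - lie Y (lie X v)
  iSup_ktype : ⨆ m : ℤ, ktype k m = ⊤
  lie_hh : ∀ (m : ℤ) (v : V), v ∈ ktype k m → lie hh v = ((m : ℂ) * Complex.I) • v
  ad : ∀ (u : Circle) (X Y : su11), (Y : Matrix (Fin 2) (Fin 2) ℂ) =
      ((kk u : SL(2, ℂ)) : Matrix (Fin 2) (Fin 2) ℂ) * X * (((kk u)⁻¹ : G) : SL(2, ℂ)) →
      ∀ v : V, k u (lie X v) = lie Y (k u v)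
  admissible : ∀ m : ℤ, FiniteDimensional ℂ (ktype k m)
  finite_generation : ∃ S : Finset V, ∀ W : Submodule ℂ V,
      (∀ (X : su11), ∀ v ∈ W, lie X v ∈ W) → (S : Set V) ⊆ W → W = ⊤

/-- A vector of a representation of `G` is `K`-finite if it lies in a finite dimensional
`K`-invariant subspace. -/
def IsKFinite {E : Type} [NormedAddCommGroup E] [NormedSpace ℂ E] (π : G →* (E →L[ℂ] E))
    (x : E) : Prop :=
  ∃ F : Submodule ℂ E, FiniteDimensional ℂ F ∧ (∀ u : Circle, ∀ y ∈ F, π (kk u) y ∈ F) ∧ x ∈ F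

/-- `E` is the completion of `(V, p)`, with a continuous representation `π` of `G` on `E` whose
`K`-finite vectors are the vectors of `V`, on which `π` induces the given actions of `K` and of `𝔤`
(the derivative of `π(γ(t)) v` along any curve `γ` in `G` through `1` with velocity `X`, such as
`γ(t) = exp(tX)`, is `X v`). -/
structure Globalization (M : HCModule V) (p : V → ℝ) (E : Type) [NormedAddCommGroup E]
    [NormedSpace ℂ E] [CompleteSpace E] where
  /-- the embedding of `V` in `E` -/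
  ι : V →ₗ[ℂ] E
  /-- the representation of `G` on `E` -/
  π : G →* (E →L[ℂ] E)
  injective : Function.Injective ι
  norm_ι : ∀ v, ‖ι v‖ = p v
  dense : DenseRange ι
  continuous : Continuous fun x : G × E => π x.1 x.2
  kfinite : ∀ x : E, IsKFinite π x ↔ x ∈ LinearMap.range ι
  k_eq : ∀ u v, π (kk u) (ι v) = ι (M.k u v)
  lie_eq : ∀ (X : su11) (v : V) (γ : ℝ → G), γ 0 = 1 →
    HasDerivAt (fun t => ((γ t : SL(2, ℂ)) : Matrix (Fin 2) (Fin 2) ℂ))
      (X : Matrix (Fin 2) (Fin 2) ℂ) 0 →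
    HasDerivAt (fun t => π (γ t) (ι v)) (ι (M.lie X v)) 0

/-- A weight: a positive locally bounded submultiplicative function on `G`. -/
structure IsWeight (w : G → ℝ) : Prop where
  pos : ∀ g, 0 < w g
  mul_le : ∀ g h, w (g * h) ≤ w g * w h
  locally_bounded : ∀ g, ∃ C, ∀ᶠ h in 𝓝 g, w h ≤ C

/-- The set `Norm(V, w)`: the `G`-continuous norms `p` with `p(g v) ≤ C w(g) p(v)`. -/
def InNorm (M : HCModule V) (w : G → ℝ) (p : V → ℝ) : Prop :=
  ∃ (E : Type) (_ : NormedAddCommGroup E) (_ : NormedSpace ℂ E) (_ : CompleteSpace E)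
    (Γ : Globalization M p E), ∃ C > 0, ∀ g v, ‖Γ.π g (Γ.ι v)‖ ≤ C * w g * p v

/-- `p ≲ q`. -/
def Dominated (p q : V → ℝ) : Prop := ∃ C > 0, ∀ v, p v ≤ C * q v

/-- `D` is the operator `D_s = (1 + Δ_K)^{s/2}`. With the Cartan-Killing form `4 tr(XY)` the
element `diag(i, -i) / √8` is normalised, so the `K`-Laplacian acts on the `K`-type `u ↦ u ^ m` by
`m² / 8`. -/
def IsSobolevOp (M : HCModule V) (s : ℝ) (D : V →ₗ[ℂ] V) : Prop :=
  ∀ (m : ℤ) (v : V), v ∈ ktype M.k m → D v = (((1 + (m : ℝ) ^ 2 / 8) ^ (s / 2) : ℝ) : ℂ) • v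

/-- `p ≲ q_s`, where `q_s(v) = q(D_s v)`. -/
def DominatedSob (M : HCModule V) (s : ℝ) (p q : V → ℝ) : Prop :=
  ∃ D : V →ₗ[ℂ] V, IsSobolevOp M s D ∧ Dominated p fun v => q (D v)

/-- `d_→([p], [q])`, the infimum of the `s ≥ 0` with `p ≲ q_s`. -/
noncomputable def dTo (M : HCModule V) (p q : V → ℝ) : ℝ≥0∞ :=
  ⨅ (s : ℝ≥0) (_ : DominatedSob M s p q), (s : ℝ≥0∞)

/-- The pseudometric `d([p], [q])`. -/
noncomputable def sobDist (M : HCModule V) (p q : V → ℝ) : ℝ≥0∞ := max (dTo M p q) (dTo M q p)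

end

end Pool.Agent.R718.SU11
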