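import Mathlib
import Pool.Agent.R718.SU11Defs

/-!
Helper for `MP_a304db_al`: the unitary representation of `SU(1,1)` on `ℓ²(ℕ)` (limit of discrete
series), in terms of the shift operator.
-/

set_option autoImplicit false

open scoped ComplexConjugate MatrixGroups Topology NNReal ENNReal

namespace Pool.Agent.R718.SU11

/-! ## The Hilbert space `ℓ²(ℕ)` -/

/-- `ℓ²(ℕ)` -/
abbrev H : Type := lp (fun _ : ℕ => ℂ) 2

lemma mem2 {f : ℕ → ℂ} (h : Summable fun n => ‖f n‖ ^ 2) : Memℓp f 2 := by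
  refine memℓp_gen ?_
  simpa using h

lemma summable2 (x : H) : Summable fun n => ‖x n‖ ^ 2 := by
  have := (memℓp_gen_iff (p := 2) (by norm_num)).1 (lp.memℓp x)
  simpa using this

lemma normsq (x : H) : ‖x‖ ^ 2 = ∑' n, ‖x n‖ ^ 2 := by
  have := lp.norm_rpow_eq_tsum (p := 2) (by norm_num) x
  simpa using this

lemma sum_le_normsq (x : H) (s : Finset ℕ) : ∑ n ∈ s, ‖x n‖ ^ 2 ≤ ‖x‖ ^ 2 := by
  rw [normsq]
  exact (summable2 x).sum_le_tsum s fun n _ => by positivity

lemma mem2_of_bound {f : ℕ → ℂ} {C : ℝ} (h : ∀ N, ∑ n ∈ Finset.range N, ‖f n‖ ^ 2 ≤ C) :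
    Memℓp f 2 :=
  mem2 (summable_of_sum_range_le (fun n => by positivity) h)

lemma normsq_le {x : H} {C : ℝ} (h : ∀ N, ∑ n ∈ Finset.range N, ‖x n‖ ^ 2 ≤ C) : ‖x‖ ^ 2 ≤ C := by
  rw [normsq]
  exact Real.tsum_le_of_sum_range_le (fun n => by positivity) h

lemma norm_le_of_sq {x y : ℝ} (hy : 0 ≤ y) (h : x ^ 2 ≤ y ^ 2) : x ≤ y :=
  le_of_abs_le (abs_le_of_sq_le_sq h hy)

/-- The constructor of bounded operators on `ℓ²(ℕ)`. -/
noncomputable def mkOp (T : H → ℕ → ℂ) (C : ℝ) (hC : 0 ≤ C)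
    (hadd : ∀ x y n, T (x + y) n = T x n + T y n) (hsmul : ∀ (c : ℂ) x n, T (c • x) n = c * T x n)
    (h : ∀ x N, ∑ n ∈ Finset.range N, ‖T x n‖ ^ 2 ≤ (C * ‖x‖) ^ 2) : H →L[ℂ] H :=
  LinearMap.mkContinuous
    { toFun := fun x => ⟨T x, mem2_of_bound (h x)⟩
      map_add' := fun x y => by ext n; exact hadd x y n
      map_smul' := fun c x => by ext n; exact hsmul c x n } C
    (fun x => norm_le_of_sq (by positivity) (normsq_le (h x)))

lemma mkOp_apply (T : H → ℕ → ℂ) (C : ℝ) (hC : 0 ≤ C)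
    (hadd : ∀ x y n, T (x + y) n = T x n + T y n) (hsmul : ∀ (c : ℂ) x n, T (c • x) n = c * T x n)
    (h : ∀ x N, ∑ n ∈ Finset.range N, ‖T x n‖ ^ 2 ≤ (C * ‖x‖) ^ 2) (x : H) (n : ℕ) :
    mkOp T C hC hadd hsmul h x n = T x n := rfl

lemma mkOp_norm (T : H → ℕ → ℂ) (C : ℝ) (hC : 0 ≤ C)
    (hadd : ∀ x y n, T (x + y) n = T x n + T y n) (hsmul : ∀ (c : ℂ) x n, T (c • x) n = c * T x n)
    (h : ∀ x N, ∑ n ∈ Finset.range N, ‖T x n‖ ^ 2 ≤ (C * ‖x‖) ^ 2) (x : H) :
    ‖mkOp T C hC hadd hsmul h x‖ ≤ C * ‖x‖ :=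
  norm_le_of_sq (by positivity) (normsq_le (h x))

/-- Diagonal operators. -/
noncomputable def diagOp (μ : ℕ → ℂ) (C : ℝ) (hC : 0 ≤ C) (h : ∀ n, ‖μ n‖ ≤ C) : H →L[ℂ] H :=
  mkOp (fun x n => μ n * x n) C hC (fun x y n => by rw [lp.coeFn_add, Pi.add_apply]; ring)
    (fun c x n => by rw [lp.coeFn_smul, Pi.smul_apply, smul_eq_mul]; ring) (fun x N => by
      calc ∑ n ∈ Finset.range N, ‖μ n * x n‖ ^ 2 ≤ ∑ n ∈ Finset.range N, C ^ 2 * ‖x n‖ ^ 2 := by
            refine Finset.sum_le_sum fun n _ => ?_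
            rw [norm_mul, mul_pow]
            gcongr
            exact h n
        _ = C ^ 2 * ∑ n ∈ Finset.range N, ‖x n‖ ^ 2 := by rw [Finset.mul_sum]
        _ ≤ C ^ 2 * ‖x‖ ^ 2 := by
            gcongr
            exact sum_le_normsq x _
        _ = (C * ‖x‖) ^ 2 := by ring)

lemma diagOp_apply (μ : ℕ → ℂ) (C : ℝ) (hC : 0 ≤ C) (h : ∀ n, ‖μ n‖ ≤ C) (x : H) (n : ℕ) :
    diagOp μ C hC h x n = μ n * x n := rfl

lemma diagOp_norm (μ : ℕ → ℂ) (C : ℝ) (hC : 0 ≤ C) (h : ∀ n, ‖μ n‖ ≤ C) (x : H) :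
    ‖diagOp μ C hC h x‖ ≤ C * ‖x‖ := mkOp_norm _ _ _ _ _ _ x

/-- The shift. -/
noncomputable def S : H →L[ℂ] H :=
  mkOp (fun x n => Nat.casesOn n 0 fun k => x k) 1 zero_le_one
    (fun x y n => by cases n <;> simp) (fun c x n => by cases n <;> simp) (fun x N => by
      cases N with
      | zero => simp
      | succ N =>
        rw [Finset.sum_range_succ']
        simpa using sum_le_normsq x (Finset.range N))

lemma S_zero (x : H) : S x 0 = 0 := rfl

lemma S_succ (x : H) (n : ℕ) : S x (n + 1) = x n := rfl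

lemma S_isom (x : H) : ‖S x‖ = ‖x‖ := by
  have h : ‖S x‖ ^ 2 = ‖x‖ ^ 2 := by
    rw [normsq, normsq, (summable2 (S x)).tsum_eq_zero_add]
    simp [S_zero, S_succ]
  exact (sq_eq_sq₀ (norm_nonneg _) (norm_nonneg _)).1 h

/-- The backward shift. -/
noncomputable def Sb : H →L[ℂ] H :=
  mkOp (fun x n => x (n + 1)) 1 zero_le_one
    (fun x y n => by simp) (fun c x n => by simp) (fun x N => by
      have h := sum_le_normsq x (Finset.range (N + 1))
      rw [Finset.sum_range_succ'] at h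
      rw [one_mul]
      have : 0 ≤ ‖x 0‖ ^ 2 := by positivity
      linarith)

lemma Sb_apply (x : H) (n : ℕ) : Sb x n = x (n + 1) := rfl

lemma Sb_norm (x : H) : ‖Sb x‖ ≤ ‖x‖ := by
  have h : ‖Sb x‖ ≤ 1 * ‖x‖ := by
    unfold Sb
    exact mkOp_norm _ _ _ _ _ _ x
  rwa [one_mul] at h

/-- The basis vectors. -/
noncomputable def e (n : ℕ) : H := lp.single 2 n (1 : ℂ)

lemma e_apply (n k : ℕ) : e n k = if k = n then 1 else 0 := by
  unfold e
  rw [lp.single_apply, Pi.single_apply]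

lemma S_e (n : ℕ) : S (e n) = e (n + 1) := by
  ext k
  cases k with
  | zero => rw [S_zero, e_apply, if_neg (by omega)]
  | succ k =>
    rw [S_succ, e_apply, e_apply]
    by_cases h : k = n
    · rw [if_pos h, if_pos (by omega)]
    · rw [if_neg h, if_neg (by omega)]

lemma norm_e (n : ℕ) : ‖e n‖ = 1 := by
  unfold e
  rw [lp.norm_single (by norm_num), norm_one]

/-- The coordinates. -/
noncomputable def coord (n : ℕ) : H →L[ℂ] ℂ :=
  LinearMap.mkContinuous
    { toFun := fun x => x n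
      map_add' := fun x y => rfl
      map_smul' := fun c x => rfl } 1 (fun x => by
        rw [one_mul]
        exact lp.norm_apply_le_norm (by norm_num) x n)

lemma coord_apply (n : ℕ) (x : H) : coord n x = x n := rfl

/-- The inclusion of the finitely supported sequences. -/
noncomputable def ι0 : (ℕ →₀ ℂ) →ₗ[ℂ] H := Finsupp.linearCombination ℂ e

lemma ι0_single (n : ℕ) (c : ℂ) : ι0 (Finsupp.single n c) = c • e n := by
  unfold ι0
  rw [Finsupp.linearCombination_single]

lemma ι0_apply (f : ℕ →₀ ℂ) (n : ℕ) : ι0 f n = f n := by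
  have h : (coord n : H →ₗ[ℂ] ℂ) ∘ₗ ι0 = Finsupp.lapply n := by
    refine Finsupp.lhom_ext fun k c => ?_
    rw [LinearMap.comp_apply, ι0_single, Finsupp.lapply_apply, Finsupp.single_apply]
    show (c • e k) n = _
    rw [lp.coeFn_smul, Pi.smul_apply, e_apply, smul_eq_mul]
    by_cases h : n = k
    · rw [if_pos h, if_pos h.symm, mul_one]
    · rw [if_neg h, if_neg (Ne.symm h), mul_zero]
  exact LinearMap.congr_fun h f

lemma tendsto_trunc (x : H) :
    Filter.Tendsto (fun N => ι0 (∑ n ∈ Finset.range N, Finsupp.single n (x n))) Filter.atTop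
      (𝓝 x) := by
  have h := (lp.hasSum_single (by norm_num) x).tendsto_sum_nat
  refine h.congr fun N => ?_
  rw [map_sum]
  refine Finset.sum_congr rfl fun n _ => ?_
  rw [ι0_single]
  unfold e
  rw [← lp.single_smul, smul_eq_mul, mul_one]

lemma dense_ι0 : DenseRange ι0 := by
  intro x
  exact mem_closure_of_tendsto (tendsto_trunc x) (Filter.Eventually.of_forall fun N =>
    Set.mem_range_self _)

/-- Two bounded operators that agree on the basis are equal. -/
lemma op_ext {E : Type} [NormedAddCommGroup E] [NormedSpace ℂ E] {A B : H →L[ℂ] E}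
    (h : ∀ n, A (e n) = B (e n)) : A = B := by
  have h1 : (A : H →ₗ[ℂ] E) ∘ₗ ι0 = (B : H →ₗ[ℂ] E) ∘ₗ ι0 := by
    refine Finsupp.lhom_ext fun k c => ?_
    rw [LinearMap.comp_apply, LinearMap.comp_apply, ι0_single, map_smul, map_smul]
    show c • A (e k) = c • B (e k)
    rw [h]
  refine ContinuousLinearMap.ext fun x => ?_
  have h2 : (fun x => A x) = fun x => B x :=
    DenseRange.equalizer dense_ι0 A.continuous B.continuous (by
      funext f
      exact LinearMap.congr_fun h1 f)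
  exact congrFun h2 x

/-! ## The operators `P = aS + b`, `Q = cS + d`, `R = Q⁻¹`, `B = PR` -/

/-- matrix entry `a` -/
def ea (g : G) : ℂ := g.1.1 0 0
/-- matrix entry `b` -/
def eb (g : G) : ℂ := g.1.1 0 1
/-- matrix entry `c` -/
def ec (g : G) : ℂ := g.1.1 1 0
/-- matrix entry `d` -/
def ed (g : G) : ℂ := g.1.1 1 1

lemma ec_eq (g : G) : ec g = conj (eb g) := g.2.1

lemma ed_eq (g : G) : ed g = conj (ea g) := g.2.2

lemma det_eq (g : G) : ea g * ed g - eb g * ec g = 1 := by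
  have h := g.1.2
  rw [Matrix.det_fin_two] at h
  exact h

lemma norm_eq (g : G) : ‖ea g‖ ^ 2 = 1 + ‖eb g‖ ^ 2 := by
  have h := det_eq g
  rw [ed_eq, ec_eq, Complex.mul_conj, Complex.mul_conj, Complex.normSq_eq_norm_sq,
    Complex.normSq_eq_norm_sq] at h
  have h2 : ‖ea g‖ ^ 2 - ‖eb g‖ ^ 2 = 1 := by exact_mod_cast h
  linarith

lemma norm_ec (g : G) : ‖ec g‖ = ‖eb g‖ := by rw [ec_eq, RCLike.norm_conj]

lemma norm_ed (g : G) : ‖ed g‖ = ‖ea g‖ := by rw [ed_eq, RCLike.norm_conj]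

lemma one_le_norm_ea (g : G) : 1 ≤ ‖ea g‖ := by
  have h := norm_eq g
  nlinarith [norm_nonneg (ea g), sq_nonneg ‖eb g‖]

lemma ed_ne (g : G) : ed g ≠ 0 := by
  intro h
  have h1 := one_le_norm_ea g
  rw [← norm_ed, h, norm_zero] at h1
  linarith

/-- `P = aS + b` -/
noncomputable def P (g : G) : H →L[ℂ] H := ea g • S + eb g • 1

/-- `Q = cS + d` -/
noncomputable def Q (g : G) : H →L[ℂ] H := ec g • S + ed g • 1

/-- `R = Q⁻¹` -/
noncomputable def R (g : G) : H →L[ℂ] H := Ring.inverse (Q g)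

lemma norm_S_le : ‖S‖ ≤ 1 :=
  ContinuousLinearMap.opNorm_le_bound _ zero_le_one fun x => by rw [S_isom, one_mul]

lemma isUnit_Q (g : G) : IsUnit (Q g) := by
  have h1 : Q g = ed g • (1 - (-(ec g / ed g)) • S) := by
    unfold Q
    rw [smul_sub, smul_smul, mul_neg, mul_div_cancel₀ _ (ed_ne g), neg_smul, sub_neg_eq_add,
      add_comm]
  have h2 : ‖(-(ec g / ed g)) • S‖ < 1 := by
    calc ‖(-(ec g / ed g)) • S‖ ≤ ‖(-(ec g / ed g))‖ * ‖S‖ :=
          ContinuousLinearMap.opNorm_smul_le _ _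
      _ ≤ ‖ec g / ed g‖ * 1 := by
          rw [norm_neg]
          gcongr
          exact norm_S_le
      _ = ‖eb g‖ / ‖ea g‖ := by rw [mul_one, norm_div, norm_ec, norm_ed]
      _ < 1 := by
          have h3 := one_le_norm_ea g
          rw [div_lt_one (by linarith)]
          have h4 := norm_eq g
          nlinarith [norm_nonneg (ea g), norm_nonneg (eb g)]
  have h3 : IsUnit (1 - (-(ec g / ed g)) • S) := isUnit_one_sub_of_norm_lt_one h2
  have h4 : ed g • (1 - (-(ec g / ed g)) • S) =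
      algebraMap ℂ (H →L[ℂ] H) (ed g) * (1 - (-(ec g / ed g)) • S) := by
    rw [Algebra.algebraMap_eq_smul_one, smul_mul_assoc, one_mul]
  rw [h1, h4]
  exact ((IsUnit.mk0 _ (ed_ne g)).map (algebraMap ℂ (H →L[ℂ] H))).mul h3

lemma QR (g : G) : Q g * R g = 1 := Ring.mul_inverse_cancel _ (isUnit_Q g)

lemma RQ (g : G) : R g * Q g = 1 := Ring.inverse_mul_cancel _ (isUnit_Q g)

/-- `B = PR` -/
noncomputable def B (g : G) : H →L[ℂ] H := P g * R g

lemma R_eq (g : G) : R g = ea g • 1 - ec g • B g := by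
  have h : ea g • Q g - ec g • P g = 1 := by
    unfold P Q
    rw [smul_add, smul_add, smul_smul, smul_smul, smul_smul, smul_smul, mul_comm (ec g) (ea g),
      add_sub_add_left_eq_sub, ← sub_smul, mul_comm (ec g) (eb g), det_eq, one_smul]
  calc R g = 1 * R g := (one_mul _).symm
    _ = (ea g • Q g - ec g • P g) * R g := by rw [h]
    _ = ea g • 1 - ec g • B g := by
        rw [sub_mul, smul_mul_assoc, smul_mul_assoc, QR]
        rfl

lemma SR_eq (g : G) : S * R g = ed g • B g - eb g • 1 := by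
  have h : ed g • P g - eb g • Q g = S := by
    unfold P Q
    rw [smul_add, smul_add, smul_smul, smul_smul, smul_smul, smul_smul, mul_comm (ed g) (eb g),
      add_sub_add_right_eq_sub, ← sub_smul, mul_comm (ed g) (ea g), det_eq, one_smul]
  calc S * R g = (ed g • P g - eb g • Q g) * R g := by rw [h]
    _ = ed g • B g - eb g • 1 := by
        rw [sub_mul, smul_mul_assoc, smul_mul_assoc, QR]
        rfl

lemma P_mul (h g : G) : P (h * g) = ea h • P g + eb h • Q g := by
  have h1 : ea (h * g) = ea h * ea g + eb h * ec g := by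
    unfold ea eb ec
    simp [Matrix.mul_apply, Fin.sum_univ_two]
  have h2 : eb (h * g) = ea h * eb g + eb h * ed g := by
    unfold ea eb ed
    simp [Matrix.mul_apply, Fin.sum_univ_two]
  unfold P Q
  rw [h1, h2]
  module

lemma Q_mul (h g : G) : Q (h * g) = ec h • P g + ed h • Q g := by
  have h1 : ec (h * g) = ec h * ea g + ed h * ec g := by
    unfold ea ed ec
    simp [Matrix.mul_apply, Fin.sum_univ_two]
  have h2 : ed (h * g) = ec h * eb g + ed h * ed g := by
    unfold ec eb ed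
    simp [Matrix.mul_apply, Fin.sum_univ_two]
  unfold P Q
  rw [h1, h2]
  module

lemma QQ_comm (g h : G) : Q g * Q h = Q h * Q g := by
  unfold Q
  simp only [mul_add, add_mul, smul_mul_assoc, mul_smul_comm, mul_one, one_mul]
  module

lemma QR_comm (g h : G) : Q g * R h = R h * Q g := by
  calc Q g * R h = (R h * Q h) * (Q g * R h) := by rw [RQ, one_mul]
    _ = R h * (Q h * Q g) * R h := by noncomm_ring
    _ = R h * (Q g * Q h) * R h := by rw [QQ_comm]
    _ = R h * Q g * (Q h * R h) := by noncomm_ring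
    _ = R h * Q g := by rw [QR, mul_one]

/-- The vacuum vector. -/
noncomputable def ψ (g : G) : H := R g (e 0)

lemma Qψ (g : G) : Q g (ψ g) = e 0 := by
  show (Q g * R g) (e 0) = e 0
  rw [QR]
  rfl

lemma inner_e0_S (y : H) : inner ℂ (e 0) (S y) = 0 := by
  unfold e
  rw [lp.inner_single_left, S_zero, inner_zero_right]

lemma P_apply (g : G) (x : H) : P g x = ea g • S x + eb g • x := rfl

lemma Q_apply (g : G) (x : H) : Q g x = ec g • S x + ed g • x := rfl

lemma inner_S_S (x y : H) : inner ℂ (S x) (S y) = inner ℂ x y :=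
  LinearIsometry.inner_map_map (⟨(S : H →ₗ[ℂ] H), S_isom⟩ : H →ₗᵢ[ℂ] H) x y

lemma inner_ψ_P (g : G) (y : H) : inner ℂ (ψ g) (P g y) = 0 := by
  have h := inner_e0_S y
  rw [← Qψ g, Q_apply, inner_add_left, inner_smul_left, inner_smul_left, inner_S_S, ec_eq, ed_eq,
    Complex.conj_conj, Complex.conj_conj] at h
  rw [P_apply, inner_add_right, inner_smul_right, inner_smul_right]
  linear_combination h

lemma inner_ψ_B (g : G) (y : H) : inner ℂ (ψ g) (B g y) = 0 := inner_ψ_P g (R g y)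

lemma norm_P_eq_Q (g : G) (x : H) : ‖P g x‖ = ‖Q g x‖ := by
  have h1 : ‖P g x‖ ^ 2 = ‖Q g x‖ ^ 2 := by
    rw [P_apply, Q_apply, @norm_add_sq ℂ, @norm_add_sq ℂ, norm_smul, norm_smul, norm_smul,
      norm_smul, S_isom, inner_smul_left, inner_smul_left, inner_smul_right, inner_smul_right,
      norm_ec, norm_ed, ec_eq, ed_eq, Complex.conj_conj]
    have h2 : conj (ea g) * (eb g * inner ℂ (S x) x) = eb g * (conj (ea g) * inner ℂ (S x) x) := by
      ring
    rw [h2]
    ring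
  exact (sq_eq_sq₀ (norm_nonneg _) (norm_nonneg _)).1 h1

lemma norm_B (g : G) (y : H) : ‖B g y‖ = ‖y‖ := by
  calc ‖B g y‖ = ‖P g (R g y)‖ := rfl
    _ = ‖Q g (R g y)‖ := norm_P_eq_Q g _
    _ = ‖(Q g * R g) y‖ := rfl
    _ = ‖y‖ := by rw [QR]; rfl

lemma norm_ψ (g : G) : ‖ψ g‖ = 1 := by
  have h1 : inner ℂ (P g (ψ g)) (ψ g) = 0 := by
    rw [← inner_conj_symm, inner_ψ_P, map_zero]
  rw [P_apply, inner_add_left, inner_smul_left, inner_smul_left] at h1
  have h2 : inner ℂ (Q g (ψ g)) (Q g (ψ g)) = 1 := by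
    rw [Qψ, inner_self_eq_norm_sq_to_K, norm_e]
    simp
  have h3 : inner ℂ (Q g (ψ g)) (S (ψ g)) = 0 := by rw [Qψ, inner_e0_S]
  have h4 : inner ℂ (Q g (ψ g)) (Q g (ψ g)) = ed g * inner ℂ (Q g (ψ g)) (ψ g) := by
    conv_lhs => rw [Q_apply g (ψ g), inner_add_right, inner_smul_right, inner_smul_right]
    rw [← Q_apply, h3, mul_zero, zero_add]
  rw [h2, Q_apply, inner_add_left, inner_smul_left, inner_smul_left] at h4
  have h5 : inner ℂ (ψ g) (ψ g) = 1 := by
    have h6 := det_eq g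
    rw [ed_eq, ec_eq] at h6
    rw [ed_eq, ec_eq, Complex.conj_conj, Complex.conj_conj] at h4
    linear_combination h4.symm - inner ℂ (ψ g) (ψ g) * h6 - eb g * h1
  rw [inner_self_eq_norm_sq_to_K] at h5
  have h6 : ‖ψ g‖ ^ 2 = 1 := Complex.ofReal_injective (by
    rw [Complex.ofReal_pow, Complex.ofReal_one]
    exact h5)
  exact (pow_eq_one_iff_of_nonneg (norm_nonneg _) two_ne_zero).1 h6

/-- The orthonormal basis vectors of the transformed basis. -/
noncomputable def v (g : G) (n : ℕ) : H := (B g ^ n) (ψ g)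

lemma v_zero (g : G) : v g 0 = ψ g := rfl

lemma v_succ (g : G) (n : ℕ) : v g (n + 1) = B g (v g n) := by
  unfold v
  rw [pow_succ']
  rfl

lemma inner_B_B (g : G) (x y : H) : inner ℂ (B g x) (B g y) = inner ℂ x y :=
  LinearIsometry.inner_map_map (⟨(B g : H →ₗ[ℂ] H), norm_B g⟩ : H →ₗᵢ[ℂ] H) x y

lemma norm_v (g : G) (n : ℕ) : ‖v g n‖ = 1 := by
  induction n with
  | zero => exact norm_ψ g
  | succ n ih => rw [v_succ, norm_B, ih]

lemma inner_v_lt (g : G) (m k : ℕ) : inner ℂ (v g m) (v g (m + k + 1)) = 0 := by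
  induction m with
  | zero =>
    rw [v_succ, v_zero, inner_ψ_B]
  | succ m ih =>
    rw [show m + 1 + k + 1 = (m + k + 1) + 1 by ring, v_succ, v_succ, inner_B_B, ih]

lemma orthonormal_v (g : G) : Orthonormal ℂ (v g) := by
  refine ⟨norm_v g, fun m n hmn => ?_⟩
  rcases lt_or_gt_of_ne hmn with h | h
  · obtain ⟨k, rfl⟩ := Nat.exists_eq_add_of_lt h
    exact inner_v_lt g m k
  · obtain ⟨k, rfl⟩ := Nat.exists_eq_add_of_lt h
    rw [← inner_conj_symm, inner_v_lt, map_zero]

/-- The unitary operator of `g` (an anti-representation). -/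
noncomputable def Ui (g : G) : H →ₗᵢ[ℂ] H := (orthonormal_v g).orthogonalFamily.linearIsometry

/-- The unitary operator of `g`, as a bounded operator. -/
noncomputable def U (g : G) : H →L[ℂ] H := (Ui g).toContinuousLinearMap

lemma norm_U (g : G) (x : H) : ‖U g x‖ = ‖x‖ := (Ui g).norm_map x

lemma U_e (g : G) (n : ℕ) : U g (e n) = v g n := by
  show Ui g (e n) = _
  unfold Ui e
  rw [OrthogonalFamily.linearIsometry_apply_single]
  show (1 : ℂ) • v g n = v g n
  rw [one_smul]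

lemma U_S (g : G) : U g * S = B g * U g := by
  refine op_ext fun n => ?_
  show U g (S (e n)) = B g (U g (e n))
  rw [S_e, U_e, U_e, v_succ]

lemma B_lin (h g : G) : ec h • B g + ed h • 1 = Q (h * g) * R g := by
  rw [Q_mul, add_mul, smul_mul_assoc, smul_mul_assoc, QR]
  rfl

lemma B_lin' (h g : G) : ea h • B g + eb h • 1 = P (h * g) * R g := by
  rw [P_mul, add_mul, smul_mul_assoc, smul_mul_assoc, QR]
  rfl

lemma U_Q (g h : G) : U g * Q h = Q (h * g) * R g * U g := by
  rw [← B_lin]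
  unfold Q
  rw [mul_add, mul_smul_comm, mul_smul_comm, U_S, add_mul, smul_mul_assoc, smul_mul_assoc, mul_one,
    one_mul]

lemma U_P (g h : G) : U g * P h = P (h * g) * R g * U g := by
  rw [← B_lin']
  unfold P
  rw [mul_add, mul_smul_comm, mul_smul_comm, U_S, add_mul, smul_mul_assoc, smul_mul_assoc, mul_one,
    one_mul]

lemma U_R (g h : G) : U g * R h = Q g * R (h * g) * U g := by
  calc U g * R h = Q g * (R (h * g) * Q (h * g)) * R g * (U g * R h) := by
        rw [RQ, mul_one, QR, one_mul]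
    _ = Q g * R (h * g) * (Q (h * g) * R g * U g) * R h := by simp only [mul_assoc]
    _ = Q g * R (h * g) * (U g * Q h) * R h := by rw [U_Q]
    _ = Q g * R (h * g) * U g * (Q h * R h) := by simp only [mul_assoc]
    _ = Q g * R (h * g) * U g := by rw [QR, mul_one]

lemma U_B (g h : G) : U g * B h = B (h * g) * U g := by
  calc U g * B h = (U g * P h) * R h := by unfold B; rw [mul_assoc]
    _ = P (h * g) * R g * (U g * R h) := by rw [U_P, mul_assoc]
    _ = P (h * g) * (R g * Q g) * R (h * g) * U g := by rw [U_R]; simp only [mul_assoc]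
    _ = B (h * g) * U g := by rw [RQ, mul_one]; rfl

lemma U_ψ (g h : G) : U g (ψ h) = ψ (h * g) := by
  calc U g (ψ h) = (U g * R h) (e 0) := rfl
    _ = (R (h * g) * Q g) (U g (e 0)) := by rw [U_R, QR_comm]; rfl
    _ = (R (h * g)) ((Q g * R g) (e 0)) := by rw [U_e]; rfl
    _ = ψ (h * g) := by rw [QR]; rfl

lemma U_v (g h : G) (n : ℕ) : U g (v h n) = v (h * g) n := by
  induction n with
  | zero => exact U_ψ g h
  | succ n ih =>
    calc U g (v h (n + 1)) = (U g * B h) (v h n) := by rw [v_succ]; rfl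
      _ = B (h * g) (U g (v h n)) := by rw [U_B]; rfl
      _ = v (h * g) (n + 1) := by rw [ih, v_succ]

lemma U_mul (g h : G) : U g * U h = U (h * g) := by
  refine op_ext fun n => ?_
  show U g (U h (e n)) = _
  rw [U_e, U_e, U_v]

lemma S_one_R : R 1 = 1 := by
  have h : Q 1 = 1 := by
    unfold Q ec ed
    simp
  unfold R
  rw [h, Ring.inverse_one]

lemma B_one : B 1 = S := by
  have h : P 1 = S := by
    unfold P ea eb
    simp
  unfold B
  rw [h, S_one_R, mul_one]

lemma v_one (n : ℕ) : v 1 n = e n := by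
  induction n with
  | zero => rw [v_zero]; unfold ψ; rw [S_one_R]; rfl
  | succ n ih => rw [v_succ, ih, B_one, S_e]

lemma U_one : U 1 = 1 := by
  refine op_ext fun n => ?_
  rw [U_e, v_one]
  rfl

end Pool.Agent.R718.SU11
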