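import Mathlib
import Pool.Agent.R718.SU11Rep

/-!
Helper for `MP_a304db_al`: the number operator, and the boundedness of the action of `SU(1,1)` for
the logarithmically weighted `ℓ²` norm.
-/

set_option autoImplicit false

open scoped ComplexConjugate MatrixGroups Topology NNReal ENNReal

namespace Pool.Agent.R718.SU11

/-- `y = N x` for the number operator `N`. -/
def NR (x y : H) : Prop := ∀ n : ℕ, y n = (n : ℂ) * x n

lemma NR.add {x y x' y' : H} (h : NR x y) (h' : NR x' y') : NR (x + x') (y + y') := fun n => by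
  rw [lp.coeFn_add, lp.coeFn_add, Pi.add_apply, Pi.add_apply, h n, h' n]
  ring

lemma NR.smul {x y : H} (h : NR x y) (c : ℂ) : NR (c • x) (c • y) := fun n => by
  rw [lp.coeFn_smul, lp.coeFn_smul, Pi.smul_apply, Pi.smul_apply, h n, smul_eq_mul, smul_eq_mul]
  ring

lemma NR.zero : NR 0 0 := fun n => by simp

lemma NR.S {x y : H} (h : NR x y) : NR (S x) (S y + S x) := fun n => by
  rw [lp.coeFn_add, Pi.add_apply]
  cases n with
  | zero => rw [S_zero, S_zero]; simp
  | succ n =>
    rw [S_succ, S_succ, h n]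
    push_cast
    ring

lemma NR.P {x y : H} (g : G) (h : NR x y) : NR (P g x) (P g y + ea g • SU11.S x) := by
  have h1 := (h.S.smul (ea g)).add (h.smul (eb g))
  rw [P_apply, P_apply]
  convert h1 using 1
  module

lemma NR.R {x y : H} (g : G) (h : NR x y) :
    NR (R g x) (R g (y - ec g • SU11.S (SU11.R g x))) := by
  set x' := SU11.R g x with hx'
  set y' := SU11.R g (y - ec g • SU11.S x') with hy'
  have h1 : Q g x' = x := by
    rw [hx']
    show (Q g * SU11.R g) x = x
    rw [QR]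
    rfl
  have h2 : Q g y' = y - ec g • SU11.S x' := by
    rw [hy']
    show (Q g * SU11.R g) _ = _
    rw [QR]
    rfl
  have hq : ∀ (z : H) (n : ℕ), Q g z n = ec g * SU11.S z n + ed g * z n := fun z n => rfl
  intro n
  induction n with
  | zero =>
    have h3 : Q g y' 0 = y 0 - ec g * SU11.S x' 0 := by rw [h2]; rfl
    rw [hq, S_zero, S_zero, h 0] at h3
    simp only [mul_zero, zero_add, CharP.cast_eq_zero, zero_mul, sub_zero] at h3
    rw [CharP.cast_eq_zero, zero_mul]
    exact (mul_eq_zero.1 h3).resolve_left (ed_ne g)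
  | succ n ih =>
    have h3 : Q g y' (n + 1) = y (n + 1) - ec g * SU11.S x' (n + 1) := by rw [h2]; rfl
    have h4 : Q g x' (n + 1) = x (n + 1) := by rw [h1]
    rw [hq, S_succ] at h3 h4
    rw [S_succ, h (n + 1), ← h4, ih] at h3
    have h5 : ed g * y' (n + 1) = ed g * (((n + 1 : ℕ) : ℂ) * x' (n + 1)) := by
      push_cast at h3 ⊢
      linear_combination h3
    exact mul_left_cancel₀ (ed_ne g) h5

lemma NR.e0 : NR (e 0) 0 := fun n => by
  rw [e_apply]
  by_cases h : n = 0
  · simp [h]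
  · simp [h]

lemma SQ_comm (g : G) : S * Q g = Q g * S := by
  unfold Q
  simp only [mul_add, add_mul, smul_mul_assoc, mul_smul_comm, mul_one, one_mul]

lemma SR_comm (g : G) : S * R g = R g * S := by
  calc S * R g = (R g * Q g) * (S * R g) := by rw [RQ, one_mul]
    _ = R g * (Q g * S) * R g := by noncomm_ring
    _ = R g * (S * Q g) * R g := by rw [SQ_comm]
    _ = R g * S * (Q g * R g) := by noncomm_ring
    _ = R g * S := by rw [QR, mul_one]

lemma NR.B {x y : H} (g : G) (h : NR x y) :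
    NR (B g x) (B g y + SU11.R g (SU11.S (SU11.R g x))) := by
  have h1 := (h.R g).P g
  have h2 : SU11.P g (SU11.R g (y - ec g • SU11.S (SU11.R g x))) +
      ea g • SU11.S (SU11.R g x) = SU11.B g y + SU11.R g (SU11.S (SU11.R g x)) := by
    set z := SU11.S (SU11.R g x) with hz
    have h3 : SU11.R g z = ea g • z - ec g • SU11.B g z := by
      conv_lhs => rw [R_eq]
      rfl
    rw [h3, map_sub, map_sub, map_smul, map_smul]
    show SU11.B g y - ec g • SU11.B g z + ea g • z = _
    module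
  rw [h2] at h1
  exact h1

/-- The vectors `T e_n`. -/
noncomputable def Tn (g : G) (n : ℕ) : H :=
  (-(((n : ℂ) + 1) * (ec g * ed g))) • e (n + 1) +
    (eb g * ec g + (n : ℂ) * (ea g * ed g + eb g * ec g)) • e n +
    (-((n : ℂ) * (ea g * eb g))) • e (n - 1)

lemma U_Tn (g : G) (n : ℕ) : U g (Tn g n) =
  (-(((n : ℂ) + 1) * (ec g * ed g))) • v g (n + 1) +
    (eb g * ec g + (n : ℂ) * (ea g * ed g + eb g * ec g)) • v g n +
    (-((n : ℂ) * (ea g * eb g))) • v g (n - 1) := by
  unfold Tn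
  rw [map_add, map_add, map_smul, map_smul, map_smul, U_e, U_e, U_e]

lemma SR_apply (g : G) (x : H) : S (R g x) = ed g • B g x - eb g • x := by
  show (S * R g) x = _
  rw [SR_eq]
  rfl

lemma R_apply (g : G) (x : H) : R g x = ea g • x - ec g • B g x := by
  conv_lhs => rw [R_eq]
  rfl

lemma NR_v (g : G) (n : ℕ) : NR (v g n) (U g (Tn g n)) := by
  induction n with
  | zero =>
    have h := (NR.e0).R g
    have h2 : R g (0 - ec g • S (R g (e 0))) = U g (Tn g 0) := by
      rw [U_Tn, zero_sub, map_neg, map_smul]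
      have h3 : R g (S (R g (e 0))) = S (R g (ψ g)) := by
        show (R g * S) (R g (e 0)) = _
        rw [← SR_comm]
        rfl
      rw [h3, SR_apply, ← v_zero, ← v_succ]
      simp only [CharP.cast_eq_zero, zero_add, one_mul, zero_mul, add_zero, neg_zero, zero_smul]
      module
    rw [← h2]
    exact h
  | succ n ih =>
    have h := NR.B g ih
    have h1 : ((n : ℂ)) • v g (n - 1 + 1) = (n : ℂ) • v g n := by
      cases n with
      | zero => simp
      | succ n => rw [Nat.add_sub_cancel]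
    have h2 : B g (U g (Tn g n)) + R g (S (R g (v g n))) = U g (Tn g (n + 1)) := by
      rw [U_Tn, U_Tn, SR_apply, R_apply, Nat.add_sub_cancel]
      simp only [map_add, map_sub, map_smul, ← v_succ]
      have h3 : (-((n : ℂ) * (ea g * eb g))) • v g (n - 1 + 1) =
          (-((n : ℂ) * (ea g * eb g))) • v g n := by
        rw [show (-((n : ℂ) * (ea g * eb g))) = -(ea g * eb g) * (n : ℂ) by ring, mul_smul, h1,
          mul_smul]
      rw [h3]
      push_cast
      module
    rw [h2, ← v_succ] at h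
    exact h

/-- Multiplication by a sequence on the finitely supported sequences. -/
noncomputable def diagF (μ : ℕ → ℂ) : (ℕ →₀ ℂ) →ₗ[ℂ] (ℕ →₀ ℂ) :=
  Finsupp.linearCombination ℂ fun n => Finsupp.single n (μ n)

lemma diagF_single (μ : ℕ → ℂ) (n : ℕ) (c : ℂ) :
    diagF μ (Finsupp.single n c) = Finsupp.single n (μ n * c) := by
  unfold diagF
  rw [Finsupp.linearCombination_single, Finsupp.smul_single, smul_eq_mul, mul_comm]

lemma diagF_apply (μ : ℕ → ℂ) (f : ℕ →₀ ℂ) (n : ℕ) : diagF μ f n = μ n * f n := by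
  have h : Finsupp.lapply n ∘ₗ diagF μ = (μ n) • (Finsupp.lapply n : (ℕ →₀ ℂ) →ₗ[ℂ] ℂ) := by
    refine Finsupp.lhom_ext fun k c => ?_
    rw [LinearMap.comp_apply, diagF_single, LinearMap.smul_apply, Finsupp.lapply_apply,
      Finsupp.lapply_apply, Finsupp.single_apply, Finsupp.single_apply, smul_eq_mul]
    by_cases h : k = n
    · rw [if_pos h, if_pos h, h]
    · rw [if_neg h, if_neg h, mul_zero]
  exact LinearMap.congr_fun h f

lemma normsq_diagF (μ : ℕ → ℂ) (f : ℕ →₀ ℂ) :
    ‖ι0 (diagF μ f)‖ ^ 2 = ∑ n ∈ f.support, ‖μ n‖ ^ 2 * ‖f n‖ ^ 2 := by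
  rw [normsq, tsum_eq_sum (s := f.support)]
  · refine Finset.sum_congr rfl fun n _ => ?_
    rw [ι0_apply, diagF_apply, norm_mul, mul_pow]
  · intro n hn
    rw [ι0_apply, diagF_apply, Finsupp.notMem_support_iff.1 hn]
    simp

lemma normsq_ι0 (f : ℕ →₀ ℂ) : ‖ι0 f‖ ^ 2 = ∑ n ∈ f.support, ‖f n‖ ^ 2 := by
  rw [normsq, tsum_eq_sum (s := f.support)]
  · refine Finset.sum_congr rfl fun n _ => ?_
    rw [ι0_apply]
  · intro n hn
    rw [ι0_apply, Finsupp.notMem_support_iff.1 hn]
    simp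

/-- `Z = T + 1`. -/
noncomputable def Z (g : G) : (ℕ →₀ ℂ) →ₗ[ℂ] H := Finsupp.linearCombination ℂ fun n => Tn g n + e n

lemma NR_Z (g : G) (f : ℕ →₀ ℂ) : NR (U g (ι0 f)) (U g (Z g f) - U g (ι0 f)) := by
  induction f using Finsupp.induction_linear with
  | zero => simpa using NR.zero
  | add f h hf hh =>
    have := hf.add hh
    rw [map_add, map_add, map_add, map_add]
    convert this using 1
    abel
  | single n c =>
    rw [ι0_single]
    unfold Z
    rw [Finsupp.linearCombination_single, ← map_sub, smul_add, add_sub_cancel_right, map_smul,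
      map_smul, U_e]
    exact (NR_v g n).smul c

lemma U_Z_apply (g : G) (f : ℕ →₀ ℂ) (n : ℕ) :
    U g (Z g f) n = ((n : ℂ) + 1) * U g (ι0 f) n := by
  have h := NR_Z g f n
  rw [lp.coeFn_sub, Pi.sub_apply] at h
  linear_combination h

/-- The weight `w(g) = (|a| + |b|)²`. -/
noncomputable def wt (g : G) : ℝ := (‖ea g‖ + ‖eb g‖) ^ 2

lemma one_le_wt (g : G) : 1 ≤ wt g := by
  unfold wt
  have h1 := one_le_norm_ea g
  have h2 := norm_nonneg (eb g)
  nlinarith

lemma Sb_e_succ (n : ℕ) : Sb (e (n + 1)) = e n := by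
  ext k
  rw [Sb_apply, e_apply, e_apply]
  by_cases h : k = n
  · rw [if_pos h, if_pos (by omega)]
  · rw [if_neg h, if_neg (by omega)]

lemma Sb_e_zero : Sb (e 0) = 0 := by
  ext k
  rw [Sb_apply, e_apply, if_neg (by omega)]
  rfl

/-- The sequence `n + 1`. -/
def lam (n : ℕ) : ℂ := (n : ℂ) + 1

lemma lam_ne (n : ℕ) : lam n ≠ 0 := by
  unfold lam
  exact_mod_cast Nat.succ_ne_zero n

lemma norm_lam (n : ℕ) : ‖lam n‖ = (n : ℝ) + 1 := by
  unfold lam
  rw [show ((n : ℂ) + 1) = ((n + 1 : ℕ) : ℂ) by push_cast; ring, Complex.norm_natCast]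
  push_cast
  ring

lemma mu_bound (g : G) (n : ℕ) :
    ‖(ea g * ed g + (n : ℂ) * (ea g * ed g + eb g * ec g)) / lam n‖ ≤
      ‖ea g‖ ^ 2 + ‖eb g‖ ^ 2 := by
  have h0 : (0 : ℝ) < (n : ℝ) + 1 := by positivity
  rw [norm_div, norm_lam, div_le_iff₀ h0]
  calc ‖ea g * ed g + (n : ℂ) * (ea g * ed g + eb g * ec g)‖
      ≤ ‖ea g * ed g‖ + ‖(n : ℂ) * (ea g * ed g + eb g * ec g)‖ := norm_add_le _ _
    _ ≤ ‖ea g‖ ^ 2 + n * (‖ea g‖ ^ 2 + ‖eb g‖ ^ 2) := by
        gcongr
        · rw [norm_mul, norm_ed, sq]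
        · rw [norm_mul, Complex.norm_natCast]
          gcongr
          refine (norm_add_le _ _).trans ?_
          rw [norm_mul, norm_mul, norm_ed, norm_ec, sq, sq]
    _ ≤ (‖ea g‖ ^ 2 + ‖eb g‖ ^ 2) * (n + 1) := by
        have := sq_nonneg ‖eb g‖
        nlinarith

lemma nu_bound (n : ℕ) : ‖(n : ℂ) / lam n‖ ≤ 1 := by
  have h0 : (0 : ℝ) < (n : ℝ) + 1 := by positivity
  rw [norm_div, norm_lam, div_le_iff₀ h0, Complex.norm_natCast]
  linarith

lemma diagOp_e (μ : ℕ → ℂ) (C : ℝ) (hC : 0 ≤ C) (h : ∀ n, ‖μ n‖ ≤ C) (n : ℕ) :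
    diagOp μ C hC h (e n) = μ n • e n := by
  ext k
  rw [diagOp_apply, lp.coeFn_smul, Pi.smul_apply, e_apply, smul_eq_mul]
  by_cases hk : k = n
  · rw [if_pos hk, hk]
  · rw [if_neg hk, mul_zero, mul_zero]

lemma Z_eq (g : G) (f : ℕ →₀ ℂ) : Z g f = (-(ec g * ed g)) • S (ι0 (diagF lam f)) +
    diagOp (fun n => (ea g * ed g + (n : ℂ) * (ea g * ed g + eb g * ec g)) / lam n)
      (‖ea g‖ ^ 2 + ‖eb g‖ ^ 2) (by positivity) (mu_bound g) (ι0 (diagF lam f)) +
    (-(ea g * eb g)) • Sb (diagOp (fun n => (n : ℂ) / lam n) 1 zero_le_one nu_bound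
      (ι0 (diagF lam f))) := by
  induction f using Finsupp.induction_linear with
  | zero => simp
  | add f h hf hh =>
    rw [map_add, hf, hh]
    simp only [map_add, smul_add]
    abel
  | single n c =>
    rw [diagF_single, ι0_single]
    unfold Z
    rw [Finsupp.linearCombination_single]
    simp only [map_smul, S_e, diagOp_e]
    have h1 : (n : ℂ) • Sb (e n) = (n : ℂ) • e (n - 1) := by
      cases n with
      | zero => simp
      | succ n => rw [Nat.add_sub_cancel, Sb_e_succ]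
    have h2 : (lam n * c) • ((n : ℂ) / lam n) • Sb (e n) = c • (n : ℂ) • e (n - 1) := by
      rw [← h1, smul_smul, smul_smul]
      congr 1
      have := lam_ne n
      field_simp
    have h3 : (lam n * c) • ((ea g * ed g + (n : ℂ) * (ea g * ed g + eb g * ec g)) / lam n) • e n =
        c • (ea g * ed g + (n : ℂ) * (ea g * ed g + eb g * ec g)) • e n := by
      rw [smul_smul, smul_smul]
      congr 1
      have := lam_ne n
      field_simp
    rw [h2, h3]
    unfold Tn lam
    have h4 : ea g * ed g = 1 + eb g * ec g := by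
      have := det_eq g
      linear_combination this
    rw [h4]
    module

lemma norm_Z_le (g : G) (f : ℕ →₀ ℂ) : ‖Z g f‖ ≤ wt g * ‖ι0 (diagF lam f)‖ := by
  rw [Z_eq]
  set x := ι0 (diagF lam f)
  calc _ ≤ ‖(-(ec g * ed g)) • S x‖ + ‖diagOp (fun n => (ea g * ed g + (n : ℂ) *
          (ea g * ed g + eb g * ec g)) / lam n) (‖ea g‖ ^ 2 + ‖eb g‖ ^ 2) (by positivity)
          (mu_bound g) x‖ + ‖(-(ea g * eb g)) • Sb (diagOp (fun n => (n : ℂ) / lam n) 1 zero_le_one
          nu_bound x)‖ := norm_add₃_le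
    _ ≤ (‖eb g‖ * ‖ea g‖) * ‖x‖ + (‖ea g‖ ^ 2 + ‖eb g‖ ^ 2) * ‖x‖ + (‖ea g‖ * ‖eb g‖) * ‖x‖ := by
        gcongr
        · rw [norm_smul, norm_neg, norm_mul, norm_ec, norm_ed, S_isom]
        · exact diagOp_norm _ _ _ _ x
        · rw [norm_smul, norm_neg, norm_mul]
          gcongr
          refine (Sb_norm _).trans ?_
          have := diagOp_norm (fun n => (n : ℂ) / lam n) 1 zero_le_one nu_bound x
          rwa [one_mul] at this
    _ = wt g * ‖x‖ := by unfold wt; ring

end Pool.Agent.R718.SU11
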