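import Mathlib
import Pool.Agent.R718.SU11Sob

/-!
Helper for `MP_a304db_al`: the logarithmic weight, and the representation of `SU(1,1)` on weighted
`ℓ²` spaces.
-/

set_option autoImplicit false

open scoped ComplexConjugate MatrixGroups Topology NNReal ENNReal

namespace Pool.Agent.R718.SU11

/-! ## Interpolation -/

lemma H1_bound (g : G) (f : ℕ →₀ ℂ) (N : ℕ) :
    ∑ n ∈ Finset.range N, ((n : ℝ) + 1) ^ 2 * ‖U g (ι0 f) n‖ ^ 2 ≤
      wt g ^ 2 * ‖ι0 (diagF lam f)‖ ^ 2 := by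
  calc ∑ n ∈ Finset.range N, ((n : ℝ) + 1) ^ 2 * ‖U g (ι0 f) n‖ ^ 2
      = ∑ n ∈ Finset.range N, ‖U g (Z g f) n‖ ^ 2 := by
        refine Finset.sum_congr rfl fun n _ => ?_
        rw [U_Z_apply, norm_mul, mul_pow]
        have h := norm_lam n
        unfold lam at h
        rw [h]
    _ ≤ ‖U g (Z g f)‖ ^ 2 := sum_le_normsq _ _
    _ = ‖Z g f‖ ^ 2 := by rw [norm_U]
    _ ≤ (wt g * ‖ι0 (diagF lam f)‖) ^ 2 := by
        gcongr
        exact norm_Z_le g f
    _ = wt g ^ 2 * ‖ι0 (diagF lam f)‖ ^ 2 := by ring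

/-- `κ_t(n) = λ²/(1 + tλ²)` with `λ = n + 1`. -/
noncomputable def kap (t : ℝ) (n : ℕ) : ℝ := ((n : ℝ) + 1) ^ 2 / (1 + t * ((n : ℝ) + 1) ^ 2)

lemma kap_bound (g : G) (f : ℕ →₀ ℂ) (N : ℕ) (t : ℝ) (ht : 0 < t) :
    ∑ n ∈ Finset.range N, kap t n * ‖U g (ι0 f) n‖ ^ 2 ≤
      wt g ^ 2 * ∑ n ∈ f.support, kap t n * ‖f n‖ ^ 2 := by
  let μ : ℕ → ℂ := fun n => ((t * ((n : ℝ) + 1) ^ 2 / (1 + t * ((n : ℝ) + 1) ^ 2) : ℝ) : ℂ)
  let ν : ℕ → ℂ := fun n => ((1 / (1 + t * ((n : ℝ) + 1) ^ 2) : ℝ) : ℂ)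
  have hpos : ∀ n : ℕ, 0 < 1 + t * ((n : ℝ) + 1) ^ 2 := fun n => by positivity
  have hf : f = diagF μ f + diagF ν f := by
    ext n
    rw [Finsupp.add_apply, diagF_apply, diagF_apply, ← add_mul]
    have h1 : μ n + ν n = 1 := by
      simp only [μ, ν]
      rw [← Complex.ofReal_add, ← add_div, add_comm (t * ((n : ℝ) + 1) ^ 2) 1, div_self (hpos n).ne']
      simp
    rw [h1, one_mul]
  have hU : ∀ n, U g (ι0 f) n = U g (ι0 (diagF μ f)) n + U g (ι0 (diagF ν f)) n := fun n => by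
    conv_lhs => rw [hf]
    rw [map_add, map_add]
    rfl
  have h2 : ∀ (n : ℕ) (x y : ℂ), kap t n * ‖x + y‖ ^ 2 ≤
      t⁻¹ * ‖x‖ ^ 2 + ((n : ℝ) + 1) ^ 2 * ‖y‖ ^ 2 := by
    intro n x y
    have h3 : ‖x + y‖ ^ 2 ≤ (‖x‖ + ‖y‖) ^ 2 := by
      gcongr
      exact norm_add_le x y
    have h4 : 0 ≤ kap t n := by
      unfold kap
      positivity
    refine (mul_le_mul_of_nonneg_left h3 h4).trans ?_
    unfold kap
    rw [div_mul_eq_mul_div, div_le_iff₀ (hpos n)]
    have h5 : (t⁻¹ * ‖x‖ ^ 2 + ((n : ℝ) + 1) ^ 2 * ‖y‖ ^ 2) * (1 + t * ((n : ℝ) + 1) ^ 2) -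
        ((n : ℝ) + 1) ^ 2 * (‖x‖ + ‖y‖) ^ 2 = t⁻¹ * (‖x‖ - t * ((n : ℝ) + 1) ^ 2 * ‖y‖) ^ 2 := by
      field_simp
      ring
    have h6 : 0 ≤ t⁻¹ * (‖x‖ - t * ((n : ℝ) + 1) ^ 2 * ‖y‖) ^ 2 := by positivity
    linarith
  have h7 : diagF lam (diagF ν f) = diagF (fun n => lam n * ν n) f := by
    ext n
    rw [diagF_apply, diagF_apply, diagF_apply, mul_assoc]
  calc ∑ n ∈ Finset.range N, kap t n * ‖U g (ι0 f) n‖ ^ 2
      ≤ ∑ n ∈ Finset.range N, (t⁻¹ * ‖U g (ι0 (diagF μ f)) n‖ ^ 2 +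
          ((n : ℝ) + 1) ^ 2 * ‖U g (ι0 (diagF ν f)) n‖ ^ 2) := by
        refine Finset.sum_le_sum fun n _ => ?_
        rw [hU]
        exact h2 n _ _
    _ = t⁻¹ * ∑ n ∈ Finset.range N, ‖U g (ι0 (diagF μ f)) n‖ ^ 2 +
        ∑ n ∈ Finset.range N, ((n : ℝ) + 1) ^ 2 * ‖U g (ι0 (diagF ν f)) n‖ ^ 2 := by
        rw [Finset.sum_add_distrib, Finset.mul_sum]
    _ ≤ t⁻¹ * ‖ι0 (diagF μ f)‖ ^ 2 + wt g ^ 2 * ‖ι0 (diagF lam (diagF ν f))‖ ^ 2 := by
        gcongr
        · refine (sum_le_normsq _ _).trans ?_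
          rw [norm_U]
        · exact H1_bound g _ N
    _ ≤ wt g ^ 2 * (t⁻¹ * ‖ι0 (diagF μ f)‖ ^ 2) +
          wt g ^ 2 * ‖ι0 (diagF lam (diagF ν f))‖ ^ 2 := by
        refine add_le_add ?_ le_rfl
        have h8 : 1 ≤ wt g ^ 2 := one_le_pow₀ (one_le_wt g)
        have h9 : 0 ≤ t⁻¹ * ‖ι0 (diagF μ f)‖ ^ 2 := by positivity
        nlinarith
    _ = wt g ^ 2 * ∑ n ∈ f.support, kap t n * ‖f n‖ ^ 2 := by
        rw [h7, normsq_diagF, normsq_diagF, ← mul_add]
        congr 1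
        rw [Finset.mul_sum, ← Finset.sum_add_distrib]
        refine Finset.sum_congr rfl fun n _ => ?_
        simp only [μ, ν]
        rw [norm_mul, norm_lam, Complex.norm_real, Complex.norm_real, Real.norm_eq_abs,
          Real.norm_eq_abs, sq_abs, mul_pow, sq_abs]
        unfold kap
        have := hpos n
        field_simp
        ring

/-- The logarithmic weight. -/
noncomputable def W0 (n : ℕ) : ℝ := 1 + Real.log (1 + ((n : ℝ) + 1) ^ 2)

lemma log_bound (g : G) (f : ℕ →₀ ℂ) (N : ℕ) :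
    ∑ n ∈ Finset.range N, Real.log (1 + ((n : ℝ) + 1) ^ 2) * ‖U g (ι0 f) n‖ ^ 2 ≤
      wt g ^ 2 * ∑ n ∈ f.support, Real.log (1 + ((n : ℝ) + 1) ^ 2) * ‖f n‖ ^ 2 := by
  let Φ : ℝ → ℝ := fun t =>
    wt g ^ 2 * ∑ n ∈ f.support, Real.log (1 + t * ((n : ℝ) + 1) ^ 2) * ‖f n‖ ^ 2 -
      ∑ n ∈ Finset.range N, Real.log (1 + t * ((n : ℝ) + 1) ^ 2) * ‖U g (ι0 f) n‖ ^ 2
  have h1 : ∀ (t : ℝ) (n : ℕ), 0 ≤ t → HasDerivAt (fun t : ℝ => Real.log (1 + t * ((n : ℝ) + 1) ^ 2))
      (kap t n) t := by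
    intro t n ht
    have h2 : HasDerivAt (fun t : ℝ => 1 + t * ((n : ℝ) + 1) ^ 2) (((n : ℝ) + 1) ^ 2) t := by
      have := ((hasDerivAt_id t).mul_const (((n : ℝ) + 1) ^ 2)).const_add 1
      simpa using this
    have h3 : (1 + t * ((n : ℝ) + 1) ^ 2) ≠ 0 := by positivity
    exact h2.log h3
  have h2 : ∀ t : ℝ, 0 ≤ t → HasDerivAt Φ (wt g ^ 2 * ∑ n ∈ f.support, kap t n * ‖f n‖ ^ 2 -
      ∑ n ∈ Finset.range N, kap t n * ‖U g (ι0 f) n‖ ^ 2) t := by
    intro t ht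
    refine HasDerivAt.sub (HasDerivAt.const_mul _ ?_) ?_
    · exact HasDerivAt.fun_sum fun n _ => (h1 t n ht).mul_const _
    · exact HasDerivAt.fun_sum fun n _ => (h1 t n ht).mul_const _
  have h3 : MonotoneOn Φ (Set.Icc 0 1) := by
    refine monotoneOn_of_deriv_nonneg (convex_Icc 0 1) ?_ ?_ ?_
    · exact fun t ht => (h2 t ht.1).continuousAt.continuousWithinAt
    · intro t ht
      rw [interior_Icc] at ht
      exact (h2 t ht.1.le).differentiableAt.differentiableWithinAt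
    · intro t ht
      rw [interior_Icc] at ht
      rw [(h2 t ht.1.le).deriv, sub_nonneg]
      exact kap_bound g f N t ht.1
  have h4 : Φ 0 ≤ Φ 1 := h3 (by simp) (by simp) zero_le_one
  simp only [Φ, zero_mul, add_zero, Real.log_one, Finset.sum_const_zero, mul_zero, sub_zero,
    one_mul, sub_nonneg] at h4
  exact h4

/-- The weights for which the group acts on the weighted space. -/
structure GoodW (W : ℕ → ℝ) : Prop where
  one_le : ∀ n, 1 ≤ W n
  le_sq : ∀ n, W n ≤ 2 * ((n : ℝ) + 1) ^ 2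
  bound : ∀ (g : G) (f : ℕ →₀ ℂ) (N : ℕ),
    ∑ n ∈ Finset.range N, W n * ‖U g (ι0 f) n‖ ^ 2 ≤ wt g ^ 2 * ∑ n ∈ f.support, W n * ‖f n‖ ^ 2

lemma good_one : GoodW fun _ => 1 where
  one_le _ := le_rfl
  le_sq n := by nlinarith [Nat.cast_nonneg (α := ℝ) n]
  bound g f N := by
    simp only [one_mul]
    calc ∑ n ∈ Finset.range N, ‖U g (ι0 f) n‖ ^ 2 ≤ ‖U g (ι0 f)‖ ^ 2 := sum_le_normsq _ _
      _ = ‖ι0 f‖ ^ 2 := by rw [norm_U]
      _ = 1 * ∑ n ∈ f.support, ‖f n‖ ^ 2 := by rw [normsq_ι0, one_mul]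
      _ ≤ wt g ^ 2 * ∑ n ∈ f.support, ‖f n‖ ^ 2 := by
          gcongr
          exact one_le_pow₀ (one_le_wt g)

lemma good_W0 : GoodW W0 where
  one_le n := by
    unfold W0
    have : 0 ≤ Real.log (1 + ((n : ℝ) + 1) ^ 2) := Real.log_nonneg (by nlinarith [sq_nonneg ((n : ℝ) + 1)])
    linarith
  le_sq n := by
    unfold W0
    have h1 : Real.log (1 + ((n : ℝ) + 1) ^ 2) ≤ (1 + ((n : ℝ) + 1) ^ 2) - 1 :=
      Real.log_le_sub_one_of_pos (by positivity)
    nlinarith [Nat.cast_nonneg (α := ℝ) n]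
  bound g f N := by
    have h1 := log_bound g f N
    have h2 := good_one.bound g f N
    simp only [one_mul] at h2
    unfold W0
    simp only [add_mul, one_mul, Finset.sum_add_distrib, mul_add]
    linarith

section Weighted

variable {W : ℕ → ℝ}

lemma sqrtW_pos (hW : GoodW W) (n : ℕ) : 0 < Real.sqrt (W n) :=
  Real.sqrt_pos.2 (lt_of_lt_of_le zero_lt_one (hW.one_le n))

/-- The map from the weighted space (as `ℓ²`) to `ℓ²`. -/
noncomputable def J (hW : GoodW W) : H →L[ℂ] H :=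
  diagOp (fun n => ((1 / Real.sqrt (W n) : ℝ) : ℂ)) 1 zero_le_one fun n => by
    rw [Complex.norm_real, Real.norm_eq_abs, abs_of_pos (by have := sqrtW_pos hW n; positivity),
      div_le_one (sqrtW_pos hW n)]
    exact Real.one_le_sqrt.2 (hW.one_le n)

lemma J_apply (hW : GoodW W) (x : H) (n : ℕ) : J hW x n = ((1 / Real.sqrt (W n) : ℝ) : ℂ) * x n :=
  rfl

lemma J_apply' (hW : GoodW W) (x : H) (n : ℕ) : x n = (Real.sqrt (W n) : ℂ) * J hW x n := by
  rw [J_apply, ← mul_assoc, ← Complex.ofReal_mul, mul_one_div_cancel (sqrtW_pos hW n).ne']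
  simp

lemma J_injective (hW : GoodW W) : Function.Injective (J hW) := by
  intro x y h
  ext n
  rw [J_apply' hW x, J_apply' hW y, h]

/-- The inclusion of the finitely supported sequences in the weighted space. -/
noncomputable def ιW (W : ℕ → ℝ) : (ℕ →₀ ℂ) →ₗ[ℂ] H :=
  ι0 ∘ₗ diagF fun n => (Real.sqrt (W n) : ℂ)

lemma ιW_apply (f : ℕ →₀ ℂ) (n : ℕ) : ιW W f n = (Real.sqrt (W n) : ℂ) * f n := by
  show ι0 (diagF _ f) n = _
  rw [ι0_apply, diagF_apply]

lemma J_ιW (hW : GoodW W) (f : ℕ →₀ ℂ) : J hW (ιW W f) = ι0 f := by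
  ext n
  rw [J_apply, ιW_apply, ι0_apply, ← mul_assoc, ← Complex.ofReal_mul,
    one_div_mul_cancel (sqrtW_pos hW n).ne']
  simp

lemma normsq_ιW (hW : GoodW W) (f : ℕ →₀ ℂ) :
    ‖ιW W f‖ ^ 2 = ∑ n ∈ f.support, W n * ‖f n‖ ^ 2 := by
  show ‖ι0 (diagF _ f)‖ ^ 2 = _
  rw [normsq_diagF]
  refine Finset.sum_congr rfl fun n _ => ?_
  rw [Complex.norm_real, Real.norm_eq_abs, sq_abs, Real.sq_sqrt]
  linarith [hW.one_le n]

lemma ιW_single (n : ℕ) (c : ℂ) :
    ιW W (Finsupp.single n c) = ((Real.sqrt (W n) : ℂ) * c) • e n := by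
  show ι0 (diagF _ _) = _
  rw [diagF_single, ι0_single]

lemma dense_ιW (hW : GoodW W) : DenseRange (ιW W) := by
  refine dense_ι0.mono (Set.range_subset_iff.2 fun f => ?_)
  refine ⟨diagF (fun n => ((1 / Real.sqrt (W n) : ℝ) : ℂ)) f, ?_⟩
  ext n
  rw [ιW_apply, diagF_apply, ι0_apply, ← mul_assoc, ← Complex.ofReal_mul,
    mul_one_div_cancel (sqrtW_pos hW n).ne']
  simp

lemma trunc_apply (x : ℕ → ℂ) (k n : ℕ) :
    (∑ j ∈ Finset.range k, Finsupp.single j (x j)) n = if n < k then x n else 0 := by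
  rw [Finsupp.finsetSum_apply]
  simp only [Finsupp.single_apply]
  rw [Finset.sum_ite_eq' (Finset.range k) n x]
  simp only [Finset.mem_range]

lemma bound_limit (hW : GoodW W) (g : G) (y : H) (N : ℕ) :
    ∑ n ∈ Finset.range N, ‖(Real.sqrt (W n) : ℂ) * U g (J hW y) n‖ ^ 2 ≤ (wt g * ‖y‖) ^ 2 := by
  have h1 := ((U g).continuous.tendsto _).comp (tendsto_trunc (J hW y))
  have h2 : Filter.Tendsto (fun k => ∑ n ∈ Finset.range N, ‖(Real.sqrt (W n) : ℂ) *
      U g (ι0 (∑ n ∈ Finset.range k, Finsupp.single n (J hW y n))) n‖ ^ 2) Filter.atTop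
      (𝓝 (∑ n ∈ Finset.range N, ‖(Real.sqrt (W n) : ℂ) * U g (J hW y) n‖ ^ 2)) := by
    refine tendsto_finsetSum _ fun n _ => ?_
    have h3 := ((coord n).continuous.tendsto _).comp h1
    exact ((h3.const_mul _).norm.pow 2)
  refine le_of_tendsto' h2 fun k => ?_
  set f := ∑ n ∈ Finset.range k, Finsupp.single n (J hW y n) with hf
  have h4 := hW.bound g f N
  rw [← normsq_ιW hW] at h4
  have h5 : ‖ιW W f‖ ^ 2 ≤ ‖y‖ ^ 2 := by
    refine normsq_le fun M => (Finset.sum_le_sum fun n _ => ?_).trans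
      (sum_le_normsq y (Finset.range M))
    have h6 : ιW W f n = if n < k then y n else 0 := by
      rw [ιW_apply, hf, trunc_apply]
      by_cases h : n < k
      · rw [if_pos h, if_pos h, ← J_apply' hW y]
      · rw [if_neg h, if_neg h, mul_zero]
    rw [h6]
    by_cases h : n < k
    · rw [if_pos h]
    · rw [if_neg h, norm_zero]
      simp
  have h7 : ∀ n, ‖(Real.sqrt (W n) : ℂ) * U g (ι0 f) n‖ ^ 2 = W n * ‖U g (ι0 f) n‖ ^ 2 := by
    intro n
    rw [norm_mul, mul_pow, Complex.norm_real, Real.norm_eq_abs, sq_abs, Real.sq_sqrt]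
    linarith [hW.one_le n]
  simp only [h7]
  calc _ ≤ wt g ^ 2 * ‖ιW W f‖ ^ 2 := h4
    _ ≤ wt g ^ 2 * ‖y‖ ^ 2 := by gcongr
    _ = (wt g * ‖y‖) ^ 2 := by ring

/-- The action on the weighted space. -/
noncomputable def UW (hW : GoodW W) (g : G) : H →L[ℂ] H :=
  mkOp (fun y n => (Real.sqrt (W n) : ℂ) * U g (J hW y) n) (wt g)
    (le_trans zero_le_one (one_le_wt g))
    (fun x y n => by rw [map_add, map_add, lp.coeFn_add, Pi.add_apply]; ring)
    (fun c x n => by rw [map_smul, map_smul, lp.coeFn_smul, Pi.smul_apply, smul_eq_mul]; ring)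
    (bound_limit hW g)

lemma UW_norm (hW : GoodW W) (g : G) (y : H) : ‖UW hW g y‖ ≤ wt g * ‖y‖ := by
  unfold UW
  exact mkOp_norm _ _ _ _ _ _ y

lemma UW_apply (hW : GoodW W) (g : G) (y : H) (n : ℕ) :
    UW hW g y n = (Real.sqrt (W n) : ℂ) * U g (J hW y) n := rfl

lemma J_UW (hW : GoodW W) (g : G) (y : H) : J hW (UW hW g y) = U g (J hW y) := by
  ext n
  rw [J_apply, UW_apply, ← mul_assoc, ← Complex.ofReal_mul, one_div_mul_cancel (sqrtW_pos hW n).ne']
  simp

lemma UW_mul (hW : GoodW W) (g h : G) : UW hW g * UW hW h = UW hW (h * g) := by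
  refine ContinuousLinearMap.ext fun y => J_injective hW ?_
  show J hW (UW hW g (UW hW h y)) = _
  rw [J_UW, J_UW, J_UW, ← U_mul]
  rfl

lemma UW_one (hW : GoodW W) : UW hW 1 = 1 := by
  refine ContinuousLinearMap.ext fun y => J_injective hW ?_
  rw [J_UW, U_one]
  rfl

/-- The representation of `G` on the weighted space. -/
noncomputable def ρW (hW : GoodW W) : G →* (H →L[ℂ] H) where
  toFun g := UW hW g⁻¹
  map_one' := by rw [inv_one, UW_one]
  map_mul' g h := by rw [mul_inv_rev, UW_mul]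

/-- The diagonal operator `√W/(n + 1)`. -/
noncomputable def DW (hW : GoodW W) : H →L[ℂ] H :=
  diagOp (fun n => (Real.sqrt (W n) : ℂ) / lam n) 2 zero_le_two fun n => by
    rw [norm_div, norm_lam, Complex.norm_real, Real.norm_eq_abs, abs_of_pos (sqrtW_pos hW n),
      div_le_iff₀ (by positivity)]
    refine Real.sqrt_le_iff.2 ⟨by positivity, ?_⟩
    have := hW.le_sq n
    nlinarith [sq_nonneg ((n : ℝ) + 1)]

lemma UW_ιW (hW : GoodW W) (g : G) (f : ℕ →₀ ℂ) : UW hW g (ιW W f) = DW hW (U g (Z g f)) := by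
  ext n
  rw [UW_apply, J_ιW]
  show _ = ((Real.sqrt (W n) : ℂ) / lam n) * U g (Z g f) n
  rw [U_Z_apply]
  have := lam_ne n
  unfold lam at this ⊢
  field_simp

/-! ## Continuity -/

lemma continuous_entry (i j : Fin 2) : Continuous fun g : G => g.1.1 i j := by
  have h1 : Continuous fun g : G => (g : SL(2, ℂ)) := continuous_subtype_val
  have h2 : Continuous fun g : SL(2, ℂ) => (g : Matrix (Fin 2) (Fin 2) ℂ) := continuous_subtype_val
  exact ((h2.comp h1).matrix_elem i j)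

lemma continuous_P : Continuous P := by
  unfold P
  exact ((continuous_entry 0 0).smul continuous_const).add
    ((continuous_entry 0 1).smul continuous_const)

lemma continuous_Q : Continuous Q := by
  unfold Q
  exact ((continuous_entry 1 0).smul continuous_const).add
    ((continuous_entry 1 1).smul continuous_const)

lemma continuous_R : Continuous R := by
  refine continuous_iff_continuousAt.2 fun g => ?_
  obtain ⟨u, hu⟩ := isUnit_Q g
  have h1 : ContinuousAt Ring.inverse (Q g) := by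
    rw [← hu]
    exact NormedRing.inverse_continuousAt u
  exact ContinuousAt.comp (f := Q) (g := Ring.inverse) h1 continuous_Q.continuousAt

lemma continuous_B : Continuous B := continuous_P.mul continuous_R

lemma continuous_v (n : ℕ) : Continuous fun g => v g n := by
  induction n with
  | zero => exact continuous_R.clm_apply continuous_const
  | succ n ih =>
    simp only [v_succ]
    exact continuous_B.clm_apply ih

lemma continuous_U_Z (f : ℕ →₀ ℂ) : Continuous fun g => U g (Z g f) := by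
  induction f using Finsupp.induction_linear with
  | zero => simp [continuous_const]
  | add f h hf hh =>
    simp only [map_add]
    exact hf.add hh
  | single n c =>
    have h1 : ∀ g, U g (Z g (Finsupp.single n c)) = c • (U g (Tn g n) + v g n) := fun g => by
      unfold Z
      rw [Finsupp.linearCombination_single, map_smul, map_add, U_e]
    simp only [h1, U_Tn]
    have ha : Continuous ea := continuous_entry 0 0
    have hb : Continuous eb := continuous_entry 0 1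
    have hc : Continuous ec := continuous_entry 1 0
    have hd : Continuous ed := continuous_entry 1 1
    have hv := continuous_v
    have hv1 := hv (n + 1)
    have hv2 := hv n
    have hv3 := hv (n - 1)
    fun_prop

lemma continuous_wt : Continuous wt := by
  have ha : Continuous ea := continuous_entry 0 0
  have hb : Continuous eb := continuous_entry 0 1
  unfold wt
  fun_prop

lemma continuous_UW_ιW (hW : GoodW W) (f : ℕ →₀ ℂ) : Continuous fun g => UW hW g (ιW W f) := by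
  simp only [UW_ιW]
  exact (DW hW).continuous.comp (continuous_U_Z f)

lemma continuous_UW (hW : GoodW W) : Continuous fun x : G × H => UW hW x.1 x.2 := by
  refine continuous_iff_continuousAt.2 fun ⟨g, y⟩ => ?_
  refine Metric.tendsto_nhds.2 fun ε hε => ?_
  set M : ℝ := wt g + 1 with hM
  have hM1 : 0 < M := by
    have := one_le_wt g
    linarith
  set δ : ℝ := ε / (4 * M) with hδ
  have hδ1 : 0 < δ := by positivity
  obtain ⟨f, hf⟩ : ∃ f, dist y (ιW W f) < δ := (dense_ιW hW).exists_dist_lt y hδ1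
  have e1 : ∀ᶠ x : G × H in 𝓝 (g, y), wt x.1 < M := by
    have : Filter.Tendsto (fun x : G × H => wt x.1) (𝓝 (g, y)) (𝓝 (wt g)) :=
      (continuous_wt.comp continuous_fst).tendsto (g, y)
    exact this.eventually (gt_mem_nhds (by rw [hM]; linarith))
  have e2 : ∀ᶠ x : G × H in 𝓝 (g, y), dist x.2 y < δ := by
    have : Filter.Tendsto (fun x : G × H => x.2) (𝓝 (g, y)) (𝓝 y) := continuous_snd.tendsto (g, y)
    exact Metric.tendsto_nhds.1 this δ hδ1
  have e3 : ∀ᶠ x : G × H in 𝓝 (g, y), dist (UW hW x.1 (ιW W f)) (UW hW g (ιW W f)) < ε / 4 := by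
    have : Filter.Tendsto (fun x : G × H => UW hW x.1 (ιW W f)) (𝓝 (g, y))
        (𝓝 (UW hW g (ιW W f))) := ((continuous_UW_ιW hW f).comp continuous_fst).tendsto (g, y)
    exact Metric.tendsto_nhds.1 this _ (by positivity)
  filter_upwards [e1, e2, e3] with x h1 h2 h3
  have h4 : UW hW x.1 x.2 - UW hW g y = UW hW x.1 (x.2 - y) + UW hW x.1 (y - ιW W f) +
      (UW hW x.1 (ιW W f) - UW hW g (ιW W f)) - UW hW g (y - ιW W f) := by
    simp only [map_sub]
    abel
  rw [dist_eq_norm] at h2 h3 hf ⊢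
  rw [h4]
  have h5 : ‖UW hW x.1 (x.2 - y)‖ ≤ M * δ :=
    (UW_norm hW _ _).trans (mul_le_mul h1.le h2.le (norm_nonneg _) hM1.le)
  have h6 : ‖UW hW x.1 (y - ιW W f)‖ ≤ M * δ :=
    (UW_norm hW _ _).trans (mul_le_mul h1.le hf.le (norm_nonneg _) hM1.le)
  have h7 : ‖UW hW g (y - ιW W f)‖ ≤ M * δ :=
    (UW_norm hW _ _).trans (mul_le_mul (by rw [hM]; linarith) hf.le (norm_nonneg _) hM1.le)
  have h8 : M * δ = ε / 4 := by
    rw [hδ]
    field_simp
  rw [h8] at h5 h6 h7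
  calc _ ≤ ‖UW hW x.1 (x.2 - y)‖ + ‖UW hW x.1 (y - ιW W f)‖ +
        ‖UW hW x.1 (ιW W f) - UW hW g (ιW W f)‖ + ‖UW hW g (y - ιW W f)‖ :=
        (norm_sub_le _ _).trans (add_le_add_left (norm_add₃_le) _)
    _ < ε := by linarith

lemma wt_inv (g : G) : wt g⁻¹ = wt g := by
  unfold wt ea eb
  rw [Subgroup.coe_inv, Matrix.SpecialLinearGroup.coe_inv, Matrix.adjugate_fin_two]
  simp only [Matrix.of_apply, Matrix.cons_val', Matrix.cons_val_zero, Matrix.cons_val_one,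
    Matrix.cons_val_fin_one, norm_neg]
  have h := norm_ed g
  unfold ed ea at h
  rw [h]

lemma ρW_apply (hW : GoodW W) (g : G) : ρW hW g = UW hW g⁻¹ := rfl

lemma continuous_ρW (hW : GoodW W) : Continuous fun x : G × H => ρW hW x.1 x.2 := by
  have h1 : Continuous fun x : G × H => (x.1⁻¹, x.2) := by fun_prop
  have h2 : (fun x : G × H => ρW hW x.1 x.2) =
      (fun x : G × H => UW hW x.1 x.2) ∘ fun x : G × H => (x.1⁻¹, x.2) := by
    funext x
    rw [ρW_apply]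
    rfl
  rw [h2]
  exact (continuous_UW hW).comp h1

end Weighted

/-- The weight is submultiplicative. -/
lemma wt_mul (g h : G) : wt (g * h) ≤ wt g * wt h := by
  have h1 : ea (g * h) = ea g * ea h + eb g * ec h := by
    unfold ea eb ec
    simp [Matrix.mul_apply, Fin.sum_univ_two]
  have h2 : eb (g * h) = ea g * eb h + eb g * ed h := by
    unfold ea eb ed
    simp [Matrix.mul_apply, Fin.sum_univ_two]
  have h3 : ‖ea (g * h)‖ ≤ ‖ea g‖ * ‖ea h‖ + ‖eb g‖ * ‖eb h‖ := by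
    rw [h1]
    refine (norm_add_le _ _).trans ?_
    rw [norm_mul, norm_mul, norm_ec]
  have h4 : ‖eb (g * h)‖ ≤ ‖ea g‖ * ‖eb h‖ + ‖eb g‖ * ‖ea h‖ := by
    rw [h2]
    refine (norm_add_le _ _).trans ?_
    rw [norm_mul, norm_mul, norm_ed]
  unfold wt
  calc (‖ea (g * h)‖ + ‖eb (g * h)‖) ^ 2
      ≤ ((‖ea g‖ + ‖eb g‖) * (‖ea h‖ + ‖eb h‖)) ^ 2 := by
        gcongr
        linarith
    _ = (‖ea g‖ + ‖eb g‖) ^ 2 * (‖ea h‖ + ‖eb h‖) ^ 2 := by ring

lemma isWeight_wt : IsWeight wt where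
  pos g := lt_of_lt_of_le zero_lt_one (one_le_wt g)
  mul_le := wt_mul
  locally_bounded g := ⟨wt g + 1, by
    have : Filter.Tendsto wt (𝓝 g) (𝓝 (wt g)) := continuous_wt.tendsto g
    exact (this.eventually (gt_mem_nhds (by linarith))).mono fun _ h => h.le⟩

end Pool.Agent.R718.SU11
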