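import Mathlib
import Pool.Agent.R718.SU11W

/-!
Helper for `MP_a304db_al`: the Harish-Chandra module, the derivative of the group action and the
`K`-finite vectors.
-/

set_option autoImplicit false

open scoped ComplexConjugate MatrixGroups Topology NNReal ENNReal

namespace Pool.Agent.R718.SU11

/-- finitely supported sequences -/
abbrev V : Type := ℕ →₀ ℂ

/-! ## The Harish-Chandra module -/

/-- `e_n ↦ (2n+1) e_n` -/
noncomputable def Hop : V →ₗ[ℂ] V := diagF fun n => 2 * (n : ℂ) + 1

/-- `e_n ↦ n e_{n-1}` -/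
noncomputable def Lop : V →ₗ[ℂ] V :=
  Finsupp.linearCombination ℂ fun n => Finsupp.single (n - 1) (n : ℂ)

/-- `e_n ↦ (n+1) e_{n+1}` -/
noncomputable def Rop : V →ₗ[ℂ] V :=
  Finsupp.linearCombination ℂ fun n => Finsupp.single (n + 1) ((n : ℂ) + 1)

lemma Hop_single (n : ℕ) (c : ℂ) :
    Hop (Finsupp.single n c) = Finsupp.single n ((2 * (n : ℂ) + 1) * c) := diagF_single _ _ _

lemma Lop_single (n : ℕ) (c : ℂ) :
    Lop (Finsupp.single n c) = Finsupp.single (n - 1) (n * c) := by
  unfold Lop
  rw [Finsupp.linearCombination_single, Finsupp.smul_single, smul_eq_mul, mul_comm]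

lemma Rop_single (n : ℕ) (c : ℂ) :
    Rop (Finsupp.single n c) = Finsupp.single (n + 1) (((n : ℂ) + 1) * c) := by
  unfold Rop
  rw [Finsupp.linearCombination_single, Finsupp.smul_single, smul_eq_mul, mul_comm]

/-- The action of the matrix `(α, β; β̄, -α)`. -/
noncomputable def lieF (X : Matrix (Fin 2) (Fin 2) ℂ) : V →ₗ[ℂ] V :=
  (-(X 0 0)) • Hop + (-(X 0 1)) • Lop + (conj (X 0 1)) • Rop

lemma lieF_single (X : Matrix (Fin 2) (Fin 2) ℂ) (n : ℕ) (c : ℂ) :
    lieF X (Finsupp.single n c) = (-(X 0 0)) • Finsupp.single n ((2 * (n : ℂ) + 1) * c) +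
      (-(X 0 1)) • Finsupp.single (n - 1) ((n : ℂ) * c) +
      (conj (X 0 1)) • Finsupp.single (n + 1) (((n : ℂ) + 1) * c) := by
  show (-(X 0 0)) • Hop _ + (-(X 0 1)) • Lop _ + (conj (X 0 1)) • Rop _ = _
  rw [Hop_single, Lop_single, Rop_single]

lemma HL : Hop ∘ₗ Lop - Lop ∘ₗ Hop = (-2 : ℂ) • Lop := by
  refine Finsupp.lhom_ext fun n c => ?_
  simp only [LinearMap.sub_apply, LinearMap.comp_apply, LinearMap.smul_apply, Lop_single,
    Hop_single, Finsupp.smul_single, smul_eq_mul, ← Finsupp.single_sub]
  cases n with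
  | zero => simp
  | succ n =>
    congr 1
    push_cast [Nat.add_sub_cancel]
    ring

lemma HR : Hop ∘ₗ Rop - Rop ∘ₗ Hop = (2 : ℂ) • Rop := by
  refine Finsupp.lhom_ext fun n c => ?_
  simp only [LinearMap.sub_apply, LinearMap.comp_apply, LinearMap.smul_apply, Rop_single,
    Hop_single, Finsupp.smul_single, smul_eq_mul, ← Finsupp.single_sub]
  congr 1
  push_cast
  ring

lemma LR : Lop ∘ₗ Rop - Rop ∘ₗ Lop = Hop := by
  refine Finsupp.lhom_ext fun n c => ?_
  simp only [LinearMap.sub_apply, LinearMap.comp_apply, Rop_single, Lop_single,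
    Hop_single, Nat.add_sub_cancel]
  cases n with
  | zero => simp
  | succ n =>
    rw [Nat.add_sub_cancel, ← Finsupp.single_sub]
    congr 1
    push_cast
    ring

lemma lieF_bracket (X Y : su11) (v : V) :
    lieF ((X : Matrix (Fin 2) (Fin 2) ℂ) * Y - Y * X) v =
      lieF X (lieF Y v) - lieF Y (lieF X v) := by
  obtain ⟨X, hX1, hX2, hX3⟩ := X
  obtain ⟨Y, hY1, hY2, hY3⟩ := Y
  have h1 := LinearMap.congr_fun HL v
  have h2 := LinearMap.congr_fun HR v
  have h3 := LinearMap.congr_fun LR v
  simp only [LinearMap.sub_apply, LinearMap.comp_apply, LinearMap.smul_apply] at h1 h2 h3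
  have e1 : Hop (Lop v) = Lop (Hop v) + (-2 : ℂ) • Lop v := by rw [← h1]; abel
  have e2 : Hop (Rop v) = Rop (Hop v) + (2 : ℂ) • Rop v := by rw [← h2]; abel
  have e3 : Lop (Rop v) = Rop (Lop v) + Hop v := by rw [← h3]; abel
  unfold lieF
  simp only [LinearMap.add_apply, LinearMap.smul_apply, map_add, map_smul, Matrix.sub_apply,
    Matrix.mul_apply, Fin.sum_univ_two, hX2, hX3, hY2, hY3, e1, e2, e3, map_sub, map_mul, map_neg,
    hX1, hY1, Complex.conj_conj]
  module

lemma pow_circle_ne {m k : ℤ} (h : ((Circle.exp 1 : Circle) : ℂ) ^ m = (Circle.exp 1 : ℂ) ^ k) :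
    m = k := by
  rw [Circle.coe_exp, ← Complex.exp_int_mul, ← Complex.exp_int_mul,
    Complex.exp_eq_exp_iff_exists_int] at h
  obtain ⟨n, hn⟩ := h
  have h1 : (m : ℂ) = k + n * (2 * Real.pi) := by
    have h2 : (m : ℂ) * Complex.I = ((k : ℂ) + n * (2 * Real.pi)) * Complex.I := by
      push_cast at hn
      linear_combination hn
    exact mul_right_cancel₀ Complex.I_ne_zero h2
  have h2 : (m : ℝ) = k + n * (2 * Real.pi) := by exact_mod_cast h1
  by_cases hn0 : n = 0
  · rw [hn0] at h2
    simp only [Int.cast_zero, zero_mul, add_zero] at h2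
    exact_mod_cast h2
  · exfalso
    have hn1 : (n : ℝ) ≠ 0 := by exact_mod_cast hn0
    apply irrational_pi
    refine ⟨((m - k : ℤ) : ℚ) / (2 * n : ℤ), ?_⟩
    push_cast
    rw [h2]
    field_simp
    ring

/-- The action of `K`. -/
noncomputable def kF : Circle →* Module.End ℂ V where
  toFun u := diagF fun n => (u : ℂ) ^ (-(2 * (n : ℤ) + 1))
  map_one' := by
    refine Finsupp.lhom_ext fun n c => ?_
    rw [diagF_single]
    simp
  map_mul' u w := by
    refine Finsupp.lhom_ext fun n c => ?_
    rw [diagF_single, Module.End.mul_apply, diagF_single, diagF_single]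
    congr 1
    rw [Circle.coe_mul, mul_zpow]
    ring

lemma kF_apply (u : Circle) (f : V) (n : ℕ) : kF u f n = (u : ℂ) ^ (-(2 * (n : ℤ) + 1)) * f n :=
  diagF_apply _ _ _

lemma kF_single (u : Circle) (n : ℕ) (c : ℂ) :
    kF u (Finsupp.single n c) = Finsupp.single n ((u : ℂ) ^ (-(2 * (n : ℤ) + 1)) * c) :=
  diagF_single _ _ _

lemma single_mem_ktype (n : ℕ) (c : ℂ) : Finsupp.single n c ∈ ktype kF (-(2 * (n : ℤ) + 1)) := by
  intro u
  rw [kF_single, Finsupp.smul_single, smul_eq_mul]

lemma ktype_apply {m : ℤ} {v : V} (hv : v ∈ ktype kF m) (n : ℕ) (hn : v n ≠ 0) :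
    m = -(2 * (n : ℤ) + 1) := by
  have h1 := hv (Circle.exp 1)
  have h2 := DFunLike.congr_fun h1 n
  rw [kF_apply, Finsupp.smul_apply, smul_eq_mul] at h2
  exact (pow_circle_ne (mul_right_cancel₀ hn h2)).symm

/-- The Harish-Chandra module. -/
noncomputable def M : HCModule V where
  lie :=
    { toFun := fun X => lieF X
      map_add' := fun X Y => by
        unfold lieF
        simp only [Submodule.coe_add, Matrix.add_apply, map_add]
        module
      map_smul' := fun c X => by
        unfold lieF
        simp only [Submodule.coe_smul, Matrix.smul_apply, Complex.real_smul, map_mul,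
          Complex.conj_ofReal, RingHom.id_apply]
        refine LinearMap.ext fun v => ?_
        simp only [LinearMap.add_apply, LinearMap.smul_apply]
        rw [show (c • (-(X : Matrix (Fin 2) (Fin 2) ℂ) 0 0 • Hop v +
          -(X : Matrix (Fin 2) (Fin 2) ℂ) 0 1 • Lop v +
          conj ((X : Matrix (Fin 2) (Fin 2) ℂ) 0 1) • Rop v) : V) =
          (c : ℂ) • (-(X : Matrix (Fin 2) (Fin 2) ℂ) 0 0 • Hop v +
          -(X : Matrix (Fin 2) (Fin 2) ℂ) 0 1 • Lop v +
          conj ((X : Matrix (Fin 2) (Fin 2) ℂ) 0 1) • Rop v) from rfl]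
        module }
  k := kF
  lie_bracket X Y Z h v := by
    show lieF Z v = _
    rw [h]
    exact lieF_bracket X Y v
  iSup_ktype := by
    rw [eq_top_iff]
    intro v _
    induction v using Finsupp.induction_linear with
    | zero => exact zero_mem _
    | add f h hf hh => exact add_mem (hf trivial) (hh trivial)
    | single n c => exact Submodule.mem_iSup_of_mem _ (single_mem_ktype n c)
  lie_hh m v hv := by
    show lieF hh v = _
    have h1 : Hop v = (-(m : ℂ)) • v := by
      ext n
      unfold Hop
      rw [diagF_apply, Finsupp.smul_apply, smul_eq_mul]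
      by_cases h : v n = 0
      · rw [h, mul_zero, mul_zero]
      · rw [ktype_apply hv n h]
        push_cast
        ring
    unfold lieF hh
    simp only [LinearMap.add_apply, LinearMap.smul_apply, h1]
    simp only [Matrix.of_apply, Matrix.cons_val', Matrix.cons_val_zero, Matrix.cons_val_one,
      Matrix.cons_val_fin_one, neg_zero, zero_smul, add_zero, map_zero]
    module
  ad u X Y h v := by
    show kF u (lieF X v) = lieF Y (kF u v)
    have hu : (u : ℂ) ≠ 0 := Circle.coe_ne_zero u
    have h0 := congrFun (congrFun h 0) 0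
    have h1 := congrFun (congrFun h 0) 1
    rw [Subgroup.coe_inv, Matrix.SpecialLinearGroup.coe_inv, Matrix.adjugate_fin_two] at h0 h1
    simp only [kk, Matrix.mul_apply, Fin.sum_univ_two, Matrix.of_apply, Matrix.cons_val',
      Matrix.cons_val_zero, Matrix.cons_val_one, Matrix.cons_val_fin_one, neg_zero, mul_zero,
      zero_mul, add_zero, zero_add] at h0 h1
    have hc : conj (u : ℂ) = (u : ℂ)⁻¹ := (Circle.coe_inv_eq_conj u).symm
    rw [hc, mul_comm (u : ℂ), mul_assoc, mul_inv_cancel₀ hu, mul_one] at h0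
    have h1' : conj ((Y : Matrix (Fin 2) (Fin 2) ℂ) 0 1) =
        (u : ℂ)⁻¹ * conj ((X : Matrix (Fin 2) (Fin 2) ℂ) 0 1) * (u : ℂ)⁻¹ := by
      rw [h1, map_mul, map_mul, hc]
    induction v using Finsupp.induction_linear with
    | zero => simp
    | add f h hf hh => simp only [map_add, hf, hh]
    | single n c =>
      rw [kF_single, lieF_single, lieF_single, map_add, map_add, map_smul, map_smul, map_smul,
        kF_single, kF_single, kF_single, h0, h1', h1]
      simp only [Finsupp.smul_single, smul_eq_mul]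
      congr 1
      · congr 1
        · congr 1
          ring
        · cases n with
          | zero => simp
          | succ n =>
            congr 1
            rw [Nat.add_sub_cancel]
            push_cast
            rw [show (-(2 * (n : ℤ) + 1)) = (-(2 * ((n : ℤ) + 1) + 1)) + 2 by ring,
              zpow_add₀ hu, zpow_two]
            ring
      · congr 1
        push_cast
        rw [show (-(2 * (n : ℤ) + 1)) = (-(2 * ((n : ℤ) + 1) + 1)) + 2 by ring,
          zpow_add₀ hu, zpow_two]
        field_simp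
  admissible m := by
    have h : ktype kF m ≤ Submodule.span ℂ {(Finsupp.single ((-m - 1) / 2).toNat (1 : ℂ) : V)} := by
      intro v hv
      rw [Submodule.mem_span_singleton]
      refine ⟨v ((-m - 1) / 2).toNat, ?_⟩
      ext n
      rw [Finsupp.smul_apply, Finsupp.single_apply, smul_eq_mul]
      by_cases h : ((-m - 1) / 2).toNat = n
      · rw [if_pos h, mul_one, h]
      · rw [if_neg h, mul_zero]
        by_contra h2
        have h3 := ktype_apply hv n (Ne.symm h2)
        apply h
        omega
    exact Submodule.finiteDimensional_of_le h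
  finite_generation := by
    refine ⟨{Finsupp.single 0 1}, fun W hW hS => ?_⟩
    have hR : ∀ v ∈ W, Rop v ∈ W := by
      intro v hv
      let X1 : su11 := ⟨!![0, 1; 1, 0], by refine ⟨?_, ?_, ?_⟩ <;> simp⟩
      let X2 : su11 := ⟨!![0, Complex.I; -Complex.I, 0], by refine ⟨?_, ?_, ?_⟩ <;> simp⟩
      have h1 : lieF X1 v ∈ W := hW X1 v hv
      have h2 : lieF X2 v ∈ W := hW X2 v hv
      have h3 : Rop v = (2⁻¹ : ℂ) • (lieF X1 v + Complex.I • lieF X2 v) := by
        unfold lieF
        simp only [X1, X2, LinearMap.add_apply, LinearMap.smul_apply, Matrix.of_apply,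
          Matrix.cons_val', Matrix.cons_val_zero, Matrix.cons_val_one, Matrix.cons_val_fin_one,
          neg_zero, zero_smul, zero_add, map_one, Complex.conj_I, smul_add, smul_smul]
        rw [show Complex.I * -Complex.I = 1 by simp]
        module
      rw [h3]
      exact W.smul_mem _ (W.add_mem h1 (W.smul_mem _ h2))
    have h1 : ∀ n : ℕ, (Finsupp.single n (1 : ℂ) : V) ∈ W := by
      intro n
      induction n with
      | zero => exact hS (by simp)
      | succ n ih =>
        have h2 := W.smul_mem ((n : ℂ) + 1)⁻¹ (hR _ ih)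
        rw [Rop_single, Finsupp.smul_single, smul_eq_mul, mul_one, inv_mul_cancel₀] at h2
        · exact h2
        · exact_mod_cast Nat.succ_ne_zero n
    rw [eq_top_iff]
    intro v _
    induction v using Finsupp.induction_linear with
    | zero => exact zero_mem _
    | add f h hf hh => exact add_mem (hf trivial) (hh trivial)
    | single n c =>
      have := W.smul_mem c (h1 n)
      rwa [Finsupp.smul_single, smul_eq_mul, mul_one] at this

end Pool.Agent.R718.SU11
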