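import Mathlib
import Pool.Agent.R718.SU11Mod

/-!
Helper for `MP_a304db_al`: the derivative of the group action, and the `K`-finite vectors.
-/

set_option autoImplicit false

open scoped ComplexConjugate MatrixGroups Topology NNReal ENNReal

namespace Pool.Agent.R718.SU11

/-! ## The derivative of the action -/

lemma hasDerivAt_clm {A : ℝ → H →L[ℂ] H} {A' : H →L[ℂ] H} {x : ℝ → H} {x' : H}
    (hA : HasDerivAt A A' 0) (hx : HasDerivAt x x' 0) :
    HasDerivAt (fun t => A t (x t)) (A' (x 0) + A 0 x') 0 := by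
  let L := ContinuousLinearMap.restrictScalarsL ℂ H H ℝ ℝ
  have h1 : HasDerivAt (fun t => L (A t)) (L A') 0 := L.hasFDerivAt.comp_hasDerivAt 0 hA
  exact h1.clm_apply hx

section

variable {γ : ℝ → G} {a' b' c' d' : ℂ}

lemma hasDerivAt_P (ha : HasDerivAt (fun t => ea (γ t)) a' 0)
    (hb : HasDerivAt (fun t => eb (γ t)) b' 0) :
    HasDerivAt (fun t => P (γ t)) (a' • S + b' • 1) 0 := by
  unfold P
  exact (ha.smul_const S).add (hb.smul_const (1 : H →L[ℂ] H))

lemma hasDerivAt_Q (hc : HasDerivAt (fun t => ec (γ t)) c' 0)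
    (hd : HasDerivAt (fun t => ed (γ t)) d' 0) :
    HasDerivAt (fun t => Q (γ t)) (c' • S + d' • 1) 0 := by
  unfold Q
  exact (hc.smul_const S).add (hd.smul_const (1 : H →L[ℂ] H))

lemma Q_one : Q 1 = 1 := by
  unfold Q ec ed
  simp

lemma P_one : P 1 = S := by
  unfold P ea eb
  simp

lemma hasDerivAt_R (h0 : γ 0 = 1) (hc : HasDerivAt (fun t => ec (γ t)) c' 0)
    (hd : HasDerivAt (fun t => ed (γ t)) d' 0) :
    HasDerivAt (fun t => R (γ t)) (-(c' • S + d' • 1)) 0 := by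
  have h1 := hasDerivAt_Q hc hd
  have h2 := hasFDerivAt_ringInverse (𝕜 := ℝ) (1 : (H →L[ℂ] H)ˣ)
  have h3 : ((1 : (H →L[ℂ] H)ˣ) : H →L[ℂ] H) = Q (γ 0) := by
    rw [h0, Q_one, Units.val_one]
  rw [h3] at h2
  have h4 := h2.comp_hasDerivAt (0 : ℝ) h1
  refine h4.congr_deriv ?_
  show -(((1 : (H →L[ℂ] H)ˣ)⁻¹ : (H →L[ℂ] H)ˣ).val * (c' • S + d' • 1) *
    ((1 : (H →L[ℂ] H)ˣ)⁻¹ : (H →L[ℂ] H)ˣ).val) = _
  rw [inv_one, Units.val_one, one_mul, mul_one]

lemma hasDerivAt_B (h0 : γ 0 = 1) (ha : HasDerivAt (fun t => ea (γ t)) a' 0)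
    (hb : HasDerivAt (fun t => eb (γ t)) b' 0) (hc : HasDerivAt (fun t => ec (γ t)) c' 0)
    (hd : HasDerivAt (fun t => ed (γ t)) d' 0) :
    HasDerivAt (fun t => B (γ t)) ((a' • S + b' • 1) - S * (c' • S + d' • 1)) 0 := by
  have h := (hasDerivAt_P ha hb).mul (hasDerivAt_R h0 hc hd)
  rw [h0, P_one, S_one_R, mul_one, mul_neg, ← sub_eq_add_neg] at h
  exact h

/-- The derivative of `v_n`. -/
noncomputable def Dv (a' b' c' d' : ℂ) (n : ℕ) : H :=
  ((n : ℂ) * a' - ((n : ℂ) + 1) * d') • e n + ((n : ℂ) * b') • e (n - 1) +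
    (-(((n : ℂ) + 1) * c')) • e (n + 1)

lemma hasDerivAt_v (h0 : γ 0 = 1) (ha : HasDerivAt (fun t => ea (γ t)) a' 0)
    (hb : HasDerivAt (fun t => eb (γ t)) b' 0) (hc : HasDerivAt (fun t => ec (γ t)) c' 0)
    (hd : HasDerivAt (fun t => ed (γ t)) d' 0) (n : ℕ) :
    HasDerivAt (fun t => v (γ t) n) (Dv a' b' c' d' n) 0 := by
  induction n with
  | zero =>
    have h1 : HasDerivAt (fun _ : ℝ => e 0) (0 : H) 0 := hasDerivAt_const _ _
    have h2 := hasDerivAt_clm (hasDerivAt_R h0 hc hd) h1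
    have h3 : (-(c' • S + d' • 1) : H →L[ℂ] H) (e 0) + R (γ 0) 0 = Dv a' b' c' d' 0 := by
      rw [map_zero, add_zero]
      show -(c' • S (e 0) + d' • e 0) = _
      rw [S_e]
      unfold Dv
      simp only [CharP.cast_eq_zero, zero_mul, zero_sub, zero_add, one_mul, zero_smul, add_zero]
      module
    rw [h3] at h2
    exact h2
  | succ n ih =>
    have h1 := hasDerivAt_clm (hasDerivAt_B h0 ha hb hc hd) ih
    have h2 : ((a' • S + b' • 1) - S * (c' • S + d' • 1) : H →L[ℂ] H) (v (γ 0) n) +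
        B (γ 0) (Dv a' b' c' d' n) = Dv a' b' c' d' (n + 1) := by
      rw [h0, v_one, B_one]
      show (a' • S (e n) + b' • e n) - S (c' • S (e n) + d' • e n) + _ = _
      have h3 : (n : ℂ) • e (n - 1 + 1) = (n : ℂ) • e n := by
        cases n with
        | zero => simp
        | succ n => rw [Nat.add_sub_cancel]
      have h4 : ((n : ℂ) * b') • e (n - 1 + 1) = ((n : ℂ) * b') • e n := by
        rw [mul_comm, mul_smul, h3, mul_smul]
      unfold Dv
      simp only [map_add, map_smul, S_e, h4, Nat.add_sub_cancel]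
      push_cast
      module
    rw [h2] at h1
    simp only [v_succ]
    exact h1

end

end Pool.Agent.R718.SU11
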