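import Mathlib
import Pool.Agent.R718.SU11Der

/-!
Helper for `MP_a304db_al`: the completions of the Harish-Chandra module for the weighted norms.
-/

set_option autoImplicit false

open scoped ComplexConjugate MatrixGroups Topology NNReal ENNReal

namespace Pool.Agent.R718.SU11

section

variable {γ : ℝ → G} {a' b' c' d' : ℂ}

lemma ea_one : ea 1 = 1 := by unfold ea; simp
lemma eb_one : eb 1 = 0 := by unfold eb; simp
lemma ec_one : ec 1 = 0 := by unfold ec; simp
lemma ed_one : ed 1 = 1 := by unfold ed; simp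

lemma hasDerivAt_UZ (h0 : γ 0 = 1) (ha : HasDerivAt (fun t => ea (γ t)) a' 0)
    (hb : HasDerivAt (fun t => eb (γ t)) b' 0) (hc : HasDerivAt (fun t => ec (γ t)) c' 0)
    (hd : HasDerivAt (fun t => ed (γ t)) d' 0) (had : a' + d' = 0) (n : ℕ) :
    HasDerivAt (fun t => U (γ t) (Z (γ t) (Finsupp.single n 1)))
      (((n : ℂ) + 1) • Dv a' b' c' d' n + (-(((n : ℂ) + 1) * c')) • e (n + 1) +
        (-((n : ℂ) * b')) • e (n - 1)) 0 := by
  have h1 : (fun t => U (γ t) (Z (γ t) (Finsupp.single n 1))) = fun t =>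
      (((-(((n : ℂ) + 1) * (ec (γ t) * ed (γ t)))) • v (γ t) (n + 1) +
      (eb (γ t) * ec (γ t) + (n : ℂ) * (ea (γ t) * ed (γ t) + eb (γ t) * ec (γ t))) • v (γ t) n +
      (-((n : ℂ) * (ea (γ t) * eb (γ t)))) • v (γ t) (n - 1)) + v (γ t) n) := by
    funext t
    unfold Z
    rw [Finsupp.linearCombination_single, one_smul, map_add, U_e, U_Tn]
  rw [h1]
  have hv := hasDerivAt_v h0 ha hb hc hd
  have hcd := hc.mul hd
  have hbc := hb.mul hc
  have had' := ha.mul hd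
  have hab := ha.mul hb
  rw [h0, ea_one, eb_one] at hab
  rw [h0, ea_one, ed_one] at had'
  rw [h0, eb_one, ec_one] at hbc
  rw [h0, ec_one, ed_one] at hcd
  have k1 := ((hcd.const_mul ((n : ℂ) + 1)).neg).smul (hv (n + 1))
  have k2 := (hbc.add ((had'.add hbc).const_mul (n : ℂ))).smul (hv n)
  have k3 := ((hab.const_mul (n : ℂ)).neg).smul (hv (n - 1))
  have k4 := ((k1.add k2).add k3).add (hv n)
  refine (k4.congr_deriv ?_)
  simp only [Pi.mul_apply, Pi.add_apply, Pi.neg_apply, h0, ea_one, eb_one, ec_one, ed_one, v_one]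
  have h2 : d' = -a' := by linear_combination had
  subst h2
  simp only [mul_zero, zero_mul, add_zero, zero_add, mul_one, one_mul, neg_zero, zero_smul,
    add_neg_cancel]
  module

end

lemma DW_e {W : ℕ → ℝ} (hW : GoodW W) (n : ℕ) :
    DW hW (e n) = ((Real.sqrt (W n) : ℂ) / lam n) • e n := by
  unfold DW
  rw [diagOp_e]

lemma inv_entries (g : G) : ea g⁻¹ = ed g ∧ eb g⁻¹ = -eb g ∧ ec g⁻¹ = -ec g ∧ ed g⁻¹ = ea g := by
  unfold ea eb ec ed
  rw [Subgroup.coe_inv, Matrix.SpecialLinearGroup.coe_inv, Matrix.adjugate_fin_two]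
  simp only [Matrix.of_apply, Matrix.cons_val', Matrix.cons_val_zero, Matrix.cons_val_one,
    Matrix.cons_val_fin_one, and_self]

lemma DW_deriv {W : ℕ → ℝ} (hW : GoodW W) (α β : ℂ) (n : ℕ) :
    DW hW (((n : ℂ) + 1) • Dv (-α) (-β) (-conj β) α n +
        (-(((n : ℂ) + 1) * (-conj β))) • e (n + 1) + (-((n : ℂ) * (-β))) • e (n - 1)) =
      ιW W ((-α) • Finsupp.single n ((2 * (n : ℂ) + 1) * 1) +
      (-β) • Finsupp.single (n - 1) ((n : ℂ) * 1) +
      (conj β) • Finsupp.single (n + 1) (((n : ℂ) + 1) * 1)) := by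
  unfold Dv
  simp only [map_add, map_smul, DW_e, ιW_single, smul_add]
  have h1 : ∀ m : ℕ, ((Real.sqrt (W m) : ℂ) / lam m) • e m =
      (lam m)⁻¹ • ((Real.sqrt (W m) : ℂ) • e m) := fun m => by
    rw [smul_smul]
    congr 1
    ring
  have hl : lam n ≠ 0 := lam_ne n
  have hl1 : lam (n + 1) ≠ 0 := lam_ne (n + 1)
  simp only [smul_smul]
  cases n with
  | zero =>
    unfold lam at *
    simp only [CharP.cast_eq_zero, zero_mul, mul_zero, neg_zero, zero_smul, zero_add, add_zero,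
      mul_one, one_mul, zero_sub, Nat.zero_sub, Nat.cast_one, div_one] at *
    have h3 : (1 : ℂ) + 1 = 2 := by norm_num
    rw [h3]
    module
  | succ n =>
    rw [Nat.add_sub_cancel]
    have hl2 : lam n ≠ 0 := lam_ne n
    have e1 : ∀ c : ℂ, c * ((Real.sqrt (W n) : ℂ) / lam n) = c * (lam n)⁻¹ * Real.sqrt (W n) :=
      fun c => by ring
    have e2 : ∀ c : ℂ, c * ((Real.sqrt (W (n + 1)) : ℂ) / lam (n + 1)) =
      c * (lam (n + 1))⁻¹ * Real.sqrt (W (n + 1)) := fun c => by ring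
    have e3 : ∀ c : ℂ, c * ((Real.sqrt (W (n + 1 + 1)) : ℂ) / lam (n + 1 + 1)) =
      c * (lam (n + 1 + 1))⁻¹ * Real.sqrt (W (n + 1 + 1)) := fun c => by ring
    unfold lam at *
    push_cast at *
    match_scalars
    · field_simp
      ring
    · field_simp
      ring
    · field_simp

theorem hasDerivAt_ρ {W : ℕ → ℝ} (hW : GoodW W) (X : su11) (γ : ℝ → G) (h0 : γ 0 = 1)
    (hγ : HasDerivAt (fun t => ((γ t : SL(2, ℂ)) : Matrix (Fin 2) (Fin 2) ℂ))
      (X : Matrix (Fin 2) (Fin 2) ℂ) 0) (f : V) :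
    HasDerivAt (fun t => ρW hW (γ t) (ιW W f)) (ιW W (lieF X f)) 0 := by
  have hent : ∀ i j, HasDerivAt (fun t => (γ t).1.1 i j) (X.1 i j) 0 := fun i j =>
    hasDerivAt_pi.1 (hasDerivAt_pi.1 hγ i) j
  obtain ⟨hX1, hX2, hX3⟩ := X.2
  have ha : HasDerivAt (fun t => ea (γ t)⁻¹) (-(X.1 0 0)) 0 := by
    have h := hent 1 1
    rw [hX2] at h
    simp only [(inv_entries _).1]
    exact h
  have hb : HasDerivAt (fun t => eb (γ t)⁻¹) (-(X.1 0 1)) 0 := by
    have h := (hent 0 1).neg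
    simp only [(inv_entries _).2.1]
    exact h
  have hc : HasDerivAt (fun t => ec (γ t)⁻¹) (-conj (X.1 0 1)) 0 := by
    have h := (hent 1 0).neg
    rw [hX3] at h
    simp only [(inv_entries _).2.2.1]
    exact h
  have hd : HasDerivAt (fun t => ed (γ t)⁻¹) (X.1 0 0) 0 := by
    have h := hent 0 0
    simp only [(inv_entries _).2.2.2]
    exact h
  have h0' : (γ 0)⁻¹ = 1 := by rw [h0, inv_one]
  have hbasis : ∀ n, HasDerivAt (fun t => ρW hW (γ t) (ιW W (Finsupp.single n 1)))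
      (ιW W (lieF X (Finsupp.single n 1))) 0 := by
    intro n
    have h1 := hasDerivAt_UZ (γ := fun t => (γ t)⁻¹) h0' ha hb hc hd (by ring) n
    have h2 := (((DW hW).restrictScalars ℝ).hasFDerivAt).comp_hasDerivAt (0 : ℝ) h1
    have h3 : ((DW hW).restrictScalars ℝ ∘ fun t => U (γ t)⁻¹ (Z (γ t)⁻¹ (Finsupp.single n 1))) =
        fun t => ρW hW (γ t) (ιW W (Finsupp.single n 1)) := by
      funext t
      rw [ρW_apply, UW_ιW]
      rfl
    rw [h3] at h2
    refine h2.congr_deriv ?_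
    rw [lieF_single]
    exact DW_deriv hW _ _ n
  induction f using Finsupp.induction_linear with
  | zero =>
    simp only [map_zero]
    exact hasDerivAt_const _ _
  | add f h hf hh =>
    simp only [map_add]
    exact hf.add hh
  | single n c =>
    have h1 : Finsupp.single n c = c • (Finsupp.single n (1 : ℂ) : V) := by
      rw [Finsupp.smul_single, smul_eq_mul, mul_one]
    rw [h1]
    simp only [map_smul]
    exact (hbasis n).const_smul c

/-! ## The `K`-finite vectors -/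

lemma kk_inv_entries (u : Circle) : ea (kk u)⁻¹ = (u : ℂ)⁻¹ ∧ eb (kk u)⁻¹ = 0 ∧ ec (kk u)⁻¹ = 0 ∧
    ed (kk u)⁻¹ = (u : ℂ) := by
  have hc : conj (u : ℂ) = (u : ℂ)⁻¹ := (Circle.coe_inv_eq_conj u).symm
  obtain ⟨h1, h2, h3, h4⟩ := inv_entries (kk u)
  rw [h1, h2, h3, h4, ← hc]
  unfold ea eb ec ed kk
  simp

lemma v_kk (u : Circle) (n : ℕ) : v (kk u)⁻¹ n = ((u : ℂ) ^ (-(2 * (n : ℤ) + 1))) • e n := by
  have hu : (u : ℂ) ≠ 0 := Circle.coe_ne_zero u
  obtain ⟨h1, h2, h3, h4⟩ := kk_inv_entries u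
  have hP : P (kk u)⁻¹ = (u : ℂ)⁻¹ • S := by
    unfold P
    rw [h1, h2, zero_smul, add_zero]
  have hQ : Q (kk u)⁻¹ = (u : ℂ) • 1 := by
    unfold Q
    rw [h3, h4, zero_smul, zero_add]
  have hR : R (kk u)⁻¹ = (u : ℂ)⁻¹ • 1 := by
    have h := RQ (kk u)⁻¹
    rw [hQ, mul_smul_comm, mul_one] at h
    rw [← h, smul_smul, inv_mul_cancel₀ hu, one_smul]
  have hB : B (kk u)⁻¹ = ((u : ℂ)⁻¹ * (u : ℂ)⁻¹) • S := by
    unfold B
    rw [hP, hR, smul_mul_smul_comm, mul_one]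
  induction n with
  | zero =>
    rw [v_zero]
    unfold ψ
    rw [hR]
    show (u : ℂ)⁻¹ • e 0 = _
    simp
  | succ n ih =>
    rw [v_succ, ih, hB, map_smul]
    show _ • (((u : ℂ)⁻¹ * (u : ℂ)⁻¹) • S (e n)) = _
    rw [S_e, smul_smul]
    congr 1
    push_cast
    rw [show (-(2 * ((n : ℤ) + 1) + 1)) = (-(2 * (n : ℤ) + 1)) + (-1) + (-1) by ring,
      zpow_add₀ hu, zpow_add₀ hu, zpow_neg_one]
    ring

lemma U_kk_apply (u : Circle) (x : H) (n : ℕ) :
    U (kk u)⁻¹ x n = (u : ℂ) ^ (-(2 * (n : ℤ) + 1)) * x n := by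
  have h : U (kk u)⁻¹ = diagOp (fun n => (u : ℂ) ^ (-(2 * (n : ℤ) + 1))) 1 zero_le_one
      (fun n => by rw [norm_zpow, Circle.norm_coe, one_zpow]) := by
    refine op_ext fun n => ?_
    rw [U_e, v_kk, diagOp_e]
  rw [h, diagOp_apply]

lemma ρW_kk_apply {W : ℕ → ℝ} (hW : GoodW W) (u : Circle) (y : H) (n : ℕ) :
    ρW hW (kk u) y n = (u : ℂ) ^ (-(2 * (n : ℤ) + 1)) * y n := by
  rw [ρW_apply, UW_apply, U_kk_apply, J_apply' hW y]
  ring

lemma ρW_kk_ιW {W : ℕ → ℝ} (hW : GoodW W) (u : Circle) (f : V) :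
    ρW hW (kk u) (ιW W f) = ιW W (kF u f) := by
  ext n
  rw [ρW_kk_apply, ιW_apply, ιW_apply, kF_apply]
  ring

lemma ρW_kk_pow_apply {W : ℕ → ℝ} (hW : GoodW W) (u : Circle) (i : ℕ) (y : H) (n : ℕ) :
    ((ρW hW (kk u)) ^ i) y n = ((u : ℂ) ^ (-(2 * (n : ℤ) + 1))) ^ i * y n := by
  induction i with
  | zero => simp
  | succ i ih =>
    rw [pow_succ']
    show ρW hW (kk u) (((ρW hW (kk u)) ^ i) y) n = _
    rw [ρW_kk_apply, ih, pow_succ']
    ring

lemma isKFinite_iff {W : ℕ → ℝ} (hW : GoodW W) (x : H) :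
    IsKFinite (ρW hW) x ↔ x ∈ LinearMap.range (ιW W) := by
  constructor
  · rintro ⟨F, hF, hinv, hx⟩
    set u : Circle := Circle.exp 1 with hu
    let T : F →ₗ[ℂ] F := (ρW hW (kk u) : H →ₗ[ℂ] H).restrict (hinv u)
    have h1 : Polynomial.aeval T T.charpoly = 0 := LinearMap.aeval_self_charpoly T
    have h2 : ∀ (p : Polynomial ℂ) (y : F) (n : ℕ), (Polynomial.aeval T p y : H) n =
        p.eval ((u : ℂ) ^ (-(2 * (n : ℤ) + 1))) * (y : H) n := by
      intro p y n
      induction p using Polynomial.induction_on' with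
      | add p q hp hq =>
        rw [map_add, LinearMap.add_apply, Submodule.coe_add, lp.coeFn_add, Pi.add_apply, hp, hq,
          Polynomial.eval_add]
        ring
      | monomial i c =>
        rw [Polynomial.aeval_monomial, Polynomial.eval_monomial]
        show ((c • (T ^ i) y : F) : H) n = _
        rw [Submodule.coe_smul, lp.coeFn_smul, Pi.smul_apply, smul_eq_mul, mul_assoc]
        congr 1
        have h3 : (((T ^ i) y : F) : H) = ((ρW hW (kk u)) ^ i) y := by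
          induction i with
          | zero => rfl
          | succ i ih =>
            rw [pow_succ', pow_succ']
            show ρW hW (kk u) (((T ^ i) y : F) : H) = ρW hW (kk u) _
            rw [ih]
            rfl
        rw [h3, ρW_kk_pow_apply]
    have h3 : ∀ n : ℕ, T.charpoly.eval ((u : ℂ) ^ (-(2 * (n : ℤ) + 1))) * x n = 0 := by
      intro n
      rw [← h2 T.charpoly ⟨x, hx⟩ n, h1]
      rfl
    have h4 : {n | x n ≠ 0}.Finite := by
      have h5 : {n | x n ≠ 0} ⊆ (fun n : ℕ => (u : ℂ) ^ (-(2 * (n : ℤ) + 1))) ⁻¹'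
          (T.charpoly.roots.toFinset : Set ℂ) := by
        intro n hn
        rw [Set.mem_preimage, Finset.mem_coe, Multiset.mem_toFinset, Polynomial.mem_roots]
        · exact (mul_eq_zero.1 (h3 n)).resolve_right hn
        · exact (LinearMap.charpoly_monic T).ne_zero
      refine Set.Finite.subset (Set.Finite.preimage ?_ (Finset.finite_toSet _)) h5
      intro m _ n _ hmn
      have h6 := pow_circle_ne (m := -(2 * (m : ℤ) + 1)) (k := -(2 * (n : ℤ) + 1)) hmn
      omega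
    have h6 : (Function.support fun n => ((1 / Real.sqrt (W n) : ℝ) : ℂ) * x n).Finite := by
      refine h4.subset fun n hn => ?_
      rw [Function.mem_support] at hn
      exact fun h => hn (by rw [h, mul_zero])
    refine ⟨Finsupp.ofSupportFinite _ h6, ?_⟩
    ext n
    rw [ιW_apply, Finsupp.ofSupportFinite_coe, ← mul_assoc, ← Complex.ofReal_mul,
      mul_one_div_cancel (sqrtW_pos hW n).ne']
    simp
  · rintro ⟨f, rfl⟩
    refine ⟨Submodule.span ℂ (e '' (f.support : Set ℕ)),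
      FiniteDimensional.span_of_finite ℂ (f.support.finite_toSet.image e), ?_, ?_⟩
    · intro u y hy
      induction hy using Submodule.span_induction with
      | mem y hy =>
        obtain ⟨n, hn, rfl⟩ := hy
        have h1 : ρW hW (kk u) (e n) = ((u : ℂ) ^ (-(2 * (n : ℤ) + 1))) • e n := by
          ext k
          rw [ρW_kk_apply, lp.coeFn_smul, Pi.smul_apply, smul_eq_mul, e_apply]
          by_cases h : k = n
          · rw [if_pos h, h]
          · rw [if_neg h, mul_zero, mul_zero]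
        rw [h1]
        exact Submodule.smul_mem _ _ (Submodule.subset_span ⟨n, hn, rfl⟩)
      | zero => rw [map_zero]; exact zero_mem _
      | add y z _ _ hy hz => rw [map_add]; exact add_mem hy hz
      | smul c y _ hy => rw [map_smul]; exact Submodule.smul_mem _ _ hy
    · have h1 : ιW W f = ∑ n ∈ f.support, ((Real.sqrt (W n) : ℂ) * f n) • e n := by
        conv_lhs => rw [← Finsupp.sum_single f]
        rw [Finsupp.sum, map_sum]
        exact Finset.sum_congr rfl fun n _ => ιW_single n _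
      rw [h1]
      exact Submodule.sum_mem _ fun n hn =>
        Submodule.smul_mem _ _ (Submodule.subset_span ⟨n, hn, rfl⟩)

/-- The completions for the weighted norms. -/
noncomputable def glob {W : ℕ → ℝ} (hW : GoodW W) : Globalization M (fun f => ‖ιW W f‖) H where
  ι := ιW W
  π := ρW hW
  injective := by
    intro f h hfh
    ext n
    have h1 : ιW W f n = ιW W h n := by rw [hfh]
    rw [ιW_apply, ιW_apply] at h1
    exact mul_left_cancel₀ (by exact_mod_cast (sqrtW_pos hW n).ne') h1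
  norm_ι _ := rfl
  dense := dense_ιW hW
  continuous := continuous_ρW hW
  kfinite := isKFinite_iff hW
  k_eq := ρW_kk_ιW hW
  lie_eq X v γ h0 hγ := hasDerivAt_ρ hW X γ h0 hγ v

lemma inNorm {W : ℕ → ℝ} (hW : GoodW W) : InNorm M wt fun f => ‖ιW W f‖ := by
  refine ⟨H, inferInstance, inferInstance, inferInstance, glob hW, 1, one_pos, fun g v => ?_⟩
  show ‖ρW hW g (ιW W v)‖ ≤ 1 * wt g * ‖ιW W v‖
  rw [one_mul, ρW_apply, ← wt_inv g]
  exact UW_norm hW _ _

/-! ## The Sobolev comparison -/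

/-- the operator `D_s` -/
noncomputable def Dop (s : ℝ) : V →ₗ[ℂ] V :=
  diagF fun n => (((1 + (2 * (n : ℝ) + 1) ^ 2 / 8) ^ (s / 2) : ℝ) : ℂ)

lemma isSobolevOp_Dop (s : ℝ) : IsSobolevOp M s (Dop s) := by
  intro m v hv
  ext n
  unfold Dop
  rw [diagF_apply, Finsupp.smul_apply, smul_eq_mul]
  by_cases h : v n = 0
  · rw [h, mul_zero, mul_zero]
  · have h1 := ktype_apply hv n h
    have h2 : (m : ℝ) ^ 2 = (2 * (n : ℝ) + 1) ^ 2 := by
      rw [h1]
      push_cast
      ring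
    rw [h2]

lemma norm_ιW_le {W W' : ℕ → ℝ} (hW : GoodW W) (hW' : GoodW W') (μ : ℕ → ℂ) (C : ℝ) (hC : 0 ≤ C)
    (h : ∀ n, W n ≤ C ^ 2 * (W' n * ‖μ n‖ ^ 2)) (f : V) : ‖ιW W f‖ ≤ C * ‖ιW W' (diagF μ f)‖ := by
  refine norm_le_of_sq (by positivity) ?_
  rw [mul_pow]
  have h1 : ‖ιW W' (diagF μ f)‖ ^ 2 = ∑ n ∈ f.support, (W' n * ‖μ n‖ ^ 2) * ‖f n‖ ^ 2 := by
    have h2 : ιW W' (diagF μ f) = ι0 (diagF (fun n => (Real.sqrt (W' n) : ℂ) * μ n) f) := by
      ext n
      rw [ιW_apply, diagF_apply, ι0_apply, diagF_apply]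
      ring
    rw [h2, normsq_diagF]
    refine Finset.sum_congr rfl fun n _ => ?_
    rw [norm_mul, mul_pow, Complex.norm_real, Real.norm_eq_abs, sq_abs, Real.sq_sqrt]
    linarith [hW'.one_le n]
  rw [normsq_ιW hW, h1, Finset.mul_sum]
  refine Finset.sum_le_sum fun n _ => ?_
  rw [← mul_assoc]
  exact mul_le_mul_of_nonneg_right (h n) (by positivity)

lemma dominatedSob_pq (s : ℝ) (hs : 0 ≤ s) :
    DominatedSob M s (fun f => ‖ιW (fun _ => 1) f‖) (fun f => ‖ιW W0 f‖) := by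
  refine ⟨Dop s, isSobolevOp_Dop s, 1, one_pos, fun f => ?_⟩
  refine norm_ιW_le good_one good_W0 _ 1 zero_le_one (fun n => ?_) f
  have h1 : 1 ≤ ‖(((1 + (2 * (n : ℝ) + 1) ^ 2 / 8) ^ (s / 2) : ℝ) : ℂ)‖ := by
    rw [Complex.norm_real, Real.norm_eq_abs, abs_of_nonneg (by positivity)]
    refine Real.one_le_rpow ?_ (by positivity)
    have : 0 ≤ (2 * (n : ℝ) + 1) ^ 2 / 8 := by positivity
    linarith
  have h2 := good_W0.one_le n
  have h3 : 1 ≤ ‖(((1 + (2 * (n : ℝ) + 1) ^ 2 / 8) ^ (s / 2) : ℝ) : ℂ)‖ ^ 2 := one_le_pow₀ h1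
  nlinarith

lemma dominatedSob_qp (s : ℝ) (hs : 0 < s) :
    DominatedSob M s (fun f => ‖ιW W0 f‖) (fun f => ‖ιW (fun _ => 1) f‖) := by
  set A : ℝ := 1 + Real.log 9 + 1 / s with hA
  have hlog : 0 ≤ Real.log 9 := Real.log_nonneg (by norm_num)
  have hA0 : 0 < A := by positivity
  refine ⟨Dop s, isSobolevOp_Dop s, Real.sqrt A, Real.sqrt_pos.2 hA0, fun f => ?_⟩
  refine norm_ιW_le good_W0 good_one _ _ (Real.sqrt_nonneg _) (fun n => ?_) f
  rw [Real.sq_sqrt hA0.le, one_mul]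
  set y : ℝ := 1 + (2 * (n : ℝ) + 1) ^ 2 / 8 with hy
  have hy1 : 1 ≤ y := by
    have : 0 ≤ (2 * (n : ℝ) + 1) ^ 2 / 8 := by positivity
    linarith
  have h1 : ‖((y ^ (s / 2) : ℝ) : ℂ)‖ ^ 2 = y ^ s := by
    rw [Complex.norm_real, Real.norm_eq_abs, sq_abs, ← Real.rpow_natCast, ← Real.rpow_mul (by linarith)]
    congr 1
    push_cast
    ring
  rw [h1]
  have h2 : 1 + ((n : ℝ) + 1) ^ 2 ≤ 9 * y := by
    rw [hy]
    nlinarith [Nat.cast_nonneg (α := ℝ) n]
  have h3 : Real.log (1 + ((n : ℝ) + 1) ^ 2) ≤ Real.log 9 + Real.log y := by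
    rw [← Real.log_mul (by norm_num) (by linarith)]
    exact Real.log_le_log (by positivity) h2
  have h4 : Real.log y ≤ y ^ s / s := Real.log_le_rpow_div (by linarith) hs
  have h5 : 1 ≤ y ^ s := Real.one_le_rpow hy1 hs.le
  unfold W0
  calc 1 + Real.log (1 + ((n : ℝ) + 1) ^ 2) ≤ 1 + (Real.log 9 + y ^ s / s) := by linarith
    _ ≤ (1 + Real.log 9) * y ^ s + y ^ s / s := by nlinarith
    _ = A * y ^ s := by rw [hA]; ring

lemma dTo_pq : dTo M (fun f => ‖ιW (fun _ => 1) f‖) (fun f => ‖ιW W0 f‖) = 0 := by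
  unfold dTo
  refine le_antisymm ?_ bot_le
  exact iInf₂_le (0 : ℝ≥0) (dominatedSob_pq 0 le_rfl)

lemma dTo_qp : dTo M (fun f => ‖ιW W0 f‖) (fun f => ‖ιW (fun _ => 1) f‖) = 0 := by
  unfold dTo
  refine le_antisymm ?_ bot_le
  refine ENNReal.le_of_forall_pos_le_add fun ε hε _ => ?_
  rw [zero_add]
  exact iInf₂_le ε (dominatedSob_qp ε (by exact_mod_cast hε))

lemma not_dominated : ¬ Dominated (fun f => ‖ιW W0 f‖) (fun f : V => ‖ιW (fun _ => 1) f‖) := by
  rintro ⟨C, hC, h⟩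
  have h1 : ∀ n : ℕ, Real.sqrt (W0 n) ≤ C := by
    intro n
    have h2 := h (Finsupp.single n 1)
    simp only [ιW_single, norm_smul, norm_e, mul_one, Real.sqrt_one, Complex.norm_real,
      norm_one, Real.norm_eq_abs, abs_of_nonneg (Real.sqrt_nonneg _)] at h2
    exact h2
  have h2 : Filter.Tendsto (fun n : ℕ => Real.log (1 + ((n : ℝ) + 1) ^ 2)) Filter.atTop
      Filter.atTop := by
    refine Real.tendsto_log_atTop.comp ?_
    refine Filter.tendsto_atTop_mono (fun n => ?_) tendsto_natCast_atTop_atTop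
    nlinarith [Nat.cast_nonneg (α := ℝ) n]
  obtain ⟨n, hn⟩ := (h2.eventually (Filter.eventually_gt_atTop (C ^ 2))).exists
  have h3 : W0 n ≤ C ^ 2 := by
    have h4 := h1 n
    have h5 : 0 ≤ W0 n := by linarith [good_W0.one_le n]
    calc W0 n = Real.sqrt (W0 n) ^ 2 := (Real.sq_sqrt h5).symm
      _ ≤ C ^ 2 := by gcongr
  unfold W0 at h3
  linarith

end Pool.Agent.R718.SU11
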