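import Mathlib
import Pool.Agent.R718.SU11Defs

/-!
Definitions for `MP_6a3a89_al`: the real reductive group `SU(1,1) × SU(1,1)` with maximal compact
subgroup `K = {(diag(u, ū), diag(w, w̄))}`, Harish-Chandra modules, `G`-continuous norms, Sobolev
norms.
-/

set_option autoImplicit false

open scoped ComplexConjugate MatrixGroups Topology NNReal ENNReal

namespace Pool.Agent.R718.Sq

open Pool.Agent.R718.SU11 (G su11 kk hh)

/-- The complex `2 × 2` matrices. -/
abbrev Mat : Type := Matrix (Fin 2) (Fin 2) ℂ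

/-- The group `SU(1,1) × SU(1,1)`. -/
abbrev GG : Type := G × G

/-- Its Lie algebra `𝔤 = 𝔰𝔲(1,1) × 𝔰𝔲(1,1)`. -/
abbrev gg : Type := su11 × su11

/-- The maximal compact subgroup `K`, as an abstract group. -/
abbrev KK : Type := Circle × Circle

/-- The embedding `(u, w) ↦ (diag(u, ū), diag(w, w̄))` of `K` in the group. -/
def toG (u : KK) : GG := (kk u.1, kk u.2)

/-- The first component of an element of `𝔤`, as a matrix. -/
def mat1 (X : gg) : Mat := X.1

/-- The second component of an element of `𝔤`, as a matrix. -/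
def mat2 (X : gg) : Mat := X.2

/-- The first component of an element of the group, as a matrix. -/
def gmat1 (g : GG) : Mat := (g.1 : SL(2, ℂ))

/-- The second component of an element of the group, as a matrix. -/
def gmat2 (g : GG) : Mat := (g.2 : SL(2, ℂ))

/-- `Z = [X, Y]` in `𝔤`. -/
def IsBracket (X Y Z : gg) : Prop :=
  mat1 Z = mat1 X * mat1 Y - mat1 Y * mat1 X ∧ mat2 Z = mat2 X * mat2 Y - mat2 Y * mat2 X

/-- `Y = g X g⁻¹`, for `g` in the group and `X, Y ∈ 𝔤`. -/
def IsAd (g : GG) (X Y : gg) : Prop :=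
  mat1 Y = gmat1 g * mat1 X * gmat1 g⁻¹ ∧ mat2 Y = gmat2 g * mat2 X * gmat2 g⁻¹

/-- The curve `γ` in the group goes through `1` at the time `0`, with the velocity `X`. -/
def HasVelocity (γ : ℝ → GG) (X : gg) : Prop :=
  γ 0 = 1 ∧ HasDerivAt (fun t => gmat1 (γ t)) (mat1 X) 0 ∧
    HasDerivAt (fun t => gmat2 (γ t)) (mat2 X) 0

section

variable {V : Type} [AddCommGroup V] [Module ℂ V]

/-- The isotypic component of `V` of the character `(u, w) ↦ u ^ m₁ w ^ m₂` of `K`. -/
def ktype (k : KK →* Module.End ℂ V) (m : ℤ × ℤ) : Submodule ℂ V where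
  carrier := {v | ∀ u : KK, k u v = ((u.1 : ℂ) ^ m.1 * (u.2 : ℂ) ^ m.2) • v}
  add_mem' h1 h2 u := by rw [map_add, h1 u, h2 u, smul_add]
  zero_mem' u := by simp
  smul_mem' c v h u := by rw [map_smul, h u, smul_comm]

/-- The operators `lie X` are a representation of `𝔤` on `V`. -/
def BracketCond (lie : gg →ₗ[ℝ] Module.End ℂ V) : Prop :=
  ∀ X Y Z, IsBracket X Y Z → ∀ v, lie Z v = lie X (lie Y v) - lie Y (lie X v)

/-- The Lie algebra of `K` acts on the `K`-types by the derivative of the action of `K`. -/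
def DiffCond (lie : gg →ₗ[ℝ] Module.End ℂ V) (k : KK →* Module.End ℂ V) : Prop :=
  ∀ (m : ℤ × ℤ) (v : V), v ∈ ktype k m →
    lie (hh, 0) v = ((m.1 : ℂ) * Complex.I) • v ∧ lie (0, hh) v = ((m.2 : ℂ) * Complex.I) • v

/-- `k (lie X v) = lie (Ad(k) X) (k v)`. -/
def AdCond (lie : gg →ₗ[ℝ] Module.End ℂ V) (k : KK →* Module.End ℂ V) : Prop :=
  ∀ u X Y, IsAd (toG u) X Y → ∀ v, k u (lie X v) = lie Y (k u v)

/-- `V` is generated by a finite set under the action of `𝔤`. -/
def FinGen (lie : gg →ₗ[ℝ] Module.End ℂ V) : Prop :=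
  ∃ S : Finset V, ∀ W : Submodule ℂ V, (∀ X, ∀ v ∈ W, lie X v ∈ W) → (S : Set V) ⊆ W → W = ⊤

variable (V) in
/-- A Harish-Chandra module for `𝔤 = 𝔰𝔲(1,1) × 𝔰𝔲(1,1)` and `K` (the torus of the
`(diag(u, ū), diag(w, w̄))`): a complex vector space `V` with actions of `𝔤` and of `K`, which is the
(algebraic) sum of its `K`-types (so that `K` acts locally finitely and continuously), such that the
two actions are compatible, the `K`-types have finite multiplicity, and `V` is finitely generated
over the enveloping algebra of `𝔤`. -/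
structure HCModule where
  /-- the action of `𝔤` -/
  lie : gg →ₗ[ℝ] Module.End ℂ V
  /-- the action of `K` -/
  k : KK →* Module.End ℂ V
  lie_bracket : BracketCond lie
  iSup_ktype : ⨆ m : ℤ × ℤ, ktype k m = ⊤
  lie_hh : DiffCond lie k
  ad : AdCond lie k
  admissible : ∀ m : ℤ × ℤ, FiniteDimensional ℂ (ktype k m)
  finite_generation : FinGen lie

/-- `E` is the completion of `(V, p)`, with a continuous representation `π` of `G` on `E` by bounded
operators which induces the given actions of `K` and of `𝔤` on `V`: the derivative at `0` of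
`π(γ(t)) v`, along any curve `γ` in `G` through `1` with velocity `X` (such as `γ(t) = exp(tX)`), is
`X v`. (As `V` is stable under `𝔤` and the sum of its `K`-types, its elements are then smooth
`K`-finite vectors of `E`.) -/
structure Globalization (M : HCModule V) (p : V → ℝ) (E : Type) [NormedAddCommGroup E]
    [NormedSpace ℂ E] [CompleteSpace E] where
  /-- the embedding of `V` in `E` -/
  ι : V →ₗ[ℂ] E
  /-- the representation of `G` on `E` -/
  π : GG →* (E →L[ℂ] E)
  injective : Function.Injective ι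
  norm_ι : ∀ v, ‖ι v‖ = p v
  dense : DenseRange ι
  continuous : Continuous fun x : GG × E => π x.1 x.2
  k_eq : ∀ u v, π (toG u) (ι v) = ι (M.k u v)
  lie_eq : ∀ X v γ, HasVelocity γ X → HasDerivAt (fun t => π (γ t) (ι v)) (ι (M.lie X v)) 0

/-- The norm `p` on `V` is `G`-continuous. -/
def GContinuous (M : HCModule V) (p : V → ℝ) : Prop :=
  ∃ (E : Type) (_ : NormedAddCommGroup E) (_ : NormedSpace ℂ E) (_ : CompleteSpace E),
    Nonempty (Globalization M p E)

/-- `D` is the operator `D_s = (1 + Δ_K)^{s/2}`. With the Cartan-Killing form (`4 tr(XY)` on each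
factor) the elements `diag(i, -i) / √8` of the two factors form an orthonormal basis of the Lie
algebra of `K`, so the `K`-Laplacian acts on the `K`-type `(m₁, m₂)` by `(m₁² + m₂²) / 8`. -/
def IsSobolevOp (M : HCModule V) (s : ℝ) (D : V →ₗ[ℂ] V) : Prop :=
  ∀ (m : ℤ × ℤ) (v : V), v ∈ ktype M.k m →
    D v = (((1 + ((m.1 : ℝ) ^ 2 + (m.2 : ℝ) ^ 2) / 8) ^ (s / 2) : ℝ) : ℂ) • v

end

end Pool.Agent.R718.Sq
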