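import Mathlib
import Pool.Agent.R718.SqDefs
import Pool.Agent.R718.SU11Mod

/-!
Helper for `MP_6a3a89_al`: the Harish-Chandra module of the trigonometric polynomials on the torus.
-/

set_option autoImplicit false

open scoped ComplexConjugate MatrixGroups Topology NNReal ENNReal

namespace Pool.Agent.R718.Sq

open Pool.Agent.R718.SU11 (G su11 kk hh pow_circle_ne)

/-- Laurent polynomials in `z, w`: the trigonometric polynomials on the torus. -/
abbrev A : Type := AddMonoidAlgebra ℂ (ℤ × ℤ)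

/-- the monomial `r z^j w^k` -/
noncomputable def mon (m : ℤ × ℤ) (r : ℂ) : A := AddMonoidAlgebra.single m r

lemma smul_mon (c : ℂ) (m : ℤ × ℤ) (r : ℂ) : c • mon m r = mon m (c * r) :=
  AddMonoidAlgebra.smul_single _ _ _

lemma mon_mul_mon (m n : ℤ × ℤ) (r s : ℂ) : mon m r * mon n s = mon (m + n) (r * s) :=
  AddMonoidAlgebra.single_mul_single _ _ _ _

lemma mon_zero (m : ℤ × ℤ) : mon m 0 = 0 := AddMonoidAlgebra.single_zero _

lemma mon_add (m : ℤ × ℤ) (r s : ℂ) : mon m (r + s) = mon m r + mon m s :=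
  AddMonoidAlgebra.single_add _ _ _

lemma A_induction {P : A → Prop} (v : A) (h0 : P 0) (hadd : ∀ x y, P x → P y → P (x + y))
    (hmon : ∀ m r, P (mon m r)) : P v :=
  AddMonoidAlgebra.induction_linear v h0 hadd hmon

lemma lin_ext {B : Type} [AddCommMonoid B] [Module ℂ B] {f g : A →ₗ[ℂ] B}
    (h : ∀ m, f (mon m 1) = g (mon m 1)) : f = g := by
  refine LinearMap.ext fun v => ?_
  induction v using A_induction with
  | h0 => rw [map_zero, map_zero]
  | hadd x y hx hy => rw [map_add, map_add, hx, hy]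
  | hmon m r =>
    have h1 : mon m r = r • mon m 1 := by rw [smul_mon, mul_one]
    rw [h1, map_smul, map_smul, h]

/-- The linear map with given values on the monomials. -/
noncomputable def lc {B : Type} [AddCommMonoid B] [Module ℂ B] (F : ℤ × ℤ → B) : A →ₗ[ℂ] B :=
  Finsupp.linearCombination ℂ F ∘ₗ (AddMonoidAlgebra.coeffLinearEquiv ℂ).toLinearMap

lemma lc_mon {B : Type} [AddCommMonoid B] [Module ℂ B] (F : ℤ × ℤ → B) (m : ℤ × ℤ) (r : ℂ) :
    lc F (mon m r) = r • F m := by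
  unfold lc mon
  show Finsupp.linearCombination ℂ F (Finsupp.single m r) = _
  rw [Finsupp.linearCombination_single]

/-- Diagonal operators. -/
noncomputable def dg (μ : ℤ × ℤ → ℂ) : A →ₗ[ℂ] A := lc fun m => mon m (μ m)

lemma dg_mon (μ : ℤ × ℤ → ℂ) (m : ℤ × ℤ) (r : ℂ) : dg μ (mon m r) = mon m (μ m * r) := by
  unfold dg
  rw [lc_mon, smul_mon, mul_comm]

lemma dg_coeff (μ : ℤ × ℤ → ℂ) (v : A) (n : ℤ × ℤ) : (dg μ v).coeff n = μ n * v.coeff n := by
  induction v using A_induction with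
  | h0 => simp
  | hadd x y hx hy =>
    rw [map_add, AddMonoidAlgebra.coeff_add, AddMonoidAlgebra.coeff_add, Finsupp.add_apply,
      Finsupp.add_apply, hx, hy]
    ring
  | hmon m r =>
    rw [dg_mon]
    unfold mon
    rw [AddMonoidAlgebra.coeff_single, AddMonoidAlgebra.coeff_single, Finsupp.single_apply,
      Finsupp.single_apply]
    by_cases h : m = n
    · rw [if_pos h, if_pos h, h]
    · rw [if_neg h, if_neg h, mul_zero]

lemma leib (μ : ℤ × ℤ → ℂ) (hμ : ∀ m n, μ (m + n) = μ m + μ n) (a b : A) :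
    dg μ (a * b) = a • dg μ b + b • dg μ a := by
  induction a using A_induction with
  | h0 => simp
  | hadd x y hx hy => rw [add_mul, map_add, hx, hy, map_add, add_smul, smul_add]; abel
  | hmon m r =>
    induction b using A_induction with
    | h0 => simp
    | hadd x y hx hy => rw [mul_add, map_add, hx, hy, map_add, add_smul, smul_add]; abel
    | hmon n s =>
      simp only [smul_eq_mul, dg_mon, mon_mul_mon, add_comm n m]
      rw [← mon_add, hμ]
      congr 1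
      ring

/-- `z ∂/∂z` -/
noncomputable def δ1 : Derivation ℂ A A :=
  Derivation.mk' (dg fun m => (m.1 : ℂ)) (leib _ fun m n => by push_cast [Prod.fst_add]; ring)

/-- `w ∂/∂w` -/
noncomputable def δ2 : Derivation ℂ A A :=
  Derivation.mk' (dg fun m => (m.2 : ℂ)) (leib _ fun m n => by push_cast [Prod.snd_add]; ring)

lemma δ1_mon (m : ℤ × ℤ) (r : ℂ) : δ1 (mon m r) = mon m ((m.1 : ℂ) * r) := dg_mon _ _ _

lemma δ2_mon (m : ℤ × ℤ) (r : ℂ) : δ2 (mon m r) = mon m ((m.2 : ℂ) * r) := dg_mon _ _ _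

/-- The coefficient of the vector field in the first variable. -/
noncomputable def Λ1 (X : Matrix (Fin 2) (Fin 2) ℂ) : A :=
  mon (0, 0) (-2 * X 0 0) + mon (-1, 0) (-(X 0 1)) + mon (1, 0) (conj (X 0 1))

/-- The coefficient of the vector field in the second variable. -/
noncomputable def Λ2 (X : Matrix (Fin 2) (Fin 2) ℂ) : A :=
  mon (0, 0) (-2 * X 0 0) + mon (0, -1) (-(X 0 1)) + mon (0, 1) (conj (X 0 1))

/-- The vector field of `X`. -/
noncomputable def der (X : Matrix (Fin 2) (Fin 2) ℂ × Matrix (Fin 2) (Fin 2) ℂ) :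
    Derivation ℂ A A := Λ1 X.1 • δ1 + Λ2 X.2 • δ2

lemma der_apply (X : Matrix (Fin 2) (Fin 2) ℂ × Matrix (Fin 2) (Fin 2) ℂ) (v : A) :
    der X v = Λ1 X.1 * δ1 v + Λ2 X.2 * δ2 v := rfl

lemma δ1_Λ2 (X : Matrix (Fin 2) (Fin 2) ℂ) : δ1 (Λ2 X) = 0 := by
  unfold Λ2
  rw [map_add, map_add, δ1_mon, δ1_mon, δ1_mon]
  simp [mon_zero]

lemma δ2_Λ1 (X : Matrix (Fin 2) (Fin 2) ℂ) : δ2 (Λ1 X) = 0 := by
  unfold Λ1
  rw [map_add, map_add, δ2_mon, δ2_mon, δ2_mon]
  simp [mon_zero]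

lemma δ12_comm (v : A) : δ1 (δ2 v) = δ2 (δ1 v) := by
  induction v using A_induction with
  | h0 => simp
  | hadd x y hx hy => rw [map_add, map_add, hx, hy, map_add, map_add]
  | hmon m r =>
    rw [δ2_mon, δ1_mon, δ1_mon, δ2_mon]
    congr 1
    ring

lemma δ1_Λ1 (X : Matrix (Fin 2) (Fin 2) ℂ) :
    δ1 (Λ1 X) = mon (-1, 0) (X 0 1) + mon (1, 0) (conj (X 0 1)) := by
  unfold Λ1
  rw [map_add, map_add, δ1_mon, δ1_mon, δ1_mon]
  simp [mon_zero]

lemma δ2_Λ2 (X : Matrix (Fin 2) (Fin 2) ℂ) :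
    δ2 (Λ2 X) = mon (0, -1) (X 0 1) + mon (0, 1) (conj (X 0 1)) := by
  unfold Λ2
  rw [map_add, map_add, δ2_mon, δ2_mon, δ2_mon]
  simp [mon_zero]

lemma mon_eq (m : ℤ × ℤ) (r : ℂ) : mon m r = algebraMap ℂ A r * mon m 1 := by
  rw [← Algebra.smul_def, smul_mon, mul_one]

lemma mon_zero_one : mon (0, 0) 1 = 1 := rfl

lemma Λ_aux (X Y Z : su11) (h : (Z : Matrix (Fin 2) (Fin 2) ℂ) = X * Y - Y * X) (z z' : A)
    (hz : z * z' = 1) :
    algebraMap ℂ A (-2 * (Z : Matrix (Fin 2) (Fin 2) ℂ) 0 0) +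
      algebraMap ℂ A (-((Z : Matrix (Fin 2) (Fin 2) ℂ) 0 1)) * z' +
      algebraMap ℂ A (conj ((Z : Matrix (Fin 2) (Fin 2) ℂ) 0 1)) * z =
    (algebraMap ℂ A (-2 * (X : Matrix (Fin 2) (Fin 2) ℂ) 0 0) +
      algebraMap ℂ A (-((X : Matrix (Fin 2) (Fin 2) ℂ) 0 1)) * z' +
      algebraMap ℂ A (conj ((X : Matrix (Fin 2) (Fin 2) ℂ) 0 1)) * z) *
      (algebraMap ℂ A ((Y : Matrix (Fin 2) (Fin 2) ℂ) 0 1) * z' +
        algebraMap ℂ A (conj ((Y : Matrix (Fin 2) (Fin 2) ℂ) 0 1)) * z) -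
    (algebraMap ℂ A (-2 * (Y : Matrix (Fin 2) (Fin 2) ℂ) 0 0) +
      algebraMap ℂ A (-((Y : Matrix (Fin 2) (Fin 2) ℂ) 0 1)) * z' +
      algebraMap ℂ A (conj ((Y : Matrix (Fin 2) (Fin 2) ℂ) 0 1)) * z) *
      (algebraMap ℂ A ((X : Matrix (Fin 2) (Fin 2) ℂ) 0 1) * z' +
        algebraMap ℂ A (conj ((X : Matrix (Fin 2) (Fin 2) ℂ) 0 1)) * z) := by
  obtain ⟨X, hX1, hX2, hX3⟩ := X
  obtain ⟨Y, hY1, hY2, hY3⟩ := Y
  have h00 := congrFun (congrFun h 0) 0
  have h01 := congrFun (congrFun h 0) 1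
  simp only [Matrix.sub_apply, Matrix.mul_apply, Fin.sum_univ_two, hX2, hX3, hY2, hY3] at h00 h01
  rw [h00, h01]
  simp only [map_add, map_sub, map_mul, map_neg, map_ofNat, hX1, hY1]
  linear_combination (-(2 : A) * (algebraMap ℂ A (conj (X 0 1)) * algebraMap ℂ A (Y 0 1) -
    algebraMap ℂ A (X 0 1) * algebraMap ℂ A (conj (Y 0 1)))) * hz

lemma Λ1_bracket (X Y Z : su11) (h : (Z : Matrix (Fin 2) (Fin 2) ℂ) = X * Y - Y * X) :
    Λ1 Z = Λ1 X * δ1 (Λ1 Y) - Λ1 Y * δ1 (Λ1 X) := by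
  have hz : mon (1, 0) 1 * mon (-1, 0) 1 = 1 := by
    rw [mon_mul_mon, mul_one]
    rfl
  rw [δ1_Λ1, δ1_Λ1]
  unfold Λ1
  rw [mon_eq (0, 0) (-2 * (Z : Matrix (Fin 2) (Fin 2) ℂ) 0 0), mon_eq (-1, 0) (-(Z.1 0 1)),
    mon_eq (1, 0) (conj (Z.1 0 1)), mon_eq (0, 0) (-2 * (X : Matrix (Fin 2) (Fin 2) ℂ) 0 0),
    mon_eq (-1, 0) (-(X.1 0 1)), mon_eq (1, 0) (conj (X.1 0 1)),
    mon_eq (0, 0) (-2 * (Y : Matrix (Fin 2) (Fin 2) ℂ) 0 0),
    mon_eq (-1, 0) (-(Y.1 0 1)), mon_eq (1, 0) (conj (Y.1 0 1)), mon_eq (-1, 0) (X.1 0 1),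
    mon_eq (-1, 0) (Y.1 0 1), mon_zero_one, mul_one, mul_one, mul_one]
  exact Λ_aux X Y Z h _ _ hz

lemma Λ2_bracket (X Y Z : su11) (h : (Z : Matrix (Fin 2) (Fin 2) ℂ) = X * Y - Y * X) :
    Λ2 Z = Λ2 X * δ2 (Λ2 Y) - Λ2 Y * δ2 (Λ2 X) := by
  have hz : mon (0, 1) 1 * mon (0, -1) 1 = 1 := by
    rw [mon_mul_mon, mul_one]
    rfl
  rw [δ2_Λ2, δ2_Λ2]
  unfold Λ2
  rw [mon_eq (0, 0) (-2 * (Z : Matrix (Fin 2) (Fin 2) ℂ) 0 0), mon_eq (0, -1) (-(Z.1 0 1)),
    mon_eq (0, 1) (conj (Z.1 0 1)), mon_eq (0, 0) (-2 * (X : Matrix (Fin 2) (Fin 2) ℂ) 0 0),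
    mon_eq (0, -1) (-(X.1 0 1)), mon_eq (0, 1) (conj (X.1 0 1)),
    mon_eq (0, 0) (-2 * (Y : Matrix (Fin 2) (Fin 2) ℂ) 0 0),
    mon_eq (0, -1) (-(Y.1 0 1)), mon_eq (0, 1) (conj (Y.1 0 1)), mon_eq (0, -1) (X.1 0 1),
    mon_eq (0, -1) (Y.1 0 1), mon_zero_one, mul_one, mul_one, mul_one]
  exact Λ_aux X Y Z h _ _ hz

/-- The action of the Lie algebra. -/
noncomputable def lieF (X : Matrix (Fin 2) (Fin 2) ℂ × Matrix (Fin 2) (Fin 2) ℂ) : A →ₗ[ℂ] A :=
  (der X).toLinearMap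

lemma lieF_apply (X : Matrix (Fin 2) (Fin 2) ℂ × Matrix (Fin 2) (Fin 2) ℂ) (v : A) :
    lieF X v = Λ1 X.1 * δ1 v + Λ2 X.2 * δ2 v := rfl

lemma lieF_bracket (X Y Z : su11 × su11)
    (h1 : (Z.1 : Matrix (Fin 2) (Fin 2) ℂ) = X.1 * Y.1 - Y.1 * X.1)
    (h2 : (Z.2 : Matrix (Fin 2) (Fin 2) ℂ) = X.2 * Y.2 - Y.2 * X.2) (v : A) :
    lieF (Z.1, Z.2) v = lieF (X.1, X.2) (lieF (Y.1, Y.2) v) - lieF (Y.1, Y.2) (lieF (X.1, X.2) v) := by
  simp only [lieF_apply]
  rw [Λ1_bracket _ _ _ h1, Λ2_bracket _ _ _ h2]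
  simp only [map_add, Derivation.leibniz, δ1_Λ2, δ2_Λ1, smul_eq_mul, mul_zero, add_zero,
    δ12_comm]
  ring

/-- The action of `K`. -/
noncomputable def kF : Circle × Circle →* Module.End ℂ A where
  toFun u := dg fun n => (u.1 : ℂ) ^ (-(2 * n.1)) * (u.2 : ℂ) ^ (-(2 * n.2))
  map_one' := by
    refine lin_ext fun m => ?_
    rw [dg_mon]
    simp
  map_mul' u w := by
    refine lin_ext fun m => ?_
    rw [dg_mon, Module.End.mul_apply, dg_mon, dg_mon]
    congr 1
    rw [Prod.fst_mul, Prod.snd_mul, Circle.coe_mul, Circle.coe_mul, mul_zpow, mul_zpow]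
    ring

lemma kF_mon (u : Circle × Circle) (m : ℤ × ℤ) (r : ℂ) :
    kF u (mon m r) = mon m ((u.1 : ℂ) ^ (-(2 * m.1)) * (u.2 : ℂ) ^ (-(2 * m.2)) * r) := dg_mon _ _ _

lemma kF_coeff (u : Circle × Circle) (v : A) (n : ℤ × ℤ) :
    (kF u v).coeff n = (u.1 : ℂ) ^ (-(2 * n.1)) * (u.2 : ℂ) ^ (-(2 * n.2)) * v.coeff n :=
  dg_coeff _ _ _

lemma mon_mem_ktype (m : ℤ × ℤ) (r : ℂ) : mon m r ∈ ktype kF (-(2 * m.1), -(2 * m.2)) := by
  intro u
  rw [kF_mon, smul_mon]

lemma ktype_coeff {m : ℤ × ℤ} {v : A} (hv : v ∈ ktype kF m) (n : ℤ × ℤ) (hn : v.coeff n ≠ 0) :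
    m = (-(2 * n.1), -(2 * n.2)) := by
  have h1 := congrArg (fun x : A => x.coeff n) (hv (Circle.exp 1, 1))
  have h2 := congrArg (fun x : A => x.coeff n) (hv (1, Circle.exp 1))
  simp only [kF_coeff, AddMonoidAlgebra.coeff_smul, Finsupp.smul_apply, smul_eq_mul,
    Circle.coe_one, one_zpow, mul_one, one_mul] at h1 h2
  have h3 := pow_circle_ne (mul_right_cancel₀ hn h1)
  have h4 := pow_circle_ne (mul_right_cancel₀ hn h2)
  exact Prod.ext h3.symm h4.symm

lemma Λ1_zero : Λ1 0 = 0 := by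
  unfold Λ1
  simp [mon_zero]

lemma Λ2_zero : Λ2 0 = 0 := by
  unfold Λ2
  simp [mon_zero]

/-- `z^j w^k ↦ j z^(j+1) w^k`, and so on. -/
lemma raise_mem (W : Submodule ℂ A) (hW : ∀ (X : su11 × su11), ∀ v ∈ W, lieF (X.1, X.2) v ∈ W)
    (v : A) (hv : v ∈ W) : mon (1, 0) 1 * δ1 v ∈ W ∧ mon (-1, 0) 1 * δ1 v ∈ W ∧
      mon (0, 1) 1 * δ2 v ∈ W ∧ mon (0, -1) 1 * δ2 v ∈ W := by
  let X1 : su11 := ⟨!![0, 1; 1, 0], by refine ⟨?_, ?_, ?_⟩ <;> simp⟩
  let X2 : su11 := ⟨!![0, Complex.I; -Complex.I, 0], by refine ⟨?_, ?_, ?_⟩ <;> simp⟩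
  have h1 : lieF (X1, 0) v ∈ W := hW (X1, 0) v hv
  have h2 : lieF (X2, 0) v ∈ W := hW (X2, 0) v hv
  have h3 : lieF (0, X1) v ∈ W := hW (0, X1) v hv
  have h4 : lieF (0, X2) v ∈ W := hW (0, X2) v hv
  rw [lieF_apply] at h1 h2 h3 h4
  simp only [Λ1_zero, Λ2_zero, zero_mul, add_zero, zero_add] at h1 h2 h3 h4
  have e1 : Λ1 X1 = mon (1, 0) 1 - mon (-1, 0) 1 := by
    unfold Λ1
    simp only [X1, Matrix.of_apply, Matrix.cons_val', Matrix.cons_val_zero, Matrix.cons_val_one,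
      Matrix.cons_val_fin_one, mul_zero, mon_zero, zero_add, map_one]
    rw [mon_eq _ (-1), map_neg, map_one]
    ring
  have e2 : Complex.I • Λ1 X2 = mon (1, 0) 1 + mon (-1, 0) 1 := by
    unfold Λ1
    simp only [X2, Matrix.of_apply, Matrix.cons_val', Matrix.cons_val_zero, Matrix.cons_val_one,
      Matrix.cons_val_fin_one, mul_zero, mon_zero, zero_add, Complex.conj_I, smul_add, smul_mon]
    rw [show Complex.I * -Complex.I = 1 by simp, add_comm]
  have e3 : Λ2 X1 = mon (0, 1) 1 - mon (0, -1) 1 := by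
    unfold Λ2
    simp only [X1, Matrix.of_apply, Matrix.cons_val', Matrix.cons_val_zero, Matrix.cons_val_one,
      Matrix.cons_val_fin_one, mul_zero, mon_zero, zero_add, map_one]
    rw [mon_eq _ (-1), map_neg, map_one]
    ring
  have e4 : Complex.I • Λ2 X2 = mon (0, 1) 1 + mon (0, -1) 1 := by
    unfold Λ2
    simp only [X2, Matrix.of_apply, Matrix.cons_val', Matrix.cons_val_zero, Matrix.cons_val_one,
      Matrix.cons_val_fin_one, mul_zero, mon_zero, zero_add, Complex.conj_I, smul_add, smul_mon]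
    rw [show Complex.I * -Complex.I = 1 by simp, add_comm]
  have h2' := W.smul_mem Complex.I h2
  have h4' := W.smul_mem Complex.I h4
  rw [← smul_mul_assoc, e2] at h2'
  rw [← smul_mul_assoc, e4] at h4'
  rw [e1] at h1
  rw [e3] at h3
  have hh : ∀ a b c : A, (a - b) * c ∈ W → (a + b) * c ∈ W → a * c ∈ W ∧ b * c ∈ W := by
    intro a b c ha hb
    constructor
    · have := W.smul_mem (2⁻¹ : ℂ) (W.add_mem ha hb)
      rw [show (a - b) * c + (a + b) * c = (2 : ℂ) • (a * c) by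
        rw [ofNat_smul_eq_nsmul ℂ 2, two_nsmul]; ring, smul_smul, inv_mul_cancel₀ two_ne_zero, one_smul] at this
      exact this
    · have := W.smul_mem (2⁻¹ : ℂ) (W.sub_mem hb ha)
      rw [show (a + b) * c - (a - b) * c = (2 : ℂ) • (b * c) by
        rw [ofNat_smul_eq_nsmul ℂ 2, two_nsmul]; ring, smul_smul, inv_mul_cancel₀ two_ne_zero, one_smul] at this
      exact this
  exact ⟨(hh _ _ _ h1 h2').1, (hh _ _ _ h1 h2').2, (hh _ _ _ h3 h4').1, (hh _ _ _ h3 h4').2⟩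

lemma mem_of_smul (W : Submodule ℂ A) (m : ℤ × ℤ) (c : ℂ) (hc : c ≠ 0) (h : mon m c ∈ W) :
    mon m 1 ∈ W := by
  have := W.smul_mem c⁻¹ h
  rwa [smul_mon, inv_mul_cancel₀ hc] at this

lemma all_first (W : Submodule ℂ A) (hW : ∀ (X : su11 × su11), ∀ v ∈ W, lieF (X.1, X.2) v ∈ W)
    (k : ℤ) (h1 : mon (1, k) 1 ∈ W) (h2 : mon (-1, k) 1 ∈ W) (j : ℤ) : mon (j, k) 1 ∈ W := by
  have up : ∀ j : ℤ, j ≠ 0 → mon (j, k) 1 ∈ W → mon (j + 1, k) 1 ∈ W ∧ mon (j - 1, k) 1 ∈ W := by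
    intro j hj h
    have hj' : ((j : ℤ) : ℂ) * 1 ≠ 0 := by
      rw [mul_one]
      exact_mod_cast hj
    obtain ⟨h3, h4, -, -⟩ := raise_mem W hW _ h
    rw [δ1_mon, mon_mul_mon] at h3 h4
    constructor
    · refine mem_of_smul W _ _ hj' ?_
      convert h3 using 2
      · rw [Prod.mk_add_mk, zero_add, add_comm]
      · simp
    · refine mem_of_smul W _ _ hj' ?_
      convert h4 using 2
      · rw [Prod.mk_add_mk, zero_add, add_comm]
        rfl
      · simp
  have h0 : mon (0, k) 1 ∈ W := (up 1 one_ne_zero h1).2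
  have hpos : ∀ n : ℕ, mon ((n : ℤ) + 1, k) 1 ∈ W := by
    intro n
    induction n with
    | zero => simpa using h1
    | succ n ih =>
      have := (up _ (by omega) ih).1
      push_cast
      exact this
  have hneg : ∀ n : ℕ, mon (-((n : ℤ) + 1), k) 1 ∈ W := by
    intro n
    induction n with
    | zero => simpa using h2
    | succ n ih =>
      have := (up _ (by omega) ih).2
      convert this using 3
      push_cast
      ring
  rcases lt_trichotomy j 0 with h | h | h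
  · obtain ⟨n, hn⟩ := Int.eq_ofNat_of_zero_le (show 0 ≤ -j - 1 by omega)
    have := hneg n
    convert this using 3
    omega
  · rw [h]; exact h0
  · obtain ⟨n, hn⟩ := Int.eq_ofNat_of_zero_le (show 0 ≤ j - 1 by omega)
    have := hpos n
    convert this using 3
    omega

lemma all_second (W : Submodule ℂ A) (hW : ∀ (X : su11 × su11), ∀ v ∈ W, lieF (X.1, X.2) v ∈ W)
    (k : ℤ) (h1 : mon (k, 1) 1 ∈ W) (h2 : mon (k, -1) 1 ∈ W) (j : ℤ) : mon (k, j) 1 ∈ W := by
  have up : ∀ j : ℤ, j ≠ 0 → mon (k, j) 1 ∈ W → mon (k, j + 1) 1 ∈ W ∧ mon (k, j - 1) 1 ∈ W := by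
    intro j hj h
    have hj' : ((j : ℤ) : ℂ) * 1 ≠ 0 := by
      rw [mul_one]
      exact_mod_cast hj
    obtain ⟨-, -, h3, h4⟩ := raise_mem W hW _ h
    rw [δ2_mon, mon_mul_mon] at h3 h4
    constructor
    · refine mem_of_smul W _ _ hj' ?_
      convert h3 using 2
      · rw [Prod.mk_add_mk, zero_add, add_comm]
      · simp
    · refine mem_of_smul W _ _ hj' ?_
      convert h4 using 2
      · rw [Prod.mk_add_mk, zero_add, add_comm]
        rfl
      · simp
  have h0 : mon (k, 0) 1 ∈ W := (up 1 one_ne_zero h1).2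
  have hpos : ∀ n : ℕ, mon (k, (n : ℤ) + 1) 1 ∈ W := by
    intro n
    induction n with
    | zero => simpa using h1
    | succ n ih =>
      have := (up _ (by omega) ih).1
      push_cast
      exact this
  have hneg : ∀ n : ℕ, mon (k, -((n : ℤ) + 1)) 1 ∈ W := by
    intro n
    induction n with
    | zero => simpa using h2
    | succ n ih =>
      have := (up _ (by omega) ih).2
      convert this using 3
      push_cast
      ring
  rcases lt_trichotomy j 0 with h | h | h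
  · obtain ⟨n, hn⟩ := Int.eq_ofNat_of_zero_le (show 0 ≤ -j - 1 by omega)
    have := hneg n
    convert this using 3
    omega
  · rw [h]; exact h0
  · obtain ⟨n, hn⟩ := Int.eq_ofNat_of_zero_le (show 0 ≤ j - 1 by omega)
    have := hpos n
    convert this using 3
    omega

lemma ad_entries (u : Circle) (X Y : su11) (h : (Y : Matrix (Fin 2) (Fin 2) ℂ) =
      ((kk u : SL(2, ℂ)) : Matrix (Fin 2) (Fin 2) ℂ) * X * (((kk u)⁻¹ : G) : SL(2, ℂ))) :
    Y.1 0 0 = X.1 0 0 ∧ Y.1 0 1 = (u : ℂ) ^ (2 : ℤ) * X.1 0 1 ∧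
      conj (Y.1 0 1) = (u : ℂ) ^ (-2 : ℤ) * conj (X.1 0 1) := by
  have hu : (u : ℂ) ≠ 0 := Circle.coe_ne_zero u
  have h0 := congrFun (congrFun h 0) 0
  have h1 := congrFun (congrFun h 0) 1
  rw [Subgroup.coe_inv, Matrix.SpecialLinearGroup.coe_inv, Matrix.adjugate_fin_two] at h0 h1
  simp only [kk, Matrix.mul_apply, Fin.sum_univ_two, Matrix.of_apply, Matrix.cons_val',
    Matrix.cons_val_zero, Matrix.cons_val_one, Matrix.cons_val_fin_one, neg_zero, mul_zero,
    zero_mul, add_zero, zero_add] at h0 h1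
  have hc : conj (u : ℂ) = (u : ℂ)⁻¹ := (Circle.coe_inv_eq_conj u).symm
  rw [hc, mul_comm (u : ℂ), mul_assoc, mul_inv_cancel₀ hu, mul_one] at h0
  refine ⟨h0, ?_, ?_⟩
  · rw [h1, zpow_two]
    ring
  · rw [h1, map_mul, map_mul, hc, zpow_neg, zpow_two]
    field_simp

/-- The Harish-Chandra module of the trigonometric polynomials on the torus. -/
noncomputable def M : HCModule A where
  lie :=
    { toFun := fun X => lieF (X.1, X.2)
      map_add' := fun X Y => by
        refine LinearMap.ext fun v => ?_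
        show Λ1 ((X.1 + Y.1 : su11) : Matrix (Fin 2) (Fin 2) ℂ) * δ1 v +
          Λ2 ((X.2 + Y.2 : su11) : Matrix (Fin 2) (Fin 2) ℂ) * δ2 v =
          (Λ1 X.1 * δ1 v + Λ2 X.2 * δ2 v) + (Λ1 Y.1 * δ1 v + Λ2 Y.2 * δ2 v)
        have h1 : Λ1 ((X.1 + Y.1 : su11) : Matrix (Fin 2) (Fin 2) ℂ) = Λ1 X.1 + Λ1 Y.1 := by
          unfold Λ1
          simp only [Submodule.coe_add, Matrix.add_apply, map_add, neg_add, mul_add, mon_add]
          abel
        have h2 : Λ2 ((X.2 + Y.2 : su11) : Matrix (Fin 2) (Fin 2) ℂ) = Λ2 X.2 + Λ2 Y.2 := by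
          unfold Λ2
          simp only [Submodule.coe_add, Matrix.add_apply, map_add, neg_add, mul_add, mon_add]
          abel
        rw [h1, h2]
        ring
      map_smul' := fun c X => by
        refine LinearMap.ext fun v => ?_
        show Λ1 ((c • X.1 : su11) : Matrix (Fin 2) (Fin 2) ℂ) * δ1 v +
          Λ2 ((c • X.2 : su11) : Matrix (Fin 2) (Fin 2) ℂ) * δ2 v =
          (c : ℂ) • (Λ1 X.1 * δ1 v + Λ2 X.2 * δ2 v)
        have h1 : Λ1 ((c • X.1 : su11) : Matrix (Fin 2) (Fin 2) ℂ) = (c : ℂ) • Λ1 X.1 := by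
          unfold Λ1
          simp only [Submodule.coe_smul, Matrix.smul_apply, Complex.real_smul, map_mul,
            Complex.conj_ofReal, smul_add, smul_mon]
          congr 3 <;> ring
        have h2 : Λ2 ((c • X.2 : su11) : Matrix (Fin 2) (Fin 2) ℂ) = (c : ℂ) • Λ2 X.2 := by
          unfold Λ2
          simp only [Submodule.coe_smul, Matrix.smul_apply, Complex.real_smul, map_mul,
            Complex.conj_ofReal, smul_add, smul_mon]
          congr 3 <;> ring
        rw [h1, h2, smul_add, smul_mul_assoc, smul_mul_assoc] }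
  k := kF
  lie_bracket X Y Z h v := lieF_bracket X Y Z h.1 h.2 v
  iSup_ktype := by
    rw [eq_top_iff]
    intro v _
    induction v using A_induction with
    | h0 => exact zero_mem _
    | hadd f h hf hh => exact add_mem (hf trivial) (hh trivial)
    | hmon n c => exact Submodule.mem_iSup_of_mem _ (mon_mem_ktype n c)
  lie_hh m v hv := by
    have h0 : ∀ (c : ℂ) (x : A), mon (0, 0) c * x = c • x := fun c x => by
      rw [mon_eq, mon_zero_one, mul_one, ← Algebra.smul_def]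
    constructor
    · show lieF ((hh : Matrix (Fin 2) (Fin 2) ℂ), 0) v = _
      rw [lieF_apply]
      have h1 : Λ1 hh = mon (0, 0) (-2 * Complex.I) := by
        unfold Λ1 hh
        simp [mon_zero]
      have h2 : δ1 v = (-(m.1 : ℂ) / 2) • v := by
        refine AddMonoidAlgebra.ext (Finsupp.ext fun n => ?_)
        show (dg _ v).coeff n = _
        rw [dg_coeff, AddMonoidAlgebra.coeff_smul, Finsupp.smul_apply, smul_eq_mul]
        by_cases h : v.coeff n = 0
        · rw [h, mul_zero, mul_zero]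
        · rw [ktype_coeff hv n h]
          push_cast
          ring
      show Λ1 hh * δ1 v + Λ2 0 * δ2 v = _
      rw [h1, h2, Λ2_zero, zero_mul, add_zero, h0, smul_smul]
      congr 1
      ring
    · show lieF (0, (hh : Matrix (Fin 2) (Fin 2) ℂ)) v = _
      rw [lieF_apply]
      have h1 : Λ2 hh = mon (0, 0) (-2 * Complex.I) := by
        unfold Λ2 hh
        simp [mon_zero]
      have h2 : δ2 v = (-(m.2 : ℂ) / 2) • v := by
        refine AddMonoidAlgebra.ext (Finsupp.ext fun n => ?_)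
        show (dg _ v).coeff n = _
        rw [dg_coeff, AddMonoidAlgebra.coeff_smul, Finsupp.smul_apply, smul_eq_mul]
        by_cases h : v.coeff n = 0
        · rw [h, mul_zero, mul_zero]
        · rw [ktype_coeff hv n h]
          push_cast
          ring
      show Λ1 0 * δ1 v + Λ2 hh * δ2 v = _
      rw [h1, h2, Λ1_zero, zero_mul, zero_add, h0, smul_smul]
      congr 1
      ring
  ad u X Y h12 v := by
    show kF u (lieF (X.1, X.2) v) = lieF (Y.1, Y.2) (kF u v)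
    obtain ⟨a1, a2, a3⟩ := ad_entries _ _ _ h12.1
    obtain ⟨b1, b2, b3⟩ := ad_entries _ _ _ h12.2
    have hu1 : (u.1 : ℂ) ≠ 0 := Circle.coe_ne_zero u.1
    have hu2 : (u.2 : ℂ) ≠ 0 := Circle.coe_ne_zero u.2
    induction v using A_induction with
    | h0 => simp
    | hadd f h hf hh => simp only [map_add, hf, hh]
    | hmon n c =>
      rw [lieF_apply, kF_mon, lieF_apply]
      unfold Λ1 Λ2
      dsimp only
      rw [a3, a1, a2, b3, b1, b2]
      simp only [δ1_mon, δ2_mon, add_mul, mon_mul_mon, map_add, kF_mon]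
      have e : ∀ (x : ℤ × ℤ) (a b : ℂ), a = b → mon x a = mon x b := fun x a b h => by rw [h]
      have z1 : ∀ a b : ℤ, (u.1 : ℂ) ^ (a + b) = (u.1 : ℂ) ^ a * (u.1 : ℂ) ^ b := zpow_add₀ hu1
      have z2 : ∀ a b : ℤ, (u.2 : ℂ) ^ (a + b) = (u.2 : ℂ) ^ a * (u.2 : ℂ) ^ b := zpow_add₀ hu2
      simp only [Prod.fst_add, Prod.snd_add]
      congr 1
      · congr 1
        · congr 1
          · apply e; simp only [zero_add]; ring
          · apply e
            rw [show -(2 * (-1 + n.1)) = 2 + -(2 * n.1) by ring, z1]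
            simp only [zero_add]
            ring
        · apply e
          rw [show -(2 * (1 + n.1)) = -2 + -(2 * n.1) by ring, z1]
          simp only [zero_add]
          ring
      · congr 1
        · congr 1
          · apply e; simp only [zero_add]; ring
          · apply e
            rw [show -(2 * (-1 + n.2)) = 2 + -(2 * n.2) by ring, z2]
            simp only [zero_add]
            ring
        · apply e
          rw [show -(2 * (1 + n.2)) = -2 + -(2 * n.2) by ring, z2]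
          simp only [zero_add]
          ring
  admissible m := by
    have h : ktype kF m ≤ Submodule.span ℂ {mon (-m.1 / 2, -m.2 / 2) 1} := by
      intro v hv
      rw [Submodule.mem_span_singleton]
      refine ⟨v.coeff (-m.1 / 2, -m.2 / 2), ?_⟩
      rw [smul_mon, mul_one]
      refine AddMonoidAlgebra.ext ?_
      ext n
      unfold mon
      rw [AddMonoidAlgebra.coeff_single, Finsupp.single_apply]
      by_cases h : (-m.1 / 2, -m.2 / 2) = n
      · rw [if_pos h, h]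
      · rw [if_neg h]
        by_contra h2
        have h3 := ktype_coeff hv n (Ne.symm h2)
        apply h
        rw [h3]
        ext <;> simp
    exact Submodule.finiteDimensional_of_le h
  finite_generation := by
    refine ⟨{mon (1, 1) 1, mon (1, -1) 1, mon (-1, 1) 1, mon (-1, -1) 1}, fun W hW hS => ?_⟩
    have h1 : mon (1, 1) 1 ∈ W := hS (by simp)
    have h2 : mon (1, -1) 1 ∈ W := hS (by simp)
    have h3 : mon (-1, 1) 1 ∈ W := hS (by simp)
    have h4 : mon (-1, -1) 1 ∈ W := hS (by simp)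
    have h5 : ∀ j k, mon (j, k) 1 ∈ W := fun j k =>
      all_second W hW j (all_first W hW 1 h1 h3 j) (all_first W hW (-1) h2 h4 j) k
    rw [eq_top_iff]
    intro v _
    induction v using A_induction with
    | h0 => exact zero_mem _
    | hadd f h hf hh => exact add_mem (hf trivial) (hh trivial)
    | hmon n c =>
      have := W.smul_mem c (h5 n.1 n.2)
      rwa [smul_mon, mul_one] at this

end Pool.Agent.R718.Sq
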