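import Mathlib
import Pool.Agent.R718.SqMod
import Pool.Agent.R718.SU11Glob

/-!
Helper for `MP_6a3a89_al`: the sup norm on the trigonometric polynomials on the torus is
`G`-continuous.
-/

set_option autoImplicit false

open scoped ComplexConjugate MatrixGroups Topology NNReal ENNReal

namespace Pool.Agent.R718.Sq

open Pool.Agent.R718.SU11 (G su11 kk hh pow_circle_ne ea eb ec ed ec_eq ed_eq det_eq ed_ne norm_eq
  norm_ec norm_ed one_le_norm_ea inv_entries kk_inv_entries continuous_entry)

/-! ## The action on the circle -/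

lemma norm_num (g : G) (z : Circle) : ‖ea g * z + eb g‖ = ‖ec g * z + ed g‖ := by
  have h : ea g * z + eb g = z * conj (ec g * z + ed g) := by
    have h1 : (z : ℂ) * conj (z : ℂ) = 1 := by
      rw [Complex.mul_conj, Complex.normSq_eq_norm_sq, Circle.norm_coe]
      norm_num
    rw [ec_eq, ed_eq, map_add, map_mul, Complex.conj_conj, Complex.conj_conj]
    linear_combination (-eb g) * h1
  rw [h, norm_mul, Circle.norm_coe, one_mul, RCLike.norm_conj]

lemma den_ne (g : G) (z : Circle) : ec g * z + ed g ≠ 0 := by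
  intro h
  have h1 : ed g = -(ec g * z) := by linear_combination h
  have h2 : ‖ed g‖ = ‖ec g‖ := by rw [h1, norm_neg, norm_mul, Circle.norm_coe, mul_one]
  rw [norm_ec, norm_ed] at h2
  have h3 := norm_eq g
  rw [h2] at h3
  linarith

/-- The action of `SU(1,1)` on the circle. -/
noncomputable def mob (g : G) (z : Circle) : Circle :=
  ⟨(ea g * z + eb g) / (ec g * z + ed g), by
    refine mem_sphere_zero_iff_norm.2 ?_
    rw [norm_div, norm_num, div_self]
    exact norm_ne_zero_iff.2 (den_ne g z)⟩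

lemma mob_coe (g : G) (z : Circle) : (mob g z : ℂ) = (ea g * z + eb g) / (ec g * z + ed g) := rfl

lemma mob_mul (g h : G) (z : Circle) : mob (g * h) z = mob g (mob h z) := by
  apply Circle.ext
  rw [mob_coe, mob_coe, mob_coe]
  have h1 : ea (g * h) = ea g * ea h + eb g * ec h := by
    unfold ea eb ec
    simp [Matrix.mul_apply, Fin.sum_univ_two]
  have h2 : eb (g * h) = ea g * eb h + eb g * ed h := by
    unfold ea eb ed
    simp [Matrix.mul_apply, Fin.sum_univ_two]
  have h3 : ec (g * h) = ec g * ea h + ed g * ec h := by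
    unfold ea ec ed
    simp [Matrix.mul_apply, Fin.sum_univ_two]
  have h4 : ed (g * h) = ec g * eb h + ed g * ed h := by
    unfold ec eb ed
    simp [Matrix.mul_apply, Fin.sum_univ_two]
  have n1 := den_ne h z
  have n2 := den_ne g (mob h z)
  rw [mob_coe] at n2
  have n3 := den_ne (g * h) z
  rw [h3, h4] at n3
  rw [h1, h2, h3, h4]
  have hw : (ea h * z + eb h) / (ec h * z + ed h) * (ec h * z + ed h) = ea h * z + eb h :=
    div_mul_cancel₀ _ n1
  have n4 : ec g * ((ea h * z + eb h) / (ec h * z + ed h)) + ed g =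
      ((ec g * ea h + ed g * ec h) * z + (ec g * eb h + ed g * ed h)) / (ec h * z + ed h) := by
    rw [eq_div_iff n1]
    linear_combination (ec g) * hw
  have n5 : ea g * ((ea h * z + eb h) / (ec h * z + ed h)) + eb g =
      ((ea g * ea h + eb g * ec h) * z + (ea g * eb h + eb g * ed h)) / (ec h * z + ed h) := by
    rw [eq_div_iff n1]
    linear_combination (ea g) * hw
  rw [n4, n5, div_div_div_cancel_right₀ n1]

lemma mob_one (z : Circle) : mob 1 z = z := by
  apply Circle.ext
  rw [mob_coe]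
  unfold ea eb ec ed
  simp

lemma continuous_coe : Continuous fun z : Circle => (z : ℂ) := continuous_subtype_val

lemma continuous_mob : Continuous fun x : G × Circle => mob x.1 x.2 := by
  have ha : Continuous fun x : G × Circle => ea x.1 := (continuous_entry 0 0).comp continuous_fst
  have hb : Continuous fun x : G × Circle => eb x.1 := (continuous_entry 0 1).comp continuous_fst
  have hc : Continuous fun x : G × Circle => ec x.1 := (continuous_entry 1 0).comp continuous_fst
  have hd : Continuous fun x : G × Circle => ed x.1 := (continuous_entry 1 1).comp continuous_fst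
  have hz : Continuous fun x : G × Circle => (x.2 : ℂ) := continuous_coe.comp continuous_snd
  refine Continuous.subtype_mk (f := fun x : G × Circle =>
    (ea x.1 * x.2 + eb x.1) / (ec x.1 * x.2 + ed x.1)) ?_ _
  exact ((ha.mul hz).add hb).div ((hc.mul hz).add hd) fun x => den_ne x.1 x.2

/-- The torus. -/
abbrev T2 : Type := Circle × Circle

/-- The action of `G` on the torus. -/
noncomputable def φ (g : G × G) : C(T2, T2) where
  toFun z := (mob g.1 z.1, mob g.2 z.2)
  continuous_toFun :=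
    (continuous_mob.comp ((continuous_const (y := g.1)).prodMk continuous_fst)).prodMk
      (continuous_mob.comp ((continuous_const (y := g.2)).prodMk continuous_snd))

lemma φ_mul (g h : G × G) : φ (g * h) = (φ g).comp (φ h) := by
  ext z
  · show (mob (g.1 * h.1) z.1 : ℂ) = (mob g.1 (mob h.1 z.1) : ℂ)
    rw [mob_mul]
  · show (mob (g.2 * h.2) z.2 : ℂ) = (mob g.2 (mob h.2 z.2) : ℂ)
    rw [mob_mul]

lemma φ_one : φ 1 = ContinuousMap.id T2 := by
  ext z
  · show (mob 1 z.1 : ℂ) = _
    rw [mob_one]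
    rfl
  · show (mob 1 z.2 : ℂ) = _
    rw [mob_one]
    rfl

lemma continuous_φ : Continuous φ := by
  have h : Continuous fun x : (G × G) × T2 => φ x.1 x.2 :=
    (continuous_mob.comp ((continuous_fst.comp continuous_fst).prodMk
      (continuous_fst.comp continuous_snd))).prodMk
      (continuous_mob.comp ((continuous_snd.comp continuous_fst).prodMk
      (continuous_snd.comp continuous_snd)))
  exact (ContinuousMap.curry ⟨_, h⟩).continuous

/-- Continuous functions on the torus. -/
abbrev E : Type := C(T2, ℂ)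

/-- The action of `G` on functions. -/
noncomputable def πS : G × G →* (E →L[ℂ] E) where
  toFun g := LinearMap.mkContinuous
    { toFun := fun F => F.comp (φ g⁻¹)
      map_add' := fun F F' => rfl
      map_smul' := fun c F => rfl } 1 (fun F => by
        rw [one_mul]
        exact (ContinuousMap.norm_le _ (norm_nonneg _)).2 fun z => F.norm_coe_le_norm _)
  map_one' := by
    ext F z
    show F (φ (1 : G × G)⁻¹ z) = F z
    rw [inv_one, φ_one]
    rfl
  map_mul' g h := by
    ext F z
    show F (φ (g * h)⁻¹ z) = F (φ h⁻¹ (φ g⁻¹ z))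
    rw [mul_inv_rev, φ_mul]
    rfl

lemma πS_apply (g : G × G) (F : E) : πS g F = F.comp (φ g⁻¹) := rfl

lemma πS_apply' (g : G × G) (F : E) (z : T2) : πS g F z = F (φ g⁻¹ z) := rfl

lemma continuous_πS : Continuous fun x : (G × G) × E => πS x.1 x.2 := by
  have h : Continuous fun x : (G × G) × E => (φ x.1⁻¹, x.2) :=
    (continuous_φ.comp (continuous_inv.comp continuous_fst)).prodMk continuous_snd
  exact ContinuousMap.continuous_comp'.comp h

/-! ## The embedding -/

/-- The characters. -/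
noncomputable def chi (m : ℤ × ℤ) : E where
  toFun z := (z.1 : ℂ) ^ m.1 * (z.2 : ℂ) ^ m.2
  continuous_toFun := by
    refine Continuous.mul ?_ ?_
    · exact Continuous.zpow₀ (continuous_coe.comp continuous_fst) _
        fun z => Or.inl (Circle.coe_ne_zero _)
    · exact Continuous.zpow₀ (continuous_coe.comp continuous_snd) _
        fun z => Or.inl (Circle.coe_ne_zero _)

lemma chi_apply (m : ℤ × ℤ) (z : T2) : chi m z = (z.1 : ℂ) ^ m.1 * (z.2 : ℂ) ^ m.2 := rfl

/-- The characters, as a homomorphism. -/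
noncomputable def chiHom : Multiplicative (ℤ × ℤ) →* E where
  toFun m := chi m.toAdd
  map_one' := by
    ext z
    rw [chi_apply]
    simp
  map_mul' m n := by
    ext z
    rw [ContinuousMap.mul_apply, chi_apply, chi_apply, chi_apply, toAdd_mul, Prod.fst_add,
      Prod.snd_add, zpow_add₀ (Circle.coe_ne_zero _), zpow_add₀ (Circle.coe_ne_zero _)]
    ring

lemma chi_mul (m n : ℤ × ℤ) : chi m * chi n = chi (m + n) := (chiHom.map_mul m n).symm

lemma chi_zero : chi (0, 0) = 1 := chiHom.map_one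

/-- The embedding of the trigonometric polynomials in the continuous functions. -/
noncomputable def ι : A →ₐ[ℂ] E := AddMonoidAlgebra.lift ℂ E (ℤ × ℤ) chiHom

lemma ι_mon (m : ℤ × ℤ) (r : ℂ) : ι (mon m r) = r • chi m := by
  unfold ι mon
  rw [AddMonoidAlgebra.lift_single]
  rfl

lemma star_chi (m : ℤ × ℤ) : star (chi m) = chi (-m) := by
  ext z
  rw [ContinuousMap.star_apply, chi_apply, chi_apply, Prod.fst_neg, Prod.snd_neg, zpow_neg,
    zpow_neg]
  show conj _ = _
  rw [map_mul, map_zpow₀, map_zpow₀, ← Circle.coe_inv_eq_conj, ← Circle.coe_inv_eq_conj,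
    Circle.coe_inv, Circle.coe_inv, inv_zpow, inv_zpow]

lemma star_mem_range (F : E) (hF : F ∈ ι.range) : star F ∈ ι.range := by
  obtain ⟨v, rfl⟩ := hF
  induction v using A_induction with
  | h0 => simp
  | hadd x y hx hy =>
    show star (ι (x + y)) ∈ _
    rw [map_add, star_add]
    exact add_mem hx hy
  | hmon m r =>
    show star (ι (mon m r)) ∈ _
    rw [ι_mon, star_smul, star_chi, ← ι_mon]
    exact ⟨_, rfl⟩

lemma dense_ι : DenseRange ι := by
  let S : StarSubalgebra ℂ E := { ι.range with star_mem' := fun {F} hF => star_mem_range F hF }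
  have hsep : S.SeparatesPoints := by
    intro z w hzw
    by_cases h : z.1 = w.1
    · have h2 : z.2 ≠ w.2 := fun h3 => hzw (Prod.ext h h3)
      refine ⟨ι (mon (0, 1) 1), ⟨ι (mon (0, 1) 1), ⟨_, rfl⟩, rfl⟩, ?_⟩
      rw [ι_mon, one_smul, chi_apply, chi_apply]
      simp only [zpow_zero, zpow_one, one_mul]
      exact fun h4 => h2 (Circle.ext h4)
    · refine ⟨ι (mon (1, 0) 1), ⟨ι (mon (1, 0) 1), ⟨_, rfl⟩, rfl⟩, ?_⟩
      rw [ι_mon, one_smul, chi_apply, chi_apply]
      simp only [zpow_zero, zpow_one, mul_one]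
      exact fun h4 => h (Circle.ext h4)
  have h1 := ContinuousMap.starSubalgebra_topologicalClosure_eq_top_of_separatesPoints S hsep
  intro F
  have h2 : F ∈ S.topologicalClosure := by rw [h1]; trivial
  exact h2

/-- The characters as monoid homomorphisms to `ℂ`. -/
noncomputable def chiMH (m : ℤ × ℤ) : T2 →* ℂ where
  toFun z := (z.1 : ℂ) ^ m.1 * (z.2 : ℂ) ^ m.2
  map_one' := by simp
  map_mul' z w := by
    rw [Prod.fst_mul, Prod.snd_mul, Circle.coe_mul, Circle.coe_mul, mul_zpow, mul_zpow]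
    ring

lemma chiMH_injective : Function.Injective chiMH := by
  intro m n h
  have h1 : chiMH m (Circle.exp 1, 1) = chiMH n (Circle.exp 1, 1) := by rw [h]
  have h2 : chiMH m (1, Circle.exp 1) = chiMH n (1, Circle.exp 1) := by rw [h]
  have h3 : ((Circle.exp 1 : Circle) : ℂ) ^ m.1 = (Circle.exp 1 : ℂ) ^ n.1 := by
    have e1 : chiMH m (Circle.exp 1, 1) = (Circle.exp 1 : ℂ) ^ m.1 * ((1 : Circle) : ℂ) ^ m.2 := rfl
    have e2 : chiMH n (Circle.exp 1, 1) = (Circle.exp 1 : ℂ) ^ n.1 * ((1 : Circle) : ℂ) ^ n.2 := rfl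
    rw [e1, e2, Circle.coe_one, one_zpow, one_zpow, mul_one, mul_one] at h1
    exact h1
  have h4 : ((Circle.exp 1 : Circle) : ℂ) ^ m.2 = (Circle.exp 1 : ℂ) ^ n.2 := by
    have e1 : chiMH m (1, Circle.exp 1) = ((1 : Circle) : ℂ) ^ m.1 * (Circle.exp 1 : ℂ) ^ m.2 := rfl
    have e2 : chiMH n (1, Circle.exp 1) = ((1 : Circle) : ℂ) ^ n.1 * (Circle.exp 1 : ℂ) ^ n.2 := rfl
    rw [e1, e2, Circle.coe_one, one_zpow, one_zpow, one_mul, one_mul] at h2
    exact h2
  exact Prod.ext (pow_circle_ne h3) (pow_circle_ne h4)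

lemma ι_apply (v : A) (z : T2) : ι v z = v.coeff.sum fun m r => r * chiMH m z := by
  induction v using A_induction with
  | h0 => simp
  | hadd x y hx hy =>
    rw [map_add, ContinuousMap.add_apply, hx, hy, AddMonoidAlgebra.coeff_add,
      Finsupp.sum_add_index' (by simp) (by intro m a b; ring)]
  | hmon m r =>
    rw [ι_mon]
    unfold mon
    rw [AddMonoidAlgebra.coeff_single, Finsupp.sum_single_index (by simp)]
    rfl

lemma injective_ι : Function.Injective ι := by
  have h1 : LinearIndependent ℂ fun m : ℤ × ℤ => (chiMH m : T2 → ℂ) :=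
    (linearIndependent_monoidHom T2 ℂ).comp chiMH chiMH_injective
  rw [injective_iff_map_eq_zero]
  intro v hv
  have h2 : Finsupp.linearCombination ℂ (fun m : ℤ × ℤ => (chiMH m : T2 → ℂ)) v.coeff = 0 := by
    funext z
    rw [Finsupp.linearCombination_apply, Finsupp.sum, Finset.sum_apply]
    have h3 := ι_apply v z
    rw [hv] at h3
    exact h3.symm
  have h3 : v.coeff = 0 := by
    have := (linearIndependent_iff.1 h1) v.coeff h2
    exact this
  exact AddMonoidAlgebra.ext h3

/-! ## The derivative of the action -/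

lemma πS_mul (g : G × G) (F F' : E) : πS g (F * F') = πS g F * πS g F' := rfl

lemma πS_star (g : G × G) (F : E) : πS g (star F) = star (πS g F) := rfl

lemma hasDerivAt_quot (Z : E) (a b c d : ℝ → ℂ) (a' b' c' d' : ℂ) (ha0 : a 0 = 1) (hb0 : b 0 = 0)
    (hc0 : c 0 = 0) (hd0 : d 0 = 1) (ha : HasDerivAt a a' 0) (hb : HasDerivAt b b' 0)
    (hc : HasDerivAt c c' 0) (hd : HasDerivAt d d' 0) :
    HasDerivAt (fun t => (a t • Z + b t • (1 : E)) * Ring.inverse (c t • Z + d t • (1 : E)))
      ((a' - d') • Z + b' • 1 - c' • (Z * Z)) 0 := by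
  have hN := (ha.smul_const Z).add (hb.smul_const (1 : E))
  have hD := (hc.smul_const Z).add (hd.smul_const (1 : E))
  have h2 := hasFDerivAt_ringInverse (𝕜 := ℝ) (1 : Eˣ)
  have h3 : ((1 : Eˣ) : E) = c 0 • Z + d 0 • (1 : E) := by
    rw [hc0, hd0, zero_smul, zero_add, one_smul, Units.val_one]
  rw [h3] at h2
  have h4 := h2.comp_hasDerivAt (0 : ℝ) hD
  have h5 : HasDerivAt (fun t => Ring.inverse (c t • Z + d t • (1 : E))) (-(c' • Z + d' • 1)) 0 := by
    refine h4.congr_deriv ?_
    show -(((1 : Eˣ)⁻¹ : Eˣ).val * (c' • Z + d' • 1) * ((1 : Eˣ)⁻¹ : Eˣ).val) = _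
    rw [inv_one, Units.val_one, one_mul, mul_one]
  refine (hN.mul h5).congr_deriv ?_
  rw [Pi.add_apply, ha0, hb0, hc0, hd0, zero_smul, zero_smul, one_smul, one_smul, zero_add,
    add_zero, Ring.inverse_one, mul_one]
  simp only [mul_neg, mul_add, mul_smul_comm, mul_one]
  module

lemma quot_eq (g : G) (Z F : E) (hden : ∀ x, ec g * Z x + ed g ≠ 0)
    (hF : ∀ x, F x = (ea g * Z x + eb g) / (ec g * Z x + ed g)) :
    F = (ea g • Z + eb g • (1 : E)) * Ring.inverse (ec g • Z + ed g • (1 : E)) := by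
  have hu : IsUnit (ec g • Z + ed g • (1 : E)) := by
    rw [ContinuousMap.isUnit_iff_forall_ne_zero]
    intro x
    simpa using hden x
  have h1 : (ea g • Z + eb g • (1 : E)) = F * (ec g • Z + ed g • (1 : E)) := by
    ext x
    simp only [ContinuousMap.add_apply, ContinuousMap.smul_apply, ContinuousMap.one_apply,
      ContinuousMap.mul_apply, smul_eq_mul, mul_one]
    rw [hF, div_mul_cancel₀ _ (hden x)]
  rw [h1, mul_assoc, Ring.mul_inverse_cancel _ hu, mul_one]

section

variable {X : su11 × su11} {γ : ℝ → G × G} (h0 : γ 0 = 1)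
  (h1 : HasDerivAt (fun t => (((γ t).1 : SL(2, ℂ)) : Matrix (Fin 2) (Fin 2) ℂ))
      (X.1 : Matrix (Fin 2) (Fin 2) ℂ) 0)
  (h2 : HasDerivAt (fun t => (((γ t).2 : SL(2, ℂ)) : Matrix (Fin 2) (Fin 2) ℂ))
      (X.2 : Matrix (Fin 2) (Fin 2) ℂ) 0)

lemma entries_deriv {X : su11} {γ : ℝ → G}
    (hγ : HasDerivAt (fun t => (((γ t) : SL(2, ℂ)) : Matrix (Fin 2) (Fin 2) ℂ))
      (X : Matrix (Fin 2) (Fin 2) ℂ) 0) :
    HasDerivAt (fun t => ea (γ t)⁻¹) (-(X.1 0 0)) 0 ∧
    HasDerivAt (fun t => eb (γ t)⁻¹) (-(X.1 0 1)) 0 ∧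
    HasDerivAt (fun t => ec (γ t)⁻¹) (-conj (X.1 0 1)) 0 ∧
    HasDerivAt (fun t => ed (γ t)⁻¹) (X.1 0 0) 0 := by
  have hent : ∀ i j, HasDerivAt (fun t => (γ t).1.1 i j) (X.1 i j) 0 := fun i j =>
    hasDerivAt_pi.1 (hasDerivAt_pi.1 hγ i) j
  obtain ⟨hX1, hX2, hX3⟩ := X.2
  refine ⟨?_, ?_, ?_, ?_⟩
  · have h := hent 1 1
    rw [hX2] at h
    simp only [(inv_entries _).1]
    exact h
  · have h := (hent 0 1).neg
    simp only [(inv_entries _).2.1]
    exact h
  · have h := (hent 1 0).neg
    rw [hX3] at h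
    simp only [(inv_entries _).2.2.1]
    exact h
  · have h := hent 0 0
    simp only [(inv_entries _).2.2.2]
    exact h

/-- The property that the derivative of the action on `v` is the Lie algebra action. -/
def PD (X : su11 × su11) (γ : ℝ → G × G) (v : A) : Prop :=
  HasDerivAt (fun t => πS (γ t) (ι v)) (ι (lieF (X.1, X.2) v)) 0

include h0 in
lemma PD_mul {v w : A} (hv : PD X γ v) (hw : PD X γ w) : PD X γ (v * w) := by
  unfold PD at *
  have h := hv.mul hw
  rw [h0] at h
  have h3 : (fun t => πS (γ t) (ι (v * w))) = fun t => πS (γ t) (ι v) * πS (γ t) (ι w) := by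
    funext t
    rw [map_mul]
    rfl
  rw [h3]
  refine h.congr_deriv ?_
  rw [map_one]
  show ι _ * ι w + ι v * ι _ = _
  rw [← map_mul, ← map_mul, ← map_add]
  congr 1
  show der _ v * w + v * der _ w = der _ (v * w)
  rw [Derivation.leibniz]
  simp only [smul_eq_mul]
  ring

lemma lieF_one : lieF (X.1, X.2) (mon (0, 0) 1) = 0 := by
  show der _ 1 = 0
  exact Derivation.map_one_eq_zero _

lemma PD_one : PD X γ (mon (0, 0) 1) := by
  unfold PD
  rw [lieF_one, map_zero]
  have h : (fun t => πS (γ t) (ι (mon (0, 0) 1))) = fun _ => (1 : E) := by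
    funext t
    rw [mon_zero_one, map_one]
    rfl
  rw [h]
  exact hasDerivAt_const _ _

lemma lieF_mon (X : Matrix (Fin 2) (Fin 2) ℂ × Matrix (Fin 2) (Fin 2) ℂ) (m : ℤ × ℤ) :
    lieF X (mon m 1) =
      (mon ((0, 0) + m) (-2 * X.1 0 0 * m.1) + mon ((-1, 0) + m) (-(X.1 0 1) * m.1) +
        mon ((1, 0) + m) (conj (X.1 0 1) * m.1)) +
      (mon ((0, 0) + m) (-2 * X.2 0 0 * m.2) + mon ((0, -1) + m) (-(X.2 0 1) * m.2) +
        mon ((0, 1) + m) (conj (X.2 0 1) * m.2)) := by
  rw [lieF_apply, δ1_mon, δ2_mon]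
  unfold Λ1 Λ2
  simp only [add_mul, mon_mul_mon, mul_one]

include h0 h1 in
lemma PD_10 : PD X γ (mon (1, 0) 1) := by
  unfold PD
  obtain ⟨ha, hb, hc, hd⟩ := entries_deriv h1
  have hi : (γ 0).1⁻¹ = 1 := by rw [h0]; simp
  have h := hasDerivAt_quot (chi (1, 0)) _ _ _ _ _ _ _ _ (by simp only [hi]; exact SU11.ea_one)
    (by simp only [hi]; exact SU11.eb_one) (by simp only [hi]; exact SU11.ec_one)
    (by simp only [hi]; exact SU11.ed_one) ha hb hc hd
  have h3 : (fun t => πS (γ t) (ι (mon (1, 0) 1))) = fun t =>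
      (ea (γ t).1⁻¹ • chi (1, 0) + eb (γ t).1⁻¹ • (1 : E)) *
        Ring.inverse (ec (γ t).1⁻¹ • chi (1, 0) + ed (γ t).1⁻¹ • (1 : E)) := by
    funext t
    refine quot_eq _ _ _ (fun x => ?_) (fun x => ?_)
    · simpa [chi_apply] using den_ne (γ t).1⁻¹ x.1
    · rw [ι_mon, one_smul, πS_apply', chi_apply, chi_apply]
      simp only [zpow_one, zpow_zero, mul_one]
      rfl
  rw [h3]
  refine h.congr_deriv ?_
  rw [lieF_mon]
  simp only [Prod.mk_add_mk, map_add, ι_mon, Int.cast_zero, Int.cast_one, mul_zero, zero_smul,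
    add_zero, mul_one, chi_mul, zero_add, neg_add_cancel, chi_zero]
  module

lemma hasDerivAt_star {f : ℝ → E} {f' : E} (h : HasDerivAt f f' 0) :
    HasDerivAt (fun t => star (f t)) (star f') 0 := h.star

include h0 h1 in
lemma PD_m10 : PD X γ (mon (-1, 0) 1) := by
  have h := hasDerivAt_star (PD_10 h0 h1)
  unfold PD
  have h3 : (fun t => πS (γ t) (ι (mon (-1, 0) 1))) =
      fun t => star (πS (γ t) (ι (mon (1, 0) 1))) := by
    funext t
    rw [← πS_star, ι_mon, ι_mon, one_smul, one_smul, star_chi]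
    rfl
  rw [h3]
  refine h.congr_deriv ?_
  obtain ⟨hX1, hX2, hX3⟩ := X.1.2
  rw [lieF_mon, lieF_mon]
  simp only [Prod.mk_add_mk, map_add, ι_mon, Int.cast_zero, Int.cast_one, mul_zero, zero_smul,
    add_zero, mul_one, zero_add, neg_add_cancel, chi_zero, star_add, star_smul, star_chi,
    star_one, Prod.neg_mk, neg_zero, Int.cast_neg, mul_neg]
  simp only [Complex.star_def, map_mul, map_neg, hX1, Complex.conj_conj, map_ofNat]
  norm_num [chi_zero]
  module

include h0 h2 in
lemma PD_01 : PD X γ (mon (0, 1) 1) := by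
  unfold PD
  obtain ⟨ha, hb, hc, hd⟩ := entries_deriv h2
  have hi : (γ 0).2⁻¹ = 1 := by rw [h0]; simp
  have h := hasDerivAt_quot (chi (0, 1)) _ _ _ _ _ _ _ _ (by simp only [hi]; exact SU11.ea_one)
    (by simp only [hi]; exact SU11.eb_one) (by simp only [hi]; exact SU11.ec_one)
    (by simp only [hi]; exact SU11.ed_one) ha hb hc hd
  have h3 : (fun t => πS (γ t) (ι (mon (0, 1) 1))) = fun t =>
      (ea (γ t).2⁻¹ • chi (0, 1) + eb (γ t).2⁻¹ • (1 : E)) *
        Ring.inverse (ec (γ t).2⁻¹ • chi (0, 1) + ed (γ t).2⁻¹ • (1 : E)) := by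
    funext t
    refine quot_eq _ _ _ (fun x => ?_) (fun x => ?_)
    · simpa [chi_apply] using den_ne (γ t).2⁻¹ x.2
    · rw [ι_mon, one_smul, πS_apply', chi_apply, chi_apply]
      simp only [zpow_one, zpow_zero, one_mul]
      rfl
  rw [h3]
  refine h.congr_deriv ?_
  rw [lieF_mon]
  simp only [Prod.mk_add_mk, map_add, ι_mon, Int.cast_zero, Int.cast_one, mul_zero, zero_smul,
    add_zero, mul_one, chi_mul, zero_add, neg_add_cancel, chi_zero]
  module

include h0 h2 in
lemma PD_0m1 : PD X γ (mon (0, -1) 1) := by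
  have h := hasDerivAt_star (PD_01 h0 h2)
  unfold PD
  have h3 : (fun t => πS (γ t) (ι (mon (0, -1) 1))) =
      fun t => star (πS (γ t) (ι (mon (0, 1) 1))) := by
    funext t
    rw [← πS_star, ι_mon, ι_mon, one_smul, one_smul, star_chi]
    rfl
  rw [h3]
  refine h.congr_deriv ?_
  obtain ⟨hX1, hX2, hX3⟩ := X.2.2
  rw [lieF_mon, lieF_mon]
  simp only [Prod.mk_add_mk, map_add, ι_mon, Int.cast_zero, Int.cast_one, mul_zero, zero_smul,
    add_zero, mul_one, zero_add, neg_add_cancel, chi_zero, star_add, star_smul, star_chi,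
    star_one, Prod.neg_mk, neg_zero, Int.cast_neg, mul_neg]
  simp only [Complex.star_def, map_mul, map_neg, hX1, Complex.conj_conj, map_ofNat]
  norm_num [chi_zero]
  module

include h0 h1 h2 in
theorem PD_all (v : A) : PD X γ v := by
  have hmul : ∀ m n : ℤ × ℤ, PD X γ (mon m 1) → PD X γ (mon n 1) → PD X γ (mon (m + n) 1) := by
    intro m n hm hn
    have h := PD_mul h0 hm hn
    rwa [mon_mul_mon, mul_one] at h
  have hj : ∀ j : ℤ, PD X γ (mon (j, 0) 1) := by
    intro j
    induction j using Int.induction_on with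
    | zero => exact PD_one
    | succ i ih =>
      have h := hmul _ _ ih (PD_10 h0 h1)
      rwa [Prod.mk_add_mk, add_zero] at h
    | pred i ih =>
      have h := hmul _ _ ih (PD_m10 h0 h1)
      rwa [Prod.mk_add_mk, add_zero, ← sub_eq_add_neg] at h
  have hk : ∀ j : ℤ, PD X γ (mon (0, j) 1) := by
    intro j
    induction j using Int.induction_on with
    | zero => exact PD_one
    | succ i ih =>
      have h := hmul _ _ ih (PD_01 h0 h2)
      rwa [Prod.mk_add_mk, add_zero] at h
    | pred i ih =>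
      have h := hmul _ _ ih (PD_0m1 h0 h2)
      rwa [Prod.mk_add_mk, add_zero, ← sub_eq_add_neg] at h
  induction v using A_induction with
  | h0 =>
    unfold PD
    simp only [map_zero]
    exact hasDerivAt_const _ _
  | hadd v w hv hw =>
    unfold PD at *
    simp only [map_add]
    exact hv.add hw
  | hmon m r =>
    have h := hmul _ _ (hj m.1) (hk m.2)
    rw [Prod.mk_add_mk, add_zero, zero_add] at h
    have h3 : mon m r = r • mon (m.1, m.2) 1 := by rw [smul_mon, mul_one]
    unfold PD at *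
    rw [h3]
    simp only [map_smul]
    exact h.const_smul r

end

lemma πS_kk (u : Circle × Circle) (v : A) : πS (kk u.1, kk u.2) (ι v) = ι (kF u v) := by
  induction v using A_induction with
  | h0 => simp
  | hadd v w hv hw => simp only [map_add, hv, hw]
  | hmon m r =>
    rw [kF_mon, ι_mon, ι_mon, map_smul]
    ext z
    rw [ContinuousMap.smul_apply, ContinuousMap.smul_apply, πS_apply', chi_apply, chi_apply]
    obtain ⟨a1, a2, a3, a4⟩ := kk_inv_entries u.1
    obtain ⟨b1, b2, b3, b4⟩ := kk_inv_entries u.2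
    have hu1 : (u.1 : ℂ) ≠ 0 := Circle.coe_ne_zero u.1
    have hu2 : (u.2 : ℂ) ≠ 0 := Circle.coe_ne_zero u.2
    have e1 : ((φ (kk u.1, kk u.2)⁻¹ z).1 : ℂ) = (u.1 : ℂ) ^ (-2 : ℤ) * z.1 := by
      show (mob (kk u.1)⁻¹ z.1 : ℂ) = _
      rw [mob_coe, a1, a2, a3, a4, zero_mul, zero_add, add_zero, zpow_neg, zpow_two]
      field_simp
    have e2 : ((φ (kk u.1, kk u.2)⁻¹ z).2 : ℂ) = (u.2 : ℂ) ^ (-2 : ℤ) * z.2 := by
      show (mob (kk u.2)⁻¹ z.2 : ℂ) = _
      rw [mob_coe, b1, b2, b3, b4, zero_mul, zero_add, add_zero, zpow_neg, zpow_two]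
      field_simp
    rw [e1, e2, mul_zpow, mul_zpow, ← zpow_mul, ← zpow_mul, smul_eq_mul, smul_eq_mul,
      neg_mul, neg_mul]
    ring

/-- The sup norm is `G`-continuous. -/
theorem gContinuous_sup : GContinuous M fun v => ‖ι v‖ :=
  ⟨E, inferInstance, inferInstance, inferInstance, ⟨{
    ι := ι.toLinearMap
    π := πS
    injective := injective_ι
    norm_ι := fun _ => rfl
    dense := dense_ι
    continuous := continuous_πS
    k_eq := πS_kk
    lie_eq := fun _ v _ h => PD_all h.1 h.2.1 h.2.2 v }⟩⟩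

end Pool.Agent.R718.Sq
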