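import Mathlib
import Pool.Agent.R718.SqRep

/-!
Helper for `MP_6a3a89_al`: trigonometric polynomials `f` on the torus with bounded `f` and `Δf` but
unbounded `∂²f/∂x²`.
-/

set_option autoImplicit false

open scoped ComplexConjugate MatrixGroups Topology NNReal ENNReal

namespace Pool.Agent.R718.Sq

/-- `1 + (δ₁² + δ₂²)/2` -/
noncomputable def D2 : A →ₗ[ℂ] A := dg fun m => 1 + ((m.1 : ℂ) ^ 2 + (m.2 : ℂ) ^ 2) / 2

lemma D2_eq (v : A) : D2 v = v + (2⁻¹ : ℂ) • (δ1 (δ1 v) + δ2 (δ2 v)) := by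
  induction v using A_induction with
  | h0 => simp
  | hadd v w hv hw => simp only [map_add, hv, hw, smul_add]; abel
  | hmon m r =>
    unfold D2
    rw [dg_mon, δ1_mon, δ1_mon, δ2_mon, δ2_mon, ← mon_add, smul_mon, ← mon_add]
    congr 1
    ring

/-- `sin² x` -/
noncomputable def Ux : A := mon (0, 0) 2⁻¹ - mon (2, 0) 4⁻¹ - mon (-2, 0) 4⁻¹

/-- `sin² y` -/
noncomputable def Uy : A := mon (0, 0) 2⁻¹ - mon (0, 2) 4⁻¹ - mon (0, -2) 4⁻¹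

lemma δ1_Uy : δ1 Uy = 0 := by
  unfold Uy
  rw [map_sub, map_sub, δ1_mon, δ1_mon, δ1_mon]
  simp [mon_zero]

lemma δ2_Ux : δ2 Ux = 0 := by
  unfold Ux
  rw [map_sub, map_sub, δ2_mon, δ2_mon, δ2_mon]
  simp [mon_zero]

lemma mon_neg (m : ℤ × ℤ) (r : ℂ) : mon m (-r) = -mon m r := by
  rw [mon_eq, mon_eq m r, map_neg, neg_mul]

lemma mon_sub (m : ℤ × ℤ) (r s : ℂ) : mon m (r - s) = mon m r - mon m s := by
  rw [sub_eq_add_neg, mon_add, mon_neg, sub_eq_add_neg]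

lemma δ1_Ux : δ1 Ux = mon (-2, 0) 2⁻¹ - mon (2, 0) 2⁻¹ := by
  unfold Ux
  rw [map_sub, map_sub, δ1_mon, δ1_mon, δ1_mon]
  norm_num [mon_zero, mon_neg]
  abel

lemma δ2_Uy : δ2 Uy = mon (0, -2) 2⁻¹ - mon (0, 2) 2⁻¹ := by
  unfold Uy
  rw [map_sub, map_sub, δ2_mon, δ2_mon, δ2_mon]
  norm_num [mon_zero, mon_neg]
  abel

lemma ι4 (a b : A) (h : ι a = ι b) : a = b := injective_ι h

lemma δ11_Ux : δ1 (δ1 Ux) = 4 * Ux - 2 := by
  have h2 : (2 : A) = mon (0, 0) 2 := by rw [mon_eq, mon_zero_one, mul_one, map_ofNat]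
  have h4 : (4 : A) = mon (0, 0) 4 := by rw [mon_eq, mon_zero_one, mul_one, map_ofNat]
  rw [δ1_Ux, map_sub, δ1_mon, δ1_mon, h2, h4]
  unfold Ux
  simp only [mul_sub, mon_mul_mon, Prod.mk_add_mk]
  norm_num [mon_neg]
  abel

lemma δ22_Uy : δ2 (δ2 Uy) = 4 * Uy - 2 := by
  have h2 : (2 : A) = mon (0, 0) 2 := by rw [mon_eq, mon_zero_one, mul_one, map_ofNat]
  have h4 : (4 : A) = mon (0, 0) 4 := by rw [mon_eq, mon_zero_one, mul_one, map_ofNat]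
  rw [δ2_Uy, map_sub, δ2_mon, δ2_mon, h2, h4]
  unfold Uy
  simp only [mul_sub, mon_mul_mon, Prod.mk_add_mk]
  norm_num [mon_neg]
  abel

lemma sq_aux (z z' c : A) (hz : z * z' = 1) (h4 : c * 4 = 1) :
    (2 * c * z' - 2 * c * z) * (2 * c * z' - 2 * c * z) =
      4 * (2 * c - c * z - c * z') * (2 * c - c * z - c * z') - 4 * (2 * c - c * z - c * z') := by
  linear_combination (-16 * c ^ 2) * hz + (4 * c * (z + z' - 2)) * h4

lemma half_eq : (algebraMap ℂ A 2⁻¹) = 2 * algebraMap ℂ A 4⁻¹ := by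
  rw [← map_ofNat (algebraMap ℂ A) 2, ← map_mul]
  norm_num

lemma quarter : (algebraMap ℂ A 4⁻¹) * 4 = 1 := by
  rw [← map_ofNat (algebraMap ℂ A) 4, ← map_mul, show (4 : ℂ)⁻¹ * 4 = 1 by norm_num, map_one]

lemma sq_δ1_Ux : δ1 Ux * δ1 Ux = 4 * Ux * Ux - 4 * Ux := by
  have hz : mon (2, 0) 1 * mon (-2, 0) 1 = 1 := by
    rw [mon_mul_mon, mul_one, ← mon_zero_one]
    rfl
  rw [δ1_Ux]
  unfold Ux
  rw [mon_eq (0, 0) 2⁻¹, mon_eq (2, 0) 4⁻¹, mon_eq (-2, 0) 4⁻¹, mon_eq (-2, 0) 2⁻¹,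
    mon_eq (2, 0) 2⁻¹, mon_zero_one, mul_one, half_eq]
  exact sq_aux _ _ _ hz quarter

lemma sq_δ2_Uy : δ2 Uy * δ2 Uy = 4 * Uy * Uy - 4 * Uy := by
  have hz : mon (0, 2) 1 * mon (0, -2) 1 = 1 := by
    rw [mon_mul_mon, mul_one, ← mon_zero_one]
    rfl
  rw [δ2_Uy]
  unfold Uy
  rw [mon_eq (0, 0) 2⁻¹, mon_eq (0, 2) 4⁻¹, mon_eq (0, -2) 4⁻¹, mon_eq (0, -2) 2⁻¹,
    mon_eq (0, 2) 2⁻¹, mon_zero_one, mul_one, half_eq]
  exact sq_aux _ _ _ hz quarter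

/-- `1 - (sin² x + sin² y) / 2` -/
noncomputable def rr : A := 1 - algebraMap ℂ A 2⁻¹ * (Ux + Uy)

/-- a partial sum of the series of `log (1 - rr)` -/
noncomputable def LL (N : ℕ) : A :=
  -∑ k ∈ Finset.range N, algebraMap ℂ A ((k : ℂ) + 1)⁻¹ * rr ^ (k + 1)

/-- its derivative -/
noncomputable def L1 (N : ℕ) : A := algebraMap ℂ A 2⁻¹ * ∑ k ∈ Finset.range N, rr ^ k

/-- its second derivative -/
noncomputable def L2 (N : ℕ) : A :=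
  -(algebraMap ℂ A 4⁻¹ * ∑ k ∈ Finset.range N, (k : A) * rr ^ (k - 1))

lemma D_rr_pow (D : Derivation ℂ A A) (U : A) (h : D rr = -(algebraMap ℂ A 2⁻¹ * U)) (k : ℕ) :
    D (rr ^ k) = -(algebraMap ℂ A 2⁻¹ * ((k : A) * rr ^ (k - 1) * U)) := by
  rw [Derivation.leibniz_pow, h]
  simp only [nsmul_eq_mul, smul_eq_mul]
  ring

lemma D_LL (D : Derivation ℂ A A) (U : A) (h : D rr = -(algebraMap ℂ A 2⁻¹ * U)) (N : ℕ) :
    D (LL N) = L1 N * U := by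
  unfold LL L1
  rw [map_neg, map_sum, ← Finset.sum_neg_distrib, Finset.mul_sum, Finset.sum_mul]
  refine Finset.sum_congr rfl fun k _ => ?_
  rw [Derivation.leibniz, D_rr_pow D U h, Derivation.map_algebraMap, smul_zero, add_zero,
    smul_eq_mul, Nat.add_sub_cancel]
  have h2 : ((k : ℂ) + 1)⁻¹ * ((k + 1 : ℕ) : ℂ) = 1 := by
    push_cast
    exact inv_mul_cancel₀ (Nat.cast_add_one_ne_zero k)
  have h1 : algebraMap ℂ A ((k : ℂ) + 1)⁻¹ * ((k + 1 : ℕ) : A) = 1 := by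
    rw [← map_natCast (algebraMap ℂ A), ← map_mul, h2, map_one]
  linear_combination (algebraMap ℂ A 2⁻¹ * rr ^ k * U) * h1

lemma D_L1 (D : Derivation ℂ A A) (U : A) (h : D rr = -(algebraMap ℂ A 2⁻¹ * U)) (N : ℕ) :
    D (L1 N) = L2 N * U := by
  unfold L1 L2
  rw [Derivation.leibniz, Derivation.map_algebraMap, smul_zero, add_zero, smul_eq_mul, map_sum,
    Finset.sum_congr rfl fun k _ => D_rr_pow D U h k]
  rw [Finset.sum_neg_distrib, ← Finset.mul_sum, ← Finset.sum_mul]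
  have h1 : algebraMap ℂ A 4⁻¹ = algebraMap ℂ A 2⁻¹ * algebraMap ℂ A 2⁻¹ := by
    rw [← map_mul]
    norm_num
  rw [h1]
  ring

lemma δ1_rr : δ1 rr = -(algebraMap ℂ A 2⁻¹ * δ1 Ux) := by
  unfold rr
  rw [map_sub, Derivation.map_one_eq_zero, Derivation.leibniz, Derivation.map_algebraMap, map_add,
    δ1_Uy]
  simp

lemma δ2_rr : δ2 rr = -(algebraMap ℂ A 2⁻¹ * δ2 Uy) := by
  unfold rr
  rw [map_sub, Derivation.map_one_eq_zero, Derivation.leibniz, Derivation.map_algebraMap, map_add,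
    δ2_Ux]
  simp

/-- `(sin² x - sin² y) * LL` -/
noncomputable def fN (N : ℕ) : A := (Ux - Uy) * LL N

lemma δ11_fN (N : ℕ) : δ1 (δ1 (fN N)) = (4 * Ux - 2) * LL N +
    2 * L1 N * (4 * Ux * Ux - 4 * Ux) + (Ux - Uy) * (L2 N * (4 * Ux * Ux - 4 * Ux) +
      L1 N * (4 * Ux - 2)) := by
  have h1 : δ1 (fN N) = δ1 Ux * LL N + (Ux - Uy) * (L1 N * δ1 Ux) := by
    unfold fN
    rw [Derivation.leibniz, D_LL δ1 _ δ1_rr, map_sub, δ1_Uy]
    simp only [smul_eq_mul]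
    ring
  rw [h1, map_add, Derivation.leibniz, Derivation.leibniz, Derivation.leibniz,
    D_LL δ1 _ δ1_rr, D_L1 δ1 _ δ1_rr, map_sub, δ1_Uy, δ11_Ux, ← sq_δ1_Ux]
  simp only [smul_eq_mul]
  ring

lemma δ22_fN (N : ℕ) : δ2 (δ2 (fN N)) = -(4 * Uy - 2) * LL N -
    2 * L1 N * (4 * Uy * Uy - 4 * Uy) + (Ux - Uy) * (L2 N * (4 * Uy * Uy - 4 * Uy) +
      L1 N * (4 * Uy - 2)) := by
  have h1 : δ2 (fN N) = -δ2 Uy * LL N + (Ux - Uy) * (L1 N * δ2 Uy) := by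
    unfold fN
    rw [Derivation.leibniz, D_LL δ2 _ δ2_rr, map_sub, δ2_Ux]
    simp only [smul_eq_mul]
    ring
  rw [h1, map_add, Derivation.leibniz, Derivation.leibniz, Derivation.leibniz,
    D_LL δ2 _ δ2_rr, D_L1 δ2 _ δ2_rr, map_sub, map_neg, δ2_Ux, δ22_Uy, ← sq_δ2_Uy]
  simp only [smul_eq_mul]
  ring

lemma lap_fN (N : ℕ) : δ1 (δ1 (fN N)) + δ2 (δ2 (fN N)) = (Ux - Uy) *
    (4 * LL N - 12 * (1 - (Ux + Uy)) * L1 N - 4 * (Ux + Uy - Ux * Ux - Uy * Uy) * L2 N) := by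
  rw [δ11_fN, δ22_fN]
  ring

/-! ## Values -/

lemma ι_mon_apply (m : ℤ × ℤ) (r : ℂ) (z : T2) :
    ι (mon m r) z = r * ((z.1 : ℂ) ^ m.1 * (z.2 : ℂ) ^ m.2) := by
  rw [ι_mon, ContinuousMap.smul_apply, chi_apply, smul_eq_mul]

lemma re_circle (z : Circle) : ∃ u : ℝ, 0 ≤ u ∧ u ≤ 1 ∧
    (2⁻¹ : ℂ) - 4⁻¹ * (z : ℂ) ^ (2 : ℤ) - 4⁻¹ * (z : ℂ) ^ (-2 : ℤ) = u := by
  refine ⟨(1 - ((z ^ 2 : Circle) : ℂ).re) / 2, ?_, ?_, ?_⟩
  · have h := Complex.re_le_norm ((z ^ 2 : Circle) : ℂ)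
    rw [Circle.norm_coe] at h
    linarith
  · have h := Complex.abs_re_le_norm ((z ^ 2 : Circle) : ℂ)
    rw [Circle.norm_coe, abs_le] at h
    linarith
  · have h1 : (z : ℂ) ^ (-2 : ℤ) = conj ((z ^ 2 : Circle) : ℂ) := by
      rw [← Circle.coe_inv_eq_conj]
      push_cast
      rw [zpow_neg]
      rfl
    have h2 : (z : ℂ) ^ (2 : ℤ) = ((z ^ 2 : Circle) : ℂ) := by
      push_cast
      rfl
    have h3 := Complex.add_conj ((z ^ 2 : Circle) : ℂ)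
    rw [h1, h2]
    push_cast at *
    linear_combination (-(4⁻¹ : ℂ)) * h3

lemma ι_Ux (z : T2) : ∃ u : ℝ, 0 ≤ u ∧ u ≤ 1 ∧ ι Ux z = u := by
  obtain ⟨u, h0, h1, h⟩ := re_circle z.1
  refine ⟨u, h0, h1, ?_⟩
  rw [← h]
  unfold Ux
  rw [map_sub, map_sub, ContinuousMap.sub_apply, ContinuousMap.sub_apply, ι_mon_apply,
    ι_mon_apply, ι_mon_apply]
  simp

lemma ι_Uy (z : T2) : ∃ u : ℝ, 0 ≤ u ∧ u ≤ 1 ∧ ι Uy z = u := by
  obtain ⟨u, h0, h1, h⟩ := re_circle z.2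
  refine ⟨u, h0, h1, ?_⟩
  rw [← h]
  unfold Uy
  rw [map_sub, map_sub, ContinuousMap.sub_apply, ContinuousMap.sub_apply, ι_mon_apply,
    ι_mon_apply, ι_mon_apply]
  simp

lemma geo1 (ρ : ℝ) (N : ℕ) : (1 - ρ) * ∑ k ∈ Finset.range N, ρ ^ k = 1 - ρ ^ N := by
  rw [mul_comm]
  have := geom_sum_mul ρ N
  linarith

lemma geo2 (ρ : ℝ) (N : ℕ) : (1 - ρ) * ∑ k ∈ Finset.range N, (k : ℝ) * ρ ^ (k - 1) =
    ∑ k ∈ Finset.range N, ρ ^ k - N * ρ ^ (N - 1) := by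
  induction N with
  | zero => simp
  | succ N ih =>
    rw [Finset.sum_range_succ, Finset.sum_range_succ, mul_add, ih, Nat.add_sub_cancel]
    rcases N with _ | N
    · simp
    · rw [Nat.add_sub_cancel]
      push_cast
      ring

/-- The real number by which the value of `D2 fN` is given. -/
lemma real_bound (u w : ℝ) (hu0 : 0 ≤ u) (hu1 : u ≤ 1) (hw0 : 0 ≤ w) (hw1 : w ≤ 1) (N : ℕ)
    (ρ l l1 l2 : ℝ) (hρ : ρ = 1 - 2⁻¹ * (u + w))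
    (hl : l = ∑ k ∈ Finset.range N, ((k : ℝ) + 1)⁻¹ * ρ ^ (k + 1))
    (hl1 : l1 = ∑ k ∈ Finset.range N, ρ ^ k)
    (hl2 : l2 = ∑ k ∈ Finset.range N, (k : ℝ) * ρ ^ (k - 1)) :
    |(u - w) * (-3 * l - 3 * (1 - (u + w)) * l1 + 2⁻¹ * (u + w - u * u - w * w) * l2)| ≤ 14 := by
  have hρ0 : 0 ≤ ρ := by rw [hρ]; linarith
  have hρ1 : ρ ≤ 1 := by rw [hρ]; linarith
  have hl10 : 0 ≤ l1 := by rw [hl1]; exact Finset.sum_nonneg fun k _ => pow_nonneg hρ0 k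
  have hl20 : 0 ≤ l2 := by
    rw [hl2]
    exact Finset.sum_nonneg fun k _ => mul_nonneg (Nat.cast_nonneg k) (pow_nonneg hρ0 _)
  have hl0 : 0 ≤ l := by
    rw [hl]
    exact Finset.sum_nonneg fun k _ => mul_nonneg (by positivity) (pow_nonneg hρ0 _)
  have hll : l ≤ l1 := by
    rw [hl, hl1]
    refine Finset.sum_le_sum fun k _ => ?_
    have h1 : ((k : ℝ) + 1)⁻¹ ≤ 1 := inv_le_one_of_one_le₀ (by linarith [Nat.cast_nonneg (α := ℝ) k])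
    have h2 : ρ ^ (k + 1) ≤ ρ ^ k := pow_le_pow_of_le_one hρ0 hρ1 (Nat.le_succ k)
    calc ((k : ℝ) + 1)⁻¹ * ρ ^ (k + 1) ≤ 1 * ρ ^ k :=
          mul_le_mul h1 h2 (pow_nonneg hρ0 _) zero_le_one
      _ = ρ ^ k := one_mul _
  have hA : (1 - ρ) * l1 ≤ 1 := by
    rw [hl1, geo1]
    linarith [pow_nonneg hρ0 N]
  have hB : (1 - ρ) * l2 ≤ l1 := by
    rw [hl2, hl1, geo2]
    have : 0 ≤ (N : ℝ) * ρ ^ (N - 1) := mul_nonneg (Nat.cast_nonneg N) (pow_nonneg hρ0 _)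
    linarith
  have hT : u + w = 2 * (1 - ρ) := by rw [hρ]; ring
  have hρ' : 0 ≤ 1 - ρ := by linarith
  have hC : (1 - ρ) * ((1 - ρ) * l2) ≤ 1 := le_trans (mul_le_mul_of_nonneg_left hB hρ') hA
  have hd : |u - w| ≤ 2 * (1 - ρ) := by rw [← hT, abs_le]; constructor <;> linarith
  have hq : |u + w - u * u - w * w| ≤ 2 * (1 - ρ) := by
    rw [← hT, abs_le]
    constructor <;> nlinarith
  have hv : |1 - (u + w)| ≤ 1 := by rw [abs_le]; constructor <;> linarith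
  have hd0 := abs_nonneg (u - w)
  have e1 : |(u - w) * (-3 * l)| ≤ 6 := by
    rw [abs_mul, abs_mul, abs_of_nonneg hl0]
    norm_num
    have h1 : |u - w| * l ≤ 2 * (1 - ρ) * l1 :=
      mul_le_mul hd hll hl0 (by linarith)
    nlinarith
  have e2 : |(u - w) * (3 * (1 - (u + w)) * l1)| ≤ 6 := by
    rw [abs_mul, abs_mul, abs_mul, abs_of_nonneg hl10]
    norm_num
    have h1 : |1 - (u + w)| * l1 ≤ 1 * l1 := mul_le_mul_of_nonneg_right hv hl10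
    have h2 : |u - w| * (|1 - (u + w)| * l1) ≤ 2 * (1 - ρ) * (1 * l1) :=
      mul_le_mul hd h1 (mul_nonneg (abs_nonneg _) hl10) (by linarith)
    nlinarith
  have e3 : |(u - w) * (2⁻¹ * (u + w - u * u - w * w) * l2)| ≤ 2 := by
    rw [abs_mul, abs_mul, abs_mul, abs_of_nonneg hl20]
    norm_num
    have h1 : |u + w - u * u - w * w| * l2 ≤ 2 * (1 - ρ) * l2 := mul_le_mul_of_nonneg_right hq hl20
    have h2 : |u - w| * (|u + w - u * u - w * w| * l2) ≤ 2 * (1 - ρ) * (2 * (1 - ρ) * l2) :=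
      mul_le_mul hd h1 (mul_nonneg (abs_nonneg _) hl20) (by linarith)
    nlinarith
  have h3 : (u - w) * (-3 * l - 3 * (1 - (u + w)) * l1 + 2⁻¹ * (u + w - u * u - w * w) * l2) =
      (u - w) * (-3 * l) - (u - w) * (3 * (1 - (u + w)) * l1) +
        (u - w) * (2⁻¹ * (u + w - u * u - w * w) * l2) := by ring
  rw [h3]
  calc _ ≤ |(u - w) * (-3 * l) - (u - w) * (3 * (1 - (u + w)) * l1)| +
        |(u - w) * (2⁻¹ * (u + w - u * u - w * w) * l2)| := abs_add_le _ _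
    _ ≤ |(u - w) * (-3 * l)| + |(u - w) * (3 * (1 - (u + w)) * l1)| +
        |(u - w) * (2⁻¹ * (u + w - u * u - w * w) * l2)| := by gcongr; exact abs_sub _ _
    _ ≤ 14 := by linarith

lemma ι_algebraMap (c : ℂ) (z : T2) : ι (algebraMap ℂ A c) z = c := by
  rw [AlgHom.commutes]
  rfl

lemma ι_vals (N : ℕ) (z : T2) (u w : ℝ) (hu : ι Ux z = u) (hw : ι Uy z = w) :
    ι rr z = ((1 - 2⁻¹ * (u + w) : ℝ) : ℂ) ∧
    ι (LL N) z = ((-∑ k ∈ Finset.range N, ((k : ℝ) + 1)⁻¹ * (1 - 2⁻¹ * (u + w)) ^ (k + 1) : ℝ) : ℂ) ∧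
    ι (L1 N) z = ((2⁻¹ * ∑ k ∈ Finset.range N, (1 - 2⁻¹ * (u + w)) ^ k : ℝ) : ℂ) ∧
    ι (L2 N) z =
      ((-(4⁻¹ * ∑ k ∈ Finset.range N, (k : ℝ) * (1 - 2⁻¹ * (u + w)) ^ (k - 1)) : ℝ) : ℂ) := by
  have h1 : ι rr z = ((1 - 2⁻¹ * (u + w) : ℝ) : ℂ) := by
    unfold rr
    rw [map_sub, map_one, map_mul, map_add, ContinuousMap.sub_apply, ContinuousMap.one_apply,
      ContinuousMap.mul_apply, ContinuousMap.add_apply, ι_algebraMap, hu, hw]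
    push_cast
    ring
  refine ⟨h1, ?_, ?_, ?_⟩
  · unfold LL
    rw [map_neg, map_sum, ContinuousMap.neg_apply, ContinuousMap.sum_apply]
    simp only [map_mul, map_pow, ContinuousMap.mul_apply, ContinuousMap.pow_apply, ι_algebraMap, h1]
    push_cast
    rfl
  · unfold L1
    rw [map_mul, map_sum, ContinuousMap.mul_apply, ContinuousMap.sum_apply]
    simp only [map_pow, ContinuousMap.pow_apply, ι_algebraMap, h1]
    push_cast
    rfl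
  · unfold L2
    rw [map_neg, map_mul, map_sum, ContinuousMap.neg_apply, ContinuousMap.mul_apply,
      ContinuousMap.sum_apply]
    simp only [map_mul, map_pow, map_natCast, ContinuousMap.mul_apply, ContinuousMap.pow_apply,
      ι_algebraMap, h1, ContinuousMap.natCast_apply]
    push_cast
    rfl

theorem norm_D2_fN (N : ℕ) : ‖ι (D2 (fN N))‖ ≤ 14 := by
  rw [ContinuousMap.norm_le _ (by norm_num)]
  intro z
  obtain ⟨u, hu0, hu1, hu⟩ := ι_Ux z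
  obtain ⟨w, hw0, hw1, hw⟩ := ι_Uy z
  obtain ⟨-, h1, h2, h3⟩ := ι_vals N z u w hu hw
  have h := real_bound u w hu0 hu1 hw0 hw1 N _ _ _ _ rfl rfl rfl rfl
  have h4 : ι (D2 (fN N)) z = (((u - w) * (-3 * (∑ k ∈ Finset.range N, ((k : ℝ) + 1)⁻¹ *
      (1 - 2⁻¹ * (u + w)) ^ (k + 1)) - 3 * (1 - (u + w)) *
      (∑ k ∈ Finset.range N, (1 - 2⁻¹ * (u + w)) ^ k) + 2⁻¹ * (u + w - u * u - w * w) *
      (∑ k ∈ Finset.range N, (k : ℝ) * (1 - 2⁻¹ * (u + w)) ^ (k - 1))) : ℝ) : ℂ) := by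
    have c4 : (ι 4) z = 4 := by rw [map_ofNat]; rfl
    have c12 : (ι 12) z = 12 := by rw [map_ofNat]; rfl
    rw [D2_eq, lap_fN]
    unfold fN
    simp only [map_add, map_mul, map_sub, map_smul, map_one, ContinuousMap.add_apply,
      ContinuousMap.sub_apply, ContinuousMap.mul_apply, ContinuousMap.smul_apply,
      ContinuousMap.one_apply, smul_eq_mul, hu, hw, h1, h2, h3, c4, c12]
    push_cast
    ring
  rw [h4, Complex.norm_real]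
  exact h

/-- the value at `(1, 1)` -/
noncomputable def ε : A →ₗ[ℂ] ℂ where
  toFun v := ι v (1, 1)
  map_add' v w := by rw [map_add]; rfl
  map_smul' c v := by rw [map_smul]; rfl

lemma ε_apply (v : A) : ε v = ι v (1, 1) := rfl

lemma ε_mul (v w : A) : ε (v * w) = ε v * ε w := by
  rw [ε_apply, map_mul]
  rfl

lemma ε_mon (m : ℤ × ℤ) (r : ℂ) : ε (mon m r) = r := by
  rw [ε_apply, ι_mon_apply]
  simp

lemma ε_le (v : A) : ‖ε v‖ ≤ ‖ι v‖ := ContinuousMap.norm_coe_le_norm _ _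

lemma ε_Ux : ε Ux = 0 := by
  unfold Ux
  rw [map_sub, map_sub, ε_mon, ε_mon, ε_mon]
  norm_num

lemma ε_Uy : ε Uy = 0 := by
  unfold Uy
  rw [map_sub, map_sub, ε_mon, ε_mon, ε_mon]
  norm_num

/-- harmonic numbers -/
noncomputable def HN (N : ℕ) : ℝ := ∑ k ∈ Finset.range N, ((k : ℝ) + 1)⁻¹

lemma ε_LL (N : ℕ) : ε (LL N) = -(HN N : ℂ) := by
  have h := (ι_vals N (1, 1) 0 0 (by rw [← ε_apply, ε_Ux]; simp)
    (by rw [← ε_apply, ε_Uy]; simp)).2.1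
  rw [ε_apply, h]
  unfold HN
  simp

lemma ε_fN (N : ℕ) : ε (fN N) = 0 := by
  unfold fN
  rw [ε_mul, map_sub, ε_Ux, ε_Uy]
  ring

lemma ε_one : ε 1 = 1 := by
  rw [← mon_zero_one, ε_mon]

lemma ε_ofNat2 : ε 2 = 2 := by
  rw [ε_apply, map_ofNat]
  rfl

lemma ε_ofNat4 : ε 4 = 4 := by
  rw [ε_apply, map_ofNat]
  rfl

lemma ε_δ11_fN (N : ℕ) : ε (δ1 (δ1 (fN N))) = 2 * HN N := by
  rw [δ11_fN]
  simp only [map_add, map_sub, ε_mul, ε_Ux, ε_Uy, ε_LL, ε_ofNat2, ε_ofNat4]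
  ring

lemma ε_δ22_fN (N : ℕ) : ε (δ2 (δ2 (fN N))) = -2 * HN N := by
  rw [δ22_fN]
  simp only [map_add, map_sub, map_neg, ε_mul, ε_Ux, ε_Uy, ε_LL, ε_ofNat2, ε_ofNat4]
  ring

lemma HN_tendsto : Filter.Tendsto HN Filter.atTop Filter.atTop := by
  unfold HN
  have h := Real.tendsto_sum_range_one_div_nat_succ_atTop
  simpa [one_div] using h

end Pool.Agent.R718.Sq
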