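import Mathlib
import Pool.Agent.R718.SqFun

/-!
Helper for `MP_6a3a89_al`: the norm `v ↦ ‖D2 v‖` is not `G`-continuous.
-/

set_option autoImplicit false

open scoped ComplexConjugate MatrixGroups Topology NNReal ENNReal

namespace Pool.Agent.R718.Sq

open Pool.Agent.R718.SU11 (G su11 kk hh)

/-- The element `(0, 1; 1, 0)` of the Lie algebra. -/
def X1 : su11 := ⟨!![0, 1; 1, 0], by refine ⟨?_, ?_, ?_⟩ <;> simp⟩

/-- its action (in the first variable) -/
noncomputable def XX : A →ₗ[ℂ] A := lieF ((X1 : Matrix (Fin 2) (Fin 2) ℂ), (0 : su11))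

lemma Λ1_X1 : Λ1 (X1 : Matrix (Fin 2) (Fin 2) ℂ) = mon (1, 0) 1 - mon (-1, 0) 1 := by
  unfold Λ1
  simp only [X1, Matrix.of_apply, Matrix.cons_val', Matrix.cons_val_zero, Matrix.cons_val_one,
    Matrix.cons_val_fin_one, mul_zero, mon_zero, zero_add, map_one]
  rw [mon_eq _ (-1), map_neg, map_one]
  ring

lemma XX_apply (v : A) : XX v = (mon (1, 0) 1 - mon (-1, 0) 1) * δ1 v := by
  unfold XX
  rw [lieF_apply, Λ1_X1]
  show _ + Λ2 ((0 : su11) : Matrix (Fin 2) (Fin 2) ℂ) * _ = _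
  rw [Submodule.coe_zero, Λ2_zero, zero_mul, add_zero]

lemma XX_mon (j k : ℤ) (r : ℂ) :
    XX (mon (j, k) r) = mon (j + 1, k) ((j : ℂ) * r) - mon (j - 1, k) ((j : ℂ) * r) := by
  rw [XX_apply, δ1_mon, sub_mul, mon_mul_mon, mon_mul_mon, Prod.mk_add_mk, Prod.mk_add_mk,
    zero_add, one_mul, add_comm 1 j, show -1 + j = j - 1 by ring]

lemma δ1_lam : δ1 (mon (1, 0) 1 - mon (-1, 0) 1) = mon (1, 0) 1 + mon (-1, 0) 1 := by
  rw [map_sub, δ1_mon, δ1_mon]
  norm_num [mon_neg]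

lemma δ1_lam' : δ1 (mon (1, 0) 1 + mon (-1, 0) 1) = mon (1, 0) 1 - mon (-1, 0) 1 := by
  rw [map_add, δ1_mon, δ1_mon]
  norm_num [mon_neg]
  abel

lemma δ2_lam : δ2 (mon (1, 0) 1 - mon (-1, 0) 1) = 0 := by
  rw [map_sub, δ2_mon, δ2_mon]
  simp [mon_zero]

lemma ε_XX (v : A) : ε (XX v) = 0 := by
  rw [XX_apply, ε_mul, map_sub, ε_mon, ε_mon, sub_self, zero_mul]

lemma ε_δ11_XX (v : A) : ε (δ1 (δ1 (XX v))) = 4 * ε (δ1 (δ1 v)) := by
  rw [XX_apply, Derivation.leibniz, map_add, smul_eq_mul, smul_eq_mul, Derivation.leibniz,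
    Derivation.leibniz, δ1_lam, δ1_lam']
  simp only [map_add, map_sub, smul_eq_mul, ε_mul, ε_mon]
  ring

lemma ε_δ22_XX (v : A) : ε (δ2 (δ2 (XX v))) = 0 := by
  rw [XX_apply, Derivation.leibniz, map_add, smul_eq_mul, smul_eq_mul, Derivation.leibniz,
    Derivation.leibniz, δ2_lam]
  simp only [map_add, map_sub, smul_eq_mul, ε_mul, ε_mon, mul_zero, map_zero]
  ring

lemma ε_δ11_pow (k : ℕ) (v : A) : ε (δ1 (δ1 ((XX ^ k) v))) = 4 ^ k * ε (δ1 (δ1 v)) := by
  induction k with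
  | zero => simp
  | succ k ih =>
    rw [pow_succ', Module.End.mul_apply, ε_δ11_XX, ih]
    ring

lemma ε_D2 (v : A) : ε (D2 v) = ε v + 2⁻¹ * (ε (δ1 (δ1 v)) + ε (δ2 (δ2 v))) := by
  rw [D2_eq, map_add, map_smul, map_add, smul_eq_mul]

lemma ε_D2_pow (k : ℕ) (v : A) : ε (D2 ((XX ^ (k + 1)) v)) =
    2⁻¹ * 4 ^ (k + 1) * ε (δ1 (δ1 v)) := by
  rw [ε_D2, ε_δ11_pow, pow_succ' XX k, Module.End.mul_apply, ε_XX, ε_δ22_XX]
  ring

/-- The norm of order two. -/
noncomputable def p2 (v : A) : ℝ := ‖ι (D2 v)‖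

lemma p2_add (v w : A) : p2 (v + w) ≤ p2 v + p2 w := by
  unfold p2
  rw [map_add, map_add]
  exact norm_add_le _ _

lemma p2_sub (v w : A) : p2 (v - w) ≤ p2 v + p2 w := by
  unfold p2
  rw [map_sub, map_sub]
  exact norm_sub_le _ _

lemma p2_smul (c : ℂ) (v : A) : p2 (c • v) = ‖c‖ * p2 v := by
  unfold p2
  rw [map_smul, map_smul, norm_smul]

lemma p2_nonneg (v : A) : 0 ≤ p2 v := norm_nonneg _

lemma p2_zero : p2 0 = 0 := by
  unfold p2
  simp

lemma norm_ι_mon_le (m : ℤ × ℤ) (r : ℂ) : ‖ι (mon m r)‖ ≤ ‖r‖ := by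
  rw [ContinuousMap.norm_le _ (norm_nonneg r)]
  intro z
  rw [ι_mon_apply, norm_mul, norm_mul, norm_zpow, norm_zpow, Circle.norm_coe, Circle.norm_coe]
  simp

lemma p2_mon_le (j k : ℤ) : p2 (mon (j, k) 1) ≤ 1 + ((j : ℝ) ^ 2 + (k : ℝ) ^ 2) / 2 := by
  unfold p2 D2
  rw [dg_mon]
  refine (norm_ι_mon_le _ _).trans ?_
  have h : ((1 + ((j : ℂ) ^ 2 + (k : ℂ) ^ 2) / 2) * 1 : ℂ) =
      ((1 + ((j : ℝ) ^ 2 + (k : ℝ) ^ 2) / 2 : ℝ) : ℂ) := by push_cast; ring
  show ‖(1 + ((j : ℂ) ^ 2 + (k : ℂ) ^ 2) / 2) * 1‖ ≤ _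
  rw [h, Complex.norm_real, Real.norm_eq_abs, abs_of_nonneg (by positivity)]

lemma p2_pow_mon (n : ℕ) : ∀ (a : ℕ) (j k : ℤ), |j| ≤ a → p2 ((XX ^ n) (mon (j, k) 1)) ≤
    2 ^ n * (a.ascFactorial n : ℝ) * (1 + (((a : ℝ) + n) ^ 2 + (k : ℝ) ^ 2) / 2) := by
  induction n with
  | zero =>
    intro a j k hj
    rw [pow_zero, pow_zero, Nat.ascFactorial_zero, Nat.cast_zero, add_zero, Nat.cast_one, mul_one,
      one_mul, Module.End.one_apply]
    refine (p2_mon_le j k).trans ?_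
    have h1 : |(j : ℝ)| ≤ a := by exact_mod_cast hj
    have h2 : (j : ℝ) ^ 2 ≤ (a : ℝ) ^ 2 := sq_le_sq' (by linarith [(abs_le.1 h1).1])
      (abs_le.1 h1).2
    linarith
  | succ n ih =>
    intro a j k hj
    have hj1 : |j + 1| ≤ ((a + 1 : ℕ) : ℤ) := by push_cast; rw [abs_le] at *; omega
    have hj2 : |j - 1| ≤ ((a + 1 : ℕ) : ℤ) := by push_cast; rw [abs_le] at *; omega
    have h1 : |(j : ℝ)| ≤ a := by exact_mod_cast hj
    rw [pow_succ, Module.End.mul_apply, XX_mon]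
    have h2 : mon (j + 1, k) ((j : ℂ) * 1) - mon (j - 1, k) ((j : ℂ) * 1) =
        (j : ℂ) • (mon (j + 1, k) 1 - mon (j - 1, k) 1) := by
      rw [smul_sub, smul_mon, smul_mon]
    rw [h2, map_smul, p2_smul, map_sub, Complex.norm_intCast]
    have h3 := ih (a + 1) (j + 1) k hj1
    have h4 := ih (a + 1) (j - 1) k hj2
    have h5 := p2_sub ((XX ^ n) (mon (j + 1, k) 1)) ((XX ^ n) (mon (j - 1, k) 1))
    set B : ℝ := 2 ^ n * (((a + 1).ascFactorial n : ℕ) : ℝ) *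
      (1 + ((((a + 1 : ℕ) : ℝ) + n) ^ 2 + (k : ℝ) ^ 2) / 2) with hB
    have hB0 : 0 ≤ B := by positivity
    have h6 : (a : ℝ) * ((a + 1).ascFactorial n : ℕ) = (a.ascFactorial (n + 1) : ℕ) := by
      have := Nat.succ_ascFactorial a n
      rw [← Nat.ascFactorial_succ] at this
      exact_mod_cast this
    calc |(j : ℝ)| * p2 ((XX ^ n) (mon (j + 1, k) 1) - (XX ^ n) (mon (j - 1, k) 1))
        ≤ (a : ℝ) * (B + B) := mul_le_mul h1 (by linarith) (p2_nonneg _) (by positivity)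
      _ = 2 ^ (n + 1) * (a.ascFactorial (n + 1) : ℝ) *
          (1 + (((a : ℝ) + (n + 1 : ℕ)) ^ 2 + (k : ℝ) ^ 2) / 2) := by
          rw [← h6, hB]
          push_cast
          ring

lemma tendsto_aux (t : ℝ) (ht0 : 0 ≤ t) (ht : t ≤ 1 / 8) (v : A) :
    Filter.Tendsto (fun n : ℕ => t ^ n / n.factorial * p2 ((XX ^ n) v)) Filter.atTop (𝓝 0) := by
  induction v using A_induction with
  | h0 => simp [p2_zero]
  | hadd v w hv hw =>
    have h := hv.add hw
    rw [add_zero] at h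
    refine squeeze_zero (fun n => mul_nonneg (by positivity) (p2_nonneg _)) (fun n => ?_) h
    rw [← mul_add, map_add]
    exact mul_le_mul_of_nonneg_left (p2_add _ _) (by positivity)
  | hmon m r =>
    have h1 : Filter.Tendsto (fun n : ℕ => t ^ n / n.factorial * p2 ((XX ^ n) (mon m 1)))
        Filter.atTop (𝓝 0) := by
      obtain ⟨j, k⟩ := m
      have h3 : Filter.Tendsto (fun n : ℕ => (2 : ℝ) ^ j.natAbs * 2 * ((n : ℝ) ^ 2 * (1 / 2) ^ n) +
          (2 : ℝ) ^ j.natAbs * (1 + 2 * ((j.natAbs : ℝ) + 1) ^ 2 + (k : ℝ) ^ 2) * (1 / 2) ^ n)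
          Filter.atTop (𝓝 0) := by
        have h4 := tendsto_pow_const_mul_const_pow_of_abs_lt_one 2 (r := (1 / 2 : ℝ))
          (by rw [abs_of_pos] <;> norm_num)
        have h5 : Filter.Tendsto (fun n : ℕ => (1 / 2 : ℝ) ^ n) Filter.atTop (𝓝 0) :=
          tendsto_pow_atTop_nhds_zero_of_lt_one (by norm_num) (by norm_num)
        have h6 := (h4.const_mul ((2 : ℝ) ^ j.natAbs * 2)).add
          (h5.const_mul ((2 : ℝ) ^ j.natAbs * (1 + 2 * ((j.natAbs : ℝ) + 1) ^ 2 + (k : ℝ) ^ 2)))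
        rwa [mul_zero, mul_zero, add_zero] at h6
      refine squeeze_zero (fun n => mul_nonneg (by positivity) (p2_nonneg _)) (fun n => ?_) h3
      have h7 := p2_pow_mon n (j.natAbs + 1) j k (by rw [Int.abs_eq_natAbs]; push_cast; omega)
      have h8 : ((j.natAbs + 1).ascFactorial n : ℝ) ≤ n.factorial * 2 ^ (j.natAbs + n) := by
        rw [Nat.ascFactorial_eq_factorial_mul_choose]
        push_cast
        refine mul_le_mul_of_nonneg_left ?_ (by positivity)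
        exact_mod_cast Nat.choose_le_two_pow _ _
      have hf : (0 : ℝ) < n.factorial := by positivity
      calc t ^ n / n.factorial * p2 ((XX ^ n) (mon (j, k) 1))
          ≤ t ^ n / n.factorial * (2 ^ n * (n.factorial * 2 ^ (j.natAbs + n)) *
            (1 + (((j.natAbs + 1 : ℕ) : ℝ) + n) ^ 2 + (k : ℝ) ^ 2)) := by
            refine mul_le_mul_of_nonneg_left (h7.trans ?_) (by positivity)
            have hk : 0 ≤ (k : ℝ) ^ 2 := by positivity
            have hq : 0 ≤ (((j.natAbs + 1 : ℕ) : ℝ) + n) ^ 2 := by positivity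
            refine mul_le_mul (mul_le_mul_of_nonneg_left h8 (by positivity)) (by linarith)
              (by positivity) (by positivity)
        _ = (4 * t) ^ n * (2 ^ j.natAbs * (1 + (((j.natAbs + 1 : ℕ) : ℝ) + n) ^ 2 +
            (k : ℝ) ^ 2)) := by
            rw [mul_pow, pow_add, show (4 : ℝ) = 2 * 2 by norm_num, mul_pow]
            field_simp
        _ ≤ (1 / 2) ^ n * (2 ^ j.natAbs * (1 + (2 * ((j.natAbs : ℝ) + 1) ^ 2 + 2 * (n : ℝ) ^ 2) +
            (k : ℝ) ^ 2)) := by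
            refine mul_le_mul (pow_le_pow_left₀ (by linarith) (by linarith) n)
              (mul_le_mul_of_nonneg_left ?_ (by positivity)) (by positivity) (by positivity)
            push_cast
            nlinarith [sq_nonneg ((j.natAbs : ℝ) + 1 - n)]
        _ = _ := by ring
    have h2 : mon m r = r • mon m 1 := by rw [smul_mon, mul_one]
    rw [h2]
    have h3 := h1.const_mul ‖r‖
    rw [mul_zero] at h3
    refine h3.congr fun n => ?_
    rw [map_smul, p2_smul]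
    ring

/-! ## The one-parameter group -/

lemma kt_det (t : ℝ) : (!![(Real.cosh t : ℂ), (Real.sinh t : ℂ);
    (Real.sinh t : ℂ), (Real.cosh t : ℂ)] : Matrix (Fin 2) (Fin 2) ℂ).det = 1 := by
  rw [Matrix.det_fin_two_of]
  have h := Real.cosh_sq_sub_sinh_sq t
  rw [sq, sq] at h
  exact_mod_cast h

/-- The matrix `(cosh t, sinh t; sinh t, cosh t)`. -/
noncomputable def kt (t : ℝ) : G := ⟨⟨!![(Real.cosh t : ℂ), (Real.sinh t : ℂ);
    (Real.sinh t : ℂ), (Real.cosh t : ℂ)], kt_det t⟩, by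
  constructor
  · show ((Real.sinh t : ℝ) : ℂ) = conj ((Real.sinh t : ℝ) : ℂ)
    rw [Complex.conj_ofReal]
  · show ((Real.cosh t : ℝ) : ℂ) = conj ((Real.cosh t : ℝ) : ℂ)
    rw [Complex.conj_ofReal]⟩

lemma kt_coe (t : ℝ) : ((kt t : SL(2, ℂ)) : Matrix (Fin 2) (Fin 2) ℂ) =
    !![(Real.cosh t : ℂ), (Real.sinh t : ℂ); (Real.sinh t : ℂ), (Real.cosh t : ℂ)] := rfl

lemma kt_zero : kt 0 = 1 := by
  refine Subtype.ext (Subtype.ext ?_)
  show ((kt 0 : SL(2, ℂ)) : Matrix (Fin 2) (Fin 2) ℂ) = 1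
  rw [kt_coe, Real.cosh_zero, Real.sinh_zero]
  simp [Matrix.one_fin_two]

lemma kt_add (s t : ℝ) : kt (s + t) = kt s * kt t := by
  refine Subtype.ext (Subtype.ext ?_)
  show ((kt (s + t) : SL(2, ℂ)) : Matrix (Fin 2) (Fin 2) ℂ) =
    ((kt s : SL(2, ℂ)) : Matrix (Fin 2) (Fin 2) ℂ) * ((kt t : SL(2, ℂ)) : Matrix (Fin 2) (Fin 2) ℂ)
  rw [kt_coe, kt_coe, kt_coe, Real.cosh_add, Real.sinh_add, Matrix.mul_fin_two]
  push_cast
  congr 1
  funext i j
  fin_cases i <;> fin_cases j <;> simp <;> ring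

/-- The one-parameter group in `G × G`. -/
noncomputable def γ (t : ℝ) : G × G := (kt t, 1)

lemma γ_zero : γ 0 = 1 := by
  unfold γ
  rw [kt_zero]
  rfl

lemma γ_add (s t : ℝ) : γ (s + t) = γ s * γ t := by
  unfold γ
  rw [kt_add, Prod.mk_mul_mk, one_mul]

lemma γ_deriv1 : HasDerivAt (fun t => (((γ t).1 : SL(2, ℂ)) : Matrix (Fin 2) (Fin 2) ℂ))
    (X1 : Matrix (Fin 2) (Fin 2) ℂ) 0 := by
  have hc : HasDerivAt (fun t : ℝ => ((Real.cosh t : ℝ) : ℂ)) 0 0 := by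
    have := (Real.hasDerivAt_cosh 0).ofReal_comp
    simpa using this
  have hs : HasDerivAt (fun t : ℝ => ((Real.sinh t : ℝ) : ℂ)) 1 0 := by
    have := (Real.hasDerivAt_sinh 0).ofReal_comp
    simpa using this
  refine hasDerivAt_pi.2 fun i => hasDerivAt_pi.2 fun j => ?_
  fin_cases i <;> fin_cases j
  · exact hc
  · exact hs
  · exact hs
  · exact hc

lemma γ_deriv2 : HasDerivAt (fun t => (((γ t).2 : SL(2, ℂ)) : Matrix (Fin 2) (Fin 2) ℂ))
    ((0 : su11) : Matrix (Fin 2) (Fin 2) ℂ) 0 := by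
  refine hasDerivAt_pi.2 fun i => hasDerivAt_pi.2 fun j => ?_
  exact hasDerivAt_const (0 : ℝ) ((((1 : G) : SL(2, ℂ)) : Matrix (Fin 2) (Fin 2) ℂ) i j)

lemma γ_continuous : Continuous γ := by
  refine Continuous.prodMk ?_ continuous_const
  refine Continuous.subtype_mk (Continuous.subtype_mk ?_ _) _
  refine continuous_matrix fun i j => ?_
  fin_cases i <;> fin_cases j
  · exact Complex.continuous_ofReal.comp Real.continuous_cosh
  · exact Complex.continuous_ofReal.comp Real.continuous_sinh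
  · exact Complex.continuous_ofReal.comp Real.continuous_sinh
  · exact Complex.continuous_ofReal.comp Real.continuous_cosh

section

variable {F : Type} [NormedAddCommGroup F] [NormedSpace ℂ F] [CompleteSpace F]
  (Γ : Globalization M p2 F)

/-- The orbit map along the one-parameter group. -/
noncomputable def uu (v : A) (t : ℝ) : F := Γ.π (γ t) (Γ.ι v)

lemma uu_deriv (v : A) (t : ℝ) : HasDerivAt (uu Γ v) (uu Γ (XX v) t) t := by
  have h1 : HasDerivAt (fun s => Γ.π (γ s) (Γ.ι v)) (Γ.ι (XX v)) 0 :=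
    Γ.lie_eq (X1, 0) v γ ⟨γ_zero, γ_deriv1, γ_deriv2⟩
  have h2 := (Γ.π (γ t)).restrictScalars ℝ |>.hasFDerivAt.comp_hasDerivAt (0 : ℝ) h1
  have h3 : HasDerivAt (fun s => uu Γ v (t + s)) (uu Γ (XX v) t) 0 := by
    refine h2.congr_of_eventuallyEq (Filter.Eventually.of_forall fun s => ?_)
    show Γ.π (γ (t + s)) (Γ.ι v) = Γ.π (γ t) (Γ.π (γ s) (Γ.ι v))
    rw [γ_add, map_mul]
    rfl
  have h4 := HasDerivAt.comp_sub_const t t (f := fun s => uu Γ v (t + s)) (by rwa [sub_self])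
  refine h4.congr_of_eventuallyEq (Filter.Eventually.of_forall fun s => ?_)
  show uu Γ v s = uu Γ v (t + (s - t))
  rw [add_sub_cancel]

lemma local_bound : ∃ C t0 : ℝ, 0 ≤ C ∧ 0 < t0 ∧ ∀ t ∈ Set.Icc 0 t0, ∀ x : F,
    ‖Γ.π (γ t) x‖ ≤ C * ‖x‖ := by
  have hc : Continuous fun y : ℝ × F => Γ.π (γ y.1) y.2 :=
    Γ.continuous.comp ((γ_continuous.comp continuous_fst).prodMk continuous_snd)
  have h1 : Filter.Tendsto (fun y : ℝ × F => ‖Γ.π (γ y.1) y.2‖) (𝓝 (0, 0)) (𝓝 0) := by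
    have := (hc.norm.tendsto ((0 : ℝ), (0 : F)))
    simpa using this
  have h2 : ∀ᶠ y : ℝ × F in 𝓝 (0, 0), ‖Γ.π (γ y.1) y.2‖ < 1 :=
    h1.eventually (gt_mem_nhds one_pos)
  rw [nhds_prod_eq, Filter.eventually_prod_iff] at h2
  obtain ⟨pa, ha, pb, hb, h⟩ := h2
  obtain ⟨r, hr, ha'⟩ := Metric.eventually_nhds_iff.1 ha
  obtain ⟨δ, hδ, hb'⟩ := Metric.eventually_nhds_iff.1 hb
  refine ⟨2 / δ, r / 2, by positivity, by positivity, fun t ht x => ?_⟩
  have hpa : pa t := ha' (by rw [Real.dist_eq, sub_zero, abs_of_nonneg ht.1]; linarith [ht.2])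
  by_cases hx : x = 0
  · rw [hx, map_zero, norm_zero, mul_zero]
  have hx' : 0 < ‖x‖ := norm_pos_iff.2 hx
  have h3 : pb (((δ / 2 / ‖x‖ : ℝ) : ℂ) • x) := by
    refine hb' ?_
    rw [dist_zero_right, norm_smul, Complex.norm_real, Real.norm_eq_abs,
      abs_of_nonneg (by positivity), div_mul_cancel₀ _ hx'.ne']
    linarith
  have h4 := h hpa h3
  simp only at h4
  rw [map_smul, norm_smul, Complex.norm_real, Real.norm_eq_abs,
    abs_of_nonneg (by positivity)] at h4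
  rw [div_mul_eq_mul_div, div_lt_one hx'] at h4
  rw [div_mul_eq_mul_div, le_div_iff₀ hδ]
  linarith

/-- The Taylor polynomial of the orbit map. -/
noncomputable def TT (n : ℕ) (v : A) (t : ℝ) : F :=
  ∑ k ∈ Finset.range n, (t ^ k / k.factorial) • Γ.ι ((XX ^ k) v)

lemma TT_deriv (n : ℕ) (v : A) (t : ℝ) :
    HasDerivAt (TT Γ (n + 1) v) (TT Γ n (XX v) t) t := by
  have h1 : ∀ k ∈ Finset.range n, HasDerivAt
      (fun t : ℝ => (t ^ (k + 1) / ((k + 1).factorial : ℝ)) • Γ.ι ((XX ^ (k + 1)) v))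
      ((t ^ k / k.factorial) • Γ.ι ((XX ^ k) (XX v))) t := by
    intro k _
    have h2 := ((hasDerivAt_pow (k + 1) t).div_const ((k + 1).factorial : ℝ)).smul_const
      (Γ.ι ((XX ^ (k + 1)) v))
    refine h2.congr_deriv ?_
    rw [pow_succ XX k, Module.End.mul_apply]
    congr 1
    rw [Nat.factorial_succ, Nat.add_sub_cancel]
    push_cast
    rw [mul_div_mul_left _ _ (by positivity)]
  have h2 := (HasDerivAt.fun_sum h1).add_const (Γ.ι v)
  refine h2.congr_of_eventuallyEq (Filter.Eventually.of_forall fun s => ?_)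
  unfold TT
  rw [Finset.sum_range_succ']
  simp

lemma taylor {C t0 : ℝ} (hb : ∀ t ∈ Set.Icc 0 t0, ∀ x : F,
    ‖Γ.π (γ t) x‖ ≤ C * ‖x‖) (n : ℕ) : ∀ (v : A), ∀ t ∈ Set.Icc 0 t0,
    ‖uu Γ v t - TT Γ n v t‖ ≤ C * p2 ((XX ^ n) v) * (t ^ n / n.factorial) := by
  induction n with
  | zero =>
    intro v t ht
    have h := hb t ht (Γ.ι v)
    rw [Γ.norm_ι] at h
    unfold TT uu
    simpa using h
  | succ n ih =>
    intro v
    have hd : ∀ x : ℝ, HasDerivAt (fun t => uu Γ v t - TT Γ (n + 1) v t)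
        (uu Γ (XX v) x - TT Γ n (XX v) x) x := fun x =>
      (uu_deriv Γ v x).sub (TT_deriv Γ n v x)
    refine image_norm_le_of_norm_deriv_right_le_deriv_boundary
      (f := fun t => uu Γ v t - TT Γ (n + 1) v t)
      (f' := fun x => uu Γ (XX v) x - TT Γ n (XX v) x)
      (B := fun t => C * p2 ((XX ^ (n + 1)) v) * (t ^ (n + 1) / (n + 1).factorial))
      (B' := fun t => C * p2 ((XX ^ (n + 1)) v) * (t ^ n / n.factorial))
      (fun x _ => (hd x).continuousAt.continuousWithinAt) (fun x _ => (hd x).hasDerivWithinAt)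
      ?_ ?_ ?_
    · unfold uu TT
      rw [Finset.sum_range_succ']
      simp [γ_zero]
    · intro x
      have h2 := ((hasDerivAt_pow (n + 1) x).div_const ((n + 1).factorial : ℝ)).const_mul
        (C * p2 ((XX ^ (n + 1)) v))
      refine h2.congr_deriv ?_
      rw [Nat.factorial_succ, Nat.add_sub_cancel]
      push_cast
      rw [mul_div_mul_left _ _ (by positivity)]
    · intro x hx
      have h3 := ih (XX v) x ⟨hx.1, hx.2.le⟩
      rw [pow_succ, Module.End.mul_apply]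
      exact h3

include Γ in
theorem key : ∃ C t : ℝ, 0 < t ∧ ∀ v : A,
    ‖ε v + 2⁻¹ * ε (δ2 (δ2 v)) + 2⁻¹ * Complex.exp (4 * t) * ε (δ1 (δ1 v))‖ ≤ C * p2 v := by
  obtain ⟨C, t0, hC, ht0, hb⟩ := local_bound Γ
  set t := min t0 (1 / 8) with ht
  have htp : 0 < t := lt_min ht0 (by norm_num)
  have htt : t ∈ Set.Icc 0 t0 := ⟨htp.le, min_le_left _ _⟩
  refine ⟨C, t, htp, fun v => ?_⟩
  -- the partial sums
  have h1 : ∀ n : ℕ, ‖ε (D2 (∑ k ∈ Finset.range n, ((t ^ k / k.factorial : ℝ) : ℂ) • (XX ^ k) v))‖ ≤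
      C * p2 v + C * (t ^ n / n.factorial * p2 ((XX ^ n) v)) := by
    intro n
    have h2 := taylor Γ hb n v t htt
    have h3 : TT Γ n v t =
        Γ.ι (∑ k ∈ Finset.range n, ((t ^ k / k.factorial : ℝ) : ℂ) • (XX ^ k) v) := by
      unfold TT
      rw [map_sum]
      refine Finset.sum_congr rfl fun k _ => ?_
      rw [map_smul]
      exact (Complex.coe_smul _ _).symm
    have h4 : ‖uu Γ v t‖ ≤ C * p2 v := by
      have := hb t htt (Γ.ι v)
      rwa [Γ.norm_ι] at this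
    have h5 : ‖TT Γ n v t‖ ≤ C * p2 v + C * (t ^ n / n.factorial * p2 ((XX ^ n) v)) := by
      have h6 : TT Γ n v t = uu Γ v t - (uu Γ v t - TT Γ n v t) := by abel
      rw [h6]
      refine (norm_sub_le _ _).trans (add_le_add h4 (h2.trans (le_of_eq ?_)))
      ring
    rw [h3, Γ.norm_ι] at h5
    exact (ε_le _).trans h5
  have h2 : ∀ n : ℕ, ε (D2 (∑ k ∈ Finset.range (n + 1),
      ((t ^ k / k.factorial : ℝ) : ℂ) • (XX ^ k) v)) =
      ε v + 2⁻¹ * ε (δ2 (δ2 v)) + 2⁻¹ * (∑ k ∈ Finset.range (n + 1), (4 * (t : ℂ)) ^ k / k.factorial) *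
        ε (δ1 (δ1 v)) := by
    intro n
    rw [map_sum, map_sum, Finset.sum_range_succ', Finset.sum_range_succ']
    simp only [map_smul, smul_eq_mul, ε_D2_pow]
    rw [pow_zero XX, Module.End.one_apply, ε_D2, mul_add (2⁻¹ : ℂ) (∑ k ∈ Finset.range n, _),
      Finset.mul_sum, add_mul, Finset.sum_mul]
    have h3 : ∀ k ∈ Finset.range n, (((t ^ (k + 1) / (k + 1).factorial : ℝ) : ℝ) : ℂ) *
        (2⁻¹ * 4 ^ (k + 1) * ε (δ1 (δ1 v))) =
        2⁻¹ * ((4 * (t : ℂ)) ^ (k + 1) / (k + 1).factorial) * ε (δ1 (δ1 v)) := by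
      intro k _
      push_cast
      rw [mul_pow]
      ring
    rw [Finset.sum_congr rfl h3]
    simp
    ring
  have h3 : Filter.Tendsto (fun n : ℕ => ‖ε (D2 (∑ k ∈ Finset.range (n + 1),
      ((t ^ k / k.factorial : ℝ) : ℂ) • (XX ^ k) v))‖) Filter.atTop
      (𝓝 ‖ε v + 2⁻¹ * ε (δ2 (δ2 v)) + 2⁻¹ * Complex.exp (4 * t) * ε (δ1 (δ1 v))‖) := by
    simp only [h2]
    refine Filter.Tendsto.norm ?_
    refine Filter.Tendsto.const_add _ ?_
    refine Filter.Tendsto.mul_const _ ?_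
    refine Filter.Tendsto.const_mul _ ?_
    have h4 := (NormedSpace.expSeries_div_hasSum_exp (4 * (t : ℂ))).tendsto_sum_nat
    rw [← Complex.exp_eq_exp_ℂ] at h4
    exact (Filter.tendsto_add_atTop_iff_nat 1).2 h4
  have h4 : Filter.Tendsto (fun n : ℕ => C * p2 v +
      C * (t ^ (n + 1) / (n + 1).factorial * p2 ((XX ^ (n + 1)) v))) Filter.atTop
      (𝓝 (C * p2 v + C * 0)) :=
    ((((Filter.tendsto_add_atTop_iff_nat 1).2 (tendsto_aux t htp.le (min_le_right _ _) v)).const_mul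
      C).const_add _)
  rw [mul_zero, add_zero] at h4
  exact le_of_tendsto_of_tendsto' h3 h4 fun n => h1 (n + 1)

include Γ in
theorem not_glob : False := by
  obtain ⟨C, t, ht, h⟩ := key Γ
  have h1 : ∀ N : ℕ, (Real.exp (4 * t) - 1) * HN N ≤ |C| * 14 := by
    intro N
    have h2 := h (fN N)
    rw [ε_fN, ε_δ11_fN, ε_δ22_fN] at h2
    have h3 : (0 : ℂ) + 2⁻¹ * (-2 * (HN N : ℂ)) + 2⁻¹ * Complex.exp (4 * t) * (2 * HN N) =
        (((Real.exp (4 * t) - 1) * HN N : ℝ) : ℂ) := by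
      push_cast
      ring
    rw [h3, Complex.norm_real] at h2
    calc _ ≤ ‖(Real.exp (4 * t) - 1) * HN N‖ := Real.le_norm_self _
      _ ≤ C * p2 (fN N) := h2
      _ ≤ |C| * p2 (fN N) := mul_le_mul_of_nonneg_right (le_abs_self C) (p2_nonneg _)
      _ ≤ |C| * 14 := mul_le_mul_of_nonneg_left (norm_D2_fN N) (abs_nonneg C)
  have h2 : 0 < Real.exp (4 * t) - 1 := by
    have := Real.add_one_lt_exp (x := 4 * t) (by positivity)
    linarith
  obtain ⟨N, hN⟩ := (HN_tendsto.eventually_gt_atTop (|C| * 14 / (Real.exp (4 * t) - 1))).exists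
  rw [div_lt_iff₀ h2] at hN
  linarith [h1 N]

end

theorem not_gContinuous : ¬ GContinuous M fun v => ‖ι (D2 v)‖ := by
  rintro ⟨F, i1, i2, i3, ⟨Γ⟩⟩
  exact not_glob Γ

lemma isSobolevOp : IsSobolevOp M 2 D2 := by
  intro m v hv
  refine AddMonoidAlgebra.ext (Finsupp.ext fun n => ?_)
  unfold D2
  rw [dg_coeff, AddMonoidAlgebra.coeff_smul, Finsupp.smul_apply, smul_eq_mul]
  by_cases hn : v.coeff n = 0
  · rw [hn, mul_zero, mul_zero]
  · have h := ktype_coeff hv n hn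
    rw [h]
    congr 1
    rw [div_self two_ne_zero, Real.rpow_one]
    push_cast
    ring

end Pool.Agent.R718.Sq
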