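import Pool.Agent.R497.TB.Defs

/-!
(BBAD) of project TB (helper497): pairs of points which are close.
-/

set_option autoImplicit false

namespace Pool.Agent.R718.TB

open Finset

theorem step_le (R vL : ℕ) (f : ℕ → ℝ) (A : ℝ)
    (h : ∀ v, vL < v → v + 1 < R → A ≤ f (v + 1) - f v) (a : ℕ) (ha : vL < a) (j : ℕ) :
    a + j < R → (j : ℝ) * A ≤ f (a + j) - f a := by
  induction j with
  | zero => intro _; simp
  | succ j ih =>
    intro hj
    have h1 := ih (by omega)
    have h2 := h (a + j) (by omega) (by omega)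
    have h3 : a + (j + 1) = a + j + 1 := by omega
    rw [h3]
    push_cast
    linarith

theorem card_line (R vL : ℕ) (f : ℕ → ℝ) (A Y c : ℝ) (hA : 0 < A) (hY : 0 ≤ Y)
    (h : ∀ v, vL < v → v + 1 < R → A ≤ f (v + 1) - f v) :
    (((range R).filter fun v => vL < v ∧ |f v - c| < Y).card : ℝ) ≤ 2 * Y / A + 1 := by
  set T := (range R).filter fun v => vL < v ∧ |f v - c| < Y with hT
  rcases T.eq_empty_or_nonempty with h0 | h0
  · rw [h0]
    have : 0 ≤ 2 * Y / A := by positivity
    simp only [card_empty, Nat.cast_zero]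
    linarith
  · have hamem := T.min'_mem h0
    have hbmem := T.max'_mem h0
    have hab := T.min'_le _ hbmem
    set a := T.min' h0
    set b := T.max' h0
    have hsub : T ⊆ Finset.Icc a b := by
      intro x hx
      rw [Finset.mem_Icc]
      exact ⟨T.min'_le x hx, T.le_max' x hx⟩
    have hc := card_le_card hsub
    rw [Nat.card_Icc] at hc
    have ha1 := (mem_filter.1 hamem)
    have hb1 := (mem_filter.1 hbmem)
    have haR := mem_range.1 ha1.1
    have hbR := mem_range.1 hb1.1
    have h1 := step_le R vL f A h a ha1.2.1 (b - a) (by omega)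
    have h2 : a + (b - a) = b := by omega
    rw [h2] at h1
    have h3 := abs_lt.1 ha1.2.2
    have h4 := abs_lt.1 hb1.2.2
    have h5 : ((b - a : ℕ) : ℝ) ≤ 2 * Y / A := by
      rw [le_div_iff₀ hA]
      linarith [h3.1, h3.2, h4.1, h4.2]
    have h6 : (T.card : ℝ) ≤ ((b - a : ℕ) : ℝ) + 1 := by
      have : T.card ≤ (b - a) + 1 := by omega
      exact_mod_cast this
    linarith

theorem card_all (S R vL : ℕ) (q : ℕ → ℝ) (A Y c : ℝ) (hR : 0 < R) (hA : 0 < A) (hY : 0 ≤ Y)
    (h : ∀ u v, u < S → vL < v → v + 1 < R → A ≤ q (u * R + (v + 1)) - q (u * R + v)) :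
    (((range (S * R)).filter fun n => vL < n % R ∧ |q n - c| < Y).card : ℝ) ≤ S * (2 * Y / A + 1) := by
  set T := (range (S * R)).filter fun n => vL < n % R ∧ |q n - c| < Y with hT
  have hmap : ∀ n ∈ T, n / R ∈ range S := by
    intro n hn
    have h1 := mem_range.1 (mem_filter.1 hn).1
    rw [mem_range]
    exact Nat.div_lt_of_lt_mul (by rw [Nat.mul_comm]; exact h1)
  rw [card_eq_sum_card_fiberwise hmap]
  push_cast
  have hle : ∀ u ∈ range S, ((T.filter fun n => n / R = u).card : ℝ) ≤ 2 * Y / A + 1 := by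
    intro u hu
    refine le_trans ?_ (card_line R vL (fun v => q (u * R + v)) A Y c hA hY
      (fun v hv hv' => h u v (mem_range.1 hu) hv hv'))
    have : (T.filter fun n => n / R = u).card ≤
        ((range R).filter fun v => vL < v ∧ |q (u * R + v) - c| < Y).card := by
      refine card_le_card_of_injOn (fun n => n % R) ?_ ?_
      · intro n hn
        have hn' := mem_filter.1 (mem_coe.1 hn)
        have hn2 := mem_filter.1 hn'.1
        have e : u * R + n % R = n := by
          rw [← hn'.2]
          exact Nat.div_add_mod' n R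
        refine mem_coe.2 (mem_filter.2 ⟨mem_range.2 (Nat.mod_lt _ hR), hn2.2.1, ?_⟩)
        show |q (u * R + n % R) - c| < Y
        rw [e]
        exact hn2.2.2
      · intro n hn m hm hnm
        have hn' := (mem_filter.1 (mem_coe.1 hn)).2
        have hm' := (mem_filter.1 (mem_coe.1 hm)).2
        have e1 := Nat.div_add_mod' n R
        have e2 := Nat.div_add_mod' m R
        have hnm' : n % R = m % R := hnm
        rw [← e1, ← e2, hn', hm', hnm']
    exact_mod_cast this
  calc _ ≤ ∑ _u ∈ range S, (2 * Y / A + 1) := sum_le_sum hle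
    _ = S * (2 * Y / A + 1) := by rw [sum_const, card_range, nsmul_eq_mul]

theorem t_BBAD : Pool.Agent.R497.TB.S_BBAD := by
  intro S Ri vL q A Y hR hA hY h
  set P := ((range (S * Ri) ×ˢ range (S * Ri)).filter fun p =>
    vL < p.1 % Ri ∧ vL < p.2 % Ri ∧ |q p.1 - q p.2| < Y) with hP
  have hmap : ∀ p ∈ P, p.2 ∈ range (S * Ri) := by
    intro p hp
    exact (mem_product.1 (mem_filter.1 hp).1).2
  rw [card_eq_sum_card_fiberwise hmap]
  push_cast
  have hle : ∀ m ∈ range (S * Ri), ((P.filter fun p => p.2 = m).card : ℝ) ≤ S * (2 * Y / A + 1) := by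
    intro m _
    refine le_trans ?_ (card_all S Ri vL q A Y (q m) hR hA hY h)
    have : (P.filter fun p => p.2 = m).card ≤
        ((range (S * Ri)).filter fun n => vL < n % Ri ∧ |q n - q m| < Y).card := by
      refine card_le_card_of_injOn (fun p => p.1) ?_ ?_
      · intro p hp
        have hp' := mem_filter.1 (mem_coe.1 hp)
        have hp2 := mem_filter.1 hp'.1
        refine mem_coe.2 (mem_filter.2 ⟨(mem_product.1 hp2.1).1, hp2.2.1, ?_⟩)
        rw [← hp'.2]
        exact hp2.2.2.2
      · intro p hp r hr hpr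
        have hp' := (mem_filter.1 (mem_coe.1 hp)).2
        have hr' := (mem_filter.1 (mem_coe.1 hr)).2
        exact Prod.ext hpr (by rw [hp', hr'])
    exact_mod_cast this
  calc _ ≤ ∑ _u ∈ range (S * Ri), (S * (2 * Y / A + 1)) := sum_le_sum hle
    _ = (S * Ri) * (S * (2 * Y / A + 1)) := by rw [sum_const, card_range, nsmul_eq_mul]; push_cast; ring

end Pool.Agent.R718.TB
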