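import Mathlib

/-!
Helper for `S02494` (`MP_9ea0f9_al`): linear maps of finite rank.
-/

set_option autoImplicit false

namespace Pool.Agent.R718.UR

open Function

section

variable {F : Type} [Field F] {V W X Y : Type} [AddCommGroup V] [Module F V] [AddCommGroup W]
  [Module F W] [AddCommGroup X] [Module F X] [AddCommGroup Y] [Module F Y]

/-- Maps of finite rank. -/
def FR (z : V →ₗ[F] W) : Prop := FiniteDimensional F (LinearMap.range z)

lemma FR_of_le {z : V →ₗ[F] W} (U : Submodule F W) [FiniteDimensional F U]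
    (h : LinearMap.range z ≤ U) : FR z :=
  Submodule.finiteDimensional_of_le h

lemma FR_zero : FR (0 : V →ₗ[F] W) :=
  FR_of_le ⊥ (by rw [LinearMap.range_zero])

lemma FR_add {z w : V →ₗ[F] W} (hz : FR z) (hw : FR w) : FR (z + w) := by
  unfold FR at hz hw
  refine FR_of_le (LinearMap.range z ⊔ LinearMap.range w) ?_
  rintro _ ⟨v, rfl⟩
  exact Submodule.add_mem_sup ⟨v, rfl⟩ ⟨v, rfl⟩

lemma FR_neg {z : V →ₗ[F] W} (hz : FR z) : FR (-z) := by
  unfold FR at hz
  refine FR_of_le (LinearMap.range z) ?_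
  rintro _ ⟨v, rfl⟩
  exact ⟨-v, by simp⟩

lemma FR_sub {z w : V →ₗ[F] W} (hz : FR z) (hw : FR w) : FR (z - w) := by
  rw [sub_eq_add_neg]
  exact FR_add hz (FR_neg hw)

lemma FR_comp_left {z : V →ₗ[F] W} (hz : FR z) (p : W →ₗ[F] X) : FR (p ∘ₗ z) := by
  unfold FR at hz
  refine FR_of_le ((LinearMap.range z).map p) ?_
  rintro _ ⟨v, rfl⟩
  exact ⟨z v, ⟨v, rfl⟩, rfl⟩

lemma FR_comp_right {z : V →ₗ[F] W} (hz : FR z) (q : X →ₗ[F] V) : FR (z ∘ₗ q) := by
  unfold FR at hz
  refine FR_of_le (LinearMap.range z) ?_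
  rintro _ ⟨v, rfl⟩
  exact ⟨q v, rfl⟩

lemma FR_prodMap {z : V →ₗ[F] W} {w : X →ₗ[F] Y} (hz : FR z) (hw : FR w) :
    FR (z.prodMap w) := by
  have h : z.prodMap w = LinearMap.inl F W Y ∘ₗ z ∘ₗ LinearMap.fst F V X +
      LinearMap.inr F W Y ∘ₗ w ∘ₗ LinearMap.snd F V X := by
    ext v <;> simp
  rw [h]
  exact FR_add (FR_comp_left (FR_comp_right hz _) _) (FR_comp_left (FR_comp_right hw _) _)

/-- Rank one operators. -/
def r1 (b : W) (φ : V →ₗ[F] F) : V →ₗ[F] W := φ.smulRight b

lemma r1_apply (b : W) (φ : V →ₗ[F] F) (v : V) : r1 b φ v = φ v • b := rfl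

lemma FR_r1 (b : W) (φ : V →ₗ[F] F) : FR (r1 b φ) := by
  refine FR_of_le (Submodule.span F {b}) ?_
  rintro _ ⟨v, rfl⟩
  exact Submodule.smul_mem _ _ (Submodule.mem_span_singleton_self b)

/-- A map of finite rank is a sum of maps of rank one. -/
lemma FR_induction {P : (V →ₗ[F] W) → Prop} (h0 : P 0) (hadd : ∀ z w, P z → P w → P (z + w))
    (h1 : ∀ b φ, P (r1 b φ)) (z : V →ₗ[F] W) (hz : FR z) : P z := by
  classical
  unfold FR at hz
  let B := Module.finBasis F (LinearMap.range z)
  have h : z = ∑ i, r1 (B i : W) (B.coord i ∘ₗ z.rangeRestrict) := by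
    ext v
    rw [LinearMap.sum_apply]
    have h2 := B.sum_repr (z.rangeRestrict v)
    have h3 := congrArg (fun x : LinearMap.range z => (x : W)) h2
    simp only [Submodule.coe_sum, Submodule.coe_smul] at h3
    exact h3.symm
  rw [h]
  have : ∀ s : Finset (Fin (Module.finrank F (LinearMap.range z))),
      P (∑ i ∈ s, r1 (B i : W) (B.coord i ∘ₗ z.rangeRestrict)) := by
    intro s
    induction s using Finset.induction_on with
    | empty => simpa using h0
    | insert a s ha ih =>
      rw [Finset.sum_insert ha]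
      exact hadd _ _ (h1 _ _) ih
  exact this _

/-- The sum of the identity and a map of finite rank is injective if and only if it is
surjective. -/
theorem inj_iff_surj (z : V →ₗ[F] V) (hz : FR (z - 1)) : Injective z ↔ Surjective z := by
  unfold FR at hz
  set U := LinearMap.range (z - 1) with hU
  have hmem : ∀ v, z v - v ∈ U := fun v => ⟨v, rfl⟩
  have hzU : ∀ u ∈ U, z u ∈ U := fun u hu => by
    have := U.add_mem (hmem u) hu
    rwa [sub_add_cancel] at this
  let y : U →ₗ[F] U := z.restrict hzU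
  constructor
  · intro hi v
    have hy : Injective y := fun a b h => by
      have : z a = z b := congrArg (fun x : U => (x : V)) h
      exact Subtype.ext (hi this)
    obtain ⟨u, hu⟩ := (LinearMap.injective_iff_surjective.1 hy) ⟨z v - v, hmem v⟩
    have h1 : z u = z v - v := congrArg (fun x : U => (x : V)) hu
    exact ⟨v - u, by rw [map_sub, h1]; abel⟩
  · intro hs
    have hy : Surjective y := by
      rintro ⟨u, hu⟩
      obtain ⟨w, hw⟩ := hs u
      have h1 : w ∈ U := by
        have := U.sub_mem hu (hmem w)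
        rw [hw] at this
        have h2 : u - (u - w) = w := by abel
        rwa [h2] at this
      exact ⟨⟨w, h1⟩, Subtype.ext hw⟩
    have hy' := LinearMap.injective_iff_surjective.2 hy
    rw [injective_iff_map_eq_zero]
    intro v hv
    have h1 : v ∈ U := by
      have := U.neg_mem (hmem v)
      rwa [hv, zero_sub, neg_neg] at this
    have h2 : (⟨v, h1⟩ : U) = 0 := hy' (by
      rw [map_zero]
      exact Subtype.ext hv)
    exact congrArg (fun x : U => (x : V)) h2

/-- Every linear map has a generalised inverse. -/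
lemma exists_ginv (z : V →ₗ[F] W) : ∃ y : W →ₗ[F] V, z ∘ₗ y ∘ₗ z = z := by
  obtain ⟨s, hs⟩ := z.rangeRestrict.exists_rightInverse_of_surjective
    (LinearMap.range_rangeRestrict z)
  obtain ⟨p, hp⟩ := (LinearMap.range z).exists_isCompl
  refine ⟨s ∘ₗ (LinearMap.range z).projectionOnto p hp, ?_⟩
  ext v
  simp only [LinearMap.comp_apply]
  have h1 : (LinearMap.range z).projectionOnto p hp (z v) = ⟨z v, ⟨v, rfl⟩⟩ := by
    exact Submodule.projectionOnto_apply_left hp ⟨z v, ⟨v, rfl⟩⟩
  rw [h1]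
  have h2 := LinearMap.congr_fun hs ⟨z v, ⟨v, rfl⟩⟩
  exact congrArg (fun x : LinearMap.range z => (x : W)) h2

end

end Pool.Agent.R718.UR
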