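import Mathlib
import Pool.Agent.R718.UR1

/-!
Helper for `S02494` (`MP_9ea0f9_al`): pairs of spaces on which a field acts modulo finite rank, and
their rings of operators.
-/

set_option autoImplicit false

namespace Pool.Agent.R718.UR

open Function

/-- A pair of `F`-spaces on which the field `L` acts modulo operators of finite rank, such that the
action on the sum of the two has index zero and `t` has index `-1` on the first one. -/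
structure Lvl (F L : Type) [Field F] [Field L] (t : L) where
  /-- the first space -/
  Wp : Type
  /-- the second space -/
  Wm : Type
  [acp : AddCommGroup Wp]
  [mp : Module F Wp]
  [acm : AddCommGroup Wm]
  [mm : Module F Wm]
  /-- the action on the first space -/
  ρp : L → (Wp →ₗ[F] Wp)
  /-- the action on the second space -/
  ρm : L → (Wm →ₗ[F] Wm)
  ρp_one : ρp 1 = 1
  ρm_one : ρm 1 = 1
  ρp_add : ∀ a b, ρp (a + b) = ρp a + ρp b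
  ρm_add : ∀ a b, ρm (a + b) = ρm a + ρm b
  ρp_mul : ∀ a b, FR (ρp a ∘ₗ ρp b - ρp (a * b))
  ρm_mul : ∀ a b, FR (ρm a ∘ₗ ρm b - ρm (a * b))
  t_ne : t ≠ 0
  exT : ∃ T : Wp →ₗ[F] Wp, FR (T - ρp t) ∧ Injective T ∧ ¬ Surjective T
  exE : ∀ a, a ≠ 0 → ∃ E : (Wp × Wm) →ₗ[F] (Wp × Wm), Bijective E ∧
    FR (E - (ρp a).prodMap (ρm a))

attribute [instance] Lvl.acp Lvl.mp Lvl.acm Lvl.mm

variable {F L : Type} [Field F] [Field L] {t : L}

namespace Lvl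

variable (Λ : Lvl F L t)

lemma ρp_zero : Λ.ρp 0 = 0 := by
  have h := Λ.ρp_add 0 0
  rw [add_zero] at h
  exact left_eq_add.1 h

lemma ρm_zero : Λ.ρm 0 = 0 := by
  have h := Λ.ρm_add 0 0
  rw [add_zero] at h
  exact left_eq_add.1 h

lemma ρp_neg (a : L) : Λ.ρp (-a) = -Λ.ρp a := by
  have h := Λ.ρp_add (-a) a
  rw [neg_add_cancel, ρp_zero] at h
  exact eq_neg_of_add_eq_zero_left h.symm

lemma ρm_neg (a : L) : Λ.ρm (-a) = -Λ.ρm a := by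
  have h := Λ.ρm_add (-a) a
  rw [neg_add_cancel, ρm_zero] at h
  exact eq_neg_of_add_eq_zero_left h.symm

end Lvl

lemma FR_mul_aux {V : Type} [AddCommGroup V] [Module F V] {x x' r r' s : V →ₗ[F] V}
    (h1 : FR (x - r)) (h2 : FR (x' - r')) (h3 : FR (r ∘ₗ r' - s)) : FR (x ∘ₗ x' - s) := by
  have h : x ∘ₗ x' - s = (x - r) ∘ₗ x' + r ∘ₗ (x' - r') + (r ∘ₗ r' - s) := by
    ext v
    simp only [LinearMap.sub_apply, LinearMap.add_apply, LinearMap.comp_apply, map_sub]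
    abel
  rw [h]
  exact FR_add (FR_add (FR_comp_right h1 _) (FR_comp_left h2 _)) h3

/-- The ring of the triples `(x, y, a)` such that `x` and `y` are given by the action of `a` up to
finite rank. -/
def Lvl.ring (Λ : Lvl F L t) :
    Subring (Module.End F Λ.Wp × Module.End F Λ.Wm × L) where
  carrier := {z | FR (z.1 - Λ.ρp z.2.2) ∧ FR (z.2.1 - Λ.ρm z.2.2)}
  mul_mem' := by
    rintro ⟨x, y, a⟩ ⟨x', y', a'⟩ ⟨h1, h2⟩ ⟨h3, h4⟩
    exact ⟨FR_mul_aux h1 h3 (Λ.ρp_mul a a'), FR_mul_aux h2 h4 (Λ.ρm_mul a a')⟩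
  one_mem' := by
    refine ⟨?_, ?_⟩
    · show FR ((1 : Module.End F Λ.Wp) - Λ.ρp 1)
      rw [Λ.ρp_one, sub_self]
      exact FR_zero
    · show FR ((1 : Module.End F Λ.Wm) - Λ.ρm 1)
      rw [Λ.ρm_one, sub_self]
      exact FR_zero
  add_mem' := by
    rintro ⟨x, y, a⟩ ⟨x', y', a'⟩ ⟨h1, h2⟩ ⟨h3, h4⟩
    refine ⟨?_, ?_⟩
    · show FR (x + x' - Λ.ρp (a + a'))
      rw [Λ.ρp_add, add_sub_add_comm]
      exact FR_add h1 h3
    · show FR (y + y' - Λ.ρm (a + a'))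
      rw [Λ.ρm_add, add_sub_add_comm]
      exact FR_add h2 h4
  zero_mem' := by
    refine ⟨?_, ?_⟩
    · show FR (0 - Λ.ρp 0)
      rw [Λ.ρp_zero, sub_self]
      exact FR_zero
    · show FR (0 - Λ.ρm 0)
      rw [Λ.ρm_zero, sub_self]
      exact FR_zero
  neg_mem' := by
    rintro ⟨x, y, a⟩ ⟨h1, h2⟩
    refine ⟨?_, ?_⟩
    · show FR (-x - Λ.ρp (-a))
      rw [Λ.ρp_neg, show -x - -Λ.ρp a = -(x - Λ.ρp a) by abel]
      exact FR_neg h1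
    · show FR (-y - Λ.ρm (-a))
      rw [Λ.ρm_neg, show -y - -Λ.ρm a = -(y - Λ.ρm a) by abel]
      exact FR_neg h2

lemma Lvl.mem_ring (Λ : Lvl F L t) (x : Λ.Wp →ₗ[F] Λ.Wp) (y : Λ.Wm →ₗ[F] Λ.Wm) (a : L) :
    ((x, y, a) : Module.End F Λ.Wp × Module.End F Λ.Wm × L) ∈ Λ.ring ↔
      FR (x - Λ.ρp a) ∧ FR (y - Λ.ρm a) := Iff.rfl

lemma ginv_aux {V : Type} [AddCommGroup V] [Module F V] (ρ : L → (V →ₗ[F] V)) (h1 : ρ 1 = 1)
    (hmul : ∀ a b, FR (ρ a ∘ₗ ρ b - ρ (a * b))) (h0 : ρ 0 = 0) (x : V →ₗ[F] V) (a : L)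
    (hx : FR (x - ρ a)) : ∃ x' : V →ₗ[F] V, x ∘ₗ x' ∘ₗ x = x ∧ FR (x' - ρ a⁻¹) := by
  obtain ⟨y, hy⟩ := exists_ginv x
  by_cases ha : a = 0
  · subst ha
    rw [h0, sub_zero] at hx
    refine ⟨y ∘ₗ x ∘ₗ y, ?_, ?_⟩
    · ext v
      have h2 := fun v => LinearMap.congr_fun hy v
      simp only [LinearMap.comp_apply] at h2 ⊢
      rw [h2, h2]
    · rw [inv_zero, h0, sub_zero]
      exact FR_comp_left (FR_comp_right hx y) y
  · refine ⟨y, hy, ?_⟩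
    have h2 : FR (x ∘ₗ ρ a⁻¹ - 1) := by
      have := FR_mul_aux hx (by rw [sub_self]; exact FR_zero : FR (ρ a⁻¹ - ρ a⁻¹)) (hmul a a⁻¹)
      rwa [mul_inv_cancel₀ ha, h1] at this
    have h3 : FR (ρ a⁻¹ ∘ₗ x - 1) := by
      have := FR_mul_aux (by rw [sub_self]; exact FR_zero : FR (ρ a⁻¹ - ρ a⁻¹)) hx (hmul a⁻¹ a)
      rwa [inv_mul_cancel₀ ha, h1] at this
    have h4 : FR (y ∘ₗ x - 1) := by
      unfold FR at h3
      refine FR_of_le (LinearMap.range (ρ a⁻¹ ∘ₗ x - 1)) ?_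
      rintro _ ⟨v, rfl⟩
      refine ⟨-((y ∘ₗ x - 1 : V →ₗ[F] V) v), ?_⟩
      have h5 : x ((y ∘ₗ x - 1 : V →ₗ[F] V) v) = 0 := by
        have h6 := LinearMap.congr_fun hy v
        simp only [LinearMap.comp_apply] at h6
        rw [LinearMap.sub_apply, map_sub, LinearMap.comp_apply, h6]
        simp
      rw [map_neg, LinearMap.sub_apply, LinearMap.comp_apply, h5, map_zero, zero_sub, neg_neg]
      rfl
    have h5 : y - ρ a⁻¹ = (y ∘ₗ x - 1) ∘ₗ ρ a⁻¹ - y ∘ₗ (x ∘ₗ ρ a⁻¹ - 1) := by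
      ext v
      simp only [LinearMap.sub_apply, LinearMap.comp_apply, map_sub, Module.End.one_apply]
      abel
    rw [h5]
    exact FR_sub (FR_comp_right h4 _) (FR_comp_left h2 _)

/-- The rings are regular. -/
theorem Lvl.regular (Λ : Lvl F L t) (z : Λ.ring) : ∃ w : Λ.ring, z * w * z = z := by
  obtain ⟨⟨x, y, a⟩, h1, h2⟩ := z
  obtain ⟨x', hx', hx''⟩ := ginv_aux Λ.ρp Λ.ρp_one Λ.ρp_mul Λ.ρp_zero x a h1
  obtain ⟨y', hy', hy''⟩ := ginv_aux Λ.ρm Λ.ρm_one Λ.ρm_mul Λ.ρm_zero y a h2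
  refine ⟨⟨(x', y', a⁻¹), hx'', hy''⟩, ?_⟩
  refine Subtype.ext ?_
  refine Prod.ext ?_ (Prod.ext ?_ ?_)
  · show x * x' * x = x
    rw [mul_assoc]
    exact hx'
  · show y * y' * y = y
    rw [mul_assoc]
    exact hy'
  · show a * a⁻¹ * a = a
    by_cases ha : a = 0
    · rw [ha, mul_zero]
    · rw [mul_inv_cancel₀ ha, one_mul]

/-- The rings are directly finite. -/
theorem Lvl.directly_finite (Λ : Lvl F L t) (z w : Λ.ring) (h : z * w = 1) : w * z = 1 := by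
  obtain ⟨⟨x, y, a⟩, h1, h2⟩ := z
  obtain ⟨⟨x', y', a'⟩, h3, h4⟩ := w
  have e := congrArg Subtype.val h
  have e1 : x * x' = 1 := congrArg Prod.fst e
  have e2 : y * y' = 1 := congrArg (fun z => z.2.1) e
  have e3 : a * a' = 1 := congrArg (fun z => z.2.2) e
  have ha' : a' ≠ 0 := right_ne_zero_of_mul (a := a) (by rw [e3]; exact one_ne_zero)
  obtain ⟨E, hE, hE'⟩ := Λ.exE a' ha'
  change FR (x - Λ.ρp a) at h1
  change FR (y - Λ.ρm a) at h2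
  have h5 : FR ((x.prodMap y) ∘ₗ E - 1) := by
    refine FR_mul_aux (r := (Λ.ρp a).prodMap (Λ.ρm a)) (r' := (Λ.ρp a').prodMap (Λ.ρm a')) ?_ hE' ?_
    · have : x.prodMap y - (Λ.ρp a).prodMap (Λ.ρm a) =
          (x - Λ.ρp a).prodMap (y - Λ.ρm a) := by
        ext v <;> simp
      rw [this]
      exact FR_prodMap h1 h2
    · have : (Λ.ρp a).prodMap (Λ.ρm a) ∘ₗ (Λ.ρp a').prodMap (Λ.ρm a') - 1 =
          (Λ.ρp a ∘ₗ Λ.ρp a' - Λ.ρp (a * a')).prodMap (Λ.ρm a ∘ₗ Λ.ρm a' - Λ.ρm (a * a')) := by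
        rw [e3, Λ.ρp_one, Λ.ρm_one]
        ext v <;> simp
      rw [this]
      exact FR_prodMap (Λ.ρp_mul _ _) (Λ.ρm_mul _ _)
  have hsx : Surjective x := fun v => ⟨x' v, LinearMap.congr_fun e1 v⟩
  have hsy : Surjective y := fun v => ⟨y' v, LinearMap.congr_fun e2 v⟩
  have hs : Surjective ((x.prodMap y) ∘ₗ E) := by
    rw [LinearMap.coe_comp]
    refine Surjective.comp ?_ hE.2
    rw [LinearMap.coe_prodMap]
    exact hsx.prodMap hsy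
  have hi := (inj_iff_surj _ h5).2 hs
  have hi' : Injective (x.prodMap y) := by
    intro v w hvw
    obtain ⟨v', rfl⟩ := hE.2 v
    obtain ⟨w', rfl⟩ := hE.2 w
    rw [hi hvw]
  refine Subtype.ext ?_
  refine Prod.ext ?_ (Prod.ext ?_ ?_)
  · show x' * x = 1
    ext v
    have h6 : (x.prodMap y) (x' (x v), 0) = (x.prodMap y) (v, 0) := by
      refine Prod.ext ?_ rfl
      exact LinearMap.congr_fun e1 (x v)
    exact congrArg Prod.fst (hi' h6)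
  · show y' * y = 1
    ext v
    have h6 : (x.prodMap y) (0, y' (y v)) = (x.prodMap y) (0, v) := by
      refine Prod.ext rfl ?_
      exact LinearMap.congr_fun e2 (y v)
    exact congrArg Prod.snd (hi' h6)
  · show a' * a = 1
    rw [mul_comm, e3]

/-- The triples with `x = 0`, `y = 0` vanish. -/
lemma Lvl.eq_zero (Λ : Lvl F L t) (z : Λ.ring) (h : z.1.1 = 0) : z.1.2.2 = 0 := by
  obtain ⟨⟨x, y, a⟩, h1, h2⟩ := z
  change x = 0 at h
  show a = 0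
  by_contra ha
  change FR (x - Λ.ρp a) at h1
  rw [h, zero_sub] at h1
  obtain ⟨T, hT1, hT2, hT3⟩ := Λ.exT
  have h3 : FR (-1 : Λ.Wp →ₗ[F] Λ.Wp) := by
    have h4 := FR_add (FR_comp_left h1 (Λ.ρp a⁻¹)) (Λ.ρp_mul a⁻¹ a)
    rw [inv_mul_cancel₀ ha, Λ.ρp_one] at h4
    have h5 : Λ.ρp a⁻¹ ∘ₗ (-Λ.ρp a) + (Λ.ρp a⁻¹ ∘ₗ Λ.ρp a - 1) = -1 := by
      ext v
      simp only [LinearMap.add_apply, LinearMap.sub_apply, LinearMap.comp_apply,
        LinearMap.neg_apply, map_neg, Module.End.one_apply]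
      abel
    rwa [h5] at h4
  have h4 : FR (T - 1) := by
    have h5 : T - 1 = T ∘ₗ (1 : Λ.Wp →ₗ[F] Λ.Wp) - 1 := by rfl
    have h6 : FR (1 : Λ.Wp →ₗ[F] Λ.Wp) := by
      have := FR_neg h3
      rwa [neg_neg] at this
    rw [h5]
    exact FR_sub (FR_comp_left h6 T) h6
  exact hT3 ((inj_iff_surj _ h4).1 hT2)

/-- No unit lies over `t⁻¹`. -/
theorem Lvl.no_unit (Λ : Lvl F L t) (z w : Λ.ring) (h : w * z = 1)
    (hz : z.1.2.2 = t⁻¹) : False := by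
  obtain ⟨⟨x, y, a⟩, h1, h2⟩ := z
  obtain ⟨⟨x', y', a'⟩, h3, h4⟩ := w
  have e := congrArg Subtype.val h
  have e1 : x' * x = 1 := congrArg Prod.fst e
  change a = t⁻¹ at hz
  change FR (x - Λ.ρp a) at h1
  obtain ⟨T, hT1, hT2, hT3⟩ := Λ.exT
  have h5 : FR (x ∘ₗ T - 1) := by
    have := FR_mul_aux h1 hT1 (Λ.ρp_mul a t)
    rwa [hz, inv_mul_cancel₀ Λ.t_ne, Λ.ρp_one] at this
  have hix : Injective x := fun v w hvw => by
    have h6 := congrArg x' hvw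
    have h7 : ∀ v, x' (x v) = v := fun v => LinearMap.congr_fun e1 v
    rwa [h7, h7] at h6
  have hi : Injective (x ∘ₗ T) := by
    rw [LinearMap.coe_comp]
    exact hix.comp hT2
  have hs := (inj_iff_surj _ h5).1 hi
  refine hT3 fun v => ?_
  obtain ⟨w, hw⟩ := hs (x v)
  exact ⟨w, hix hw⟩

/-! ## The next level -/

/-- The next level: `(W₊ × (W₊ × W₋), W₋ × (W₊ × W₋))`. -/
def Lvl.next (Λ : Lvl F L t) : Lvl F L t where
  Wp := Λ.Wp × (Λ.Wp × Λ.Wm)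
  Wm := Λ.Wm × (Λ.Wp × Λ.Wm)
  ρp a := (Λ.ρp a).prodMap ((Λ.ρp a).prodMap (Λ.ρm a))
  ρm a := (Λ.ρm a).prodMap ((Λ.ρp a).prodMap (Λ.ρm a))
  ρp_one := by rw [Λ.ρp_one, Λ.ρm_one]; rfl
  ρm_one := by rw [Λ.ρp_one, Λ.ρm_one]; rfl
  ρp_add a b := by rw [Λ.ρp_add, Λ.ρm_add]; rfl
  ρm_add a b := by rw [Λ.ρp_add, Λ.ρm_add]; rfl
  ρp_mul a b := by
    have h := FR_prodMap (Λ.ρp_mul a b) (FR_prodMap (Λ.ρp_mul a b) (Λ.ρm_mul a b))
    exact h
  ρm_mul a b := by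
    have h := FR_prodMap (Λ.ρm_mul a b) (FR_prodMap (Λ.ρp_mul a b) (Λ.ρm_mul a b))
    exact h
  t_ne := Λ.t_ne
  exT := by
    obtain ⟨T, hT1, hT2, hT3⟩ := Λ.exT
    obtain ⟨E, hE, hE'⟩ := Λ.exE t Λ.t_ne
    refine ⟨T.prodMap E, FR_prodMap hT1 hE', ?_, ?_⟩
    · rw [LinearMap.coe_prodMap]
      exact hT2.prodMap hE.1
    · intro hs
      refine hT3 fun v => ?_
      obtain ⟨w, hw⟩ := hs (v, 0)
      exact ⟨w.1, congrArg Prod.fst hw⟩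
  exE a ha := by
    obtain ⟨E, hE, hE'⟩ := Λ.exE a ha
    let e : ((Λ.Wp × (Λ.Wp × Λ.Wm)) × (Λ.Wm × (Λ.Wp × Λ.Wm))) ≃ₗ[F]
        ((Λ.Wp × Λ.Wm) × ((Λ.Wp × Λ.Wm) × (Λ.Wp × Λ.Wm))) :=
      LinearEquiv.prodProdProdComm F Λ.Wp (Λ.Wp × Λ.Wm) Λ.Wm (Λ.Wp × Λ.Wm)
    refine ⟨e.symm.toLinearMap ∘ₗ (E.prodMap (E.prodMap E)) ∘ₗ e.toLinearMap, ?_, ?_⟩
    · rw [LinearMap.coe_comp, LinearMap.coe_comp, LinearMap.coe_prodMap, LinearMap.coe_prodMap]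
      exact e.symm.bijective.comp ((hE.prodMap (hE.prodMap hE)).comp e.bijective)
    · have h := FR_comp_left (FR_comp_right (FR_prodMap hE' (FR_prodMap hE' hE')) e.toLinearMap)
        e.symm.toLinearMap
      exact h

/-- The map from one level to the next. -/
def Lvl.Φ (Λ : Lvl F L t) : Λ.ring →+* Λ.next.ring where
  toFun z := ⟨(z.1.1.prodMap (z.1.1.prodMap z.1.2.1), z.1.2.1.prodMap (z.1.1.prodMap z.1.2.1),
    z.1.2.2), FR_prodMap z.2.1 (FR_prodMap z.2.1 z.2.2), FR_prodMap z.2.2 (FR_prodMap z.2.1 z.2.2)⟩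
  map_one' := rfl
  map_mul' _ _ := rfl
  map_zero' := rfl
  map_add' _ _ := rfl

lemma Lvl.Φ_snd (Λ : Lvl F L t) (z : Λ.ring) : (Λ.Φ z).1.2.2 = z.1.2.2 := rfl

lemma Lvl.Φ_p (Λ : Lvl F L t) (z : Λ.ring) :
    (Λ.Φ z).1.1 = z.1.1.prodMap (z.1.1.prodMap z.1.2.1) := rfl

lemma Lvl.Φ_m (Λ : Lvl F L t) (z : Λ.ring) :
    (Λ.Φ z).1.2.1 = z.1.2.1.prodMap (z.1.1.prodMap z.1.2.1) := rfl

lemma prodMap_eq_zero {V W : Type} [AddCommGroup V] [Module F V] [AddCommGroup W] [Module F W]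
    (x : V →ₗ[F] V) (y : W →ₗ[F] W) (h : x.prodMap y = 0) : x = 0 ∧ y = 0 := by
  constructor
  · ext v
    exact congrArg Prod.fst (LinearMap.congr_fun h (v, 0))
  · ext v
    exact congrArg Prod.snd (LinearMap.congr_fun h (0, v))

lemma Lvl.Φ_injective (Λ : Lvl F L t) : Injective Λ.Φ := by
  rw [injective_iff_map_eq_zero]
  intro z hz
  have h := congrArg Subtype.val hz
  have h1 : z.1.1.prodMap (z.1.1.prodMap z.1.2.1) = 0 := congrArg Prod.fst h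
  have h3 : z.1.2.2 = 0 := congrArg (fun z => z.2.2) h
  obtain ⟨h4, h5⟩ := prodMap_eq_zero _ _ h1
  obtain ⟨-, h6⟩ := prodMap_eq_zero _ _ h5
  exact Subtype.ext (Prod.ext h4 (Prod.ext h6 h3))

/-- A nonzero element has two nonzero components at the next level. -/
lemma Lvl.Φ_ne (Λ : Lvl F L t) (z : Λ.ring) (hz : z ≠ 0) :
    (Λ.Φ z).1.1 ≠ 0 ∧ (Λ.Φ z).1.2.1 ≠ 0 := by
  have h : z.1.1 ≠ 0 ∨ z.1.2.1 ≠ 0 := by
    by_contra hcon
    push Not at hcon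
    exact hz (Subtype.ext (Prod.ext hcon.1 (Prod.ext hcon.2 (Λ.eq_zero z hcon.1))))
  constructor
  · intro h0
    obtain ⟨h1, h2⟩ := prodMap_eq_zero _ _ h0
    obtain ⟨-, h3⟩ := prodMap_eq_zero _ _ h2
    rcases h with h | h
    · exact h h1
    · exact h h3
  · intro h0
    obtain ⟨h1, h2⟩ := prodMap_eq_zero _ _ h0
    obtain ⟨h3, -⟩ := prodMap_eq_zero _ _ h2
    rcases h with h | h
    · exact h h3
    · exact h h1

lemma Lvl.one_p (Λ : Lvl F L t) {x : Λ.Wp →ₗ[F] Λ.Wp} (hx : FR x) :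
    ((x, 0, 0) : Module.End F Λ.Wp × Module.End F Λ.Wm × L) ∈ Λ.ring := by
  rw [Λ.mem_ring, Λ.ρp_zero, Λ.ρm_zero, sub_zero, sub_zero]
  exact ⟨hx, FR_zero⟩

lemma Lvl.one_m (Λ : Lvl F L t) {y : Λ.Wm →ₗ[F] Λ.Wm} (hy : FR y) :
    ((0, y, 0) : Module.End F Λ.Wp × Module.End F Λ.Wm × L) ∈ Λ.ring := by
  rw [Λ.mem_ring, Λ.ρp_zero, Λ.ρm_zero, sub_zero, sub_zero]
  exact ⟨FR_zero, hy⟩

lemma r1_aux {V : Type} [AddCommGroup V] [Module F V] (r : V →ₗ[F] V) (hr : r ≠ 0) :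
    ∃ (w0 : V) (ψ : V →ₗ[F] F), ∀ (b : V) (φ : V →ₗ[F] F),
      r1 b ψ ∘ₗ r ∘ₗ r1 w0 φ = r1 b φ := by
  obtain ⟨w0, hw0⟩ : ∃ w0, r w0 ≠ 0 := by
    by_contra hcon
    push Not at hcon
    exact hr (LinearMap.ext hcon)
  obtain ⟨ψ, -, hψ⟩ := LinearMap.exists_extend_of_notMem (K := F)
    (0 : (⊥ : Submodule F V) →ₗ[F] F) (v := r w0) (by simpa using hw0) 1
  refine ⟨w0, ψ, fun b φ => ?_⟩
  ext v
  simp only [LinearMap.comp_apply, r1_apply, map_smul, hψ, one_smul]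

/-- If a homomorphism kills an element with nonzero first component, it kills the finite rank
operators on the first space. -/
lemma Lvl.kill_p (Λ : Lvl F L t) {S : Type} [Ring S] (f : Λ.ring →+* S) (r : Λ.ring)
    (hr : f r = 0) (hr1 : r.1.1 ≠ 0) (x : Λ.Wp →ₗ[F] Λ.Wp) (hx : FR x) :
    f ⟨(x, 0, 0), Λ.one_p hx⟩ = 0 := by
  obtain ⟨w0, ψ, h⟩ := r1_aux r.1.1 hr1
  have key : ∃ z : Λ.ring, z.1 = (x, 0, 0) ∧ f z = 0 := by
    refine FR_induction (P := fun x => ∃ z : Λ.ring, z.1 = (x, 0, 0) ∧ f z = 0) ?_ ?_ ?_ x hx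
    · exact ⟨0, rfl, map_zero f⟩
    · rintro x y ⟨z, hz, hz'⟩ ⟨w, hw, hw'⟩
      refine ⟨z + w, ?_, by rw [map_add, hz', hw', add_zero]⟩
      show z.1 + w.1 = _
      rw [hz, hw, Prod.mk_add_mk, Prod.mk_add_mk, add_zero, add_zero]
    · intro b φ
      refine ⟨⟨(r1 b ψ, 0, 0), Λ.one_p (FR_r1 _ _)⟩ * r * ⟨(r1 w0 φ, 0, 0), Λ.one_p (FR_r1 _ _)⟩,
        ?_, ?_⟩
      · show ((r1 b ψ, 0, 0) : Module.End F Λ.Wp × Module.End F Λ.Wm × L) * r.1 *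
          (r1 w0 φ, 0, 0) = _
        refine Prod.ext ?_ (Prod.ext ?_ ?_)
        · show (r1 b ψ : Module.End F Λ.Wp) * r.1.1 * r1 w0 φ = r1 b φ
          rw [mul_assoc]
          exact h b φ
        · show (0 : Module.End F Λ.Wm) * r.1.2.1 * 0 = 0
          rw [mul_zero]
        · show (0 : L) * r.1.2.2 * 0 = 0
          rw [mul_zero]
      · rw [map_mul, map_mul, hr, mul_zero, zero_mul]
  obtain ⟨z, hz, hz'⟩ := key
  rw [← hz']
  exact congrArg f (Subtype.ext hz.symm)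

lemma Lvl.kill_m (Λ : Lvl F L t) {S : Type} [Ring S] (f : Λ.ring →+* S) (r : Λ.ring)
    (hr : f r = 0) (hr1 : r.1.2.1 ≠ 0) (x : Λ.Wm →ₗ[F] Λ.Wm) (hx : FR x) :
    f ⟨(0, x, 0), Λ.one_m hx⟩ = 0 := by
  obtain ⟨w0, ψ, h⟩ := r1_aux r.1.2.1 hr1
  have key : ∃ z : Λ.ring, z.1 = (0, x, 0) ∧ f z = 0 := by
    refine FR_induction (P := fun x => ∃ z : Λ.ring, z.1 = (0, x, 0) ∧ f z = 0) ?_ ?_ ?_ x hx
    · exact ⟨0, rfl, map_zero f⟩
    · rintro x y ⟨z, hz, hz'⟩ ⟨w, hw, hw'⟩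
      refine ⟨z + w, ?_, by rw [map_add, hz', hw', add_zero]⟩
      show z.1 + w.1 = _
      rw [hz, hw, Prod.mk_add_mk, Prod.mk_add_mk, add_zero, add_zero]
    · intro b φ
      refine ⟨⟨(0, r1 b ψ, 0), Λ.one_m (FR_r1 _ _)⟩ * r * ⟨(0, r1 w0 φ, 0), Λ.one_m (FR_r1 _ _)⟩,
        ?_, ?_⟩
      · show ((0, r1 b ψ, 0) : Module.End F Λ.Wp × Module.End F Λ.Wm × L) * r.1 *
          (0, r1 w0 φ, 0) = _
        refine Prod.ext ?_ (Prod.ext ?_ ?_)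
        · show (0 : Module.End F Λ.Wp) * r.1.1 * 0 = 0
          rw [mul_zero]
        · show (r1 b ψ : Module.End F Λ.Wm) * r.1.2.1 * r1 w0 φ = r1 b φ
          rw [mul_assoc]
          exact h b φ
        · show (0 : L) * r.1.2.2 * 0 = 0
          rw [mul_zero]
      · rw [map_mul, map_mul, hr, mul_zero, zero_mul]
  obtain ⟨z, hz, hz'⟩ := key
  rw [← hz']
  exact congrArg f (Subtype.ext hz.symm)

/-- If a homomorphism kills an element with two nonzero components, it kills the kernel of the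
projection to `L`. -/
theorem Lvl.kill (Λ : Lvl F L t) {S : Type} [Ring S] (f : Λ.ring →+* S) (r : Λ.ring)
    (hr : f r = 0) (hr1 : r.1.1 ≠ 0) (hr2 : r.1.2.1 ≠ 0) (z : Λ.ring) (hz : z.1.2.2 = 0) :
    f z = 0 := by
  obtain ⟨⟨x, y, a⟩, h1, h2⟩ := z
  change a = 0 at hz
  subst hz
  change FR (x - Λ.ρp 0) at h1
  change FR (y - Λ.ρm 0) at h2
  have h3 : (⟨(x, y, 0), h1, h2⟩ : Λ.ring) =
      ⟨(x, 0, 0), Λ.one_p (by rwa [Λ.ρp_zero, sub_zero] at h1)⟩ +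
      ⟨(0, y, 0), Λ.one_m (by rwa [Λ.ρm_zero, sub_zero] at h2)⟩ := by
    refine Subtype.ext ?_
    show (x, y, (0 : L)) = (x + 0, 0 + y, 0 + 0)
    rw [add_zero, zero_add, add_zero]
  rw [h3, map_add, Λ.kill_p f r hr hr1 x (by rwa [Λ.ρp_zero, sub_zero] at h1),
    Λ.kill_m f r hr hr2 y (by rwa [Λ.ρm_zero, sub_zero] at h2), add_zero]

end Pool.Agent.R718.UR
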