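import Mathlib
import Pool.Agent.R718.UR2

/-!
Helper for `S02494` (`MP_9ea0f9_al`): the first level. The field is the field of Laurent series, the
spaces are the space of power series and the space of principal parts.
-/

set_option autoImplicit false

namespace Pool.Agent.R718.UR

open Function HahnSeries

section

variable (F : Type) [Field F]

lemma FR_self {F V W : Type} [Field F] [AddCommGroup V] [Module F V] [AddCommGroup W] [Module F W]
    (f : V →ₗ[F] W) : FR (f - f) := by
  rw [sub_self]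
  exact FR_zero

/-- The inclusion of the power series. -/
noncomputable def ιS : PowerSeries F →ₗ[F] LaurentSeries F where
  toFun f := ofPowerSeries ℤ F f
  map_add' f g := map_add _ f g
  map_smul' c f := PowerSeries.coe_smul c f

/-- The part with nonnegative exponents. -/
noncomputable def PS : LaurentSeries F →ₗ[F] PowerSeries F where
  toFun x := PowerSeries.mk fun n => x.coeff n
  map_add' x y := by
    ext n
    simp
  map_smul' c x := by
    ext n
    simp

variable {F}

lemma coeff_PS (x : LaurentSeries F) (n : ℕ) : PowerSeries.coeff n (PS F x) = x.coeff n := by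
  unfold PS
  simp

lemma ιS_mul (f g : PowerSeries F) : ιS F (f * g) = ιS F f * ιS F g :=
  map_mul (ofPowerSeries ℤ F) f g

lemma ιS_one : ιS F 1 = 1 := map_one (ofPowerSeries ℤ F)

lemma ιS_X : ιS F PowerSeries.X = single 1 1 := PowerSeries.coe_X

lemma PS_ιS (f : PowerSeries F) : PS F (ιS F f) = f := by
  ext n
  rw [coeff_PS]
  exact LaurentSeries.coeff_coe_powerSeries f n

/-- The principal parts. -/
noncomputable abbrev Vm (F : Type) [Field F] : Submodule F (LaurentSeries F) := LinearMap.ker (PS F)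

/-- The principal part. -/
noncomputable def QS : LaurentSeries F →ₗ[F] Vm F :=
  LinearMap.codRestrict (Vm F) (LinearMap.id - ιS F ∘ₗ PS F) fun x => by
    rw [LinearMap.mem_ker, LinearMap.sub_apply, map_sub]
    simp [PS_ιS]

lemma QS_coe (x : LaurentSeries F) : (QS x : LaurentSeries F) = x - ιS F (PS F x) := rfl

lemma decomp (x : LaurentSeries F) : x = ιS F (PS F x) + QS x := by
  rw [QS_coe]
  abel

lemma PS_coe (g : Vm F) : PS F g = 0 := g.2

lemma QS_val (g : Vm F) : QS (g : LaurentSeries F) = g := by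
  refine Subtype.ext ?_
  rw [QS_coe, PS_coe, map_zero, sub_zero]

lemma QS_ιS (f : PowerSeries F) : QS (ιS F f) = 0 := by
  refine Subtype.ext ?_
  rw [QS_coe, PS_ιS, sub_self]
  rfl

lemma mul_smul_L (c : F) (a x : LaurentSeries F) : a * (c • x) = c • (a * x) := by
  rw [← C_mul_eq_smul, ← C_mul_eq_smul, mul_left_comm]

/-- multiplication by `a` -/
noncomputable def ml (a : LaurentSeries F) : LaurentSeries F →ₗ[F] LaurentSeries F where
  toFun x := a * x
  map_add' x y := mul_add a x y
  map_smul' c x := mul_smul_L c a x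

lemma ml_apply (a x : LaurentSeries F) : ml a x = a * x := rfl

/-- The action on the power series. -/
noncomputable def rp (a : LaurentSeries F) : PowerSeries F →ₗ[F] PowerSeries F :=
  PS F ∘ₗ ml a ∘ₗ ιS F

/-- The action on the principal parts. -/
noncomputable def rm (a : LaurentSeries F) : Vm F →ₗ[F] Vm F :=
  QS ∘ₗ ml a ∘ₗ (Vm F).subtype

lemma rp_apply (a : LaurentSeries F) (f : PowerSeries F) : rp a f = PS F (a * ιS F f) := rfl

lemma rm_apply (a : LaurentSeries F) (g : Vm F) : rm a g = QS (a * (g : LaurentSeries F)) := rfl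

/-- Multiplication by `a` maps the power series to power series, up to finite rank. -/
def Cm (a : LaurentSeries F) : Prop := FR (QS ∘ₗ ml a ∘ₗ ιS F)

lemma Cm_mul {a b : LaurentSeries F} (ha : Cm a) (hb : Cm b) : Cm (a * b) := by
  unfold Cm at *
  have h : QS ∘ₗ ml (a * b) ∘ₗ ιS F = (QS ∘ₗ ml a ∘ₗ ιS F) ∘ₗ rp b +
      (QS ∘ₗ ml a ∘ₗ (Vm F).subtype) ∘ₗ (QS ∘ₗ ml b ∘ₗ ιS F) := by
    refine LinearMap.ext fun f => ?_
    simp only [LinearMap.comp_apply, LinearMap.add_apply, ml_apply, rp_apply,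
      Submodule.subtype_apply]
    rw [← map_add, ← mul_add, ← decomp, mul_assoc]
  rw [h]
  exact FR_add (FR_comp_right ha _) (FR_comp_left hb _)

lemma Cm_ιS (f : PowerSeries F) : Cm (ιS F f) := by
  unfold Cm
  have h : QS ∘ₗ ml (ιS F f) ∘ₗ ιS F = 0 := by
    refine LinearMap.ext fun g => ?_
    simp only [LinearMap.comp_apply, ml_apply, LinearMap.zero_apply]
    rw [← ιS_mul, QS_ιS]
  rw [h]
  exact FR_zero

lemma tinv_mul_X : (single (-1 : ℤ) (1 : F)) * ιS F PowerSeries.X = 1 := by
  rw [ιS_X, single_mul_single]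
  norm_num

lemma Cm_tinv : Cm (single (-1 : ℤ) (1 : F)) := by
  unfold Cm
  refine FR_of_le (Submodule.span F {QS (single (-1 : ℤ) (1 : F))}) ?_
  rintro _ ⟨f, rfl⟩
  rw [Submodule.mem_span_singleton]
  refine ⟨PowerSeries.constantCoeff f, ?_⟩
  simp only [LinearMap.comp_apply, ml_apply]
  have h := PowerSeries.eq_X_mul_shift_add_const f
  set h' := PowerSeries.mk fun p => PowerSeries.coeff (p + 1) f
  have h2 : ιS F f = ιS F PowerSeries.X * ιS F h' + PowerSeries.constantCoeff f • 1 := by
    conv_lhs => rw [h]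
    rw [map_add, ιS_mul]
    congr 1
    have : (PowerSeries.C (PowerSeries.constantCoeff f) : PowerSeries F) =
        PowerSeries.constantCoeff f • (1 : PowerSeries F) := by
      rw [PowerSeries.smul_eq_C_mul, mul_one]
    rw [this, map_smul, ιS_one]
  rw [h2, mul_add, ← mul_assoc, tinv_mul_X, one_mul, map_add, QS_ιS, zero_add, mul_smul_L,
    mul_one, map_smul]

lemma Cm_single_neg (n : ℕ) : Cm (single (-(n : ℤ)) (1 : F)) := by
  induction n with
  | zero =>
    have h := Cm_ιS (1 : PowerSeries F)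
    rw [ιS_one] at h
    simpa using h
  | succ n ih =>
    have h : (single (-((n + 1 : ℕ) : ℤ)) (1 : F)) =
        single (-1 : ℤ) (1 : F) * single (-(n : ℤ)) (1 : F) := by
      rw [single_mul_single, one_mul]
      congr 1
      push_cast
      ring_nf
    rw [h]
    exact Cm_mul Cm_tinv ih

lemma ιS_X_pow (n : ℕ) : ιS F (PowerSeries.X ^ n) = single (n : ℤ) 1 := by
  show ofPowerSeries ℤ F _ = _
  rw [ofPowerSeries_X_pow]

lemma Cm_all (a : LaurentSeries F) : Cm a := by
  rw [← LaurentSeries.single_order_mul_powerSeriesPart a]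
  refine Cm_mul ?_ (Cm_ιS _)
  rcases Int.eq_nat_or_neg a.order with ⟨n, hn | hn⟩
  · rw [hn, ← ιS_X_pow]
    exact Cm_ιS _
  · rw [hn]
    exact Cm_single_neg n

lemma rp_one : rp (1 : LaurentSeries F) = 1 := by
  refine LinearMap.ext fun f => ?_
  rw [rp_apply, one_mul, PS_ιS]
  rfl

lemma rm_one : rm (1 : LaurentSeries F) = 1 := by
  refine LinearMap.ext fun f => ?_
  rw [rm_apply, one_mul, QS_val]
  rfl

lemma rp_add (a b : LaurentSeries F) : rp (a + b) = rp a + rp b := by
  refine LinearMap.ext fun f => ?_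
  rw [LinearMap.add_apply, rp_apply, rp_apply, rp_apply, add_mul, map_add]

lemma rm_add (a b : LaurentSeries F) : rm (a + b) = rm a + rm b := by
  refine LinearMap.ext fun f => ?_
  rw [LinearMap.add_apply, rm_apply, rm_apply, rm_apply, add_mul, map_add]

lemma rp_mul_aux (a b : LaurentSeries F) (f : PowerSeries F) :
    rp (a * b) f = rp a (rp b f) + PS F (a * (QS (b * ιS F f) : LaurentSeries F)) := by
  rw [rp_apply, rp_apply, rp_apply, ← map_add, ← mul_add, ← decomp, mul_assoc]

lemma rm_mul_aux (a b : LaurentSeries F) (g : Vm F) :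
    rm (a * b) g = QS (a * ιS F (PS F (b * (g : LaurentSeries F)))) + rm a (rm b g) := by
  rw [rm_apply, rm_apply, rm_apply, ← map_add, ← mul_add, ← decomp, mul_assoc]

lemma rp_mul (a b : LaurentSeries F) : FR (rp a ∘ₗ rp b - rp (a * b)) := by
  have h : rp a ∘ₗ rp b - rp (a * b) =
      -((PS F ∘ₗ ml a ∘ₗ (Vm F).subtype) ∘ₗ (QS ∘ₗ ml b ∘ₗ ιS F)) := by
    refine LinearMap.ext fun f => ?_
    rw [LinearMap.sub_apply, rp_mul_aux]
    simp only [LinearMap.comp_apply, LinearMap.neg_apply, ml_apply, Submodule.subtype_apply]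
    abel
  rw [h]
  exact FR_neg (FR_comp_left (Cm_all b) _)

lemma rm_mul (a b : LaurentSeries F) : FR (rm a ∘ₗ rm b - rm (a * b)) := by
  have h : rm a ∘ₗ rm b - rm (a * b) =
      -((QS ∘ₗ ml a ∘ₗ ιS F) ∘ₗ (PS F ∘ₗ ml b ∘ₗ (Vm F).subtype)) := by
    refine LinearMap.ext fun f => ?_
    rw [LinearMap.sub_apply, rm_mul_aux]
    simp only [LinearMap.comp_apply, LinearMap.neg_apply, ml_apply, Submodule.subtype_apply]
    abel
  rw [h]
  exact FR_neg (FR_comp_right (Cm_all a) _)

lemma rp_single (f : PowerSeries F) : rp (single (1 : ℤ) (1 : F)) f = PowerSeries.X * f := by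
  rw [rp_apply, ← ιS_X, ← ιS_mul, PS_ιS]

/-- There is an invertible operator which is given by the action of `a`, up to finite rank. -/
def EE (a : LaurentSeries F) : Prop :=
  ∃ E : (PowerSeries F × Vm F) →ₗ[F] (PowerSeries F × Vm F), Bijective E ∧
    FR (E - (rp a).prodMap (rm a))

lemma prod_mul (a b : LaurentSeries F) :
    FR ((rp a).prodMap (rm a) ∘ₗ (rp b).prodMap (rm b) - (rp (a * b)).prodMap (rm (a * b))) := by
  have h := FR_prodMap (rp_mul a b) (rm_mul a b)
  exact h

lemma EE_mul {a b : LaurentSeries F} (ha : EE a) (hb : EE b) : EE (a * b) := by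
  obtain ⟨E, h1, h2⟩ := ha
  obtain ⟨E', h3, h4⟩ := hb
  refine ⟨E ∘ₗ E', ?_, FR_mul_aux h2 h4 (prod_mul a b)⟩
  rw [LinearMap.coe_comp]
  exact h1.comp h3

lemma EE_inv {a : LaurentSeries F} (ha0 : a ≠ 0) (ha : EE a) : EE a⁻¹ := by
  obtain ⟨E, h1, h2⟩ := ha
  let e := LinearEquiv.ofBijective E h1
  refine ⟨e.symm.toLinearMap, e.symm.bijective, ?_⟩
  have h3 : FR (E ∘ₗ (rp a⁻¹).prodMap (rm a⁻¹) - 1) := by
    have h4 := FR_mul_aux h2
      (FR_self ((rp a⁻¹).prodMap (rm a⁻¹))) (prod_mul a a⁻¹)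
    rw [mul_inv_cancel₀ ha0, rp_one, rm_one] at h4
    exact h4
  have h5 : e.symm.toLinearMap - (rp a⁻¹).prodMap (rm a⁻¹) =
      -(e.symm.toLinearMap ∘ₗ (E ∘ₗ (rp a⁻¹).prodMap (rm a⁻¹) - 1)) := by
    refine LinearMap.ext fun v => ?_
    simp only [LinearMap.sub_apply, LinearMap.neg_apply, LinearMap.comp_apply, map_sub,
      Module.End.one_apply]
    have h6 : ∀ w, e.symm.toLinearMap (E w) = w := fun w => e.symm_apply_apply w
    rw [h6]
    abel
  rw [h5]
  exact FR_neg (FR_comp_left h3 _)

/-- The isomorphism of the Laurent series with the pairs. -/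
noncomputable def eL : LaurentSeries F ≃ₗ[F] (PowerSeries F × Vm F) where
  toFun x := (PS F x, QS x)
  map_add' x y := by rw [map_add, map_add]; rfl
  map_smul' c x := by rw [map_smul, map_smul]; rfl
  invFun v := ιS F v.1 + (v.2 : LaurentSeries F)
  left_inv x := (decomp x).symm
  right_inv v := by
    refine Prod.ext ?_ ?_
    · show PS F (ιS F v.1 + (v.2 : LaurentSeries F)) = v.1
      rw [map_add, PS_ιS, PS_coe, add_zero]
    · show QS (ιS F v.1 + (v.2 : LaurentSeries F)) = v.2
      rw [map_add, QS_ιS, QS_val, zero_add]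

lemma EE_t : EE (single (1 : ℤ) (1 : F)) := by
  set t : LaurentSeries F := single (1 : ℤ) (1 : F) with ht
  have ht0 : t ≠ 0 := by rw [ht]; exact single_ne_zero one_ne_zero
  refine ⟨eL.toLinearMap ∘ₗ ml t ∘ₗ eL.symm.toLinearMap, ?_, ?_⟩
  · rw [LinearMap.coe_comp, LinearMap.coe_comp]
    refine eL.bijective.comp (Bijective.comp ?_ eL.symm.bijective)
    constructor
    · intro x y hxy
      exact mul_left_cancel₀ ht0 hxy
    · intro x
      exact ⟨t⁻¹ * x, mul_inv_cancel_left₀ ht0 x⟩
  · have h : eL.toLinearMap ∘ₗ ml t ∘ₗ eL.symm.toLinearMap - (rp t).prodMap (rm t) =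
        LinearMap.inl F _ _ ∘ₗ (PS F ∘ₗ ml t ∘ₗ (Vm F).subtype) ∘ₗ LinearMap.snd F _ _ := by
      refine LinearMap.ext fun v => Prod.ext ?_ ?_
      · show PS F (t * (ιS F v.1 + (v.2 : LaurentSeries F))) - rp t v.1 =
          PS F (t * (v.2 : LaurentSeries F))
        rw [mul_add, map_add, rp_apply]
        abel
      · show QS (t * (ιS F v.1 + (v.2 : LaurentSeries F))) - rm t v.2 = 0
        rw [mul_add, map_add, rm_apply, ht, ← ιS_X, ← ιS_mul, QS_ιS]
        abel
    rw [h]
    refine FR_comp_left (FR_comp_right ?_ _) _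
    refine FR_of_le (Submodule.span F {1}) ?_
    rintro _ ⟨g, rfl⟩
    rw [Submodule.mem_span_singleton]
    refine ⟨(g : LaurentSeries F).coeff (-1), ?_⟩
    show _ = PS F (t * (g : LaurentSeries F))
    ext n
    rw [coeff_PS, map_smul, PowerSeries.coeff_one, ht]
    have h1 : (single (1 : ℤ) (1 : F) * (g : LaurentSeries F)).coeff (n : ℤ) =
        (g : LaurentSeries F).coeff ((n : ℤ) - 1) := by
      have := coeff_single_mul_add (r := (1 : F)) (x := (g : LaurentSeries F)) (a := (n : ℤ) - 1)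
        (b := (1 : ℤ))
      rwa [sub_add_cancel, one_mul] at this
    rw [h1]
    rcases n with _ | n
    · simp
    · have h2 : ((n + 1 : ℕ) : ℤ) - 1 = (n : ℤ) := by push_cast; ring
      rw [h2, ← coeff_PS, PS_coe]
      simp

lemma EE_unit (f g : PowerSeries F) (h : f * g = 1) : EE (ιS F f) := by
  have h' : g * f = 1 := by rw [mul_comm]; exact h
  have key : ∀ f g : PowerSeries F, f * g = 1 → ∀ x, rp (ιS F f) (rp (ιS F g) x) = x := by
    intro f g h x
    have := rp_mul_aux (ιS F f) (ιS F g) x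
    rw [← ιS_mul, ← ιS_mul, h, ιS_one, rp_one, QS_ιS] at this
    rw [show ((0 : Vm F) : LaurentSeries F) = 0 from rfl, mul_zero, map_zero, add_zero] at this
    exact this.symm
  have key' : ∀ f g : PowerSeries F, f * g = 1 → ∀ x, rm (ιS F f) (rm (ιS F g) x) = x := by
    intro f g h x
    have := rm_mul_aux (ιS F f) (ιS F g) x
    rw [← ιS_mul, ← ιS_mul, h, ιS_one, rm_one, QS_ιS, zero_add] at this
    exact this.symm
  refine ⟨(rp (ιS F f)).prodMap (rm (ιS F f)), ?_, ?_⟩
  · rw [LinearMap.coe_prodMap]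
    refine Bijective.prodMap ?_ ?_
    · exact bijective_iff_has_inverse.2 ⟨rp (ιS F g), key g f h', key f g h⟩
    · exact bijective_iff_has_inverse.2 ⟨rm (ιS F g), key' g f h', key' f g h⟩
  · exact FR_self _

lemma EE_all (a : LaurentSeries F) (ha : a ≠ 0) : EE a := by
  have h1 : EE (ιS F a.powerSeriesPart) := by
    have h2 : PowerSeries.constantCoeff a.powerSeriesPart ≠ 0 := by
      rw [← PowerSeries.coeff_zero_eq_constantCoeff_apply, LaurentSeries.powerSeriesPart_coeff]
      simpa using ha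
    exact EE_unit _ _ (PowerSeries.mul_inv_cancel _ h2)
  have h2 : ∀ n : ℕ, EE (single (n : ℤ) (1 : F)) := by
    intro n
    induction n with
    | zero =>
      have h := EE_unit (1 : PowerSeries F) 1 (mul_one 1)
      rw [ιS_one] at h
      simpa using h
    | succ n ih =>
      have h : (single ((n + 1 : ℕ) : ℤ) (1 : F)) = single (n : ℤ) 1 * single (1 : ℤ) 1 := by
        rw [single_mul_single, one_mul]
        push_cast
        rfl
      rw [h]
      exact EE_mul ih EE_t
  rw [← LaurentSeries.single_order_mul_powerSeriesPart a]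
  refine EE_mul ?_ h1
  rcases Int.eq_nat_or_neg a.order with ⟨n, hn | hn⟩
  · rw [hn]
    exact h2 n
  · rw [hn]
    have h3 : (single (-(n : ℤ)) (1 : F)) = (single (n : ℤ) (1 : F))⁻¹ := by
      refine eq_inv_of_mul_eq_one_left ?_
      rw [single_mul_single]
      simp
    rw [h3]
    exact EE_inv (single_ne_zero one_ne_zero) (h2 n)

/-- The first level. -/
noncomputable def base (F : Type) [Field F] :
    Lvl F (LaurentSeries F) (single (1 : ℤ) (1 : F)) where
  Wp := PowerSeries F
  Wm := Vm F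
  ρp := rp
  ρm := rm
  ρp_one := rp_one
  ρm_one := rm_one
  ρp_add := rp_add
  ρm_add := rm_add
  ρp_mul := rp_mul
  ρm_mul := rm_mul
  t_ne := single_ne_zero one_ne_zero
  exT := by
    refine ⟨rp (single (1 : ℤ) (1 : F)), FR_self _, ?_, ?_⟩
    · intro f g h
      rw [rp_single, rp_single] at h
      exact mul_left_cancel₀ PowerSeries.X_ne_zero h
    · intro hs
      obtain ⟨f, hf⟩ := hs 1
      rw [rp_single] at hf
      have := congrArg PowerSeries.constantCoeff hf
      simp at this
  exE := EE_all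

end

end Pool.Agent.R718.UR
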