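import Mathlib

/-!
Helper for `S02494` (`MP_9ea0f9_al`): the direct limit of a sequence of rings.
-/

set_option autoImplicit false

namespace Pool.Agent.R718.UR

open Function

section

variable {G : ℕ → Type} [∀ n, Ring (G n)] (φ : ∀ n, G n →+* G (n + 1))

/-- The transition maps. -/
noncomputable def tr {i j : ℕ} (h : i ≤ j) : G i →+* G j :=
  Nat.leRec (motive := fun j _ => G i →+* G j) (RingHom.id _) (fun k _ f => (φ k).comp f) h

lemma tr_self (i : ℕ) : tr φ (le_refl i) = RingHom.id (G i) := by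
  unfold tr
  rw [Nat.leRec_self]

lemma tr_succ {i j : ℕ} (h : i ≤ j) : tr φ (h.trans (Nat.le_succ j)) = (φ j).comp (tr φ h) := by
  unfold tr
  rw [Nat.leRec_succ _ _ h]

lemma tr_one (i : ℕ) : tr φ (Nat.le_succ i) = φ i := by
  have h := tr_succ φ (le_refl i)
  rw [tr_self] at h
  exact h

lemma tr_trans {i j k : ℕ} (h1 : i ≤ j) (h2 : j ≤ k) (x : G i) :
    tr φ h2 (tr φ h1 x) = tr φ (h1.trans h2) x := by
  induction k, h2 using Nat.le_induction with
  | base => rw [tr_self]; rfl
  | succ k hk ih =>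
    rw [tr_succ φ hk, tr_succ φ (h1.trans hk), RingHom.comp_apply, RingHom.comp_apply, ih]

instance instDS : DirectedSystem G (fun _ _ h => tr φ h) where
  map_self i x := by rw [tr_self]; rfl
  map_map k j i h1 h2 x := tr_trans φ h1 h2 x

/-- The limit ring. -/
def RR : Type := DirectLimit G (fun _ _ h => tr φ h)

noncomputable instance instRR : Ring (RR φ) :=
  inferInstanceAs (Ring (DirectLimit G (fun _ _ h => tr φ h)))

/-- The maps to the limit. -/
noncomputable def lm (n : ℕ) : G n →+* RR φ where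
  toFun x := (⟦⟨n, x⟩⟧ : DirectLimit G (fun _ _ h => tr φ h))
  map_one' := (DirectLimit.one_def (f := fun _ _ h => tr φ h) n).symm
  map_zero' := (DirectLimit.zero_def (f := fun _ _ h => tr φ h) n).symm
  map_mul' x y := (DirectLimit.mul_def (f := fun _ _ h => tr φ h) n x y).symm
  map_add' x y := (DirectLimit.add_def (f := fun _ _ h => tr φ h) n x y).symm

lemma lm_surj (x : RR φ) : ∃ n y, lm φ n y = x := by
  obtain ⟨i, y, h⟩ := DirectLimit.exists_eq_mk (fun _ _ h => tr φ h) x
  exact ⟨i, y, h.symm⟩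

lemma lm_surj₂ (x y : RR φ) : ∃ n x' y', lm φ n x' = x ∧ lm φ n y' = y := by
  obtain ⟨i, x', y', h1, h2⟩ := DirectLimit.exists_eq_mk₂ (fun _ _ h => tr φ h) x y
  exact ⟨i, x', y', h1.symm, h2.symm⟩

lemma lm_surj₃ (x y z : RR φ) : ∃ n x' y' z', lm φ n x' = x ∧ lm φ n y' = y ∧ lm φ n z' = z := by
  obtain ⟨i, x', y', z', h1, h2, h3⟩ := DirectLimit.exists_eq_mk₃ (fun _ _ h => tr φ h) x y z
  exact ⟨i, x', y', z', h1.symm, h2.symm, h3.symm⟩

lemma lm_tr {i j : ℕ} (h : i ≤ j) (x : G i) : lm φ j (tr φ h x) = lm φ i x :=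
  DirectLimit.mk_apply (f := fun _ _ h => tr φ h) i j x h

lemma lm_φ (i : ℕ) (x : G i) : lm φ (i + 1) (φ i x) = lm φ i x := by
  have h := lm_tr φ (Nat.le_succ i) x
  rw [tr_one] at h
  exact h

variable (hφ : ∀ n, Injective (φ n))
include hφ

lemma tr_injective {i j : ℕ} (h : i ≤ j) : Injective (tr φ h) := by
  induction j, h using Nat.le_induction with
  | base => rw [tr_self]; exact injective_id
  | succ k hk ih =>
    rw [tr_succ φ hk, RingHom.coe_comp]
    exact (hφ k).comp ih

lemma lm_injective (i : ℕ) : Injective (lm φ i) :=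
  DirectLimit.mk_injective (fun _ _ h => tr φ h) (fun _ _ h => tr_injective φ hφ h) i

/-- The abstract form of the construction. -/
theorem limit_theorem (reg : ∀ n (z : G n), ∃ w, z * w * z = z)
    (df : ∀ n (z w : G n), z * w = 1 → w * z = 1)
    (L : Type) [Field L] (p : ∀ n, G n →+* L) (hp : ∀ n x, p (n + 1) (φ n x) = p n x)
    (kill : ∀ n (S : Type) [Ring S] (f : G (n + 1) →+* S) (r : G n), r ≠ 0 → f (φ n r) = 0 →
      ∀ z, p (n + 1) z = 0 → f z = 0)
    (t : L) (ht : t ≠ 0) (a : G 0) (ha : p 0 a = t)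
    (no_unit : ∀ n (z w : G n), w * z = 1 → p n z = t⁻¹ → False) :
    ¬ (∀ (R : Type) [Ring R],
      (∀ a : R, ∃ x : R, a * x * a = a) →
      (∀ (S : Type) [Ring S] (f : R →+* S), Surjective f →
        ∀ x y : S, x * y = 1 → y * x = 1) →
      ∀ a : R, ∃ u : Rˣ, a * (u : R) * a = a) := by
  have hp' : ∀ {i j : ℕ} (h : i ≤ j) (x : G i), p j (tr φ h x) = p i x := by
    intro i j h x
    induction j, h using Nat.le_induction with
    | base => rw [tr_self]; rfl
    | succ k hk ih => rw [tr_succ φ hk, RingHom.comp_apply, hp, ih]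
  intro H
  refine (fun ⟨u, hu⟩ => ?_ : ¬ ∃ u : (RR φ)ˣ, lm φ 0 a * (u : RR φ) * lm φ 0 a = lm φ 0 a)
    (H (RR φ) ?_ ?_ (lm φ 0 a))
  · obtain ⟨n, x, y, hx, hy⟩ := lm_surj₂ φ (u : RR φ) ((u⁻¹ : (RR φ)ˣ) : RR φ)
    have h1 : y * x = 1 := by
      apply lm_injective φ hφ n
      rw [map_mul, hx, hy, map_one, Units.inv_mul]
    refine no_unit n x y h1 ?_
    have h2 : tr φ (Nat.zero_le n) a * x * tr φ (Nat.zero_le n) a = tr φ (Nat.zero_le n) a := by
      apply lm_injective φ hφ n
      rw [map_mul, map_mul, hx, lm_tr]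
      exact hu
    have h3 := congrArg (p n) h2
    rw [map_mul, map_mul, hp', ha] at h3
    have h4 : t * p n x = 1 := by
      have h5 : t * p n x * t = 1 * t := by rw [h3, one_mul]
      exact mul_right_cancel₀ ht h5
    exact eq_inv_of_mul_eq_one_right h4
  · intro x
    obtain ⟨n, y, rfl⟩ := lm_surj φ x
    obtain ⟨w, hw⟩ := reg n y
    refine ⟨lm φ n w, ?_⟩
    rw [← map_mul, ← map_mul, hw]
  · intro S _ f hf x y hxy
    by_cases hinj : Injective f
    · obtain ⟨x', rfl⟩ := hf x
      obtain ⟨y', rfl⟩ := hf y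
      have h1 : x' * y' = 1 := by
        apply hinj
        rw [map_mul, hxy, map_one]
      obtain ⟨n, x, y, hx, hy⟩ := lm_surj₂ φ x' y'
      subst hx
      subst hy
      have h2 : x * y = 1 := by
        apply lm_injective φ hφ n
        rw [map_mul, h1, map_one]
      rw [← map_mul, ← map_mul, df n x y h2, map_one, map_one]
    · -- `f` kills a nonzero element, hence the kernel of the map to `L`
      rw [injective_iff_map_eq_zero] at hinj
      push Not at hinj
      obtain ⟨r, hr, hr0⟩ := hinj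
      obtain ⟨x', rfl⟩ := hf x
      obtain ⟨y', rfl⟩ := hf y
      obtain ⟨n, x, y, r', hx, hy, hr'⟩ := lm_surj₃ φ x' y' r
      subst hx
      subst hy
      subst hr'
      have hr1 : r' ≠ 0 := by
        rintro rfl
        exact hr0 (map_zero _)
      have h1 := kill n S (f.comp (lm φ (n + 1))) r' hr1
        (by rw [RingHom.comp_apply, lm_φ, hr]) (φ n (y * x - x * y))
        (by rw [hp, map_sub, map_mul, map_mul, mul_comm, sub_self])
      rw [RingHom.comp_apply, lm_φ, map_sub, map_sub, map_mul, map_mul, map_mul, map_mul, hxy,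
        sub_eq_zero] at h1
      exact h1

end

end Pool.Agent.R718.UR
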