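import Mathlib
import Pool.Agent.R718.UR3
import Pool.Agent.R718.UR4

/-!
Helper for `S02494` (`MP_9ea0f9_al`): the rings of the levels satisfy the hypotheses of
`limit_theorem`.
-/

set_option autoImplicit false

namespace Pool.Agent.R718.UR

open Function HahnSeries

/-- The field of Laurent series. -/
abbrev LL : Type := LaurentSeries ℚ

/-- The variable. -/
noncomputable abbrev tt : LL := single (1 : ℤ) (1 : ℚ)

/-- The levels. -/
noncomputable def Lv : ℕ → Lvl ℚ LL tt
  | 0 => base ℚ
  | n + 1 => (Lv n).next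

/-- The ring of the level `n`. -/
def GR (n : ℕ) : Type := ↥(Lv n).ring

noncomputable instance (n : ℕ) : Ring (GR n) := inferInstanceAs (Ring ↥(Lv n).ring)

/-- The transition maps. -/
noncomputable def φφ (n : ℕ) : GR n →+* GR (n + 1) := (Lv n).Φ

/-- The component in the field. -/
noncomputable def pp {F L : Type} [Field F] [Field L] {t : L} (Λ : Lvl F L t) : Λ.ring →+* L where
  toFun z := z.1.2.2
  map_one' := rfl
  map_mul' _ _ := rfl
  map_zero' := rfl
  map_add' _ _ := rfl

theorem main : ¬ (∀ (R : Type) [Ring R],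
      (∀ a : R, ∃ x : R, a * x * a = a) →
      (∀ (S : Type) [Ring S] (f : R →+* S), Surjective f →
        ∀ x y : S, x * y = 1 → y * x = 1) →
      ∀ a : R, ∃ u : Rˣ, a * (u : R) * a = a) := by
  have hmem : ((rp tt, rm tt, tt) : Module.End ℚ (Lv 0).Wp × Module.End ℚ (Lv 0).Wm × LL) ∈
      (Lv 0).ring := by
    refine ⟨?_, ?_⟩
    · exact FR_self _
    · exact FR_self _
  refine limit_theorem φφ (fun n => (Lv n).Φ_injective) (fun n z => (Lv n).regular z)
    (fun n z w h => (Lv n).directly_finite z w h) LL (fun n => pp (Lv n)) (fun n x => rfl)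
    ?_ tt (single_ne_zero one_ne_zero) ⟨_, hmem⟩ rfl (fun n z w h hz => (Lv n).no_unit z w h hz)
  intro n S _ f r hr hfr z hz
  obtain ⟨h1, h2⟩ := (Lv n).Φ_ne r hr
  exact (Lv (n + 1)).kill f ((Lv n).Φ r) hfr h1 h2 z hz

end Pool.Agent.R718.UR
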